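import Pool.Agent.Lib.MP_640417_ag.Full.Main

/-!
# The bound for a family of irreducible odd spaces
-/

namespace Pool.Agent.Lib.MP_640417_ag.Sharp

open Module Finset MulAction Pool.Agent.Lib.MP_640417_ag.Far Pool.Agent.Lib.MP_640417_ag.Full

/-- The bound for the bad sign functions of a family of pairwise non isomorphic irreducible odd
spaces (the proof of `main_types`). -/
theorem family_bound (hMult : StMult) (hMod : StMod) (hBig : StBig) (hTwo : StTwo)
    (hSplit : StSplit) (hSum : StSum) : ∃ C : ℝ, 0 < C ∧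
    ∀ (S G : Type) [Fintype S] [Group G] [Finite G] [MulAction G S] [IsPretransitive G S]
      (s₀ : S) (z : G) (_ : ∀ γ : G, γ * z = z * γ) (_ : ∀ s : S, z • z • s = s)
      (_ : ∀ s : S, z • s ≠ s) (g : ℕ) (_ : Fintype.card S = 2 * g) (_ : 2 ≤ g)
      (n : ℕ) (U : Fin n → Submodule ℚ (S → ℚ)), (∀ i, IsIrr G (U i) ∧ IsOddSp z (U i)) →
      (∀ i j, i ≠ j → ¬ IsoF G (U i) (U j)) →
      (∑ i, ((badSet z (U i)).ncard : ℝ))
      ≤ C * (({i : Fin n | finrank ℚ (U i) = 1}.ncard : ℝ) / Real.sqrt g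
        + ({i : Fin n | finrank ℚ (U i) = 2 ∧ finrank ℚ (endF G (U i)) =
            finrank ℚ ↥(U i ⊓ invF ℚ (stabilizer G s₀))}.ncard : ℝ) / g
        + ({i : Fin n | finrank ℚ (U i) = 2 ∧ finrank ℚ (endF G (U i)) = 1 ∧
            finrank ℚ ↥(U i ⊓ invF ℚ (stabilizer G s₀)) = 2}.ncard : ℝ)
              * Real.log (g + 1) ^ 2 / g
        + Real.log g ^ (-(1 / 4) : ℝ)) * 2 ^ g := by
  obtain ⟨C₁, hC₁, hMod⟩ := hMod
  obtain ⟨C₂, hC₂, hBig⟩ := hBig
  obtain ⟨C₃, hC₃, hTwo⟩ := hTwo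
  obtain ⟨C₄, hC₄, hSplit⟩ := hSplit
  obtain ⟨C, hC, hSum⟩ := hSum (C₁ + C₂ + C₃ + C₄) (by positivity)
  refine ⟨C, hC, ?_⟩
  intro S G _ _ _ _ _ s₀ z hz hzz hzne g hcard hg2 n U hU hiso
  classical
  obtain ⟨X, hX⟩ := exists_transversal (fun s : S => z • s) hzz hzne
  have hXcard : X.card = g := by
    have h1 := two_mul_card_transversal (fun s : S => z • s) hzz X hX
    omega
  have hXpow : (2 : ℝ) ^ X.card = 2 ^ g := by rw [hXcard]
  have h2g : (0 : ℝ) < 2 ^ g := by positivity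
  -- dimension data
  set D : Fin n → ℕ := fun i => finrank ℚ (U i) with hD
  set h : Fin n → ℕ := fun i => finrank ℚ ↥(U i ⊓ invF ℚ (stabilizer G s₀)) with hh
  set e : Fin n → ℕ := fun i => finrank ℚ (endF G (U i)) with he
  set x : Fin n → ℝ := fun i => ((badSet z (U i)).ncard : ℝ) / 2 ^ g with hx
  obtain ⟨m, hm1, hme, hmD⟩ := hMult S G s₀ z hzz X hX n U hU hiso
  rw [hXcard] at hmD
  have hhD : ∀ i, h i ≤ D i := fun i => Submodule.finrank_mono inf_le_left
  have hh1 : ∀ i, 1 ≤ h i := by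
    intro i
    have h1 := types_inf_ne_bot (G := G) s₀ (U i) (hU i).1.1 (hU i).1.2.1
    rw [Nat.one_le_iff_ne_zero]
    intro h0
    exact h1 (Submodule.finrank_eq_zero.mp h0)
  have he1 : ∀ i, 1 ≤ e i := by
    intro i
    rw [Nat.one_le_iff_ne_zero]
    intro h0
    have h1 := hh1 i
    have h2 : h i = m i * e i := hme i
    rw [h0, mul_zero] at h2
    omega
  have hx0 : ∀ i, 0 ≤ x i := fun i => by positivity
  have hbadle : ∀ i, ((badSet z (U i)).ncard : ℝ) ≤ 2 ^ g := by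
    intro i
    have h1 := ncard_isSgn_le z hzz X hX (fun e => ∃ U' : Submodule ℚ (S → ℚ), IsStab G U' ∧
      IsoF G (U i) U' ∧ Perp e U')
    rw [hXcard] at h1
    have h2 : (((badSet z (U i)).ncard : ℕ) : ℝ) ≤ ((2 ^ g : ℕ) : ℝ) := by
      exact_mod_cast h1
    push_cast at h2
    exact h2
  have hx1 : ∀ i, x i ≤ 1 := by
    intro i
    rw [hx]
    exact (div_le_one h2g).mpr (hbadle i)
  -- from the cardinality to the share
  have hconv : ∀ (i : Fin n) (c B : ℝ), 0 ≤ c → c ≤ C₁ + C₂ + C₃ + C₄ → 0 ≤ B →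
      ((badSet z (U i)).ncard : ℝ) ≤ c * B * 2 ^ X.card → x i ≤ (C₁ + C₂ + C₃ + C₄) * B := by
    intro i c B hc hcC hB hb
    rw [hXpow] at hb
    have h1 : x i ≤ c * B := by
      rw [hx]
      exact (div_le_iff₀ h2g).mpr hb
    exact h1.trans (mul_le_mul_of_nonneg_right hcC hB)
  have hg0 : (0 : ℝ) ≤ (g : ℝ) := Nat.cast_nonneg g
  have hsum : (∑ i, ((badSet z (U i)).ncard : ℝ)) ≤ (∑ i, x i) * 2 ^ g := by
    rw [Finset.sum_mul]
    apply le_of_eq
    apply Finset.sum_congr rfl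
    intro i _
    rw [hx]
    field_simp
  refine hsum.trans (mul_le_mul_of_nonneg_right ?_ h2g.le)
  -- a single type is fixed by the stabilizer if `h = D`
  have hinv : ∀ i, h i = D i → U i ≤ invF ℚ (stabilizer G s₀) := by
    intro i hi
    have h1 : U i ⊓ invF ℚ (stabilizer G s₀) = U i :=
      Submodule.eq_of_le_of_finrank_eq inf_le_left hi
    exact inf_eq_left.mp h1
  apply hSum g n D h e m x hg2 (fun i => ⟨he1 i, hm1 i, hme i, hhD i⟩) hmD
    (fun i => ⟨hx0 i, hx1 i⟩)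
  · intro i hi
    have hmi : m i * D i ≤ X.card := by
      rw [hXcard]
      exact (Finset.single_le_sum (f := fun i => m i * D i) (fun j _ => Nat.zero_le _)
        (Finset.mem_univ i)).trans hmD
    have h1 := hBig S G s₀ z hzz X hX (U i) (hU i).1 (hU i).2 (m i) (hme i) hmi
      (by rw [hXcard]; exact hi)
    rw [hXcard] at h1
    rw [← hXcard] at h1
    have h2 := hconv i C₂ ((X.card : ℝ) ^ (-(1 / 200) : ℝ)) hC₂.le (by linarith)
      (by positivity) h1
    rw [hXcard] at h2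
    exact h2
  · intro i hi k hk hkh
    have h1 := hMod S G s₀ z hzz X hX (U i) (hU i).1 (hU i).2 (by rw [hXcard]; exact hi) k hk hkh
    have h2 := hconv i C₁ (Real.sqrt (finrank ℚ (U i) * Real.log (finrank ℚ (U i) + 1) / X.card) ^ k)
      hC₁.le (by linarith) (by positivity) h1
    rw [hXcard] at h2
    exact h2
  · intro i hi3 hi
    have h1 := hTwo S G s₀ z hzz X hX (U i) (hU i).1 (hU i).2 hi3 (by
      change e i ≤ h i
      have h3 : h i = m i * e i := hme i
      rw [h3]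
      exact Nat.le_mul_of_pos_left _ (hm1 i)) hi
    have h2 := hconv i C₃ _ hC₃.le (by linarith) (by positivity) h1
    rw [hXcard] at h2
    exact h2
  · intro i hi hie hih
    have h1 := (hSplit S G s₀ z hz hzz X hX (U i) (hU i).1 (hU i).2
      (hinv i (by rw [hih, hi])) hie).1 hi
    have h2 := hconv i C₄ _ hC₄.le (by linarith) (by positivity) h1
    rw [hXcard] at h2
    exact h2
  · intro i hie hih hi3 hi
    have h1 := (hSplit S G s₀ z hz hzz X hX (U i) (hU i).1 (hU i).2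
      (hinv i hih) hie).2.1 hi3 (by rw [hXcard]; exact hi)
    have h2 := hconv i C₄ _ hC₄.le (by linarith) (by positivity) h1
    rw [hXcard] at h2
    exact h2
  · intro i hie hih hi
    have h1 := (hSplit S G s₀ z hz hzz X hX (U i) (hU i).1 (hU i).2
      (hinv i hih) hie).2.2 (by rw [hXcard]; exact hi)
    have h3 : C₄ * (X.card : ℝ) ^ (1 / 1000 - 1 : ℝ) * (finrank ℚ (U i) : ℝ) ^ (3 / 2 : ℝ)
        * 2 ^ X.card = C₄ * ((X.card : ℝ) ^ (1 / 1000 - 1 : ℝ) * (finrank ℚ (U i) : ℝ) ^ (3 / 2 : ℝ))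
        * 2 ^ X.card := by ring
    rw [h3] at h1
    have h2 := hconv i C₄ _ hC₄.le (by linarith) (by positivity) h1
    rw [hXcard, ← mul_assoc] at h2
    exact h2

end Pool.Agent.Lib.MP_640417_ag.Sharp
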