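import Pool.Agent.Lib.MP_640417_ag.Sharp.Defs
import Pool.Agent.Lib.MP_640417_ag.Full.SpecC
import Pool.Agent.Lib.MP_640417_ag.OddCMLower

/-!
# The sharp criterion: subfields and CM types
-/

namespace Pool.Agent.Lib.MP_640417_ag.Sharp

open Module Finset MulAction NumberField Pool.Agent.Lib.MP_640417_ag
  Pool.Agent.Lib.MP_640417_ag.Far Pool.Agent.Lib.MP_640417_ag.Full

section fields

variable (E : Type) [Field E] [NumberField E] [IsCMField E]

/-- The number of nonreal quadratic subfields. -/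
noncomputable def numQuad : ℕ :=
  {K : IntermediateField ℚ E | finrank ℚ K = 2 ∧ ∃ x ∈ K, IsCMField.complexConj E x ≠ x}.ncard

/-- The number of nonreal quartic subfields without a nonreal quadratic subfield. -/
noncomputable def numQuart : ℕ :=
  {K : IntermediateField ℚ E | finrank ℚ K = 4 ∧ (∃ x ∈ K, IsCMField.complexConj E x ≠ x) ∧
    ∀ K' : IntermediateField ℚ E, K' ≤ K → finrank ℚ K' = 2 →
      ∀ x ∈ K', IsCMField.complexConj E x = x}.ncard

/-- The number of nonreal sextic subfields with a nonreal quadratic subfield. -/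
noncomputable def numSext : ℕ :=
  {K : IntermediateField ℚ E | finrank ℚ K = 6 ∧ (∃ x ∈ K, IsCMField.complexConj E x ≠ x) ∧
    ∃ K' : IntermediateField ℚ E, K' ≤ K ∧ finrank ℚ K' = 2 ∧
      ∃ x ∈ K', IsCMField.complexConj E x ≠ x}.ncard

/-- The number of nonreal subfields which are Galois over `ℚ` with a dihedral group of order
`2 n`. -/
noncomputable def numDih (n : ℕ) : ℕ :=
  {K : IntermediateField ℚ E | (∃ x ∈ K, IsCMField.complexConj E x ≠ x) ∧ IsGalois ℚ K ∧
    Nonempty ((K ≃ₐ[ℚ] K) ≃* DihedralGroup n)}.ncard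

end fields

/-- Subgroups containing the stabilizer of an embedding and subfields, complete dictionary (from
`StCorr`, `pCorr` in `Full/Corr.lean`, and its proof).

Proof. For a subfield `K` let `H = {γ | ∀ x ∈ K, (γ • φ₀) x = φ₀ x}`; it is a subgroup of `galGroup E`
(the elements are the images of the `τ` in `AbsGal` which fix `φ₀(K)` pointwise) containing the
stabilizer. `fixAt φ₀ H = K`: `⊇` is clear; if `x ∈ fixAt φ₀ H` then `φ₀ x` is fixed by all `τ` which fix
`φ₀(K)` pointwise, so `φ₀ x ∈ φ₀(K)` by Galois theory for `AlgebraicClosure ℚ` over `φ₀(K)`, and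
`x ∈ K`. Order: clear, using `StCorr` (1) (if `fixAt H ≤ fixAt H'` then for `γ ∈ H'`, `γ φ₀` and `φ₀` agree
on `fixAt H`, so `γ ∈ H`: shown inside the proof of `StCorr`). The last equivalence: `←` is in
`StCorr`; if some `x` in `fixAt φ₀ H` is not fixed by the complex conjugation `c` of `E` then
`(z φ₀) x = conj (φ₀ x) = φ₀ (c x) ≠ φ₀ x`, so `z ∉ H`. -/
def StCorrA : Prop := ∀ (E : Type) [Field E] [NumberField E] [IsCMField E] (φ₀ : Emb E)
  (z : galGroup E) (_ : ∀ φ : Emb E, z • φ = conjEmb φ),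
  (∀ K : IntermediateField ℚ E, ∃ H : Subgroup (galGroup E),
    stabilizer (galGroup E) φ₀ ≤ H ∧ fixAt φ₀ H = K) ∧
  (∀ H H' : Subgroup (galGroup E), stabilizer (galGroup E) φ₀ ≤ H →
    stabilizer (galGroup E) φ₀ ≤ H' → (fixAt φ₀ H ≤ fixAt φ₀ H' ↔ H' ≤ H)) ∧
  ∀ H : Subgroup (galGroup E), stabilizer (galGroup E) φ₀ ≤ H →
    finrank ℚ (fixAt φ₀ H) = H.index ∧
    (z ∉ H ↔ ∃ x ∈ fixAt φ₀ H, IsCMField.complexConj E x ≠ x)

/-- The Galois group of a normal subfield.

Proof. Let `H` be normal, `F = fixAt φ₀ H`, Galois over `ℚ` (`StCorr`). For `τ` in `AbsGal` `τ φ₀(F) = φ₀(F)`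
(`F` is normal over `ℚ`), so `τ` induces an automorphism `τ'` of `F` with `φ₀ (τ' x) = τ (φ₀ x)`; this is a
homomorphism `AbsGal → Gal(F/ℚ)`, onto (extend automorphisms of `φ₀(F)` to the algebraic closure), and
`τ' = 1` iff `τ φ₀ = φ₀` on `F` iff the image of `τ` in `galGroup E` lies in `H` (see `StCorr`). So it
factors through `galGroup E` (the kernel of `AbsGal → galGroup E` acts trivially on all embeddings,
so it is contained in the preimage of `H`) and gives an isomorphism `galGroup E ⧸ H ≃ Gal(F/ℚ)`.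
Conversely, if `F = fixAt φ₀ H` is Galois over `ℚ` then `H` is normal: for `ν ∈ H` and `γ ∈ galGroup E`, `x ∈ F`:
`φ₀ x ∈ φ₀(F)`, `γ⁻¹ (φ₀ x) = φ₀ y` with `y ∈ F` (normality; choose preimages in `AbsGal`),
`ν (φ₀ y) = φ₀ y`, so `γ ν γ⁻¹ (φ₀ x) = φ₀ x`, and `γ ν γ⁻¹ ∈ H`. -/
def StCorrG : Prop := ∀ (E : Type) [Field E] [NumberField E] [IsCMField E] (φ₀ : Emb E)
  (z : galGroup E) (_ : ∀ φ : Emb E, z • φ = conjEmb φ) (H : Subgroup (galGroup E)),
  stabilizer (galGroup E) φ₀ ≤ H → ∀ n : ℕ,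
  (IsDih n H ↔ IsGalois ℚ (fixAt φ₀ H) ∧
    Nonempty ((fixAt φ₀ H ≃ₐ[ℚ] fixAt φ₀ H) ≃* DihedralGroup n))

/-- Numbers of subfields and of subgroups (from `StCorrA`, `StCorrG`).

Proof. `H ↦ fixAt φ₀ H` is a bijection from the subgroups containing the stabilizer to the
subfields, reversing inclusions, and it translates all the conditions. -/
def StFieldEq : Prop := ∀ (E : Type) [Field E] [NumberField E] [IsCMField E] (φ₀ : Emb E)
  (z : galGroup E) (_ : ∀ φ : Emb E, z • φ = conjEmb φ),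
  numQuad E = (quad φ₀ z).ncard ∧ numQuart E = (quart φ₀ z).ncard ∧
  numSext E = (sext φ₀ z).ncard ∧ ∀ n : ℕ, numDih E n = (dih n φ₀ z).ncard

/-- From sign functions to primitive CM types.

Proof. CM types correspond to sign functions by `sgnZ`: for a sign function `e` let
`Φ = {φ | e φ = 1}`. A relation `v` for `e` is an element of `relLattice Φ`. So the number of the CM
types with a relation is at least `|relSet z|`, and at most
`2 g 2 ^ (g / 2)` CM types are not primitive (`ncard_imprim_le` in `All/LowerMain.lean`, private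
there, copy it; it rests on `ncard_imprimitive_le` in `All/Imprim.lean`). -/
def StTransfer : Prop := ∀ (E : Type) [Field E] [NumberField E] [IsCMField E] (g : ℕ)
  (_ : finrank ℚ E = 2 * g) (z : galGroup E) (_ : ∀ φ : Emb E, z • φ = conjEmb φ),
  (relSet z : Set (Emb E → ℤ)).ncard ≤
    {Φ : Set (Emb E) | IsCMType Φ ∧ OddGal.Primitive Φ ∧ ∃ v ∈ relLattice Φ, v ≠ 0}.ncard
      + 2 * g * 2 ^ (g / 2)

end Pool.Agent.Lib.MP_640417_ag.Sharp
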