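import Pool.Agent.Lib.MP_640417_ag.Sharp.Upper
import Pool.Agent.Lib.MP_640417_ag.Sharp.Lower

/-!
# The sharp criterion for CM fields, for sign functions and relations
-/

namespace Pool.Agent.Lib.MP_640417_ag.Sharp

open Module Finset MulAction NumberField Pool.Agent.Lib.MP_640417_ag
  Pool.Agent.Lib.MP_640417_ag.Far Pool.Agent.Lib.MP_640417_ag.Full

/-- The upper bound for CM fields. -/
theorem upper_fields (hUp : ∃ C : ℝ, 0 < C ∧
    ∀ (S G : Type) [Fintype S] [Group G] [Finite G] [MulAction G S] [IsPretransitive G S]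
      (s₀ : S) (z : G) (_ : ∀ γ : G, γ * z = z * γ) (_ : ∀ s : S, z • z • s = s)
      (_ : ∀ s : S, z • s ≠ s) (g : ℕ) (_ : Fintype.card S = 2 * g) (_ : 2 ≤ g),
      ((relSet z : Set (S → ℤ)).ncard : ℝ)
      ≤ C * (((if 2 ∣ g then (quad s₀ z).ncard else 0 : ℕ) : ℝ) / Real.sqrt g
        + (((if 4 ∣ g then (quart s₀ z).ncard else 0) + (sext s₀ z).ncard : ℕ) : ℝ) / g
        + (((dih 4 s₀ z).ncard + (dih 6 s₀ z).ncard : ℕ) : ℝ) * Real.log (g + 1) / g
        + Real.log g ^ (-(1 / 4) : ℝ)) * 2 ^ g)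
    (hEq : StFieldEq) : ∃ C : ℝ, 0 < C ∧
    ∀ (E : Type) [Field E] [NumberField E] [IsCMField E] (g : ℕ) (_ : finrank ℚ E = 2 * g)
      (_ : 2 ≤ g) (z : galGroup E) (_ : ∀ φ : Emb E, z • φ = conjEmb φ),
      ((relSet z : Set (Emb E → ℤ)).ncard : ℝ)
      ≤ C * (rate E g + Real.log g ^ (-(1 / 4) : ℝ)) * 2 ^ g := by
  obtain ⟨C, hC, hUp⟩ := hUp
  refine ⟨2 * C, by positivity, ?_⟩
  intro E _ _ _ g hE hg2 z hzs
  classical
  obtain ⟨φ₀⟩ : Nonempty (Emb E) := by
    rw [← Fintype.card_pos_iff, card_emb]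
    exact finrank_pos
  have hpre : IsPretransitive (galGroup E) (Emb E) := isPretransitive_galGroup
  have hz : ∀ γ : galGroup E, γ * z = z * γ := by
    intro γ
    obtain ⟨τ, hτ⟩ := exists_of_galGroup γ
    apply Subtype.ext
    apply Equiv.ext
    intro φ
    show γ • (z • φ) = z • (γ • φ)
    rw [hzs, hzs, hτ, hτ, galEmb_conjEmb]
  have hzz : ∀ φ : Emb E, z • z • φ = φ := fun φ => by rw [hzs, hzs, conjEmb_conjEmb]
  have hzne : ∀ φ : Emb E, z • φ ≠ φ := fun φ => by rw [hzs]; exact conjEmb_ne φ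
  have hcard : Fintype.card (Emb E) = 2 * g := by rw [card_emb, hE]
  obtain ⟨e1, e2, e3, e4⟩ := hEq E φ₀ z hzs
  have h1 := hUp (Emb E) (galGroup E) φ₀ z hz hzz hzne g hcard hg2
  rw [← e1, ← e2, ← e3, ← e4, ← e4] at h1
  refine h1.trans ?_
  have hg0 : (0 : ℝ) < g := by
    have : 0 < g := by omega
    exact_mod_cast this
  have hg2' : (2 : ℝ) ≤ g := by exact_mod_cast hg2
  have hlog0 : 0 ≤ Real.log g := Real.log_natCast_nonneg g
  have hlog1 : 0 ≤ Real.log (g + 1) := Real.log_nonneg (by linarith)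
  have hlog : Real.log (g + 1) ≤ 2 * Real.log g := by
    have h2 : Real.log ((g : ℝ) + 1) ≤ Real.log ((g : ℝ) ^ 2) := by
      apply Real.log_le_log (by linarith)
      nlinarith
    rw [Real.log_pow] at h2
    exact_mod_cast h2
  have hl0 : 0 ≤ Real.log g ^ (-(1 / 4) : ℝ) := Real.rpow_nonneg hlog0 _
  rw [rate]
  push_cast
  set q : ℝ := ((numDih E 4 : ℝ) + numDih E 6) with hq
  have hq0 : 0 ≤ q := by positivity
  have h3 : q * Real.log (g + 1) / g ≤ 2 * (q * Real.log g / g) := by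
    rw [← mul_div_assoc]
    apply div_le_div_of_nonneg_right _ hg0.le
    nlinarith
  have ha : 0 ≤ (if 2 ∣ g then (numQuad E : ℝ) else 0) / Real.sqrt g := by
    split_ifs <;> positivity
  have hb : 0 ≤ ((if 4 ∣ g then (numQuart E : ℝ) else 0) + numSext E) / g := by
    split_ifs <;> positivity
  have hc : (if 2 ∣ g then (numQuad E : ℝ) / Real.sqrt g else 0)
      = (if 2 ∣ g then (numQuad E : ℝ) else 0) / Real.sqrt g := by
    split_ifs <;> simp
  rw [hc]
  have h2g : (0 : ℝ) < 2 ^ g := by positivity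
  apply mul_le_mul_of_nonneg_right _ h2g.le
  nlinarith [mul_nonneg hC.le ha, mul_nonneg hC.le hb, mul_nonneg hC.le hl0,
    mul_le_mul_of_nonneg_left h3 hC.le]

end Pool.Agent.Lib.MP_640417_ag.Sharp
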