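import Pool.Agent.Lib.MP_640417_ag.Sharp.Defs
import Pool.Agent.Lib.MP_640417_ag.Full.SpecB
import Pool.Agent.Lib.MP_640417_ag.Full.SpecC

/-!
# The sharp criterion: statements of the steps for the upper bound
-/

namespace Pool.Agent.Lib.MP_640417_ag.Sharp

open Module Finset MulAction Pool.Agent.Lib.MP_640417_ag.Far Pool.Agent.Lib.MP_640417_ag.Full

/-- The elements which do not change the evaluation at `s₀` of the functions in `U`. -/
def H0 {S : Type} (G : Type) [Group G] [MulAction G S] (s₀ : S) (U : Submodule ℚ (S → ℚ)) :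
    Subgroup G where
  carrier := {γ | ∀ u ∈ U, ∀ δ : G, u (δ • γ • s₀) = u (δ • s₀)}
  mul_mem' := by
    intro a b ha hb u hu δ
    have h1 := hb u hu (δ * a)
    rw [mul_smul, mul_smul] at h1
    rw [mul_smul, h1]
    exact ha u hu δ
  one_mem' := by
    intro u _ δ
    rw [one_smul]
  inv_mem' := by
    intro a ha u hu δ
    have h1 := ha u hu (δ * a⁻¹)
    rw [mul_smul, inv_smul_smul, mul_smul] at h1
    exact h1.symm

lemma mem_H0 {S G : Type} [Group G] [MulAction G S] (s₀ : S) (U : Submodule ℚ (S → ℚ)) (γ : G) :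
    γ ∈ H0 G s₀ U ↔ ∀ u ∈ U, ∀ δ : G, u (δ • γ • s₀) = u (δ • s₀) := Iff.rfl

/-- Finite groups of integral matrices of degree `2` have at most `81` elements.

Proof. The reduction modulo `3` is injective on the image of `R`: see `All/Minkowski.lean`
(an element of finite order which is `1` modulo `3` is `1`). -/
def StGL2 : Prop := ∀ (G : Type) [Group G] [Finite G] (R : G →* Matrix (Fin 2) (Fin 2) ℤ),
  (Set.range R).ncard ≤ 81

/-- The probability of a single large value, for matrices of degree `2` (from `StGL2`, and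
`pTail : StTail` in `Full/Tail.lean`).

Proof. `T = Set.range M.Φ` is contained in the range of `M.R` (`Φ s = R γ` for some `γ`), so
`|T| ≤ 81`, and all the fibres of `Φ : S → T` have the same number `m` of elements (`G` is transitive
and `Φ (γ s) = R γ Φ s`), so `2 g = |S| ≤ 81 m`. By `indep` (for a prime `p ∤ N`) there are
`s 1, …, s 4` such that the matrices `Φ (s i)` are linearly independent over `ℚ`. The fibres
`F i = Φ⁻¹ (Φ (s i))` and their images `z F i` are pairwise disjoint. Divide each `F i` into two parts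
`F' i`, `F'' i` with `⌊m / 2⌋` and `⌈m / 2⌉` elements, `S' = ⋃ (F' i ∪ z F' i)`, `S'' = S \ S'`. Let
`Ψ s = P.adjugate * Φ s * P`. A sign function is given by its restrictions to `S'` and `S''`
(independent), and `∑ s, e s • Ψ s = M' + M''` accordingly. If `|B i j| ≥ R` then
`|M' i j| ≥ R / 2` or `|M'' i j| ≥ R / 2`. Given the restriction to `S''`, the value of `M'` is
prescribed, hence the four sums `∑_{s ∈ F' i} e s` are prescribed (the `Ψ (s i)` are independent too),
so the number of restrictions to `S'` is at most `choose m' (m' / 2) ^ 4 ≤ (2 ^ m' / √m') ^ 4`,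
`m' = ⌊m / 2⌋` (`choose n (n/2) ≤ 2 ^ n / √n`; see `moment_choose_sq_le` in `All/Moment.lean`). Given
the restriction to `S'` and the values outside the `F'' i`, the same with `⌈m / 2⌉`. The number of
the restrictions to `S''` with `|M'' i j| ≥ R / 2` times `2 ^ (|S'| / 2)` is at most
`2 exp (- c R ^ 2 / g) 2 ^ g` by `StTail` for the odd function `s ↦ (Ψ s) i j` on `S''`, `0` on `S'`,
bounded by `H = 256`; the same for `M'`. Together the claim. If `m < 2` then `g ≤ 81`, and the claim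
is trivial with a large constant, since either no `e` has this value or `R ≤ 512 g`. -/
def StTwoTail : Prop := ∃ C c : ℝ, 0 < C ∧ 0 < c ∧ ∀ (S G : Type) [Fintype S] [Group G] [Finite G]
  [MulAction G S] [IsPretransitive G S] (z : G) (_ : ∀ s : S, z • z • s = s) (X : Finset S)
  (_ : ∀ s, s ∈ X ↔ z • s ∉ X) (_ : 1 ≤ X.card) (N : ℕ) (M : MatSys S G z 2 N), 0 < N →
  ∀ P : Matrix (Fin 2) (Fin 2) ℤ, P.det ≠ 0 →
  (∀ s i j, |(P.adjugate * M.Φ s * P) i j| ≤ 256) →
  ∀ (R : ℝ) (B : Matrix (Fin 2) (Fin 2) ℤ), 0 ≤ R → (∃ i j, R ≤ |((B i j : ℤ) : ℝ)|) →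
  ({e : S → ℤ | IsSgn z e ∧ ∑ s, e s • (P.adjugate * M.Φ s * P) = B}.ncard : ℝ)
    ≤ C * (X.card : ℝ) ^ (-2 : ℝ) * Real.exp (-(c * R ^ 2 / X.card)) * 2 ^ X.card

/-- Singular matrices of degree `2`, with the right power of the logarithm (from `StTwoTail`, and
`pCoef : StCoef`, `pSing : StSing` in `Full`).

Proof. Let `P` be the matrix of `StCoef` for `n = 2` (its bounds are `(4 * 2 ^ 2) ^ 2 = 256`),
`B(e) = ∑ s, e s • (adj(P) Φ s P) = adj(P) (∑ s, e s • Φ s) P`, `g = X.card`. If `e ∈ M.sing` then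
`det B(e) = 0`. For `j ≥ 0` consider the `e` with `j √g ≤ max |B(e) i k| < (j + 1) √g`. The number of
values of `B(e)` is at most `C R ^ 2 (1 + log R)`, `R = ⌈(j + 1) √g⌉` (`StSing`, `n = 2`), each taken at
most `C g ^ (-2) exp (- c j ^ 2) 2 ^ g` times. The sum over `j` is at most
`C' g ^ (-1) log (g + 1) 2 ^ g ∑_j (j + 2) ^ 3 exp (- c j ^ 2)`. (`R ≤ 2 (j + 2) √g`,
`1 + log R ≤ 3 (j + 2) (1 + log (g + 1))`, and `1 + log (g + 1) ≤ 3 log (g + 1)` as `g ≥ 1`.) -/
def StTwoLog : Prop := ∃ C : ℝ, 0 < C ∧ ∀ (S G : Type) [Fintype S] [Group G] [Finite G]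
  [MulAction G S] [IsPretransitive G S] (z : G) (_ : ∀ s : S, z • z • s = s) (X : Finset S)
  (_ : ∀ s, s ∈ X ↔ z • s ∉ X) (_ : 1 ≤ X.card) (N : ℕ) (M : MatSys S G z 2 N), 0 < N →
  (M.sing.ncard : ℝ) ≤ C * (Real.log (X.card + 1) / X.card) * 2 ^ X.card

/-- Parity for spaces of dimension `1`.

Proof. Let `e` be orthogonal to `U'`, isomorphic to `U`, spanned by `f`. `f (γ s) = χ(γ) f s` with
`χ(γ) = ± 1`, so `|f|` is a constant `c ≠ 0` on `S`, and `∑ s, f s e s = c * (a sum of 2 g signs)`, in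
which `s` and `z • s` have the same sign (both `f` and `e` are odd): `2 c` times a sum of `g` signs,
which is not `0` for odd `g`. -/
def StPar1 : Prop := ∀ (S G : Type) [Fintype S] [Group G] [Finite G] [MulAction G S]
  [IsPretransitive G S] (z : G) (_ : ∀ s : S, z • z • s = s) (_ : ∀ s : S, z • s ≠ s)
  (g : ℕ) (_ : Fintype.card S = 2 * g) (U : Submodule ℚ (S → ℚ)), IsIrr G U → IsOddSp z U →
  finrank ℚ U = 1 → (badSet z U).Nonempty → 2 ∣ g

/-- Parity for quartic subfields.

Proof. Let `f (γ s₀) = 1` for `γ ∈ H`, `- 1` for `γ ∈ z H`, `0` otherwise; `f ∈ sp s₀ z H`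
(`z ^ 2 ∈ stabilizer ≤ H`; the last condition in the definition of `sp` is empty for `quart`). So
`0 = ∑ s, f s e s = 2 ∑_{s ∈ H s₀} e s`, a sum of `|H s₀| = 2 g / 4` signs, so `g / 2` is an even
number (`4 ∣ 2 g` because the fibres of `S → G ⧸ H` have the same number of elements). -/
def StParQ : Prop := ∀ (S G : Type) [Fintype S] [Group G] [Finite G] [MulAction G S]
  [IsPretransitive G S] (s₀ : S) (z : G) (_ : ∀ γ : G, γ * z = z * γ)
  (_ : ∀ s : S, z • z • s = s) (g : ℕ) (_ : Fintype.card S = 2 * g) (H : Subgroup G),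
  H ∈ quart s₀ z → ∀ e : S → ℤ, IsSgn z e → Perp e (sp s₀ z H) → 4 ∣ g

/-- The index of `H0` for spaces of dimension `2` (from `StOrd`, `pOrd` in `Full/Ord.lean`).

Proof. `stabilizer ≤ H0` is clear. If `z ∈ H0` then `u (δ s₀) = u (δ z s₀) = - u (δ s₀)` for all `u ∈ U`,
`δ ∈ G`, so `U = ⊥`. Let `T γ : u ↦ u ∘ γ` (a map `U → U`) and `λ u = u s₀`; since `U` is stable,
`γ ∈ H0` iff `λ ∘ T γ = λ`; `kerSub G U` is the set of the `γ` with `T γ = 1`, and `N` its index.
 Case `e = h = 2`. Then `U ≤ invF (stabilizer)`. For `θ ∈ endF G U` and `γ ∈ H0` also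
`(λ ∘ θ) ∘ T γ = λ ∘ θ`, and `θ ↦ λ ∘ θ` is injective (nonzero `θ` are bijective and `λ ≠ 0`), so
`λ ∘ θ` runs through the whole dual space of `U`, and `T γ = 1`. So `H0 = kerSub G U`, of index
`N ∈ {4, 6}` by `StOrd`.
 Case `e = h = 1` (`1 ≤ h`, see `types_inf_ne_bot`; `1 ≤ e`). As `h < 2` there is an element `b` of the
stabilizer with `T b ≠ 1`; `b ∈ H0`. An element `γ ∈ H0` with `det (T γ) = 1` has `T γ = 1` (its
transpose fixes `λ ≠ 0`, so both eigenvalues are `1`, and it has finite order). Determinants are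
`± 1`. So `kerSub G U` has index `2` in `H0`, and `H0` has index `N / 2 ∈ {4, 6}`. -/
def StEvIndex : Prop := ∀ (S G : Type) [Fintype S] [Group G] [Finite G] [MulAction G S]
  [IsPretransitive G S] (s₀ : S) (z : G) (U : Submodule ℚ (S → ℚ)), IsIrr G U → IsOddSp z U →
  finrank ℚ U = 2 → finrank ℚ (endF G U) = finrank ℚ ↥(U ⊓ invF ℚ (stabilizer G s₀)) →
  stabilizer G s₀ ≤ H0 G s₀ U ∧ z ∉ H0 G s₀ U ∧
    ((((kerSub G U).index = 4 ∨ (kerSub G U).index = 8) ∧ (H0 G s₀ U).index = 4) ∨
     (((kerSub G U).index = 6 ∨ (kerSub G U).index = 12) ∧ (H0 G s₀ U).index = 6))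

/-- A space of dimension `2` is determined by `H0`.

Proof. Let `O` be the space of the odd functions `f` with `f (γ s₀) = f (γ' s₀)` for `γ⁻¹ γ' ∈ H0`; it is
stable, contains `U` (`u (γ' s₀) = u (γ (γ⁻¹ γ') s₀) = u (γ s₀)`), and has dimension
`H0.index / 2` (`z` acts on `G ⧸ H0` without fixed points, `z ^ 2` trivially). For a subgroup `H'` of
index `2` with `H0 ≤ H'` and `z ∉ H'` the function `χ(γ s₀) = 1` for `γ ∈ H'`, `- 1` otherwise, is in `O`
and spans a stable line.
 Index `4`: `U = O` is irreducible, so there is no such `H'`, `H0 ∈ quart` and `sp = O = U`.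
 Index `6`: the orthogonal complement of `U` in `O` (for `∑ s, f s f' s`) is a stable line `ℚ f`,
`f (γ s) = χ(γ) f s`, `χ(γ) = ± 1`, `χ(z) = - 1`, `f s₀ ≠ 0`; its kernel `H'` has index `2`, contains `H0`,
not `z`. So `H0 ∈ sext`. `H'` is the only such subgroup (the intersection of two would have index
`4`, which does not divide `6`). `f = f s₀` on `H' s₀` and `- f s₀` on the complement, so for odd `f'`
`∑ s, f s f' s = 2 f s₀ ∑_{s ∈ H' s₀} f' s`: `f' ∈ O` is in `U` iff it is in `sp`. -/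
def StEvSp : Prop := ∀ (S G : Type) [Fintype S] [Group G] [Finite G] [MulAction G S]
  [IsPretransitive G S] (s₀ : S) (z : G) (_ : ∀ γ : G, γ * z = z * γ)
  (_ : ∀ s : S, z • z • s = s) (U : Submodule ℚ (S → ℚ)), IsIrr G U → IsOddSp z U →
  finrank ℚ U = 2 → stabilizer G s₀ ≤ H0 G s₀ U → z ∉ H0 G s₀ U →
  ((H0 G s₀ U).index = 4 → H0 G s₀ U ∈ quart s₀ z ∧ U = sp s₀ z (H0 G s₀ U)) ∧
  ((H0 G s₀ U).index = 6 → H0 G s₀ U ∈ sext s₀ z ∧ U = sp s₀ z (H0 G s₀ U))

/-- Spaces of dimension `2` and quartic and sextic subfields (from `StEvIndex`, `StEvSp`,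
`StParQ`).

Proof. Send `i` to `H0 G s₀ (U i) ∈ quart ∪ sext`; this is injective, because `U i = sp s₀ z (H0 …)`
is determined by it and different `U i` are not isomorphic, hence different. If the image is in
`quart` then `4 ∣ g`: let `e ∈ badSet z (U i)` be orthogonal to `U'`, isomorphic to `U i`. `U'` is
irreducible, odd, of dimension `2`, with the same `kerSub` and with isomorphic `endF` and
`U' ⊓ invF (stabilizer)` (transport everything by the equivariant isomorphism), so
`StEvIndex` and `StEvSp` apply to `U'`; `H0 G s₀ U'` has the same index `4`, so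
`U' = sp s₀ z (H0 G s₀ U')` with `H0 G s₀ U' ∈ quart`, and `StParQ` gives `4 ∣ g`. -/
def StSubB2 : Prop := ∀ (S G : Type) [Fintype S] [Group G] [Finite G] [MulAction G S]
  [IsPretransitive G S] (s₀ : S) (z : G) (_ : ∀ γ : G, γ * z = z * γ)
  (_ : ∀ s : S, z • z • s = s) (g : ℕ) (_ : Fintype.card S = 2 * g) (n : ℕ)
  (U : Fin n → Submodule ℚ (S → ℚ)),
  (∀ i, IsIrr G (U i) ∧ IsOddSp z (U i)) → (∀ i j, i ≠ j → ¬ IsoF G (U i) (U j)) →
  {i : Fin n | finrank ℚ (U i) = 2 ∧
      finrank ℚ (endF G (U i)) = finrank ℚ ↥(U i ⊓ invF ℚ (stabilizer G s₀)) ∧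
      (badSet z (U i)).Nonempty}.ncard
    ≤ (if 4 ∣ g then (quart s₀ z).ncard else 0) + (sext s₀ z).ncard

/-- The group acting on an absolutely irreducible space of dimension `2` is dihedral (from `StOrd`
and the facts in its proof, `Full/Ord.lean`).

Proof. Let `Γ` be the finite group of the maps `T γ : u ↦ u ∘ γ` of `U`, of order
`N = (kerSub G U).index ∈ {8, 12}`; `G ⧸ kerSub G U` is isomorphic to `Γ` by `γ ↦ T γ⁻¹`. As in the proof of
`StOrd`: determinants are `± 1`, both occur, elements of determinant `- 1` have trace `0` and square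
`1`; let `Γ'` be the subgroup of determinant `1`, of order `n = N / 2`. `N = 8`: `Γ'` contains an element
of trace `0`, of order `4`; `N = 12`: `Γ'` contains an element of trace `1`, of order `6` (it has `4`
elements of trace `± 1`, and `tr (- t) = - tr t`). So `Γ'` is cyclic, generated by some `a` of order
`n`. Let `b` have determinant `- 1`. `b ^ 2 = 1`, `(b a) ^ 2 = 1`, so `b a b = a⁻¹`, and
`r i ↦ a ^ i`, `sr i ↦ b a ^ i` is an isomorphism from `DihedralGroup n` to `Γ`. (Alternatively: a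
finite group argument from the structure found in `Full/Ord.lean`.) -/
def StKerDih : Prop := ∀ (S G : Type) [Fintype S] [Group G] [Finite G] [MulAction G S]
  (z : G) (U : Submodule ℚ (S → ℚ)), IsIrr G U → IsOddSp z U → finrank ℚ U = 2 →
  finrank ℚ (endF G U) = 1 → IsDih 4 (kerSub G U) ∨ IsDih 6 (kerSub G U)

/-- Spaces of dimension `2` and dihedral subfields (from `StKerDih`; the proof of `StSubC` in
`Full/SubC.lean` shows the injectivity).

Proof. For `i` in the set `U i ≤ invF (stabilizer)`, so `K = kerSub G (U i)` contains the stabilizer, and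
not `z`; `K ∈ dih 4 ∪ dih 6` by `StKerDih`. Different `i` have different `K`: see the proof of `StSubC`
(docstring in `Full/SpecC.lean`, `Full/SubC.lean`; copy the argument). -/
def StSubC2 : Prop := ∀ (S G : Type) [Fintype S] [Group G] [Finite G] [MulAction G S]
  [IsPretransitive G S] (s₀ : S) (z : G) (_ : ∀ γ : G, γ * z = z * γ)
  (_ : ∀ s : S, z • z • s = s) (n : ℕ)
  (U : Fin n → Submodule ℚ (S → ℚ)),
  (∀ i, IsIrr G (U i) ∧ IsOddSp z (U i)) → (∀ i j, i ≠ j → ¬ IsoF G (U i) (U j)) →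
  {i : Fin n | finrank ℚ (U i) = 2 ∧ finrank ℚ (endF G (U i)) = 1 ∧
      finrank ℚ ↥(U i ⊓ invF ℚ (stabilizer G s₀)) = 2}.ncard
    ≤ (dih 4 s₀ z).ncard + (dih 6 s₀ z).ncard

end Pool.Agent.Lib.MP_640417_ag.Sharp
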