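import Pool.Agent.Lib.MP_640417_ag.Sharp.SpecF
import Pool.Agent.Lib.MP_640417_ag.Full.Corr

/-!
# The Galois group of a normal subfield
-/

set_option autoImplicit false

namespace Pool.Agent.Lib.MP_640417_ag.Sharp

open Module Finset MulAction NumberField Pool.Agent.Lib.MP_640417_ag
  Pool.Agent.Lib.MP_640417_ag.Far Pool.Agent.Lib.MP_640417_ag.Full

section

variable {E : Type} [Field E] [NumberField E]

/-- Translates of embeddings with the same values have the same values. -/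
private lemma corrG_smul_congr (φ ψ : Emb E) (x y : E) (h : φ x = ψ y) (γ : galGroup E) :
    (γ • φ : Emb E) x = (γ • ψ : Emb E) y := by
  obtain ⟨τ, hτ⟩ := exists_of_galGroup γ
  rw [hτ, hτ, galEmb_apply, galEmb_apply, h]

/-- Every embedding of a subfield is the restriction of one of the conjugates of `φ₀`. -/
private lemma corrG_exists_ext (F : IntermediateField ℚ E) (φ₀ : Emb E)
    (f : F →+* AlgebraicClosure ℚ) : ∃ γ : galGroup E, ∀ x : F, (γ • φ₀ : Emb E) x = f x := by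
  have halg : Algebra.IsAlgebraic ℚ E := inferInstance
  obtain ⟨φ, hφ⟩ := exists_lift_of_embeddings (E := F) (L := E) (M := AlgebraicClosure ℚ) halg
    F.val.toRingHom f
  have : IsPretransitive (galGroup E) (Emb E) := isPretransitive_galGroup
  obtain ⟨γ, hγ⟩ := exists_smul_eq (galGroup E) φ₀ φ
  refine ⟨γ, fun x => ?_⟩
  rw [hγ]
  exact hφ x

/-- The elements which fix a subfield under `φ₀`. -/
private def corrG_fix (φ₀ : Emb E) (F : IntermediateField ℚ E) : Subgroup (galGroup E) where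
  carrier := {ν | ∀ x ∈ F, (ν • φ₀ : Emb E) x = φ₀ x}
  mul_mem' := by
    intro a b ha hb x hx
    rw [mul_smul, corrG_smul_congr _ _ _ _ (hb x hx) a]
    exact ha x hx
  one_mem' := by
    intro x _
    rw [one_smul]
  inv_mem' := by
    intro a ha x hx
    have h := corrG_smul_congr _ _ _ _ (ha x hx) a⁻¹
    rw [inv_smul_smul] at h
    exact h.symm

private lemma corrG_mem_of_agree (φ₀ : Emb E)
    (hinj : ∀ H H' : Subgroup (galGroup E), stabilizer (galGroup E) φ₀ ≤ H →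
      stabilizer (galGroup E) φ₀ ≤ H' → fixAt φ₀ H = fixAt φ₀ H' → H = H')
    (H : Subgroup (galGroup E)) (hH : stabilizer (galGroup E) φ₀ ≤ H) (γ : galGroup E)
    (h : ∀ x ∈ fixAt φ₀ H, (γ • φ₀ : Emb E) x = φ₀ x) : γ ∈ H := by
  have hle : H ≤ corrG_fix φ₀ (fixAt φ₀ H) := fun ν hν x hx => hx ν hν
  have heq : H = corrG_fix φ₀ (fixAt φ₀ H) := by
    refine hinj _ _ hH (hH.trans hle) (le_antisymm ?_ ?_)
    · intro x hx ν hν
      exact hν x hx
    · intro x hx ν hν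
      exact hx ν (hle hν)
  rw [heq]
  exact h

/-- The automorphism of a normal subfield induced by `γ`. -/
private lemma corrG_exists_aut (φ₀ : Emb E) (H : Subgroup (galGroup E))
    (hH : stabilizer (galGroup E) φ₀ ≤ H) (hn : H.Normal) (γ : galGroup E) :
    ∃ σ : fixAt φ₀ H ≃ₐ[ℚ] fixAt φ₀ H, ∀ x : fixAt φ₀ H,
      φ₀ (σ x : E) = (γ • φ₀ : Emb E) (x : E) := by
  have hkey : ∀ x : fixAt φ₀ H, ∀ τ : AbsGal, galOf E τ ∈ H →
      τ ((γ • φ₀ : Emb E) (x : E)) = (γ • φ₀ : Emb E) (x : E) := by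
    intro x τ hτ
    have h1 : τ ((γ • φ₀ : Emb E) (x : E)) = ((galOf E τ) • (γ • φ₀) : Emb E) (x : E) := rfl
    have h2 : γ⁻¹ * galOf E τ * γ ∈ H := by
      have := hn.conj_mem _ hτ γ⁻¹
      rwa [inv_inv] at this
    have h3 := corrG_smul_congr _ _ _ _ (x.2 _ h2) γ
    rw [← mul_smul] at h3
    have h4 : γ * (γ⁻¹ * galOf E τ * γ) = galOf E τ * γ := by group
    rw [h4, mul_smul] at h3
    rw [h1, h3]
  have hex : ∀ x : fixAt φ₀ H, ∃ y : fixAt φ₀ H, φ₀ (y : E) = (γ • φ₀ : Emb E) (x : E) := by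
    intro x
    obtain ⟨y, hy⟩ := exists_preimage_of_fixed_emb φ₀ ((γ • φ₀ : Emb E) (x : E)) (by
      intro τ hτ
      exact hkey x τ (hH hτ))
    refine ⟨⟨y, ?_⟩, hy⟩
    intro ν hν
    obtain ⟨n, hn'⟩ := exists_galOf ν
    rw [← hn', galOf_smul, galEmb_apply, hy]
    apply hkey
    rw [hn']
    exact hν
  choose s hs using hex
  have hinj : Function.Injective (fun x : fixAt φ₀ H => φ₀ (x : E)) := by
    intro x y hxy
    exact Subtype.ext (φ₀.injective hxy)
  let f : fixAt φ₀ H →+* fixAt φ₀ H :=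
    { toFun := s
      map_one' := hinj (by
        simp only [hs]
        simp)
      map_mul' := fun x y => hinj (by
        simp only [hs]
        rw [MulMemClass.coe_mul, MulMemClass.coe_mul, map_mul, map_mul, hs, hs])
      map_zero' := hinj (by
        simp only [hs]
        simp)
      map_add' := fun x y => hinj (by
        simp only [hs]
        rw [AddMemClass.coe_add, AddMemClass.coe_add, map_add, map_add, hs, hs]) }
  let fa : fixAt φ₀ H →ₐ[ℚ] fixAt φ₀ H := RingHom.toRatAlgHom f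
  have hb : Function.Bijective fa := Algebra.IsAlgebraic.algHom_bijective fa
  exact ⟨AlgEquiv.ofBijective fa hb, fun x => hs x⟩

/-- The Galois group of a normal subfield. -/
private lemma corrG_equiv (φ₀ : Emb E)
    (hinj : ∀ H H' : Subgroup (galGroup E), stabilizer (galGroup E) φ₀ ≤ H →
      stabilizer (galGroup E) φ₀ ≤ H' → fixAt φ₀ H = fixAt φ₀ H' → H = H')
    (H : Subgroup (galGroup E)) (hH : stabilizer (galGroup E) φ₀ ≤ H) [hn : H.Normal] :
    Nonempty ((galGroup E ⧸ H) ≃* (fixAt φ₀ H ≃ₐ[ℚ] fixAt φ₀ H)) := by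
  choose σ hσ using corrG_exists_aut φ₀ H hH hn
  have hext : ∀ a b : fixAt φ₀ H ≃ₐ[ℚ] fixAt φ₀ H, (∀ x, φ₀ (a x : E) = φ₀ (b x : E)) → a = b := by
    intro a b hab
    apply AlgEquiv.ext
    intro x
    exact Subtype.ext (φ₀.injective (hab x))
  let ρ : galGroup E →* (fixAt φ₀ H ≃ₐ[ℚ] fixAt φ₀ H) :=
    { toFun := σ
      map_one' := hext _ _ (fun x => by
        rw [hσ, one_smul]
        rfl)
      map_mul' := fun a b => hext _ _ (fun x => by
        rw [hσ, mul_smul, AlgEquiv.mul_apply, hσ]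
        exact (corrG_smul_congr _ _ _ _ (hσ b x) a).symm) }
  have hρ : ∀ γ, ρ γ = σ γ := fun γ => rfl
  have hsurj : Function.Surjective ρ := by
    intro τ
    obtain ⟨γ, hγ⟩ := corrG_exists_ext (fixAt φ₀ H) φ₀
      ((φ₀.comp (fixAt φ₀ H).val.toRingHom).comp τ.toRingEquiv.toRingHom)
    refine ⟨γ, hext _ _ fun x => ?_⟩
    rw [hρ, hσ, hγ]
    rfl
  have hker : H = ρ.ker := by
    ext γ
    rw [MonoidHom.mem_ker]
    constructor
    · intro hγ
      refine hext _ _ fun x => ?_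
      rw [hρ, hσ]
      exact x.2 γ hγ
    · intro hγ
      refine corrG_mem_of_agree φ₀ hinj H hH γ fun x hx => ?_
      have h1 := hσ γ ⟨x, hx⟩
      rw [← hρ, hγ] at h1
      exact h1.symm
  exact ⟨(QuotientGroup.quotientMulEquivOfEq hker).trans
    (QuotientGroup.quotientKerEquivOfSurjective ρ hsurj)⟩

/-- Normality. -/
private lemma corrG_normal (φ₀ : Emb E)
    (hinj : ∀ H H' : Subgroup (galGroup E), stabilizer (galGroup E) φ₀ ≤ H →
      stabilizer (galGroup E) φ₀ ≤ H' → fixAt φ₀ H = fixAt φ₀ H' → H = H')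
    (H : Subgroup (galGroup E)) (hH : stabilizer (galGroup E) φ₀ ≤ H)
    (hg : IsGalois ℚ (fixAt φ₀ H)) : H.Normal := by
  have hnf : NumberField (fixAt φ₀ H) := inferInstance
  -- every embedding comes from an automorphism
  have hemb : ∀ f : fixAt φ₀ H →+* AlgebraicClosure ℚ, ∃ σ : fixAt φ₀ H ≃ₐ[ℚ] fixAt φ₀ H,
      ∀ x, φ₀ (σ x : E) = f x := by
    let Θ : (fixAt φ₀ H ≃ₐ[ℚ] fixAt φ₀ H) → (fixAt φ₀ H →+* AlgebraicClosure ℚ) := fun σ =>
      (φ₀.comp (fixAt φ₀ H).val.toRingHom).comp σ.toRingEquiv.toRingHom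
    have hΘ : Function.Injective Θ := by
      intro a b hab
      apply AlgEquiv.ext
      intro x
      have h1 : Θ a x = Θ b x := by rw [hab]
      exact Subtype.ext (φ₀.injective h1)
    have hcard : Nat.card (fixAt φ₀ H →+* AlgebraicClosure ℚ) ≤
        Nat.card (fixAt φ₀ H ≃ₐ[ℚ] fixAt φ₀ H) := by
      rw [IsGalois.card_aut_eq_finrank, Nat.card_eq_fintype_card,
        Embeddings.card (fixAt φ₀ H) (AlgebraicClosure ℚ)]
    have hbij := hΘ.bijective_of_nat_card_le hcard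
    intro f
    obtain ⟨σ, hσ⟩ := hbij.2 f
    refine ⟨σ, fun x => ?_⟩
    rw [← hσ]
    rfl
  refine ⟨fun ν hν γ => ?_⟩
  refine corrG_mem_of_agree φ₀ hinj H hH _ fun x hx => ?_
  obtain ⟨σ, hσ⟩ := hemb ((γ⁻¹ • φ₀ : Emb E).comp (fixAt φ₀ H).val.toRingHom)
  have h1 : φ₀ (σ ⟨x, hx⟩ : E) = (γ⁻¹ • φ₀ : Emb E) x := hσ ⟨x, hx⟩
  have h2 := corrG_smul_congr _ _ _ _ h1.symm ν
  have h3 : (ν • φ₀ : Emb E) (σ ⟨x, hx⟩ : E) = φ₀ (σ ⟨x, hx⟩ : E) := (σ ⟨x, hx⟩).2 ν hν
  rw [h3, h1] at h2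
  have h4 := corrG_smul_congr _ _ _ _ h2 γ
  rw [← mul_smul, ← mul_smul, ← mul_smul, mul_inv_cancel, one_smul] at h4
  exact h4

end

theorem pCorrG : StCorrG := by
  intro E _ _ _ φ₀ z hz H hH n
  obtain ⟨hinj, hrest⟩ := pCorr E φ₀ z hz
  constructor
  · rintro ⟨hn, ⟨e⟩⟩
    obtain ⟨e'⟩ := corrG_equiv φ₀ hinj H hH
    exact ⟨(hrest H hH).2.1 hn, ⟨e'.symm.trans e⟩⟩
  · rintro ⟨hg, ⟨e⟩⟩
    have hn := corrG_normal φ₀ hinj H hH hg
    obtain ⟨e'⟩ := corrG_equiv φ₀ hinj H hH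
    exact ⟨hn, ⟨e'.trans e⟩⟩

end Pool.Agent.Lib.MP_640417_ag.Sharp
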