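import Pool.Agent.Lib.MP_640417_ag.Sharp.SpecU

/-!
# Spaces of dimension `2` and quartic and sextic subfields
-/

namespace Pool.Agent.Lib.MP_640417_ag.Sharp

open Module Finset MulAction Pool.Agent.Lib.MP_640417_ag.Far Pool.Agent.Lib.MP_640417_ag.Full

section transport

variable {S : Type} {G : Type} [Group G] [MulAction G S] {F : Type} [Field F]

lemma SubB2_symm {U U' : Submodule F (S → F)} (hU : IsStab G U) (θ : U ≃ₗ[F] U')
    (hθ : ∀ (f f' : U) (γ : G), (∀ s, f'.1 s = f.1 (γ • s)) →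
      ∀ s, (θ f').1 s = (θ f).1 (γ • s)) (f f' : U') (γ : G)
    (hff : ∀ s, f'.1 s = f.1 (γ • s)) (s : S) : (θ.symm f').1 s = (θ.symm f).1 (γ • s) := by
  have h1 := hθ (θ.symm f) ⟨_, hU _ (θ.symm f).2 γ⟩ γ (fun s => rfl)
  have h2 : θ ⟨_, hU _ (θ.symm f).2 γ⟩ = f' := by
    apply Subtype.ext
    funext t
    rw [h1, hff, LinearEquiv.apply_symm_apply]
  have h3 : θ.symm f' = ⟨_, hU _ (θ.symm f).2 γ⟩ := by
    rw [← h2, LinearEquiv.symm_apply_apply]
  rw [h3]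

lemma SubB2_irr {U U' : Submodule F (S → F)} (hU : IsIrr G U) (hU' : IsStab G U')
    (h : IsoF G U U') : IsIrr G U' := by
  obtain ⟨θ, hθ⟩ := h
  obtain ⟨h0, hs, hi⟩ := hU
  refine ⟨?_, hU', fun W hW hWs => ?_⟩
  · intro hb
    apply h0
    rw [eq_bot_iff]
    intro f hf
    have h1 : θ ⟨f, hf⟩ = 0 := by
      apply Subtype.ext
      have h2 : (θ ⟨f, hf⟩).1 ∈ (⊥ : Submodule F (S → F)) := by
        rw [← hb]
        exact (θ ⟨f, hf⟩).2
      exact (Submodule.mem_bot F).1 h2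
    have h2 : (⟨f, hf⟩ : U) = 0 := by
      rw [← θ.symm_apply_apply ⟨f, hf⟩, h1, map_zero]
    exact (Submodule.mem_bot F).2 (congrArg Subtype.val h2)
  · obtain ⟨W₀, hW₀⟩ : ∃ W₀ : Submodule F (S → F),
        W₀ = (W.comap (U'.subtype ∘ₗ θ.toLinearMap)).map U.subtype := ⟨_, rfl⟩
    have hmem : ∀ f : U, (f : S → F) ∈ W₀ ↔ ((θ f : U') : S → F) ∈ W := by
      intro f
      rw [hW₀, Submodule.mem_map]
      constructor
      · rintro ⟨f', hf', hff⟩
        have : f' = f := Subtype.ext hff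
        rw [this] at hf'
        exact hf'
      · intro hf
        exact ⟨f, hf, rfl⟩
    have hle : W₀ ≤ U := by
      rw [hW₀]
      rintro _ ⟨f, -, rfl⟩
      exact f.2
    have hst : IsStab G W₀ := by
      intro f hf γ
      have h1 := (hmem ⟨f, hle hf⟩).1 hf
      have h2 := hWs _ h1 γ
      have h3 : (fun s => f (γ • s)) ∈ U := hs f (hle hf) γ
      refine (hmem ⟨_, h3⟩).2 ?_
      have h4 := hθ ⟨f, hle hf⟩ ⟨_, h3⟩ γ (fun s => rfl)
      have h5 : ((θ ⟨_, h3⟩ : U') : S → F) = fun s => (θ ⟨f, hle hf⟩).1 (γ • s) := funext h4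
      rw [h5]
      exact h2
    rcases hi W₀ hle hst with h | h
    · left
      rw [eq_bot_iff]
      intro w hw
      have h1 : ((θ.symm ⟨w, hW hw⟩ : U) : S → F) ∈ W₀ := by
        rw [hmem, LinearEquiv.apply_symm_apply]
        exact hw
      rw [h, Submodule.mem_bot] at h1
      have h2 : θ.symm ⟨w, hW hw⟩ = 0 := Subtype.ext h1
      have h3 : (⟨w, hW hw⟩ : U') = 0 := by
        rw [← θ.apply_symm_apply ⟨w, hW hw⟩, h2, map_zero]
      exact (Submodule.mem_bot F).2 (congrArg Subtype.val h3)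
    · right
      refine le_antisymm hW fun w hw => ?_
      have h1 : ((θ.symm ⟨w, hw⟩ : U) : S → F) ∈ W₀ := by
        rw [h]
        exact (θ.symm ⟨w, hw⟩).2
      rw [hmem, LinearEquiv.apply_symm_apply] at h1
      exact h1

lemma SubB2_ker_le {U U' : Submodule F (S → F)} (h : IsoF G U U') : kerSub G U ≤ kerSub G U' := by
  obtain ⟨θ, hθ⟩ := h
  intro γ hγ f' hf' s
  have h1 := hθ (θ.symm ⟨f', hf'⟩) (θ.symm ⟨f', hf'⟩) γ
    (fun s => (hγ _ (θ.symm ⟨f', hf'⟩).2 s).symm) s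
  rw [LinearEquiv.apply_symm_apply] at h1
  exact h1.symm

lemma SubB2_ker {U U' : Submodule F (S → F)} (hU : IsStab G U) (h : IsoF G U U') :
    kerSub G U' = kerSub G U :=
  le_antisymm (SubB2_ker_le (IsoF.symm hU h)) (SubB2_ker_le h)

lemma SubB2_end_le [Fintype S] {U U' : Submodule F (S → F)} (hU : IsStab G U) (h : IsoF G U U') :
    finrank F (endF G U) ≤ finrank F (endF G U') := by
  obtain ⟨θ, hθ⟩ := h
  rw [← LinearEquiv.finrank_map_eq (LinearEquiv.conj θ) (endF G U)]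
  apply Submodule.finrank_mono
  rintro _ ⟨ψ, hψ, rfl⟩
  intro f f' γ hff s
  exact hθ (ψ (θ.symm f)) (ψ (θ.symm f')) γ
    (hψ (θ.symm f) (θ.symm f') γ (SubB2_symm hU θ hθ f f' γ hff)) s

lemma SubB2_end [Fintype S] {U U' : Submodule F (S → F)} (hU : IsStab G U) (hU' : IsStab G U')
    (h : IsoF G U U') : finrank F (endF G U') = finrank F (endF G U) :=
  le_antisymm (SubB2_end_le hU' (IsoF.symm hU h)) (SubB2_end_le hU h)

lemma SubB2_inv_le [Fintype S] {U U' : Submodule F (S → F)} (H : Subgroup G) (h : IsoF G U U') :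
    finrank F ↥(U ⊓ invF F H) ≤ finrank F ↥(U' ⊓ invF F H) := by
  obtain ⟨θ, hθ⟩ := h
  obtain ⟨L, hL⟩ : ∃ L : ↥(U ⊓ invF F H) →ₗ[F] (S → F),
      L = U'.subtype ∘ₗ θ.toLinearMap ∘ₗ Submodule.inclusion inf_le_left := ⟨_, rfl⟩
  have hL1 : ∀ x, L x = ((θ ⟨x.1, x.2.1⟩ : U') : S → F) := by
    intro x
    rw [hL]
    rfl
  have hL2 : ∀ x, L x ∈ U' ⊓ invF F H := by
    intro x
    rw [hL1]
    refine ⟨(θ ⟨x.1, x.2.1⟩).2, fun b hb s => ?_⟩
    exact (hθ ⟨x.1, x.2.1⟩ ⟨x.1, x.2.1⟩ b (fun s => (x.2.2 b hb s).symm) s).symm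
  refine LinearMap.finrank_le_finrank_of_injective (f := LinearMap.codRestrict _ L hL2) ?_
  intro x y hxy
  have h1 : L x = L y := congrArg Subtype.val hxy
  rw [hL1, hL1] at h1
  have h2 := θ.injective (Subtype.ext h1)
  exact Subtype.ext (congrArg (fun u : U => (u : S → F)) h2)

lemma SubB2_inv [Fintype S] {U U' : Submodule F (S → F)} (H : Subgroup G) (hU : IsStab G U)
    (h : IsoF G U U') : finrank F ↥(U' ⊓ invF F H) = finrank F ↥(U ⊓ invF F H) :=
  le_antisymm (SubB2_inv_le H (IsoF.symm hU h)) (SubB2_inv_le H h)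

end transport

theorem pSubB2 (hEvIndex : StEvIndex) (hEvSp : StEvSp) (hParQ : StParQ) : StSubB2 := by
  intro S G _ _ _ _ _ s₀ z hz hzz g hcard n U hU hno
  obtain ⟨T, hT⟩ : ∃ T : Set (Subgroup G), T = {H | 4 ∣ g ∧ H ∈ quart s₀ z} ∪ sext s₀ z := ⟨_, rfl⟩
  have hkey : ∀ i, finrank ℚ (U i) = 2 →
      finrank ℚ (endF G (U i)) = finrank ℚ ↥(U i ⊓ invF ℚ (stabilizer G s₀)) →
      (badSet z (U i)).Nonempty → H0 G s₀ (U i) ∈ T ∧ U i = sp s₀ z (H0 G s₀ (U i)) := by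
    intro i h2 he hb
    obtain ⟨hirr, hodd⟩ := hU i
    obtain ⟨hst, hzn, hcase⟩ := hEvIndex S G s₀ z (U i) hirr hodd h2 he
    obtain ⟨hs4, hs6⟩ := hEvSp S G s₀ z hz hzz (U i) hirr hodd h2 hst hzn
    rcases hcase with ⟨hk, h4⟩ | ⟨hk, h6⟩
    · obtain ⟨hq, hsp⟩ := hs4 h4
      refine ⟨?_, hsp⟩
      rw [hT]
      left
      refine ⟨?_, hq⟩
      obtain ⟨e, hsgn, U', hU's, hiso, hperp⟩ := hb
      have hirr' := SubB2_irr hirr hU's hiso
      have hodd' := IsoF.odd z hiso hodd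
      have h2' : finrank ℚ U' = 2 := by rw [← IsoF.finrank_eq hiso, h2]
      have he' : finrank ℚ (endF G U') = finrank ℚ ↥(U' ⊓ invF ℚ (stabilizer G s₀)) := by
        rw [SubB2_end hirr.2.1 hU's hiso, SubB2_inv _ hirr.2.1 hiso, he]
      obtain ⟨hst', hzn', hcase'⟩ := hEvIndex S G s₀ z U' hirr' hodd' h2' he'
      obtain ⟨hs4', -⟩ := hEvSp S G s₀ z hz hzz U' hirr' hodd' h2' hst' hzn'
      rw [SubB2_ker hirr.2.1 hiso] at hcase'
      have h4' : (H0 G s₀ U').index = 4 := by omega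
      obtain ⟨hq', hsp'⟩ := hs4' h4'
      rw [hsp'] at hperp
      exact hParQ S G s₀ z hz hzz g hcard _ hq' e hsgn hperp
    · obtain ⟨hq, hsp⟩ := hs6 h6
      refine ⟨?_, hsp⟩
      rw [hT]
      exact Or.inr hq
  have hle : {i : Fin n | finrank ℚ (U i) = 2 ∧
      finrank ℚ (endF G (U i)) = finrank ℚ ↥(U i ⊓ invF ℚ (stabilizer G s₀)) ∧
      (badSet z (U i)).Nonempty}.ncard ≤ T.ncard := by
    refine Set.ncard_le_ncard_of_injOn (fun i => H0 G s₀ (U i)) ?_ ?_ (Set.toFinite T)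
    · rintro i ⟨h2, he, hb⟩
      exact (hkey i h2 he hb).1
    · rintro i ⟨h2, he, hb⟩ j ⟨h2', he', hb'⟩ hij
      by_contra hne
      have h1 := (hkey i h2 he hb).2
      have h3 := (hkey j h2' he' hb').2
      have hij' : H0 G s₀ (U i) = H0 G s₀ (U j) := hij
      rw [← hij', ← h1] at h3
      apply hno i j hne
      rw [h3]
      exact IsoF.refl _
  refine hle.trans ?_
  rw [hT]
  refine (Set.ncard_union_le _ _).trans ?_
  refine Nat.add_le_add_right ?_ _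
  by_cases h4 : 4 ∣ g
  · rw [if_pos h4]
    exact Set.ncard_le_ncard (fun H hH => hH.2) (Set.toFinite _)
  · rw [if_neg h4]
    have : {H : Subgroup G | 4 ∣ g ∧ H ∈ quart s₀ z} = ∅ := by
      ext H
      simp [h4]
    rw [this, Set.ncard_empty]

end Pool.Agent.Lib.MP_640417_ag.Sharp
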