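import Pool.Agent.Lib.MP_640417_ag.Sharp.SpecU
import Pool.Agent.Lib.MP_640417_ag.Full.SubC

/-!
# Spaces of dimension two and dihedral subfields
-/

namespace Pool.Agent.Lib.MP_640417_ag.Sharp

open Module Finset MulAction Pool.Agent.Lib.MP_640417_ag.Far Pool.Agent.Lib.MP_640417_ag.Full

lemma subC2_index {G : Type} [Group G] {n : ℕ} [NeZero n] {H : Subgroup G} (h : IsDih n H) :
    H.index = 2 * n := by
  obtain ⟨hn, ⟨φ⟩⟩ := h
  have h1 : Nat.card (G ⧸ H) = Nat.card (DihedralGroup n) := Nat.card_congr φ.toEquiv
  rw [DihedralGroup.nat_card] at h1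
  exact h1

theorem pSubC2 (hKerDih : StKerDih) : StSubC2 := by
  classical
  intro S G _ _ _ _ _ s₀ z hz hzz n U hU hne
  have : Fintype G := Fintype.ofFinite G
  refine le_trans ?_ (Set.ncard_union_le (dih 4 s₀ z) (dih 6 s₀ z))
  apply Set.ncard_le_ncard_of_injOn (fun i => kerSub G (U i))
  · rintro i ⟨hD, he, hh⟩
    have hUi := hU i
    have hzK : z ∉ kerSub G (U i) := by
      intro h
      obtain ⟨f, hf, hf0⟩ := Submodule.exists_mem_ne_zero_of_ne_bot hUi.1.1
      apply hf0
      funext s
      have h1 := h f hf s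
      have h2 := hUi.2 f hf s
      rw [h2] at h1
      have h3 : f s = 0 := by linarith
      exact h3
    have hst : stabilizer G s₀ ≤ kerSub G (U i) := by
      have h1 : U i ⊓ invF ℚ (stabilizer G s₀) = U i := by
        apply Submodule.eq_of_le_of_finrank_eq inf_le_left
        rw [hh, hD]
      intro γ hγ f hf s
      rw [← h1] at hf
      exact hf.2 γ hγ s
    rcases hKerDih S G z (U i) hUi.1 hUi.2 hD he with h | h
    · exact Or.inl ⟨hst, hzK, h⟩
    · exact Or.inr ⟨hst, hzK, h⟩
  · rintro i ⟨hD, he, hh⟩ j ⟨hD', he', hh'⟩ hK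
    by_contra hij
    change kerSub G (U i) = kerSub G (U j) at hK
    have hUi := hU i
    have hUj := hU j
    set K := kerSub G (U i) with hKdef
    have hKn : K.Normal := kerSub_normal _ hUi.1.2.1
    have hidx : K.index = 8 ∨ K.index = 12 := by
      rcases hKerDih S G z (U i) hUi.1 hUi.2 hD he with h | h
      · exact Or.inl (subC2_index h)
      · exact Or.inr (subC2_index h)
    have hzK : z ∉ K := by
      intro h
      obtain ⟨f, hf, hf0⟩ := Submodule.exists_mem_ne_zero_of_ne_bot hUi.1.1
      apply hf0
      funext s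
      have h1 := h f hf s
      have h2 := hUi.2 f hf s
      rw [h2] at h1
      have h3 : f s = 0 := by linarith
      exact h3
    have hz2 : z * z ∈ K := by
      intro f hf s
      rw [mul_smul, hzz]
    -- the involution of the quotient
    have hc : ∀ q : G ⧸ K, z • z • q = q := by
      intro q
      induction q using QuotientGroup.induction_on with
      | H γ =>
        have h0 : z • z • (γ : G ⧸ K) = ((z * z * γ : G) : G ⧸ K) := by
          rw [smul_smul]
          rfl
        rw [h0, QuotientGroup.eq]
        have h1 : (z * z * γ)⁻¹ * γ = γ⁻¹ * (z * z)⁻¹ * (γ⁻¹)⁻¹ := by group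
        rw [h1]
        exact hKn.conj_mem _ (K.inv_mem hz2) γ⁻¹
    have hfix : ∀ q : G ⧸ K, z • q ≠ q := by
      intro q
      induction q using QuotientGroup.induction_on with
      | H γ =>
        intro h
        have h0 : z • (γ : G ⧸ K) = ((z * γ : G) : G ⧸ K) := rfl
        rw [h0, QuotientGroup.eq] at h
        apply hzK
        have h1 := hKn.conj_mem _ h γ
        have h2 : γ * ((z * γ)⁻¹ * γ) * γ⁻¹ = z⁻¹ := by group
        rw [h2] at h1
        have h3 := K.inv_mem h1
        rwa [inv_inv] at h3
    obtain ⟨X, hX⟩ := exists_transversal (fun q : G ⧸ K => z • q) hc hfix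
    have hXcard := two_mul_card_transversal (fun q : G ⧸ K => z • q) hc X hX
    have hX6 : X.card ≤ 6 := by
      have h1 : Fintype.card (G ⧸ K) = K.index := by
        rw [← Nat.card_eq_fintype_card]
        rfl
      rw [h1] at hXcard
      omega
    -- the linear map
    let bi : Basis (Fin 2) ℚ (U i) := Module.finBasisOfFinrankEq ℚ (U i) hD
    let bj : Basis (Fin 2) ℚ (U j) := Module.finBasisOfFinrankEq ℚ (U j) hD'
    let F : (Fin 2 → U i) × (Fin 2 → U j) → G → ℚ := fun g γ =>
      ∑ a, subcI (fun s => (bi a).1 (γ • s)) (g.1 a).1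
        + ∑ a, subcI (fun s => (bj a).1 (γ • s)) (g.2 a).1
    let Ψ : ((Fin 2 → U i) × (Fin 2 → U j)) →ₗ[ℚ] (X → ℚ) :=
      { toFun := fun g x => F g (Quotient.out x.1)
        map_add' := by
          intro g g'
          funext x
          simp only [F, Pi.add_apply, Prod.fst_add, Prod.snd_add, Submodule.coe_add, subcI_add,
            Finset.sum_add_distrib]
          ring
        map_smul' := by
          intro c g
          funext x
          simp only [F, Pi.smul_apply, Prod.smul_fst, Prod.smul_snd, Submodule.coe_smul,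
            subcI_smul, RingHom.id_apply, smul_eq_mul, Finset.mul_sum, mul_add] }
    have hFK : ∀ g γ (κ : G), κ ∈ K → F g (γ * κ) = F g γ := by
      intro g γ κ hκ
      have h1 : ∀ a, (fun s => (bi a).1 ((γ * κ) • s)) = fun s => (bi a).1 (γ • s) := by
        intro a
        funext s
        rw [mul_smul]
        exact hκ _ (hUi.1.2.1 _ (bi a).2 γ) s
      have hκ' : κ ∈ kerSub G (U j) := hK ▸ hκ
      have h2 : ∀ a, (fun s => (bj a).1 ((γ * κ) • s)) = fun s => (bj a).1 (γ • s) := by
        intro a
        funext s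
        rw [mul_smul]
        exact hκ' _ (hUj.1.2.1 _ (bj a).2 γ) s
      simp only [F, h1, h2]
    have hFz : ∀ g γ, F g (z * γ) = - F g γ := by
      intro g γ
      have h0 : ∀ (u f : S → ℚ), (∀ s, u (z • s) = - u s) →
          subcI (fun s => u ((z * γ) • s)) f = - subcI (fun s => u (γ • s)) f := by
        intro u f hu
        unfold subcI
        rw [← Finset.sum_neg_distrib]
        refine Finset.sum_congr rfl fun s _ => ?_
        beta_reduce
        rw [mul_smul, hu, neg_mul]
      simp only [F]
      rw [Finset.sum_congr rfl (fun a _ => h0 (bi a).1 (g.1 a).1 (hUi.2 _ (bi a).2)),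
        Finset.sum_congr rfl (fun a _ => h0 (bj a).1 (g.2 a).1 (hUj.2 _ (bj a).2)),
        Finset.sum_neg_distrib, Finset.sum_neg_distrib]
      ring
    have hout : ∀ g (γ : G), F g (Quotient.out (γ : G ⧸ K)) = F g γ := by
      intro g γ
      obtain ⟨κ, hκ⟩ := QuotientGroup.mk_out_eq_mul K γ
      have h1 : (Quotient.out (γ : G ⧸ K)) = γ * κ := hκ
      rw [h1]
      exact hFK g γ κ κ.2
    have hΨ : Function.Injective Ψ := by
      rw [← LinearMap.ker_eq_bot, LinearMap.ker_eq_bot']
      intro g hg
      have hX0 : ∀ q ∈ X, F g (Quotient.out q) = 0 := fun q hq => congrFun hg ⟨q, hq⟩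
      have hall : ∀ γ : G, F g γ = 0 := by
        intro γ
        by_cases hq : (γ : G ⧸ K) ∈ X
        · rw [← hout g γ]
          exact hX0 _ hq
        · have h1 : z • (γ : G ⧸ K) ∈ X := by
            by_contra h
            exact hq ((hX _).2 h)
          have h0 : z • (γ : G ⧸ K) = ((z * γ : G) : G ⧸ K) := rfl
          rw [h0] at h1
          have h2 := hX0 _ h1
          rw [hout, hFz] at h2
          linarith
      have h1 : g.1 = 0 := subc_indep (U i) (U j) hUi.1 he hUj.1
        (hne j i fun h => hij h.symm) bi bj g.1 g.2 hall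
      have h2 : g.2 = 0 := subc_indep (U j) (U i) hUj.1 he' hUi.1
        (hne i j hij) bj bi g.2 g.1 (fun γ => by rw [add_comm]; exact hall γ)
      exact Prod.ext h1 h2
    have hrank := LinearMap.finrank_le_finrank_of_injective hΨ
    rw [Module.finrank_fintype_fun_eq_card, Fintype.card_coe, Module.finrank_prod,
      Module.finrank_pi_fintype, Module.finrank_pi_fintype] at hrank
    simp only [hD, hD', Finset.sum_const, Finset.card_univ, Fintype.card_fin, smul_eq_mul]
      at hrank
    omega

end Pool.Agent.Lib.MP_640417_ag.Sharp
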