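import Pool.Agent.Lib.MP_640417_ag.Sharp.SpecF
import Pool.Agent.Lib.MP_640417_ag.All.Imprim

/-!
# From sign functions to primitive CM types
-/

set_option autoImplicit false

namespace Pool.Agent.Lib.MP_640417_ag.Sharp

open Module Finset MulAction NumberField Pool.Agent.Lib.MP_640417_ag
  Pool.Agent.Lib.MP_640417_ag.Far Pool.Agent.Lib.MP_640417_ag.Full

section TransferAux

variable {E : Type} [Field E] [NumberField E] [IsCMField E]

theorem Transfer_sgnZ_inj (Φ Ψ : Set (Emb E)) (φ : Emb E) (h : sgnZ Φ φ = sgnZ Ψ φ) :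
    φ ∈ Φ ↔ φ ∈ Ψ := by
  classical
  simp only [sgnZ] at h
  by_cases h2 : φ ∈ Φ <;> by_cases h3 : φ ∈ Ψ <;> simp [h2, h3] at h ⊢

theorem Transfer_comm (z : galGroup E) (hz : ∀ φ : Emb E, z • φ = conjEmb φ) :
    ∀ γ : galGroup E, γ * z = z * γ := by
  intro γ
  obtain ⟨τ, hτ⟩ := exists_of_galGroup γ
  apply Subtype.ext
  apply Equiv.ext
  intro φ
  show γ • (z • φ) = z • (γ • φ)
  rw [hz, hz, hτ, hτ, galEmb_conjEmb]

theorem Transfer_imprim (g : ℕ) (hE : finrank ℚ E = 2 * g) (z : galGroup E)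
    (hz : ∀ φ : Emb E, z • φ = conjEmb φ) :
    {Φ : Set (Emb E) | IsCMType Φ ∧ ¬ OddGal.Primitive Φ}.ncard ≤ 2 * g * 2 ^ (g / 2) := by
  classical
  have hpre : IsPretransitive (galGroup E) (Emb E) := isPretransitive_galGroup
  have h1 := All.ncard_imprimitive_le (Emb E) (galGroup E) z (Transfer_comm z hz)
    (by intro s; rw [hz, hz, conjEmb_conjEmb]) (by intro s; rw [hz]; exact conjEmb_ne s) g
    (by rw [card_emb, hE])
  refine le_trans ?_ h1
  refine Set.ncard_le_ncard_of_injOn (fun (Φ : Set (Emb E)) => sgnZ Φ) ?_ ?_ ?_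
  · rintro Φ ⟨hΦ, hP⟩
    refine ⟨⟨fun s => sgnZ_eq_one_or Φ s, fun s => by rw [hz]; exact sgnZ_conj hΦ s⟩, ?_⟩
    unfold OddGal.Primitive at hP
    push Not at hP
    obtain ⟨φ, ψ, h2, h3⟩ := hP
    refine ⟨φ, ψ, h3, fun γ => ?_⟩
    obtain ⟨τ, hτ⟩ := exists_of_galGroup γ
    rw [hτ, hτ]
    have h4 := h2 τ
    by_cases h5 : galEmb τ φ ∈ Φ
    · have h6 := h4.mp h5
      simp [sgnZ, h5, h6]
    · have h6 : galEmb τ ψ ∉ Φ := fun h => h5 (h4.mpr h)
      simp [sgnZ, h5, h6]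
  · intro Φ _ Ψ _ h
    ext φ
    exact Transfer_sgnZ_inj Φ Ψ φ (congrFun h φ)
  · refine Set.Finite.subset (s := {e : Emb E → ℤ | ∀ s, e s ∈ ({1, -1} : Finset ℤ)}) ?_ ?_
    · exact Set.Finite.pi' fun _ => Finset.finite_toSet _
    · rintro e ⟨⟨he, -⟩, -⟩ s
      rcases he s with h | h <;> simp [h]

end TransferAux

theorem pTransfer : StTransfer := by
  classical
  intro E _ _ _ g hE z hz
  have hA : (relSet z : Set (Emb E → ℤ)).ncard ≤
      {Φ : Set (Emb E) | IsCMType Φ ∧ ∃ v ∈ relLattice Φ, v ≠ 0}.ncard := by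
    have hsgn : ∀ e : Emb E → ℤ, IsSgn z e → ∀ φ, sgnZ {φ | e φ = 1} φ = e φ := by
      intro e he φ
      rcases he.1 φ with h | h <;> simp [sgnZ, h]
    refine Set.ncard_le_ncard_of_injOn (fun e => {φ | e φ = 1}) ?_ ?_ (Set.toFinite _)
    · rintro e ⟨he, v, hv0, hv1, hv2⟩
      refine ⟨?_, v, ⟨fun φ => ?_, fun τ => ?_⟩, hv0⟩
      · intro φ
        have h1 := he.2 φ
        rw [hz] at h1
        simp only [Set.mem_ofPred_eq, h1]
        rcases he.1 φ with h | h <;> simp [h]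
      · rw [← hz]
        exact hv1 φ
      · letI act := galAction E
        have h1 := hv2 ⟨MulAction.toPermHom AbsGal (Emb E) τ, ⟨τ, rfl⟩⟩
        rw [← h1]
        refine Finset.sum_congr rfl fun φ _ => ?_
        rw [hsgn e he]
        rfl
    · rintro e ⟨he, -⟩ e' ⟨he', -⟩ h
      funext φ
      rw [← hsgn e he φ, ← hsgn e' he' φ]
      exact congrArg (fun Φ => sgnZ Φ φ) h
  have hB := Transfer_imprim g hE z hz
  have hC : {Φ : Set (Emb E) | IsCMType Φ ∧ ∃ v ∈ relLattice Φ, v ≠ 0}.ncard ≤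
      {Φ : Set (Emb E) | IsCMType Φ ∧ OddGal.Primitive Φ ∧ ∃ v ∈ relLattice Φ, v ≠ 0}.ncard +
      {Φ : Set (Emb E) | IsCMType Φ ∧ ¬ OddGal.Primitive Φ}.ncard := by
    refine le_trans (Set.ncard_le_ncard ?_ (Set.toFinite _)) (Set.ncard_union_le _ _)
    rintro Φ ⟨h1, h2⟩
    by_cases h3 : OddGal.Primitive Φ
    · exact Or.inl ⟨h1, h3, h2⟩
    · exact Or.inr ⟨h1, h3⟩
  omega

end Pool.Agent.Lib.MP_640417_ag.Sharp
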