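import Pool.Agent.Lib.MP_640417_ag.Sharp.SpecL

/-!
# Central binomial coefficients
-/

namespace Pool.Agent.Lib.MP_640417_ag.Sharp

open Module Finset MulAction Pool.Agent.Lib.MP_640417_ag.Far Pool.Agent.Lib.MP_640417_ag.Full

private theorem binom_central_ge {n : ℕ} (hn : 1 ≤ n) :
    16 ^ n ≤ n.centralBinom ^ 2 * (4 * n) := by
  induction n, hn using Nat.le_induction with
  | base => simp [Nat.centralBinom]
  | succ n hn ih =>
    have h1 := Nat.succ_mul_centralBinom_succ n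
    set A := n.centralBinom with hA
    set B := (n + 1).centralBinom with hB
    have h2 : (n * (n + 1) ^ 2) * 16 ^ (n + 1) ≤ (n * (n + 1) ^ 2) * (B ^ 2 * (4 * (n + 1))) := by
      calc (n * (n + 1) ^ 2) * 16 ^ (n + 1) = 16 ^ n * (16 * n * (n + 1) ^ 2) := by ring
        _ ≤ (A ^ 2 * (4 * n)) * (16 * n * (n + 1) ^ 2) := Nat.mul_le_mul_right _ ih
        _ = (A ^ 2 * (16 * n * (n + 1))) * (4 * n * (n + 1)) := by ring
        _ ≤ (A ^ 2 * (4 * (2 * n + 1) ^ 2)) * (4 * n * (n + 1)) := by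
            apply Nat.mul_le_mul_right
            apply Nat.mul_le_mul_left
            nlinarith
        _ = (2 * (2 * n + 1) * A) ^ 2 * (4 * n * (n + 1)) := by ring
        _ = ((n + 1) * B) ^ 2 * (4 * n * (n + 1)) := by rw [h1]
        _ = (n * (n + 1) ^ 2) * (B ^ 2 * (4 * (n + 1))) := by ring
    exact Nat.le_of_mul_le_mul_left h2 (by positivity)

/-- `4 ^ n ≤ 2 √n C(2n, n)` -/
private theorem binom_even {n : ℕ} (hn : 1 ≤ n) :
    (4 : ℝ) ^ n ≤ (n.centralBinom : ℝ) * (2 * √(n : ℝ)) := by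
  have h1 := binom_central_ge hn
  have h2 : ((16 ^ n : ℕ) : ℝ) ≤ ((n.centralBinom ^ 2 * (4 * n) : ℕ) : ℝ) := by exact_mod_cast h1
  push_cast at h2
  have h3 : ((4 : ℝ) ^ n) ^ 2 ≤ ((n.centralBinom : ℝ) * (2 * √(n : ℝ))) ^ 2 := by
    have e1 : ((4 : ℝ) ^ n) ^ 2 = 16 ^ n := by
      rw [← pow_mul, mul_comm, pow_mul]
      norm_num
    have e2 : ((n.centralBinom : ℝ) * (2 * √(n : ℝ))) ^ 2 =
        (n.centralBinom : ℝ) ^ 2 * (4 * n) := by
      rw [mul_pow, mul_pow, Real.sq_sqrt (Nat.cast_nonneg n)]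
      ring
    rw [e1, e2]
    exact h2
  exact le_of_sq_le_sq h3 (by positivity)
where
  le_of_sq_le_sq {a b : ℝ} (h : a ^ 2 ≤ b ^ 2) (hb : 0 ≤ b) : a ≤ b := by
    nlinarith [abs_le_abs_of_sq_le h, sq_nonneg (a - b)]
  abs_le_abs_of_sq_le {a b : ℝ} (h : a ^ 2 ≤ b ^ 2) : |a| ≤ |b| := sq_le_sq.1 h

private theorem binom_central (m : ℕ) (hm : 1 ≤ m) :
    (2 : ℝ) ^ m ≤ (m.choose (m / 2) : ℝ) * (2 * √(m : ℝ)) := by
  rcases Nat.even_or_odd' m with ⟨n, rfl | rfl⟩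
  · have hn : 1 ≤ n := by omega
    have h1 := binom_even hn
    rw [Nat.centralBinom_eq_two_mul_choose] at h1
    have e1 : 2 * n / 2 = n := by omega
    rw [e1, pow_mul]
    norm_num only
    refine h1.trans ?_
    refine mul_le_mul_of_nonneg_left ?_ (Nat.cast_nonneg _)
    refine mul_le_mul_of_nonneg_left ?_ (by norm_num)
    apply Real.sqrt_le_sqrt
    have : (0 : ℝ) ≤ n := Nat.cast_nonneg n
    push_cast
    linarith
  · have h1 := binom_even (n := n + 1) (by omega)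
    rw [Nat.centralBinom_eq_two_mul_choose] at h1
    have e1 : (2 * n + 1) / 2 = n := by omega
    rw [e1]
    have e2 : (2 * (n + 1)).choose (n + 1) = 2 * (2 * n + 1).choose n := by
      have : 2 * (n + 1) = (2 * n + 1) + 1 := by ring
      rw [this, Nat.choose_succ_succ, Nat.succ_eq_add_one, Nat.choose_symm_half]
      ring
    rw [e2] at h1
    push_cast at h1
    have e3 : (2 : ℝ) ^ (2 * n + 1) * 2 = 4 ^ (n + 1) := by
      rw [← pow_succ, show 2 * n + 1 + 1 = 2 * (n + 1) by ring, pow_mul]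
      norm_num
    have e4 : √((n : ℝ) + 1) ≤ √(((2 * n + 1 : ℕ) : ℝ)) := by
      apply Real.sqrt_le_sqrt
      have : (0 : ℝ) ≤ n := Nat.cast_nonneg n
      push_cast
      linarith
    have e5 : (0 : ℝ) ≤ ((2 * n + 1).choose n : ℝ) := Nat.cast_nonneg _
    have e6 := mul_le_mul_of_nonneg_left e4 e5
    nlinarith

private theorem binom_ratio (m : ℕ) (hm : 1 ≤ m) (k : ℕ) (hk : k ≤ m / 2) :
    (m.choose (m / 2) : ℝ) * (1 - 2 * k * (k + 1) / m) ≤ (m.choose (m / 2 - k) : ℝ) := by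
  have hm0 : (0 : ℝ) < m := by exact_mod_cast hm
  induction k with
  | zero => simp
  | succ k ih =>
    have ih' := ih (by omega)
    have h1 := Nat.choose_succ_right_eq m (m / 2 - (k + 1))
    have e1 : m / 2 - (k + 1) + 1 = m / 2 - k := by omega
    rw [e1] at h1
    set a := m.choose (m / 2 - k) with ha
    set b := m.choose (m / 2 - (k + 1)) with hb
    -- `a * (h - k) = b * (m - (h - k - 1))`
    have h2 : (a : ℝ) * ((m / 2 : ℕ) - k) = (b : ℝ) * (m - ((m / 2 : ℕ) - (k + 1))) := by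
      have c1 : ((m / 2 - k : ℕ) : ℝ) = ((m / 2 : ℕ) : ℝ) - k := by
        rw [Nat.cast_sub (by omega)]
      have c2 : ((m / 2 - (k + 1) : ℕ) : ℝ) = ((m / 2 : ℕ) : ℝ) - (k + 1) := by
        rw [Nat.cast_sub hk]
        push_cast
        ring
      have c3 : ((m - (m / 2 - (k + 1)) : ℕ) : ℝ) = (m : ℝ) - (((m / 2 : ℕ) : ℝ) - (k + 1)) := by
        rw [Nat.cast_sub (by omega), c2]
      rw [← c1, ← c3]
      exact_mod_cast h1
    set h : ℝ := ((m / 2 : ℕ) : ℝ) with hh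
    have hh1 : 2 * h ≤ m := by
      rw [hh]
      exact_mod_cast (by omega : 2 * (m / 2) ≤ m)
    have hh2 : (m : ℝ) ≤ 2 * h + 1 := by
      rw [hh]
      exact_mod_cast (by omega : m ≤ 2 * (m / 2) + 1)
    have hk' : (k : ℝ) + 1 ≤ h := by
      rw [hh]
      exact_mod_cast hk
    have hk0 : (0 : ℝ) ≤ k := Nat.cast_nonneg k
    have ha0 : (0 : ℝ) ≤ a := Nat.cast_nonneg _
    have hb0 : (0 : ℝ) ≤ b := Nat.cast_nonneg _
    have hstep : (a : ℝ) * (1 - 4 * (k + 1) / m) ≤ b := by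
      have hden : 0 < (m : ℝ) - (h - (k + 1)) := by linarith
      have hb' : (b : ℝ) = a * ((h - k) / (m - (h - (k + 1)))) := by
        rw [← mul_div_assoc, eq_div_iff hden.ne', h2]
      rw [hb']
      refine mul_le_mul_of_nonneg_left ?_ ha0
      rw [le_div_iff₀ hden, sub_mul, one_mul]
      have e2 : 4 * ((k : ℝ) + 1) / m * (m - (h - (k + 1))) ≥ 2 * (k + 1) := by
        rw [ge_iff_le, div_mul_eq_mul_div, le_div_iff₀ hm0]
        nlinarith
      linarith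
    push_cast
    have hc0 : (0 : ℝ) ≤ (m.choose (m / 2) : ℝ) := Nat.cast_nonneg _
    have e3 : (1 - 2 * ((k : ℝ) + 1) * (k + 1 + 1) / m) =
        (1 - 2 * k * (k + 1) / m) - 4 * (k + 1) / m := by
      field_simp
      ring
    by_cases hneg : 1 - 2 * ((k : ℝ) + 1) * (k + 1 + 1) / m ≤ 0
    · exact (mul_nonpos_of_nonneg_of_nonpos hc0 hneg).trans hb0
    · push Not at hneg
      have e4 : 0 ≤ 4 * ((k : ℝ) + 1) / m := by positivity
      have e5 : 0 ≤ 2 * (k : ℝ) * (k + 1) / m := by positivity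
      have e6 : 0 ≤ 1 - 4 * ((k : ℝ) + 1) / m := by linarith
      calc (m.choose (m / 2) : ℝ) * (1 - 2 * ((k : ℝ) + 1) * (k + 1 + 1) / m)
          ≤ (m.choose (m / 2) : ℝ) * ((1 - 2 * k * (k + 1) / m) * (1 - 4 * (k + 1) / m)) := by
            refine mul_le_mul_of_nonneg_left ?_ hc0
            rw [e3]
            nlinarith
        _ = (m.choose (m / 2) : ℝ) * (1 - 2 * k * (k + 1) / m) * (1 - 4 * (k + 1) / m) := by ring
        _ ≤ a * (1 - 4 * (k + 1) / m) := mul_le_mul_of_nonneg_right ih' e6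
        _ ≤ b := hstep

private theorem binom_low (m j : ℕ) (hm : 1 ≤ m) (hj : j ≤ m / 2)
    (h : ((2 * j : ℤ) - m) ^ 2 ≤ m) :
    1 / 2 ^ 64 * 2 ^ m / √(m : ℝ) ≤ (m.choose j : ℝ) := by
  have hm0 : (0 : ℝ) < m := by exact_mod_cast hm
  have hm1 : (1 : ℝ) ≤ m := by exact_mod_cast hm
  have hs : 0 < √(m : ℝ) := Real.sqrt_pos.2 hm0
  have hs1 : 1 ≤ √(m : ℝ) := Real.one_le_sqrt.2 hm1
  rw [div_le_iff₀ hs]
  rcases Nat.lt_or_ge m 64 with hlt | hge
  · have h1 : (1 : ℝ) ≤ (m.choose j : ℝ) := by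
      exact_mod_cast Nat.choose_pos (by omega : j ≤ m)
    have h2 : (2 : ℝ) ^ m ≤ 2 ^ 64 := pow_le_pow_right₀ (by norm_num) hlt.le
    calc 1 / 2 ^ 64 * (2 : ℝ) ^ m ≤ 1 / 2 ^ 64 * 2 ^ 64 := by
          exact mul_le_mul_of_nonneg_left h2 (by positivity)
      _ = 1 * 1 := by norm_num
      _ ≤ _ := mul_le_mul h1 hs1 zero_le_one (by linarith)
  · obtain ⟨k, hk⟩ : ∃ k, k = m / 2 - j := ⟨_, rfl⟩
    have hjk : j = m / 2 - k := by omega
    have h1 := binom_ratio m hm k (by omega)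
    rw [← hjk] at h1
    have h2 := binom_central m hm
    have h3 : 4 * k ^ 2 ≤ m := by
      have e1 : (2 * k : ℤ) ≤ m - 2 * j := by omega
      have e2 : ((2 * k : ℤ)) ^ 2 ≤ (m - 2 * j) ^ 2 := pow_le_pow_left₀ (by positivity) e1 2
      have e3 : (4 * k ^ 2 : ℤ) ≤ m := by nlinarith
      exact_mod_cast e3
    have h4 : 16 * k ≤ m := by
      by_contra hcon
      push Not at hcon
      nlinarith
    have h3' : 4 * (k : ℝ) ^ 2 ≤ m := by exact_mod_cast h3
    have h4' : 16 * (k : ℝ) ≤ m := by exact_mod_cast h4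
    have h5 : (3 / 8 : ℝ) ≤ 1 - 2 * k * (k + 1) / m := by
      have : 2 * (k : ℝ) * (k + 1) / m ≤ 5 / 8 := by
        rw [div_le_iff₀ hm0]
        nlinarith
      linarith
    have hc0 : (0 : ℝ) ≤ (m.choose (m / 2) : ℝ) := Nat.cast_nonneg _
    have h6 : (m.choose (m / 2) : ℝ) * (3 / 8) ≤ (m.choose j : ℝ) :=
      (mul_le_mul_of_nonneg_left h5 hc0).trans h1
    have h7 : (2 : ℝ) ^ m * (3 / 16) ≤ (m.choose j : ℝ) * √(m : ℝ) := by
      have := mul_le_mul_of_nonneg_right h6 hs.le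
      nlinarith
    have h8 : (1 : ℝ) / 2 ^ 64 ≤ 3 / 16 := by norm_num
    have h9 : (0 : ℝ) ≤ 2 ^ m := by positivity
    nlinarith

theorem pBinom : StBinom := by
  refine ⟨1 / 2 ^ 64, by positivity, ?_⟩
  intro m j hm hj h
  rcases Nat.lt_or_ge (m / 2) j with hlt | hge
  · rw [← Nat.choose_symm hj]
    apply binom_low m (m - j) hm (by omega)
    have e1 : ((m - j : ℕ) : ℤ) = (m : ℤ) - j := by
      rw [Nat.cast_sub hj]
    rw [e1]
    have e2 : (2 * ((m : ℤ) - j) - m) ^ 2 = ((2 * j : ℤ) - m) ^ 2 := by ring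
    rw [e2]
    exact h
  · exact binom_low m j hm hge h

end Pool.Agent.Lib.MP_640417_ag.Sharp
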