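import Pool.Agent.Lib.MP_640417_ag.Sharp.SpecF
import Pool.Agent.Lib.MP_640417_ag.Full.Corr

/-!
# Subgroups containing the stabilizer and subfields: complete dictionary
-/

set_option autoImplicit false

namespace Pool.Agent.Lib.MP_640417_ag.Sharp

open Module Finset MulAction NumberField Pool.Agent.Lib.MP_640417_ag
  Pool.Agent.Lib.MP_640417_ag.Far Pool.Agent.Lib.MP_640417_ag.Full

section

variable {E : Type} [Field E] [NumberField E]

private lemma corrA_exists_mem (φ₀ : Emb E) (H : Subgroup (galGroup E))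
    (hH : stabilizer (galGroup E) φ₀ ≤ H) (w : AlgebraicClosure ℚ)
    (hw : ∀ τ : AbsGal, galOf E τ ∈ H → τ w = w) : ∃ x ∈ fixAt φ₀ H, φ₀ x = w := by
  obtain ⟨y, hy⟩ := exists_preimage_of_fixed_emb φ₀ w (by
    intro τ hτ
    apply hw
    apply hH
    exact hτ)
  refine ⟨y, ?_, hy⟩
  intro ν hν
  obtain ⟨n, hn⟩ := exists_galOf ν
  rw [← hn, galOf_smul, galEmb_apply, hy]
  apply hw
  rw [hn]
  exact hν

private lemma corrA_mem_of_agree (φ₀ : Emb E) (H : Subgroup (galGroup E))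
    (hH : stabilizer (galGroup E) φ₀ ≤ H) (γ : galGroup E)
    (h : ∀ x ∈ fixAt φ₀ H, (γ • φ₀ : Emb E) x = φ₀ x) : γ ∈ H := by
  classical
  obtain ⟨τ₁, hτ₁⟩ := exists_galOf γ
  let I : Emb E → AlgebraicClosure ℚ := fun χ => if χ ∈ orbit H φ₀ then 1 else 0
  have hbij : ∀ τ : AbsGal, Function.Bijective (fun φ : Emb E => galEmb τ φ) := by
    intro τ
    let _ := galAction E
    exact MulAction.bijective τ
  have hInv : ∀ τ : AbsGal, galOf E τ ∈ H → ∀ χ, I (galEmb τ χ) = I χ := by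
    intro τ hτ χ
    have : galEmb τ χ ∈ orbit H φ₀ ↔ χ ∈ orbit H φ₀ := by
      have h1 : galEmb τ χ = (⟨galOf E τ, hτ⟩ : H) • χ := rfl
      rw [h1, ← orbit_eq_iff, ← orbit_eq_iff, orbit_smul]
    simp only [I, this]
  have hfix : ∀ y : E, ∀ τ : AbsGal, galOf E τ ∈ H →
      τ (∑ χ : Emb E, I χ * χ y) = ∑ χ : Emb E, I χ * χ y := by
    intro y τ hτ
    rw [map_sum]
    apply Fintype.sum_bijective (fun χ => galEmb τ χ) (hbij τ)
    intro χ
    rw [map_mul, hInv τ hτ]
    congr 1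
    simp only [I]
    split_ifs <;> simp
  have hval : ∀ y : E, ∀ τ : AbsGal,
      τ (∑ χ : Emb E, I χ * χ y) = ∑ χ : Emb E, I (galEmb τ⁻¹ χ) * χ y := by
    intro y τ
    rw [map_sum]
    apply Fintype.sum_bijective (fun χ => galEmb τ χ) (hbij τ)
    intro χ
    have h1 : galEmb τ⁻¹ (galEmb τ χ) = χ := by
      let _ := galAction E
      exact inv_smul_smul τ χ
    rw [map_mul, h1]
    congr 1
    simp only [I]
    split_ifs <;> simp
  have hkey : ∀ y : E, ∑ χ : Emb E, I (galEmb τ₁⁻¹ χ) * χ y = ∑ χ : Emb E, I χ * χ y := by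
    intro y
    obtain ⟨x, hx, hxw⟩ := corrA_exists_mem φ₀ H hH _ (hfix y)
    rw [← hval, ← hxw, ← galEmb_apply, ← galOf_smul, hτ₁]
    exact h x hx
  have h1 := coeff_eq _ _ hkey (γ • φ₀)
  have h2 : galEmb τ₁⁻¹ (γ • φ₀ : Emb E) = φ₀ := by
    rw [← hτ₁, galOf_smul]
    let _ := galAction E
    exact inv_smul_smul τ₁ φ₀
  rw [h2] at h1
  have h3 : (γ • φ₀ : Emb E) ∈ orbit H φ₀ := by
    by_contra h4
    simp only [I, if_neg h4, if_pos (mem_orbit_self φ₀)] at h1
    exact one_ne_zero h1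
  obtain ⟨ν, hν⟩ := h3
  have hν' : ν.1 • φ₀ = γ • φ₀ := hν
  have h5 : (ν.1)⁻¹ * γ ∈ stabilizer (galGroup E) φ₀ := by
    rw [mem_stabilizer_iff, mul_smul, ← hν', inv_smul_smul]
  have h6 : γ = ν.1 * ((ν.1)⁻¹ * γ) := by group
  rw [h6]
  exact H.mul_mem ν.2 (hH h5)

private lemma corrA_smul_congr (φ ψ : Emb E) (x : E) (h : φ x = ψ x) (γ : galGroup E) :
    (γ • φ : Emb E) x = (γ • ψ : Emb E) x := by
  obtain ⟨τ, hτ⟩ := exists_of_galGroup γ
  rw [hτ, hτ, galEmb_apply, galEmb_apply, h]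

/-- The subgroup of the elements which fix `φ₀ K` pointwise. -/
private noncomputable def corrA_sub (φ₀ : Emb E) (K : IntermediateField ℚ E) :
    Subgroup (galGroup E) where
  carrier := {γ | ∀ x ∈ K, (γ • φ₀ : Emb E) x = φ₀ x}
  mul_mem' := by
    intro a b ha hb x hx
    have h1 := corrA_smul_congr _ _ _ (hb x hx) a
    rw [← mul_smul] at h1
    rw [h1]
    exact ha x hx
  one_mem' := by
    intro x _
    rw [one_smul]
  inv_mem' := by
    intro a ha x hx
    have h1 := corrA_smul_congr _ _ _ (ha x hx) a⁻¹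
    rw [← mul_smul, inv_mul_cancel, one_smul] at h1
    exact h1.symm

private lemma corrA_surj (φ₀ : Emb E) (K : IntermediateField ℚ E) :
    ∃ H : Subgroup (galGroup E), stabilizer (galGroup E) φ₀ ≤ H ∧ fixAt φ₀ H = K := by
  refine ⟨corrA_sub φ₀ K, ?_, ?_⟩
  · intro γ hγ x _
    rw [mem_stabilizer_iff] at hγ
    rw [hγ]
  · apply le_antisymm
    · intro x hx
      have hx' : ∀ ν ∈ corrA_sub φ₀ K, (ν • φ₀ : Emb E) x = φ₀ x := hx
      obtain ⟨y, hy⟩ := exists_preimage_of_fixed (E := K) (L := AlgebraicClosure ℚ)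
        (isAlgebraic_rat_of_alg _) (φ₀.comp K.val.toRingHom) (φ₀ x) (by
          intro τ hτ
          have hmem : galOf E τ ∈ corrA_sub φ₀ K := by
            intro y hy
            rw [galOf_smul, galEmb_apply]
            exact hτ ⟨y, hy⟩
          have h1 := hx' _ hmem
          rw [galOf_smul, galEmb_apply] at h1
          exact h1)
      have h2 : (K.val y : E) = x := φ₀.injective hy
      rw [← h2]
      exact y.2
    · intro x hx ν hν
      exact hν x hx

end

theorem pCorrA : StCorrA := by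
  intro E _ _ _ φ₀ z hz
  refine ⟨corrA_surj φ₀, ?_, ?_⟩
  · intro H H' hH hH'
    constructor
    · intro hle γ hγ
      apply corrA_mem_of_agree φ₀ H hH
      intro x hx
      exact hle hx γ hγ
    · intro hle x hx ν hν
      exact hx ν (hle hν)
  · intro H hH
    obtain ⟨h1, _, h3⟩ := (pCorr E φ₀ z hz).2 H hH
    refine ⟨h1, h3, ?_⟩
    rintro ⟨x, hx, hne⟩ hzH
    apply hne
    have h4 := hx z hzH
    rw [hz, conjEmb_apply] at h4
    exact φ₀.injective h4

end Pool.Agent.Lib.MP_640417_ag.Sharp
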