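import Pool.Agent.Lib.MP_640417_ag.Sharp.SpecL
import Mathlib.NumberTheory.Harmonic.Bounds

/-!
# Many singular integer matrices

Every pair of odd numbers in `[1, R]` is a multiple of a coprime one, so
`∑ 1 / max(a, b) ^ 2` over the odd pairs is at most `∑_l 1 / l ^ 2 ≤ 2` times the same sum over the
coprime odd pairs.
-/

namespace Pool.Agent.Lib.MP_640417_ag.Sharp

open Finset

namespace CountMM

/-- odd pairs -/
def Q (R : ℕ) : Finset (ℕ × ℕ) :=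
  ((Icc 1 R) ×ˢ (Icc 1 R)).filter fun x => Odd x.1 ∧ Odd x.2

/-- coprime odd pairs -/
def P (R : ℕ) : Finset (ℕ × ℕ) := (Q R).filter fun x => Nat.Coprime x.1 x.2

/-- the weight -/
noncomputable def w (x : ℕ × ℕ) : ℝ := 1 / ((max x.1 x.2 : ℕ) : ℝ) ^ 2

lemma w_nonneg (x : ℕ × ℕ) : 0 ≤ w x := by unfold w; positivity

lemma mem_Q {R : ℕ} {x : ℕ × ℕ} : x ∈ Q R ↔ (1 ≤ x.1 ∧ x.1 ≤ R) ∧ (1 ≤ x.2 ∧ x.2 ≤ R) ∧
    Odd x.1 ∧ Odd x.2 := by
  unfold Q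
  rw [mem_filter, mem_product, mem_Icc, mem_Icc]
  tauto

lemma mem_P {R : ℕ} {x : ℕ × ℕ} : x ∈ P R ↔ (1 ≤ x.1 ∧ x.1 ≤ R) ∧ (1 ≤ x.2 ∧ x.2 ≤ R) ∧
    Odd x.1 ∧ Odd x.2 ∧ Nat.Coprime x.1 x.2 := by
  unfold P
  rw [mem_filter, mem_Q]
  tauto

lemma sum_sq (n : ℕ) : ∑ l ∈ Icc 1 (n + 1), 1 / (l : ℝ) ^ 2 ≤ 2 - 1 / ((n : ℝ) + 1) := by
  induction n with
  | zero => simp; norm_num
  | succ n ih =>
    rw [Finset.sum_Icc_succ_top (by omega)]
    have h1 : (0 : ℝ) < (n : ℝ) + 1 := by positivity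
    have h2 : (0 : ℝ) < (n : ℝ) + 2 := by positivity
    have h3 : 1 / (((n + 1 + 1 : ℕ) : ℝ)) ^ 2 ≤ 1 / ((n : ℝ) + 1) - 1 / ((n : ℝ) + 2) := by
      push_cast
      rw [div_sub_div _ _ h1.ne' h2.ne', div_le_div_iff₀ (by positivity) (by positivity)]
      nlinarith
    have h4 : 1 / ((((n + 1 : ℕ) : ℝ)) + 1) = 1 / ((n : ℝ) + 2) := by
      push_cast
      ring
    rw [h4]
    linarith

lemma sum_sq_le (R : ℕ) : ∑ l ∈ Icc 1 R, 1 / (l : ℝ) ^ 2 ≤ 2 := by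
  rcases Nat.eq_zero_or_pos R with rfl | hR
  · simp
  obtain ⟨n, rfl⟩ : ∃ n, R = n + 1 := ⟨R - 1, by omega⟩
  have h1 := sum_sq n
  have h2 : (0 : ℝ) < 1 / ((n : ℝ) + 1) := by positivity
  linarith

/-- from all odd pairs to coprime ones -/
lemma sum_Q_le (R : ℕ) : ∑ x ∈ Q R, w x ≤ 2 * ∑ x ∈ P R, w x := by
  set φ : ℕ × ℕ → ℕ × (ℕ × ℕ) := fun x =>
    (Nat.gcd x.1 x.2, (x.1 / Nat.gcd x.1 x.2, x.2 / Nat.gcd x.1 x.2)) with hφ
  set g : ℕ × (ℕ × ℕ) → ℝ := fun y => 1 / (y.1 : ℝ) ^ 2 * w y.2 with hg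
  have hinj : Set.InjOn φ (Q R) := by
    intro x _ y _ hxy
    simp only [hφ, Prod.mk.injEq] at hxy
    obtain ⟨h1, h2, h3⟩ := hxy
    have e1 : x.1 = Nat.gcd x.1 x.2 * (x.1 / Nat.gcd x.1 x.2) :=
      (Nat.mul_div_cancel' (Nat.gcd_dvd_left _ _)).symm
    have e2 : x.2 = Nat.gcd x.1 x.2 * (x.2 / Nat.gcd x.1 x.2) :=
      (Nat.mul_div_cancel' (Nat.gcd_dvd_right _ _)).symm
    have e3 : y.1 = Nat.gcd y.1 y.2 * (y.1 / Nat.gcd y.1 y.2) :=
      (Nat.mul_div_cancel' (Nat.gcd_dvd_left _ _)).symm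
    have e4 : y.2 = Nat.gcd y.1 y.2 * (y.2 / Nat.gcd y.1 y.2) :=
      (Nat.mul_div_cancel' (Nat.gcd_dvd_right _ _)).symm
    apply Prod.ext
    · rw [e1, h2, h1, ← e3]
    · rw [e2, h3, h1, ← e4]
  have hw : ∀ x ∈ Q R, w x = g (φ x) := by
    intro x hx
    rw [mem_Q] at hx
    have hd : 0 < Nat.gcd x.1 x.2 := Nat.gcd_pos_of_pos_left _ hx.1.1
    have e1 : Nat.gcd x.1 x.2 * (x.1 / Nat.gcd x.1 x.2) = x.1 :=
      Nat.mul_div_cancel' (Nat.gcd_dvd_left _ _)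
    have e2 : Nat.gcd x.1 x.2 * (x.2 / Nat.gcd x.1 x.2) = x.2 :=
      Nat.mul_div_cancel' (Nat.gcd_dvd_right _ _)
    have e3 : max x.1 x.2 =
        Nat.gcd x.1 x.2 * max (x.1 / Nat.gcd x.1 x.2) (x.2 / Nat.gcd x.1 x.2) := by
      rw [← Nat.mul_max_mul_left, e1, e2]
    simp only [hg, hφ, w]
    rw [e3]
    push_cast
    rw [mul_pow, one_div_mul_one_div]
  have himg : (Q R).image φ ⊆ (Icc 1 R) ×ˢ (P R) := by
    intro y hy
    rw [mem_image] at hy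
    obtain ⟨x, hx, rfl⟩ := hy
    rw [mem_Q] at hx
    have hd : 0 < Nat.gcd x.1 x.2 := Nat.gcd_pos_of_pos_left _ hx.1.1
    have e1 : Nat.gcd x.1 x.2 * (x.1 / Nat.gcd x.1 x.2) = x.1 :=
      Nat.mul_div_cancel' (Nat.gcd_dvd_left _ _)
    have e2 : Nat.gcd x.1 x.2 * (x.2 / Nat.gcd x.1 x.2) = x.2 :=
      Nat.mul_div_cancel' (Nat.gcd_dvd_right _ _)
    rw [mem_product, mem_Icc, mem_P]
    have o1 : Odd (x.1 / Nat.gcd x.1 x.2) := by
      have := hx.2.2.1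
      rw [← e1] at this
      exact (Nat.odd_mul.mp this).2
    have o2 : Odd (x.2 / Nat.gcd x.1 x.2) := by
      have := hx.2.2.2
      rw [← e2] at this
      exact (Nat.odd_mul.mp this).2
    refine ⟨⟨hd, (Nat.gcd_le_left _ hx.1.1).trans hx.1.2⟩, ⟨o1.pos, ?_⟩, ⟨o2.pos, ?_⟩, o1, o2,
      Nat.coprime_div_gcd_div_gcd hd⟩
    · exact (Nat.div_le_self _ _).trans hx.1.2
    · exact (Nat.div_le_self _ _).trans hx.2.1.2
  have hgn : ∀ y, 0 ≤ g y := fun y => mul_nonneg (by positivity) (w_nonneg _)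
  calc ∑ x ∈ Q R, w x = ∑ x ∈ Q R, g (φ x) := sum_congr rfl hw
    _ = ∑ y ∈ (Q R).image φ, g y := (sum_image hinj).symm
    _ ≤ ∑ y ∈ (Icc 1 R) ×ˢ (P R), g y :=
        sum_le_sum_of_subset_of_nonneg himg fun y _ _ => hgn y
    _ = (∑ l ∈ Icc 1 R, 1 / (l : ℝ) ^ 2) * ∑ x ∈ P R, w x := by
        rw [sum_product, sum_mul_sum]
    _ ≤ _ := mul_le_mul_of_nonneg_right (sum_sq_le R) (sum_nonneg fun x _ => w_nonneg x)

/-- lower bound for the sum over all odd pairs -/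
lemma le_sum_Q {R : ℕ} (hR : 1 ≤ R) : Real.log R / 8 ≤ ∑ x ∈ Q R, w x := by
  set n := (R + 1) / 2 with hn
  set φ : (_ : ℕ) × ℕ → ℕ × ℕ := fun y => (2 * y.1 + 1, 2 * y.2 + 1) with hφ
  set J : Finset ((_ : ℕ) × ℕ) := (range n).sigma fun a => range (a + 1) with hJ
  have hinj : Set.InjOn φ J := by
    rintro ⟨a, b⟩ _ ⟨a', b'⟩ _ h
    simp only [hφ, Prod.mk.injEq] at h
    have h1 : a = a' := by omega
    have h2 : b = b' := by omega
    subst h1 h2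
    rfl
  have himg : J.image φ ⊆ Q R := by
    intro x hx
    rw [mem_image] at hx
    obtain ⟨y, hy, rfl⟩ := hx
    rw [hJ, mem_sigma, mem_range, mem_range] at hy
    rw [mem_Q]
    simp only [hφ]
    refine ⟨⟨by omega, by omega⟩, ⟨by omega, by omega⟩, ⟨y.1, rfl⟩, ⟨y.2, rfl⟩⟩
  have h1 : ∑ y ∈ J, w (φ y) ≤ ∑ x ∈ Q R, w x := by
    rw [← sum_image hinj]
    exact sum_le_sum_of_subset_of_nonneg himg fun y _ _ => w_nonneg y
  have h2 : ∑ y ∈ J, w (φ y) = ∑ a ∈ range n, ∑ b ∈ range (a + 1), w (2 * a + 1, 2 * b + 1) := by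
    rw [hJ, sum_sigma]
  have h3 : ∀ a ∈ range n, 1 / 4 * ((a : ℝ) + 1)⁻¹ ≤
      ∑ b ∈ range (a + 1), w (2 * a + 1, 2 * b + 1) := by
    intro a _
    have e : ∀ b ∈ range (a + 1), w (2 * a + 1, 2 * b + 1) = 1 / (2 * (a : ℝ) + 1) ^ 2 := by
      intro b hb
      rw [mem_range] at hb
      unfold w
      simp only
      rw [max_eq_left (by omega)]
      push_cast
      rfl
    rw [sum_congr rfl e, sum_const, card_range, nsmul_eq_mul]
    push_cast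
    have ha : (0 : ℝ) ≤ a := by positivity
    rw [one_div_mul_eq_div, inv_eq_one_div, mul_one_div, div_div,
      div_le_div_iff₀ (by positivity) (by positivity)]
    nlinarith
  have h4 : 1 / 4 * ∑ a ∈ range n, ((a : ℝ) + 1)⁻¹ ≤
      ∑ a ∈ range n, ∑ b ∈ range (a + 1), w (2 * a + 1, 2 * b + 1) := by
    rw [mul_sum]
    exact sum_le_sum h3
  have h5 : Real.log ((n + 1 : ℕ) : ℝ) ≤ ∑ a ∈ range n, ((a : ℝ) + 1)⁻¹ := by
    have := log_add_one_le_harmonic n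
    unfold harmonic at this
    push_cast at this
    push_cast
    exact this
  have h6 : Real.log R ≤ 2 * Real.log ((n + 1 : ℕ) : ℝ) := by
    have hRr : (0 : ℝ) < R := by exact_mod_cast hR
    have e : 2 * Real.log ((n + 1 : ℕ) : ℝ) = Real.log (((n + 1 : ℕ) : ℝ) ^ 2) := by
      rw [Real.log_pow]
      norm_num
    rw [e]
    apply Real.log_le_log hRr
    have h7 : R ≤ (n + 1) ^ 2 := by
      have : R ≤ 2 * n := by omega
      nlinarith
    exact_mod_cast h7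
  rw [h2] at h1
  linarith

/-- the index set -/
def I (R : ℕ) : Finset ((_ : ℕ × ℕ) × (ℕ × ℕ)) :=
  (P R).sigma fun x => (Icc 1 (R / max x.1 x.2)) ×ˢ (range ((R / max x.1 x.2 + 1) / 2))

/-- the matrices -/
def A (y : (_ : ℕ × ℕ) × (ℕ × ℕ)) : Matrix (Fin 2) (Fin 2) ℤ :=
  !![(y.1.1 : ℤ) * y.2.1, (y.1.1 : ℤ) * (2 * y.2.2 + (1 - y.2.1 % 2 : ℕ));
    (y.1.2 : ℤ) * y.2.1, (y.1.2 : ℤ) * (2 * y.2.2 + (1 - y.2.1 % 2 : ℕ))]

lemma card_I {R : ℕ} : (R : ℝ) ^ 2 / 8 * ∑ x ∈ P R, w x ≤ ((I R).card : ℝ) := by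
  unfold I
  rw [card_sigma, mul_sum]
  push_cast
  refine sum_le_sum fun x hx => ?_
  rw [mem_P] at hx
  rw [card_product, Nat.card_Icc, card_range, Nat.add_sub_cancel]
  set h := max x.1 x.2 with hh
  have hpos : 0 < h := lt_of_lt_of_le hx.1.1 (le_max_left _ _)
  have hle : h ≤ R := max_le hx.1.2 hx.2.1.2
  set K := R / h with hK
  have hK1 : 1 ≤ K := (Nat.one_le_div_iff hpos).mpr hle
  have hK2 : R ≤ 2 * h * K := by
    have h1 : R < h * (K + 1) := by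
      rw [hK]
      have := Nat.lt_mul_div_succ R hpos
      linarith
    nlinarith
  have hposr : (0 : ℝ) < h := by exact_mod_cast hpos
  have h2 : (R : ℝ) / h ≤ 2 * K := by
    rw [div_le_iff₀ hposr]
    have : (R : ℝ) ≤ 2 * h * K := by exact_mod_cast hK2
    linarith
  have h3 : (K : ℝ) ≤ 2 * (((K + 1) / 2 : ℕ) : ℝ) := by
    have : K ≤ 2 * ((K + 1) / 2) := by omega
    exact_mod_cast this
  have h4 : ((R : ℝ) / h) ^ 2 ≤ (2 * K) ^ 2 := pow_le_pow_left₀ (by positivity) h2 2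
  have e : (R : ℝ) ^ 2 / 8 * w x = ((R : ℝ) / h) ^ 2 / 8 := by
    unfold w
    rw [← hh]
    field_simp
  rw [e]
  push_cast
  have hKr : (0 : ℝ) ≤ K := by positivity
  nlinarith

lemma A_inj (R : ℕ) : Set.InjOn A (I R) := by
  rintro ⟨⟨p, q⟩, ⟨t, u⟩⟩ hy ⟨⟨p', q'⟩, ⟨t', u'⟩⟩ hy' h
  have hy1 := hy
  have hy2 := hy'
  unfold I at hy1 hy2
  rw [mem_coe, mem_sigma, mem_P, mem_product, mem_Icc] at hy1 hy2
  obtain ⟨⟨⟨hp, -⟩, ⟨hq, -⟩, -, -, hc⟩, ⟨ht, -⟩, -⟩ := hy1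
  obtain ⟨⟨⟨hp', -⟩, ⟨hq', -⟩, -, -, hc'⟩, ⟨ht', -⟩, -⟩ := hy2
  simp only at hp hq hc ht hp' hq' hc' ht'
  have e00 : (p : ℤ) * t = p' * t' := by
    have := congrFun (congrFun h 0) 0
    simpa [A] using this
  have e10 : (q : ℤ) * t = q' * t' := by
    have := congrFun (congrFun h 1) 0
    simpa [A] using this
  have e01 : (p : ℤ) * (2 * u + (1 - t % 2 : ℕ)) = p' * (2 * u' + (1 - t' % 2 : ℕ)) := by
    have := congrFun (congrFun h 0) 1
    simpa [A] using this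
  have f00 : p * t = p' * t' := by exact_mod_cast e00
  have f10 : q * t = q' * t' := by exact_mod_cast e10
  have htt : t = t' := by
    have g1 : Nat.gcd (p * t) (q * t) = t := by
      rw [Nat.gcd_mul_right, hc, one_mul]
    have g2 : Nat.gcd (p' * t') (q' * t') = t' := by
      rw [Nat.gcd_mul_right, hc', one_mul]
    rw [← g1, ← g2, f00, f10]
  subst htt
  have hpp : p = p' := Nat.eq_of_mul_eq_mul_right ht f00
  have hqq : q = q' := Nat.eq_of_mul_eq_mul_right ht f10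
  subst hpp hqq
  have huu : u = u' := by
    have hp0 : (p : ℤ) ≠ 0 := by
      have : p ≠ 0 := by omega
      exact_mod_cast this
    have := mul_left_cancel₀ hp0 e01
    have h2 : (2 : ℤ) * u = 2 * u' := by linarith
    omega
  subst huu
  rfl

/-- the set of matrices -/
def Z (R : ℕ) : Set (Matrix (Fin 2) (Fin 2) ℤ) :=
  {A | (∀ i j, |A i j| ≤ R) ∧ A.det = 0 ∧ Odd (A 0 0 + A 1 1) ∧ Odd (A 0 1 + A 1 0)}

lemma Z_finite (R : ℕ) : (Z R).Finite := by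
  refine (Set.finite_Icc (fun _ _ => -(R : ℤ) : Fin 2 → Fin 2 → ℤ) (fun _ _ => (R : ℤ))).subset ?_
  rintro A ⟨hA, -⟩
  exact ⟨fun i j => (abs_le.mp (hA i j)).1, fun i j => (abs_le.mp (hA i j)).2⟩

lemma A_mem {R : ℕ} {y : (_ : ℕ × ℕ) × (ℕ × ℕ)} (hy : y ∈ I R) : A y ∈ Z R := by
  obtain ⟨⟨p, q⟩, ⟨t, u⟩⟩ := y
  unfold I at hy
  rw [mem_sigma, mem_P, mem_product, mem_Icc, mem_range] at hy
  obtain ⟨⟨⟨hp, -⟩, ⟨hq, -⟩, op, oq, -⟩, ⟨ht, ht2⟩, hu⟩ := hy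
  simp only at hp hq op oq ht ht2 hu
  set h := max p q with hh
  have hpos : 0 < h := lt_of_lt_of_le hp (le_max_left _ _)
  have hK : h * (R / h) ≤ R := Nat.mul_div_le R h
  set K := R / h with hKdef
  set v := 2 * u + (1 - t % 2) with hv
  have hvK : v ≤ K := by omega
  have hb : ∀ x y : ℕ, x ≤ h → y ≤ K → |((x : ℤ) * y)| ≤ R := by
    intro x y hx hy
    have h1 : x * y ≤ R := (Nat.mul_le_mul hx hy).trans hK
    rw [abs_of_nonneg (by positivity)]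
    exact_mod_cast h1
  have hve : ((2 : ℤ) * u + (1 - t % 2 : ℕ)) = (v : ℤ) := by
    rw [hv]
    push_cast
    ring
  have hA : A ⟨(p, q), (t, u)⟩ = !![(p : ℤ) * t, (p : ℤ) * v; (q : ℤ) * t, (q : ℤ) * v] := by
    unfold A
    simp only [hve]
  rw [hA]
  have hodd : Odd (t + v) := by
    rw [Nat.odd_iff]
    omega
  obtain ⟨a, ha⟩ := op
  obtain ⟨b, hb'⟩ := oq
  obtain ⟨c, hc⟩ := hodd
  have hpz : (p : ℤ) = 2 * a + 1 := by exact_mod_cast ha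
  have hqz : (q : ℤ) = 2 * b + 1 := by exact_mod_cast hb'
  have hcz : (t : ℤ) + v = 2 * c + 1 := by exact_mod_cast hc
  refine ⟨?_, ?_, ?_, ?_⟩
  · intro i j
    fin_cases i <;> fin_cases j
    · exact hb p t (le_max_left _ _) ht2
    · exact hb p v (le_max_left _ _) hvK
    · exact hb q t (le_max_right _ _) ht2
    · exact hb q v (le_max_right _ _) hvK
  · rw [Matrix.det_fin_two_of]
    ring
  · simp only [Matrix.of_apply, Matrix.cons_val', Matrix.cons_val_zero, Matrix.cons_val_one,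
      Matrix.cons_val_fin_one]
    refine ⟨a * t + b * v + c, ?_⟩
    rw [hpz, hqz]
    linear_combination hcz
  · simp only [Matrix.of_apply, Matrix.cons_val', Matrix.cons_val_zero, Matrix.cons_val_one,
      Matrix.cons_val_fin_one]
    refine ⟨a * v + b * t + c, ?_⟩
    rw [hpz, hqz]
    linear_combination hcz

end CountMM

open CountMM in
theorem pCountM : StCountM := by
  refine ⟨1 / 128, by norm_num, fun R hR => ?_⟩
  have h1 := le_sum_Q (R := R) (by omega)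
  have h2 := sum_Q_le R
  have h3 := card_I (R := R)
  have h4 : (I R).card ≤ (Z R).ncard := by
    rw [← Finset.card_image_of_injOn (A_inj R), ← Set.ncard_coe_finset]
    refine Set.ncard_le_ncard ?_ (Z_finite R)
    intro B hB
    rw [mem_coe, mem_image] at hB
    obtain ⟨y, hy, rfl⟩ := hB
    exact A_mem hy
  have h5 : ((I R).card : ℝ) ≤ ((Z R).ncard : ℝ) := by exact_mod_cast h4
  have h6 : (R : ℝ) ^ 2 / 8 * (Real.log R / 16) ≤ (R : ℝ) ^ 2 / 8 * ∑ x ∈ P R, w x :=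
    mul_le_mul_of_nonneg_left (by linarith) (by positivity)
  change _ ≤ ((Z R).ncard : ℝ)
  linarith

end Pool.Agent.Lib.MP_640417_ag.Sharp
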