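import Pool.Agent.Lib.MP_640417_ag.Sharp.SpecL

/-!
# Odd functions on the dihedral group of order `8` with a singular matrix
-/

namespace Pool.Agent.Lib.MP_640417_ag.Sharp

open Module Finset MulAction Pool.Agent.Lib.MP_640417_ag.Far Pool.Agent.Lib.MP_640417_ag.Full

/-- The odd function with given values at `1, r 1, sr 0, sr 1`. -/
private def dihCount4D (a b c e : ℤ) : DihedralGroup 4 → ℤ
  | .r i => (![a, b, -a, -b] : Fin 4 → ℤ) i
  | .sr i => (![c, e, -c, -e] : Fin 4 → ℤ) i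

private theorem dihCount4D_forall {P : DihedralGroup 4 → Prop}
    (h : ∀ i : Fin 4, P (.r i) ∧ P (.sr i)) : ∀ t, P t := by
  rintro (i | i)
  · exact (h i).1
  · exact (h i).2

private theorem dihCount4D_neg (a b c e : ℤ) (t : DihedralGroup 4) :
    dihCount4D a b c e (DihedralGroup.r 2 * t) = - dihCount4D a b c e t := by
  revert t
  apply dihCount4D_forall
  intro i
  rw [DihedralGroup.r_mul_r, DihedralGroup.r_mul_sr]
  fin_cases i
  · exact ⟨rfl, rfl⟩
  · exact ⟨rfl, rfl⟩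
  · exact ⟨(neg_neg a).symm, (neg_neg c).symm⟩
  · exact ⟨(neg_neg b).symm, (neg_neg e).symm⟩

private theorem dihCount4D_values {a b c e : ℤ} {P : ℤ → Prop} (ha : P a) (ha' : P (-a))
    (hb : P b) (hb' : P (-b)) (hc : P c) (hc' : P (-c)) (he : P e) (he' : P (-e))
    (t : DihedralGroup 4) : P (dihCount4D a b c e t) := by
  revert t
  apply dihCount4D_forall
  intro i
  fin_cases i
  · exact ⟨ha, hc⟩
  · exact ⟨hb, he⟩
  · exact ⟨ha', hc'⟩
  · exact ⟨hb', he'⟩

private theorem dihCount4_univ : (univ : Finset (DihedralGroup 4)) =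
    {.r 0, .r 1, .r 2, .r 3, .sr 0, .sr 1, .sr 2, .sr 3} := by
  decide

private theorem dihCount4D_sum (a b c e : ℤ) :
    ∑ t, dihCount4D a b c e t • rho 4 t =
      !![2 * (a + c), 2 * (-b - e); 2 * (b - e), 2 * (a - c)] := by
  have h0 : rho 4 (.r 0) = !![1, 0; 0, 1] := by decide
  have h1 : rho 4 (.r 1) = !![0, -1; 1, 0] := by decide
  have h2 : rho 4 (.r 2) = !![-1, 0; 0, -1] := by decide
  have h3 : rho 4 (.r 3) = !![0, 1; -1, 0] := by decide
  have h4 : rho 4 (.sr 0) = !![1, 0; 0, -1] := by decide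
  have h5 : rho 4 (.sr 1) = !![0, -1; -1, 0] := by decide
  have h6 : rho 4 (.sr 2) = !![-1, 0; 0, 1] := by decide
  have h7 : rho 4 (.sr 3) = !![0, 1; 1, 0] := by decide
  have v0 : dihCount4D a b c e (.r 0) = a := rfl
  have v1 : dihCount4D a b c e (.r 1) = b := rfl
  have v2 : dihCount4D a b c e (.r 2) = -a := rfl
  have v3 : dihCount4D a b c e (.r 3) = -b := rfl
  have v4 : dihCount4D a b c e (.sr 0) = c := rfl
  have v5 : dihCount4D a b c e (.sr 1) = e := rfl
  have v6 : dihCount4D a b c e (.sr 2) = -c := rfl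
  have v7 : dihCount4D a b c e (.sr 3) = -e := rfl
  rw [dihCount4_univ, sum_insert (by decide), sum_insert (by decide), sum_insert (by decide),
    sum_insert (by decide), sum_insert (by decide), sum_insert (by decide),
    sum_insert (by decide), sum_singleton, h0, h1, h2, h3, h4, h5, h6, h7, v0, v1, v2, v3, v4, v5,
    v6, v7]
  ext i j
  fin_cases i <;> fin_cases j <;> simp <;> ring

private theorem dihCount4D_det (a b c e : ℤ) :
    (∑ t, dihCount4D a b c e t • rho 4 t).det =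
      4 * ((a + c) * (a - c) + (b + e) * (b - e)) := by
  rw [dihCount4D_sum, Matrix.det_fin_two_of]
  ring

/-- The set of `StDihCount4`. -/
private def dihCount4S (m : ℕ) : Set (DihedralGroup 4 → ℤ) :=
  {d | (∀ t, d (DihedralGroup.r 2 * t) = - d t) ∧ (∀ t, d t ^ 2 ≤ m) ∧
    (∀ t, (2 : ℤ) ∣ m - d t) ∧ (∑ t, d t • rho 4 t).det = 0}

private theorem dihCount4S_finite (m : ℕ) : (dihCount4S m).Finite := by
  apply (Set.finite_Icc (fun _ : DihedralGroup 4 => -(m : ℤ)) (fun _ => (m : ℤ))).subset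
  intro d hd
  have h1 : ∀ t, -(m : ℤ) ≤ d t ∧ d t ≤ m := by
    intro t
    have h2 := hd.2.1 t
    constructor <;> nlinarith [sq_nonneg (d t + 1), sq_nonneg (d t - 1)]
  exact ⟨fun t => (h1 t).1, fun t => (h1 t).2⟩

private theorem dihCount4S_mem {m : ℕ} {a b c e : ℤ} (ha : a ^ 2 ≤ m) (hb : b ^ 2 ≤ m)
    (hc : c ^ 2 ≤ m) (he : e ^ 2 ≤ m) (ha' : (2 : ℤ) ∣ m - a) (hb' : (2 : ℤ) ∣ m - b)
    (hc' : (2 : ℤ) ∣ m - c) (he' : (2 : ℤ) ∣ m - e)
    (h : (a + c) * (a - c) + (b + e) * (b - e) = 0) :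
    dihCount4D a b c e ∈ dihCount4S m := by
  refine ⟨dihCount4D_neg a b c e, ?_, ?_, ?_⟩
  · exact dihCount4D_values (P := fun x => x ^ 2 ≤ (m : ℤ)) ha (by rwa [neg_sq]) hb
      (by rwa [neg_sq]) hc (by rwa [neg_sq]) he (by rwa [neg_sq])
  · exact dihCount4D_values (P := fun x => (2 : ℤ) ∣ m - x) ha' (by omega) hb' (by omega) hc'
      (by omega) he' (by omega)
  · rw [dihCount4D_det, h, mul_zero]

private theorem dihCount4S_nonempty (m : ℕ) (hm : 1 ≤ m) : 1 ≤ (dihCount4S m).ncard := by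
  have h1 : ((m % 2 : ℕ) : ℤ) ^ 2 ≤ m := by
    rcases Nat.mod_two_eq_zero_or_one m with h | h <;> rw [h] <;> push_cast <;> omega
  have h2 : (2 : ℤ) ∣ m - ((m % 2 : ℕ) : ℤ) := by omega
  have h3 := dihCount4S_mem h1 h1 h1 h1 h2 h2 h2 h2 (by ring)
  exact (Set.ncard_pos (dihCount4S_finite m)).2 ⟨_, h3⟩

private theorem dihCount4S_ge (m R : ℕ) (hR : 16 * R ^ 2 ≤ m) :
    ({A : Matrix (Fin 2) (Fin 2) ℤ | (∀ i j, |A i j| ≤ R) ∧ A.det = 0 ∧ Odd (A 0 0 + A 1 1) ∧
      Odd (A 0 1 + A 1 0)}.ncard) ≤ (dihCount4S m).ncard := by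
  set f : ℤ := 2 - ((m % 2 : ℕ) : ℤ) with hf
  have hf0 : 1 ≤ f := by omega
  have hf1 : f ≤ 2 := by omega
  have hR' : 16 * (R : ℤ) ^ 2 ≤ m := by exact_mod_cast hR
  have hfin := dihCount4S_finite m
  apply Set.ncard_le_ncard_of_injOn (ht := hfin)
    (fun Q : Matrix (Fin 2) (Fin 2) ℤ => dihCount4D (f * (Q 0 0 + Q 1 1)) (f * (Q 1 0 - Q 0 1))
      (f * (Q 0 0 - Q 1 1)) (f * (-Q 0 1 - Q 1 0)))
  · rintro Q ⟨hQ, hdet, ho1, ho2⟩
    have hb : ∀ i j, -(R : ℤ) ≤ Q i j ∧ Q i j ≤ R := fun i j => abs_le.1 (hQ i j)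
    have hsq : ∀ x : ℤ, -(2 * (R : ℤ)) ≤ x → x ≤ 2 * R → (f * x) ^ 2 ≤ m := by
      intro x hx1 hx2
      have h1 : x ^ 2 ≤ 4 * (R : ℤ) ^ 2 := by nlinarith
      have h2 : f ^ 2 ≤ 4 := by nlinarith
      have h3 : (f * x) ^ 2 ≤ 4 * x ^ 2 := by
        rw [mul_pow]
        exact mul_le_mul_of_nonneg_right h2 (sq_nonneg x)
      linarith
    have hpar : ∀ x : ℤ, Odd x → (2 : ℤ) ∣ m - f * x := by
      rintro x ⟨k, rfl⟩
      rcases Nat.mod_two_eq_zero_or_one m with h | h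
      · have h1 : f = 2 := by rw [hf, h]; norm_num
        rw [h1]
        omega
      · have h1 : f = 1 := by rw [hf, h]; norm_num
        rw [h1]
        omega
    obtain ⟨k, hk⟩ := ho1
    obtain ⟨l, hl⟩ := ho2
    have e00 := hb 0 0
    have e01 := hb 0 1
    have e10 := hb 1 0
    have e11 := hb 1 1
    refine dihCount4S_mem (hsq _ (by linarith) (by linarith)) (hsq _ (by linarith) (by linarith))
      (hsq _ (by linarith) (by linarith)) (hsq _ (by linarith) (by linarith))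
      (hpar _ ⟨k, hk⟩) (hpar _ ⟨l - Q 0 1, by linarith⟩) (hpar _ ⟨k - Q 1 1, by linarith⟩)
      (hpar _ ⟨-l - 1, by linarith⟩) ?_
    rw [Matrix.det_fin_two] at hdet
    linear_combination 4 * f ^ 2 * hdet
  · rintro Q - Q' - h
    have hf2 : f ≠ 0 := by omega
    have h1 : f * (Q 0 0 + Q 1 1) = f * (Q' 0 0 + Q' 1 1) := congrFun h (.r 0)
    have h2 : f * (Q 1 0 - Q 0 1) = f * (Q' 1 0 - Q' 0 1) := congrFun h (.r 1)
    have h3 : f * (Q 0 0 - Q 1 1) = f * (Q' 0 0 - Q' 1 1) := congrFun h (.sr 0)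
    have h4 : f * (-Q 0 1 - Q 1 0) = f * (-Q' 0 1 - Q' 1 0) := congrFun h (.sr 1)
    have h1' := mul_left_cancel₀ hf2 h1
    have h2' := mul_left_cancel₀ hf2 h2
    have h3' := mul_left_cancel₀ hf2 h3
    have h4' := mul_left_cancel₀ hf2 h4
    ext i j
    fin_cases i <;> fin_cases j <;> simp only [Fin.zero_eta, Fin.mk_one] <;> omega

theorem pDihCount4 (hCountM : StCountM) : StDihCount4 := by
  obtain ⟨c, hc, hM⟩ := hCountM
  refine ⟨min (c / 288) (1 / 4096), lt_min (by positivity) (by norm_num), fun m hm => ?_⟩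
  change min (c / 288) (1 / 4096) * (m : ℝ) * Real.log m ≤ ((dihCount4S m).ncard : ℝ)
  have hm' : (2 : ℝ) ≤ m := by exact_mod_cast hm
  have hlog : 0 ≤ Real.log m := Real.log_nonneg (by linarith)
  by_cases hcase : m < 64
  · have h1 : (1 : ℝ) ≤ (dihCount4S m).ncard := by
      exact_mod_cast dihCount4S_nonempty m (by omega)
    refine le_trans ?_ h1
    have h2 : Real.log m ≤ m := (Real.log_le_sub_one_of_pos (by linarith)).trans (by linarith)
    have h3 : (m : ℝ) ≤ 64 := by exact_mod_cast hcase.le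
    calc min (c / 288) (1 / 4096) * (m : ℝ) * Real.log m
        ≤ (1 / 4096) * (m : ℝ) * Real.log m := by
          gcongr
          exact min_le_right _ _
      _ ≤ (1 / 4096) * 64 * 64 := by
          gcongr
          exact h2.trans h3
      _ = 1 := by norm_num
  · push Not at hcase
    set s := Nat.sqrt m with hs
    have hs1 : s * s ≤ m := Nat.sqrt_le m
    have hs2 : m < (s + 1) * (s + 1) := Nat.lt_succ_sqrt m
    have hs8 : 8 ≤ s := by
      rw [hs, Nat.le_sqrt]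
      omega
    set R := s / 4 with hR
    have hR2 : 2 ≤ R := by omega
    have hRs : 4 * R ≤ s := by omega
    have hRs' : s + 1 ≤ 6 * R := by omega
    have h16 : 16 * R ^ 2 ≤ m := by nlinarith
    have h36 : m ≤ 36 * R ^ 2 := by nlinarith
    have hRm : m ≤ R ^ 8 := by
      have h1 : 36 ≤ R ^ 6 := by
        calc 36 ≤ 2 ^ 6 := by norm_num
          _ ≤ R ^ 6 := Nat.pow_le_pow_left hR2 6
      calc m ≤ 36 * R ^ 2 := h36
        _ ≤ R ^ 6 * R ^ 2 := Nat.mul_le_mul_right _ h1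
        _ = R ^ 8 := by ring
    have hlogm : Real.log m ≤ 8 * Real.log R := by
      have h1 : (m : ℝ) ≤ (R : ℝ) ^ 8 := by exact_mod_cast hRm
      calc Real.log m ≤ Real.log ((R : ℝ) ^ 8) := Real.log_le_log (by linarith) h1
        _ = 8 * Real.log R := by rw [Real.log_pow]; norm_num
    have h36' : (m : ℝ) ≤ 36 * (R : ℝ) ^ 2 := by exact_mod_cast h36
    calc min (c / 288) (1 / 4096) * (m : ℝ) * Real.log m
        ≤ (c / 288) * (m : ℝ) * Real.log m := by
          gcongr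
          exact min_le_left _ _
      _ ≤ (c / 288) * (36 * (R : ℝ) ^ 2) * (8 * Real.log R) := by gcongr
      _ = c * (R : ℝ) ^ 2 * Real.log R := by ring
      _ ≤ _ := hM R hR2
      _ ≤ ((dihCount4S m).ncard : ℝ) := by exact_mod_cast dihCount4S_ge m R h16

end Pool.Agent.Lib.MP_640417_ag.Sharp
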