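import Pool.Agent.Lib.MP_640417_ag.Sharp.SpecL

/-!
# Odd functions on the dihedral group of order 12 with a singular matrix
-/

namespace Pool.Agent.Lib.MP_640417_ag.Sharp

open Module Finset MulAction Pool.Agent.Lib.MP_640417_ag.Far Pool.Agent.Lib.MP_640417_ag.Full

namespace DihCount6

/-- The odd function on the dihedral group of order `12` with given six values. -/
def dd (a b : Fin 3 → ℤ) : DihedralGroup 6 → ℤ
  | .r i => (![a 0, a 1, a 2, - a 0, - a 1, - a 2] : Fin 6 → ℤ) i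
  | .sr i => (![b 0, b 1, b 2, - b 0, - b 1, - b 2] : Fin 6 → ℤ) i

private theorem sum_dih {M : Type*} [AddCommMonoid M] (f : DihedralGroup 6 → M) :
    ∑ t, f t = ∑ i : Fin 6, f (.r i) + ∑ i : Fin 6, f (.sr i) := by
  let e : Fin 6 ⊕ Fin 6 ≃ DihedralGroup 6 :=
    { toFun := fun x => match x with
        | .inl i => .r i
        | .inr i => .sr i
      invFun := fun x => match x with
        | .r i => .inl i
        | .sr i => .inr i
      left_inv := by rintro (i | i) <;> rfl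
      right_inv := by rintro (i | i) <;> rfl }
  rw [← Equiv.sum_comp e f, Fintype.sum_sum_type]
  rfl

private theorem dd_odd (a b : Fin 3 → ℤ) (t : DihedralGroup 6) :
    dd a b (DihedralGroup.r 3 * t) = - dd a b t := by
  have key : ∀ a : Fin 3 → ℤ, ∀ i : Fin 6,
      (![a 0, a 1, a 2, - a 0, - a 1, - a 2] : Fin 6 → ℤ) (3 + i) =
      - (![a 0, a 1, a 2, - a 0, - a 1, - a 2] : Fin 6 → ℤ) i := by
    intro a i
    fin_cases i
    · exact rfl
    · exact rfl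
    · exact rfl
    · exact (neg_neg (a 0)).symm
    · exact (neg_neg (a 1)).symm
    · exact (neg_neg (a 2)).symm
  have key' : ∀ a : Fin 3 → ℤ, ∀ i : Fin 6,
      (![a 0, a 1, a 2, - a 0, - a 1, - a 2] : Fin 6 → ℤ) (i - 3) =
      - (![a 0, a 1, a 2, - a 0, - a 1, - a 2] : Fin 6 → ℤ) i := by
    intro a i
    have h : i - 3 = 3 + i := by
      fin_cases i <;> rfl
    rw [h]
    exact key a i
  rcases t with i | i
  · exact key a i
  · exact key' b i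

private theorem dd_all (a b : Fin 3 → ℤ) (P : ℤ → Prop) (hn : ∀ x, P x → P (-x))
    (ha : ∀ i, P (a i)) (hb : ∀ i, P (b i)) (t : DihedralGroup 6) : P (dd a b t) := by
  rcases t with i | i
  · change P ((![a 0, a 1, a 2, - a 0, - a 1, - a 2] : Fin 6 → ℤ) i)
    change Fin 6 at i
    fin_cases i
    · exact ha 0
    · exact ha 1
    · exact ha 2
    · exact hn _ (ha 0)
    · exact hn _ (ha 1)
    · exact hn _ (ha 2)
  · change P ((![b 0, b 1, b 2, - b 0, - b 1, - b 2] : Fin 6 → ℤ) i)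
    change Fin 6 at i
    fin_cases i
    · exact hb 0
    · exact hb 1
    · exact hb 2
    · exact hn _ (hb 0)
    · exact hn _ (hb 1)
    · exact hn _ (hb 2)

private theorem rho_val (i : Fin 6) : rho 6 (.r i) = rhoA 6 ^ (i : ℕ) := rfl

private theorem rho_val' (i : Fin 6) : rho 6 (.sr i) = rhoB 6 * rhoA 6 ^ (i : ℕ) := rfl

private theorem dd_sum (a b : Fin 3 → ℤ) :
    (∑ t, dd a b t • rho 6 t) =
      !![2 * ((a 0 - a 2) + (b 1 + b 2)), 2 * (-(a 1 + a 2) + (b 0 - b 2) + (b 1 + b 2));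
        2 * ((a 1 + a 2) + (b 0 - b 2)), 2 * ((a 0 - a 2) + (a 1 + a 2) - (b 1 + b 2))] := by
  have hA : rhoA 6 = !![0, -1; 1, 1] := by decide
  have hB : rhoB 6 = !![0, 1; 1, 0] := by decide
  rw [sum_dih, Fin.sum_univ_six, Fin.sum_univ_six]
  simp only [rho_val, rho_val', hA, hB]
  have h0 : (!![0, -1; 1, 1] : Matrix (Fin 2) (Fin 2) ℤ) ^ ((0 : Fin 6) : ℕ) = !![1, 0; 0, 1] := by
    decide
  have h1 : (!![0, -1; 1, 1] : Matrix (Fin 2) (Fin 2) ℤ) ^ ((1 : Fin 6) : ℕ) = !![0, -1; 1, 1] := by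
    decide
  have h2 : (!![0, -1; 1, 1] : Matrix (Fin 2) (Fin 2) ℤ) ^ ((2 : Fin 6) : ℕ) = !![-1, -1; 1, 0] := by
    decide
  have h3 : (!![0, -1; 1, 1] : Matrix (Fin 2) (Fin 2) ℤ) ^ ((3 : Fin 6) : ℕ) = !![-1, 0; 0, -1] := by
    decide
  have h4 : (!![0, -1; 1, 1] : Matrix (Fin 2) (Fin 2) ℤ) ^ ((4 : Fin 6) : ℕ) = !![0, 1; -1, -1] := by
    decide
  have h5 : (!![0, -1; 1, 1] : Matrix (Fin 2) (Fin 2) ℤ) ^ ((5 : Fin 6) : ℕ) = !![1, 1; -1, 0] := by
    decide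
  rw [h0, h1, h2, h3, h4, h5]
  have e0 : dd a b (.r (0 : Fin 6)) = a 0 := rfl
  have e1 : dd a b (.r (1 : Fin 6)) = a 1 := rfl
  have e2 : dd a b (.r (2 : Fin 6)) = a 2 := rfl
  have e3 : dd a b (.r (3 : Fin 6)) = - a 0 := rfl
  have e4 : dd a b (.r (4 : Fin 6)) = - a 1 := rfl
  have e5 : dd a b (.r (5 : Fin 6)) = - a 2 := rfl
  have f0 : dd a b (.sr (0 : Fin 6)) = b 0 := rfl
  have f1 : dd a b (.sr (1 : Fin 6)) = b 1 := rfl
  have f2 : dd a b (.sr (2 : Fin 6)) = b 2 := rfl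
  have f3 : dd a b (.sr (3 : Fin 6)) = - b 0 := rfl
  have f4 : dd a b (.sr (4 : Fin 6)) = - b 1 := rfl
  have f5 : dd a b (.sr (5 : Fin 6)) = - b 2 := rfl
  rw [e0, e1, e2, e3, e4, e5, f0, f1, f2, f3, f4, f5]
  ext i j
  fin_cases i <;> fin_cases j <;>
    simp <;> ring

/-- The set of the statement. -/
private def T (m : ℕ) : Set (DihedralGroup 6 → ℤ) :=
  {d : DihedralGroup 6 → ℤ | (∀ t, d (DihedralGroup.r 3 * t) = - d t) ∧ (∀ t, d t ^ 2 ≤ m) ∧
    (∀ t, (2 : ℤ) ∣ m - d t) ∧ (∑ t, d t • rho 6 t).det = 0}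

private theorem T_finite (m : ℕ) : (T m).Finite := by
  apply (Set.finite_Icc (fun _ : DihedralGroup 6 => -(m : ℤ)) (fun _ => (m : ℤ))).subset
  rintro d ⟨-, h, -, -⟩
  refine ⟨fun t => ?_, fun t => ?_⟩
  · have := h t
    by_contra hc
    simp only [not_le] at hc
    nlinarith
  · have := h t
    by_contra hc
    simp only [not_le] at hc
    nlinarith

/-- The coefficients. -/
private def ca (Q : Matrix (Fin 2) (Fin 2) ℤ) (k : ℤ) : Fin 3 → ℤ :=
  ![2 * (Q 0 0 + Q 0 1 - Q 1 0 + 2 * Q 1 1) + k, 2 * (Q 0 0 - 2 * Q 0 1 + 2 * Q 1 0 - Q 1 1) - k, k]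

private def cb (Q : Matrix (Fin 2) (Fin 2) ℤ) (l : ℤ) : Fin 3 → ℤ :=
  ![2 * (- Q 0 0 + 2 * Q 0 1 + Q 1 0 + Q 1 1) + l,
    2 * (2 * Q 0 0 - Q 0 1 + Q 1 0 - 2 * Q 1 1) - l, l]

private theorem det_zero (Q : Matrix (Fin 2) (Fin 2) ℤ) (k l : ℤ) (h : Q.det = 0) :
    (∑ t, dd (ca Q k) (cb Q l) t • rho 6 t).det = 0 := by
  rw [dd_sum, Matrix.det_fin_two_of]
  rw [Matrix.det_fin_two] at h
  simp only [ca, cb, Matrix.cons_val_zero, Matrix.cons_val_one, Matrix.cons_val]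
  linear_combination 144 * h

private theorem inj (Q Q' : Matrix (Fin 2) (Fin 2) ℤ) (k l k' l' : ℤ)
    (h : dd (ca Q k) (cb Q l) = dd (ca Q' k') (cb Q' l')) : Q = Q' ∧ k = k' ∧ l = l' := by
  have e0 := congrFun h (.r (0 : Fin 6))
  have e1 := congrFun h (.r (1 : Fin 6))
  have e2 := congrFun h (.r (2 : Fin 6))
  have f0 := congrFun h (.sr (0 : Fin 6))
  have f1 := congrFun h (.sr (1 : Fin 6))
  have f2 := congrFun h (.sr (2 : Fin 6))
  change 2 * (Q 0 0 + Q 0 1 - Q 1 0 + 2 * Q 1 1) + k =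
    2 * (Q' 0 0 + Q' 0 1 - Q' 1 0 + 2 * Q' 1 1) + k' at e0
  change 2 * (Q 0 0 - 2 * Q 0 1 + 2 * Q 1 0 - Q 1 1) - k =
    2 * (Q' 0 0 - 2 * Q' 0 1 + 2 * Q' 1 0 - Q' 1 1) - k' at e1
  change k = k' at e2
  change 2 * (- Q 0 0 + 2 * Q 0 1 + Q 1 0 + Q 1 1) + l =
    2 * (- Q' 0 0 + 2 * Q' 0 1 + Q' 1 0 + Q' 1 1) + l' at f0
  change 2 * (2 * Q 0 0 - Q 0 1 + Q 1 0 - 2 * Q 1 1) - l =
    2 * (2 * Q' 0 0 - Q' 0 1 + Q' 1 0 - 2 * Q' 1 1) - l' at f1
  change l = l' at f2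
  refine ⟨?_, e2, f2⟩
  ext i j
  fin_cases i <;> fin_cases j
  · change Q 0 0 = Q' 0 0
    omega
  · change Q 0 1 = Q' 0 1
    omega
  · change Q 1 0 = Q' 1 0
    omega
  · change Q 1 1 = Q' 1 1
    omega

private theorem mem_T (m R : ℕ) (hR : 16 * R ≤ Nat.sqrt m) (h1 : 1 ≤ R)
    (Q : Matrix (Fin 2) (Fin 2) ℤ) (hQ : ∀ i j, |Q i j| ≤ R) (hd : Q.det = 0) (k l : ℕ)
    (hk : k ≤ R) (hl : l ≤ R) :
    dd (ca Q ((2 * k + m % 2 : ℕ) : ℤ)) (cb Q ((2 * l + m % 2 : ℕ) : ℤ)) ∈ T m := by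
  have hs : ((Nat.sqrt m : ℕ) : ℤ) ^ 2 ≤ m := by
    have := Nat.sqrt_le' m
    exact_mod_cast this
  have h00 := abs_le.1 (hQ 0 0)
  have h01 := abs_le.1 (hQ 0 1)
  have h10 := abs_le.1 (hQ 1 0)
  have h11 := abs_le.1 (hQ 1 1)
  have hsq : ∀ x : ℤ, -((Nat.sqrt m : ℕ) : ℤ) ≤ x → x ≤ ((Nat.sqrt m : ℕ) : ℤ) →
      x ^ 2 ≤ (m : ℤ) := by
    intro x hx1 hx2
    refine le_trans ?_ hs
    nlinarith
  refine ⟨dd_odd _ _, ?_, ?_, det_zero Q _ _ hd⟩
  · apply dd_all _ _ (fun x => x ^ 2 ≤ (m : ℤ))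
    · intro x hx
      simpa using hx
    · intro i
      apply hsq
      · fin_cases i
        · change -((Nat.sqrt m : ℕ) : ℤ) ≤
            2 * (Q 0 0 + Q 0 1 - Q 1 0 + 2 * Q 1 1) + ((2 * k + m % 2 : ℕ) : ℤ)
          omega
        · change -((Nat.sqrt m : ℕ) : ℤ) ≤
            2 * (Q 0 0 - 2 * Q 0 1 + 2 * Q 1 0 - Q 1 1) - ((2 * k + m % 2 : ℕ) : ℤ)
          omega
        · change -((Nat.sqrt m : ℕ) : ℤ) ≤ ((2 * k + m % 2 : ℕ) : ℤ)
          omega
      · fin_cases i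
        · change 2 * (Q 0 0 + Q 0 1 - Q 1 0 + 2 * Q 1 1) + ((2 * k + m % 2 : ℕ) : ℤ) ≤
            ((Nat.sqrt m : ℕ) : ℤ)
          omega
        · change 2 * (Q 0 0 - 2 * Q 0 1 + 2 * Q 1 0 - Q 1 1) - ((2 * k + m % 2 : ℕ) : ℤ) ≤
            ((Nat.sqrt m : ℕ) : ℤ)
          omega
        · change ((2 * k + m % 2 : ℕ) : ℤ) ≤ ((Nat.sqrt m : ℕ) : ℤ)
          omega
    · intro i
      apply hsq
      · fin_cases i
        · change -((Nat.sqrt m : ℕ) : ℤ) ≤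
            2 * (- Q 0 0 + 2 * Q 0 1 + Q 1 0 + Q 1 1) + ((2 * l + m % 2 : ℕ) : ℤ)
          omega
        · change -((Nat.sqrt m : ℕ) : ℤ) ≤
            2 * (2 * Q 0 0 - Q 0 1 + Q 1 0 - 2 * Q 1 1) - ((2 * l + m % 2 : ℕ) : ℤ)
          omega
        · change -((Nat.sqrt m : ℕ) : ℤ) ≤ ((2 * l + m % 2 : ℕ) : ℤ)
          omega
      · fin_cases i
        · change 2 * (- Q 0 0 + 2 * Q 0 1 + Q 1 0 + Q 1 1) + ((2 * l + m % 2 : ℕ) : ℤ) ≤
            ((Nat.sqrt m : ℕ) : ℤ)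
          omega
        · change 2 * (2 * Q 0 0 - Q 0 1 + Q 1 0 - 2 * Q 1 1) - ((2 * l + m % 2 : ℕ) : ℤ) ≤
            ((Nat.sqrt m : ℕ) : ℤ)
          omega
        · change ((2 * l + m % 2 : ℕ) : ℤ) ≤ ((Nat.sqrt m : ℕ) : ℤ)
          omega
  · apply dd_all _ _ (fun x => (2 : ℤ) ∣ m - x)
    · intro x hx
      have : (m : ℤ) - -x = (m - x) + 2 * x := by ring
      rw [this]
      exact dvd_add hx (dvd_mul_right 2 x)
    · intro i
      fin_cases i
      · change (2 : ℤ) ∣ m - (2 * (Q 0 0 + Q 0 1 - Q 1 0 + 2 * Q 1 1) + ((2 * k + m % 2 : ℕ) : ℤ))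
        omega
      · change (2 : ℤ) ∣ m - (2 * (Q 0 0 - 2 * Q 0 1 + 2 * Q 1 0 - Q 1 1) -
          ((2 * k + m % 2 : ℕ) : ℤ))
        omega
      · change (2 : ℤ) ∣ m - ((2 * k + m % 2 : ℕ) : ℤ)
        omega
    · intro i
      fin_cases i
      · change (2 : ℤ) ∣ m - (2 * (- Q 0 0 + 2 * Q 0 1 + Q 1 0 + Q 1 1) +
          ((2 * l + m % 2 : ℕ) : ℤ))
        omega
      · change (2 : ℤ) ∣ m - (2 * (2 * Q 0 0 - Q 0 1 + Q 1 0 - 2 * Q 1 1) -
          ((2 * l + m % 2 : ℕ) : ℤ))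
        omega
      · change (2 : ℤ) ∣ m - ((2 * l + m % 2 : ℕ) : ℤ)
        omega

private theorem T_nonempty (m : ℕ) (hm : 2 ≤ m) : 1 ≤ (T m).ncard := by
  have : (T m).Nonempty := by
    refine ⟨dd ![((m % 2 : ℕ) : ℤ), -((m % 2 : ℕ) : ℤ), ((m % 2 : ℕ) : ℤ)]
      ![((m % 2 : ℕ) : ℤ), -((m % 2 : ℕ) : ℤ), ((m % 2 : ℕ) : ℤ)], dd_odd _ _, ?_, ?_, ?_⟩
    · have hle : (((m % 2 : ℕ) : ℤ)) ^ 2 ≤ m := by
        have : m % 2 = 0 ∨ m % 2 = 1 := by omega
        rcases this with h | h <;> rw [h] <;> norm_num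
        omega
      apply dd_all _ _ (fun x => x ^ 2 ≤ (m : ℤ))
      · intro x hx
        simpa using hx
      · intro i
        fin_cases i
        · exact hle
        · change (-((m % 2 : ℕ) : ℤ)) ^ 2 ≤ m
          rw [neg_sq]
          exact hle
        · exact hle
      · intro i
        fin_cases i
        · exact hle
        · change (-((m % 2 : ℕ) : ℤ)) ^ 2 ≤ m
          rw [neg_sq]
          exact hle
        · exact hle
    · apply dd_all _ _ (fun x => (2 : ℤ) ∣ m - x)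
      · intro x hx
        have : (m : ℤ) - -x = (m - x) + 2 * x := by ring
        rw [this]
        exact dvd_add hx (dvd_mul_right 2 x)
      · intro i
        fin_cases i
        · change (2 : ℤ) ∣ m - ((m % 2 : ℕ) : ℤ)
          omega
        · change (2 : ℤ) ∣ m - -((m % 2 : ℕ) : ℤ)
          omega
        · change (2 : ℤ) ∣ m - ((m % 2 : ℕ) : ℤ)
          omega
      · intro i
        fin_cases i
        · change (2 : ℤ) ∣ m - ((m % 2 : ℕ) : ℤ)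
          omega
        · change (2 : ℤ) ∣ m - -((m % 2 : ℕ) : ℤ)
          omega
        · change (2 : ℤ) ∣ m - ((m % 2 : ℕ) : ℤ)
          omega
    · rw [dd_sum, Matrix.det_fin_two_of]
      simp only [Matrix.cons_val_zero, Matrix.cons_val_one, Matrix.cons_val]
      ring
  exact (Set.ncard_pos (T_finite m)).2 this

private theorem count (m R N : ℕ) (hR : 16 * R ≤ Nat.sqrt m) (h1 : 1 ≤ R)
    (S : Set (Matrix (Fin 2) (Fin 2) ℤ)) (hS : S.Finite) (hQ : ∀ Q ∈ S, ∀ i j, |Q i j| ≤ (R : ℤ))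
    (hd : ∀ Q ∈ S, Q.det = 0) (hN : S.ncard = N) : N * (R + 1) * (R + 1) ≤ (T m).ncard := by
  classical
  have hN' : hS.toFinset.card = N := by
    rw [← hN, Set.ncard_eq_toFinset_card S hS]
  have hc : (hS.toFinset ×ˢ (Finset.range (R + 1) ×ˢ Finset.range (R + 1))).card =
      N * (R + 1) * (R + 1) := by
    rw [Finset.card_product, Finset.card_product, Finset.card_range, hN', mul_assoc]
  rw [← hc, Set.ncard_eq_toFinset_card (T m) (T_finite m)]
  apply Finset.card_le_card_of_injOn (fun x =>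
    dd (ca x.1 ((2 * x.2.1 + m % 2 : ℕ) : ℤ)) (cb x.1 ((2 * x.2.2 + m % 2 : ℕ) : ℤ)))
  · rintro ⟨Q, k, l⟩ hx
    simp only [Finset.coe_product, Set.mem_prod, Finset.mem_coe, Set.Finite.mem_toFinset,
      Finset.mem_range] at hx
    simp only [Finset.mem_coe, Set.Finite.mem_toFinset]
    exact mem_T m R hR h1 Q (hQ Q hx.1) (hd Q hx.1) k l (by omega) (by omega)
  · rintro ⟨Q, k, l⟩ hx ⟨Q', k', l'⟩ hx' h
    obtain ⟨h1, h2, h3⟩ := inj _ _ _ _ _ _ h
    simp only at h1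
    have hk : k = k' := by
      simp only at h2
      omega
    have hl : l = l' := by
      simp only at h3
      omega
    subst h1 hk hl
    rfl

end DihCount6

open DihCount6 in
theorem pDihCount6 (hCountM : StCountM) : StDihCount6 := by
  obtain ⟨c, hc, h⟩ := hCountM
  refine ⟨min (1 / 2 ^ 40) (c / (12 * 2 ^ 20)), lt_min (by positivity) (by positivity), ?_⟩
  intro m hm
  change _ ≤ ((T m).ncard : ℝ)
  have hm' : (2 : ℝ) ≤ m := by exact_mod_cast hm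
  have hlog : 0 ≤ Real.log m := Real.log_nonneg (by linarith)
  set R := Nat.sqrt m / 16 with hRdef
  have hs : m < (Nat.sqrt m + 1) ^ 2 := by
    have := Nat.lt_succ_sqrt m
    rw [pow_two]
    exact this
  by_cases hR : 2 ≤ R
  · have hb := h R hR
    set S : Set (Matrix (Fin 2) (Fin 2) ℤ) := {A : Matrix (Fin 2) (Fin 2) ℤ |
      (∀ i j, |A i j| ≤ R) ∧ A.det = 0 ∧ Odd (A 0 0 + A 1 1) ∧ Odd (A 0 1 + A 1 0)} with hSdef
    have hR' : (2 : ℝ) ≤ R := by exact_mod_cast hR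
    have hlogR : 0 < Real.log R := Real.log_pos (by linarith)
    have hpos : 0 < (S.ncard : ℝ) := lt_of_lt_of_le (by positivity) hb
    have hSf : S.Finite := by
      apply Set.finite_of_ncard_pos
      exact_mod_cast hpos
    have hcount := count m R S.ncard (by omega) (by omega) S hSf (fun Q hQ => hQ.1)
      (fun Q hQ => hQ.2.1) rfl
    have hcount' : (S.ncard : ℝ) * ((R : ℝ) + 1) * (R + 1) ≤ ((T m).ncard : ℝ) := by
      exact_mod_cast hcount
    have hmR : m ≤ 1024 * R ^ 2 := by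
      have h2 : Nat.sqrt m + 1 ≤ 32 * R := by omega
      have h3 : (Nat.sqrt m + 1) ^ 2 ≤ (32 * R) ^ 2 := Nat.pow_le_pow_left h2 2
      nlinarith
    have hmR' : (m : ℝ) ≤ 1024 * (R : ℝ) ^ 2 := by exact_mod_cast hmR
    have hlm : Real.log m ≤ 12 * Real.log R := by
      have h2 : Real.log m ≤ Real.log (1024 * (R : ℝ) ^ 2) :=
        Real.log_le_log (by linarith) hmR'
      rw [Real.log_mul (by norm_num) (by positivity), Real.log_pow] at h2
      have h3 : Real.log (1024 : ℝ) = 10 * Real.log 2 := by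
        rw [show (1024 : ℝ) = 2 ^ 10 by norm_num, Real.log_pow]
        norm_num
      have h4 : Real.log 2 ≤ Real.log R := Real.log_le_log (by norm_num) hR'
      rw [h3] at h2
      push_cast at h2
      linarith
    have hm2 : (m : ℝ) ^ 2 ≤ 2 ^ 20 * (R : ℝ) ^ 4 := by
      have : (m : ℝ) ^ 2 ≤ (1024 * (R : ℝ) ^ 2) ^ 2 := by
        apply pow_le_pow_left₀ (by positivity) hmR'
      calc (m : ℝ) ^ 2 ≤ (1024 * (R : ℝ) ^ 2) ^ 2 := this
        _ = 2 ^ 20 * (R : ℝ) ^ 4 := by ring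
    calc min (1 / 2 ^ 40) (c / (12 * 2 ^ 20)) * (m : ℝ) ^ 2 * Real.log m
        ≤ (c / (12 * 2 ^ 20)) * (2 ^ 20 * (R : ℝ) ^ 4) * (12 * Real.log R) := by
          apply mul_le_mul _ hlm hlog (by positivity)
          apply mul_le_mul (min_le_right _ _) hm2 (by positivity) (by positivity)
      _ = (c * (R : ℝ) ^ 2 * Real.log R) * (R : ℝ) * R := by ring
      _ ≤ (S.ncard : ℝ) * ((R : ℝ) + 1) * (R + 1) := by
          gcongr
          · linarith
          · linarith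
      _ ≤ ((T m).ncard : ℝ) := hcount'
  · have hm3 : m ≤ 1024 := by
      have h2 : Nat.sqrt m + 1 ≤ 32 := by omega
      have h3 : (Nat.sqrt m + 1) ^ 2 ≤ 32 ^ 2 := Nat.pow_le_pow_left h2 2
      omega
    have hm3' : (m : ℝ) ≤ 1024 := by exact_mod_cast hm3
    have h1 : (1 : ℝ) ≤ ((T m).ncard : ℝ) := by exact_mod_cast T_nonempty m hm
    have hlm : Real.log m ≤ 1024 := by
      have := Real.log_le_sub_one_of_pos (show (0 : ℝ) < m by linarith)
      linarith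
    calc min (1 / 2 ^ 40) (c / (12 * 2 ^ 20)) * (m : ℝ) ^ 2 * Real.log m
        ≤ (1 / 2 ^ 40) * (1024 : ℝ) ^ 2 * 1024 := by
          apply mul_le_mul _ hlm hlog (by positivity)
          apply mul_le_mul (min_le_left _ _) _ (by positivity) (by positivity)
          exact pow_le_pow_left₀ (by positivity) hm3' 2
      _ ≤ 1 := by norm_num
      _ ≤ ((T m).ncard : ℝ) := h1

end Pool.Agent.Lib.MP_640417_ag.Sharp
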