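import Pool.Agent.Lib.MP_640417_ag.Sharp.SpecL
import Pool.Agent.Lib.MP_640417_ag.Full.Sing

/-!
# The probability of two singular events
-/

set_option autoImplicit false

namespace Pool.Agent.Lib.MP_640417_ag.Sharp

open Module Finset MulAction Pool.Agent.Lib.MP_640417_ag.Far Pool.Agent.Lib.MP_640417_ag.Full

section

variable {S G : Type} [Fintype S] [Group G] [MulAction G S] {z : G} {N : ℕ}

/-- the rational matrix of a point -/
private def dpR (M : MatSys S G z 2 N) (s : S) : Matrix (Fin 2) (Fin 2) ℚ :=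
  (M.Φ s).map (Int.cast : ℤ → ℚ)

/-- the functions attached to pairs of matrices -/
private def dpL (M M' : MatSys S G z 2 N) :
    (Matrix (Fin 2) (Fin 2) ℚ × Matrix (Fin 2) (Fin 2) ℚ) →ₗ[ℚ] (S → ℚ) where
  toFun p s := (dpR M s * p.1).trace + (dpR M' s * p.2).trace
  map_add' := by
    intro p q
    funext s
    simp only [Prod.fst_add, Prod.snd_add, Matrix.mul_add, Matrix.trace_add, Pi.add_apply]
    ring
  map_smul' := by
    intro c p
    funext s
    simp only [Prod.smul_fst, Prod.smul_snd, Matrix.mul_smul, Matrix.trace_smul, Pi.smul_apply,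
      RingHom.id_apply, smul_eq_mul]
    ring

private lemma dpL_apply (M M' : MatSys S G z 2 N)
    (p : Matrix (Fin 2) (Fin 2) ℚ × Matrix (Fin 2) (Fin 2) ℚ) (s : S) :
    dpL M M' p s = (dpR M s * p.1).trace + (dpR M' s * p.2).trace := rfl

private lemma dpR_smul (M : MatSys S G z 2 N) (γ : G) (s : S) :
    dpR M (γ • s) = (M.R γ).map (Int.cast : ℤ → ℚ) * dpR M s := by
  unfold dpR
  rw [M.smul]
  exact Matrix.map_mul (f := Int.castRingHom ℚ)

private lemma dpR_odd (M : MatSys S G z 2 N) (s : S) : dpR M (z • s) = - dpR M s := by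
  unfold dpR
  rw [M.odd]
  ext i j
  simp

private lemma dp_stab (M M' : MatSys S G z 2 N) : IsStab G (LinearMap.range (dpL M M')) := by
  intro f hf γ
  obtain ⟨p, rfl⟩ := hf
  refine ⟨(p.1 * (M.R γ).map (Int.cast : ℤ → ℚ), p.2 * (M'.R γ).map (Int.cast : ℤ → ℚ)), ?_⟩
  funext s
  rw [dpL_apply, dpL_apply, dpR_smul, dpR_smul]
  simp only
  rw [← Matrix.mul_assoc, Matrix.trace_mul_comm, ← Matrix.mul_assoc, ← Matrix.mul_assoc,
    Matrix.trace_mul_comm (dpR M' s * p.2), ← Matrix.mul_assoc]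

private lemma dp_odd (M M' : MatSys S G z 2 N) : IsOddSp z (LinearMap.range (dpL M M')) := by
  intro f hf s
  obtain ⟨p, rfl⟩ := hf
  rw [dpL_apply, dpL_apply, dpR_odd, dpR_odd, Matrix.neg_mul, Matrix.neg_mul, Matrix.trace_neg,
    Matrix.trace_neg]
  ring

private lemma dp_finrank (M M' : MatSys S G z 2 N)
    (h : ∀ A A' : Matrix (Fin 2) (Fin 2) ℚ,
      (∀ s, ((M.Φ s).map (Int.cast : ℤ → ℚ) * A).trace
        + ((M'.Φ s).map (Int.cast : ℤ → ℚ) * A').trace = 0) → A = 0 ∧ A' = 0) :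
    finrank ℚ (LinearMap.range (dpL M M')) = 8 := by
  have hinj : Function.Injective (dpL M M') := by
    rw [← LinearMap.ker_eq_bot, LinearMap.ker_eq_bot']
    intro p hp
    obtain ⟨h1, h2⟩ := h p.1 p.2 (fun s => congrFun hp s)
    exact Prod.ext h1 h2
  rw [LinearMap.finrank_range_of_inj hinj, Module.finrank_prod, Module.finrank_matrix]
  simp

private lemma dp_sum (M M' : MatSys S G z 2 N) (e : S → ℤ)
    (p : Matrix (Fin 2) (Fin 2) ℚ × Matrix (Fin 2) (Fin 2) ℚ) :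
    ∑ s, dpL M M' p s * (e s : ℚ) =
      ((∑ s, e s • M.Φ s).map (Int.cast : ℤ → ℚ) * p.1).trace +
      ((∑ s, e s • M'.Φ s).map (Int.cast : ℤ → ℚ) * p.2).trace := by
  have key : ∀ (M : MatSys S G z 2 N), (∑ s, e s • M.Φ s).map (Int.cast : ℤ → ℚ) =
      ∑ s, (e s : ℚ) • dpR M s := by
    intro M
    ext i j
    rw [Matrix.map_apply, Matrix.sum_apply, Matrix.sum_apply]
    push_cast
    apply Finset.sum_congr rfl
    intro s _
    simp [dpR]
  rw [key M, key M', Matrix.sum_mul, Matrix.sum_mul, Matrix.trace_sum, Matrix.trace_sum,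
    ← Finset.sum_add_distrib]
  apply Finset.sum_congr rfl
  intro s _
  rw [dpL_apply, Matrix.smul_mul, Matrix.smul_mul, Matrix.trace_smul, Matrix.trace_smul,
    smul_eq_mul, smul_eq_mul]
  ring

private lemma dp_sgn_fin (z : G) (P : (S → ℤ) → Prop) : {e : S → ℤ | IsSgn z e ∧ P e}.Finite := by
  have h : ({f : S → ℤ | ∀ s, f s ∈ ({1, -1} : Set ℤ)}).Finite :=
    Set.Finite.pi' fun _ => Set.toFinite _
  refine h.subset ?_
  intro e he s
  have := he.1.1 s
  simpa using this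

end

/-- the singular matrices in a box -/
private def dpK (R : ℕ) : Set (Matrix (Fin 2) (Fin 2) ℤ) :=
  {B | (∀ i j, |B i j| ≤ R) ∧ B.det = 0}

private lemma dpK_fin (R : ℕ) : (dpK R).Finite := by
  have h : ({B : Fin 2 → Fin 2 → ℤ | ∀ i, B i ∈ {b : Fin 2 → ℤ | ∀ j, b j ∈
      Set.Icc (-(R : ℤ)) R}}).Finite :=
    Set.Finite.pi' fun _ => Set.Finite.pi' fun _ => Set.finite_Icc _ _
  refine Set.Finite.subset (s := {B : Fin 2 → Fin 2 → ℤ | ∀ i, B i ∈ {b : Fin 2 → ℤ | ∀ j, b j ∈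
      Set.Icc (-(R : ℤ)) R}}) h ?_
  intro B hB i j
  exact abs_le.mp (hB.1 i j)

private lemma dp_card {C : ℝ} (hC : 0 < C) (hS : ∀ R : ℕ, 1 ≤ R →
    ((dpK R).ncard : ℝ) ≤ C * (R : ℝ) ^ (2 ^ 2 - min 2 3) * (1 + Real.log R)) (g : ℕ) (hg : 2 ≤ g) :
    ((dpK (Nat.sqrt (144 * g))).ncard : ℝ) ≤ C * 1008 * (g * Real.log g) := by
  set R := Nat.sqrt (144 * g) with hR
  have hg2 : (2 : ℝ) ≤ g := by exact_mod_cast hg
  have hR1 : 1 ≤ R := by
    rw [hR, Nat.le_sqrt']
    omega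
  have hRsq : (R : ℝ) ^ 2 ≤ 144 * g := by
    have := Nat.sqrt_le' (144 * g)
    exact_mod_cast this
  have hR1' : (1 : ℝ) ≤ R := by exact_mod_cast hR1
  have hRle : (R : ℝ) ≤ 12 * g := by
    nlinarith [sq_nonneg ((R : ℝ) - 12 * g)]
  have hlog2 : 0.6931471803 < Real.log 2 := Real.log_two_gt_d9
  have hlogg : Real.log 2 ≤ Real.log g := Real.log_le_log (by norm_num) hg2
  have hlog12 : Real.log 12 ≤ 4 * Real.log 2 := by
    have : (4 : ℝ) * Real.log 2 = Real.log (2 ^ 4) := by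
      rw [Real.log_pow]
      norm_num
    rw [this]
    exact Real.log_le_log (by norm_num) (by norm_num)
  have hlogR : 1 + Real.log R ≤ 7 * Real.log g := by
    have h1 : Real.log R ≤ Real.log (12 * g) := Real.log_le_log (by linarith) hRle
    rw [Real.log_mul (by norm_num) (by linarith)] at h1
    linarith
  have hlR0 : 0 ≤ Real.log R := Real.log_nonneg hR1'
  refine (hS R hR1).trans ?_
  have e : (2 ^ 2 - min 2 3 : ℕ) = 2 := by norm_num
  rw [e]
  calc C * (R : ℝ) ^ 2 * (1 + Real.log R) ≤ C * (144 * g) * (7 * Real.log g) := by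
        apply mul_le_mul _ hlogR (by linarith) (by positivity)
        exact mul_le_mul_of_nonneg_left hRsq hC.le
    _ = C * 1008 * (g * Real.log g) := by ring

/-- The probability of two events attached to different matrix systems. -/
theorem pDihPair (hLocal : StLocal) (hIndepPair : StIndepPair) : StDihPair := by
  classical
  obtain ⟨C1, hC1, hS⟩ := pSing 2 le_rfl
  obtain ⟨C2, hC2, hL⟩ := hLocal 8
  refine ⟨(C1 * 1008) ^ 2 * C2, by positivity, ?_⟩
  intro S G _ _ _ _ _ z hzz X hX g hXg hg N M M' hN hν hν'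
  have hgr : (0 : ℝ) < g := by
    have : (2 : ℝ) ≤ g := by exact_mod_cast hg
    linarith
  have hind := hIndepPair S G z N M M' hN hν hν'
  have hfr := dp_finrank M M' hind
  set R := Nat.sqrt (144 * g) with hR
  have hK := dp_card hC1 hS g hg
  rw [← hR] at hK
  let T : Matrix (Fin 2) (Fin 2) ℤ × Matrix (Fin 2) (Fin 2) ℤ → Set (S → ℤ) := fun q =>
    {e | IsSgn z e ∧ (∑ s, e s • M.Φ s = q.1 ∧ ∑ s, e s • M'.Φ s = q.2)}
  let Kf : Finset (Matrix (Fin 2) (Fin 2) ℤ) := (dpK_fin R).toFinset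
  have hKf : (Kf.card : ℝ) ≤ C1 * 1008 * (g * Real.log g) := by
    have : Kf.card = (dpK R).ncard := (Set.ncard_eq_toFinset_card _ (dpK_fin R)).symm
    rw [this]
    exact hK
  have hmem : ∀ (M : MatSys S G z 2 N) (e : S → ℤ), e ∈ small M g → ∑ s, e s • M.Φ s ∈ Kf := by
    intro M e he
    rw [Set.Finite.mem_toFinset]
    refine ⟨fun i j => ?_, he.2.1⟩
    have h1 := he.2.2 i j
    rw [hR]
    have h2 : ((∑ s, e s • M.Φ s) i j).natAbs ≤ Nat.sqrt (144 * g) := by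
      rw [Nat.le_sqrt']
      have : ((((∑ s, e s • M.Φ s) i j).natAbs ^ 2 : ℕ) : ℤ) ≤ ((144 * g : ℕ) : ℤ) := by
        push_cast
        rw [sq_abs]
        exact h1
      exact_mod_cast this
    rw [Int.abs_eq_natAbs]
    exact_mod_cast h2
  have hsub : small M g ∩ small M' g ⊆ ⋃ q ∈ Kf ×ˢ Kf, T q := by
    intro e he
    rw [Set.mem_iUnion₂]
    exact ⟨(∑ s, e s • M.Φ s, ∑ s, e s • M'.Φ s),
      Finset.mem_product.mpr ⟨hmem M e he.1, hmem M' e he.2⟩, he.1.1, rfl, rfl⟩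
  have hfinT : (⋃ q ∈ Kf ×ˢ Kf, T q).Finite :=
    (Kf ×ˢ Kf).finite_toSet.biUnion fun q _ => dp_sgn_fin z _
  have hT : ∀ q, ((T q).ncard : ℝ) ≤ C2 * (g : ℝ) ^ (-(4 : ℝ)) * 2 ^ g := by
    intro q
    rcases (T q).eq_empty_or_nonempty with h0 | ⟨e₀, he₀⟩
    · rw [h0, Set.ncard_empty, Nat.cast_zero]
      positivity
    · have h1 := hL S G z hzz X hX (by omega) (LinearMap.range (dpL M M')) (dp_stab M M')
        (dp_odd M M') hfr e₀ he₀.1
      rw [hXg] at h1
      have e4 : (-(((8 : ℕ) : ℝ) / 2)) = -(4 : ℝ) := by norm_num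
      rw [e4] at h1
      refine le_trans ?_ h1
      have hs : T q ⊆ {e : S → ℤ | IsSgn z e ∧ ∀ f ∈ LinearMap.range (dpL M M'),
          ∑ s, f s * (e s : ℚ) = ∑ s, f s * (e₀ s : ℚ)} := by
        intro e he
        refine ⟨he.1, ?_⟩
        rintro f ⟨p, rfl⟩
        rw [dp_sum, dp_sum, he.2.1, he.2.2, he₀.2.1, he₀.2.2]
      exact_mod_cast Set.ncard_le_ncard hs (dp_sgn_fin z _)
  have hlog0 : 0 ≤ Real.log g := Real.log_natCast_nonneg g
  calc ((small M g ∩ small M' g).ncard : ℝ) ≤ ((⋃ q ∈ Kf ×ˢ Kf, T q).ncard : ℝ) := by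
        exact_mod_cast Set.ncard_le_ncard hsub hfinT
    _ ≤ ((∑ q ∈ Kf ×ˢ Kf, (T q).ncard : ℕ) : ℝ) := by
        exact_mod_cast Finset.set_ncard_biUnion_le _ _
    _ = ∑ q ∈ Kf ×ˢ Kf, ((T q).ncard : ℝ) := by push_cast; rfl
    _ ≤ ∑ q ∈ Kf ×ˢ Kf, C2 * (g : ℝ) ^ (-(4 : ℝ)) * 2 ^ g := Finset.sum_le_sum fun q _ => hT q
    _ = (Kf.card : ℝ) * Kf.card * (C2 * (g : ℝ) ^ (-(4 : ℝ)) * 2 ^ g) := by
        rw [Finset.sum_const, Finset.card_product, nsmul_eq_mul]
        push_cast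
        ring
    _ ≤ (C1 * 1008 * (g * Real.log g)) * (C1 * 1008 * (g * Real.log g)) *
          (C2 * (g : ℝ) ^ (-(4 : ℝ)) * 2 ^ g) := by
        apply mul_le_mul_of_nonneg_right _ (by positivity)
        exact mul_le_mul hKf hKf (by positivity) (by positivity)
    _ = (C1 * 1008) ^ 2 * C2 * (Real.log g / g) ^ 2 * 2 ^ g := by
        have e5 : (g : ℝ) ^ (-(4 : ℝ)) = ((g : ℝ) ^ 4)⁻¹ := by
          rw [Real.rpow_neg hgr.le]
          congr 1
          exact_mod_cast Real.rpow_natCast (g : ℝ) 4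
        rw [e5]
        field_simp

end Pool.Agent.Lib.MP_640417_ag.Sharp
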