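import Pool.Agent.Lib.MP_640417_ag.Sharp.SpecL

/-!
# The matrix system of a dihedral quotient
-/

namespace Pool.Agent.Lib.MP_640417_ag.Sharp

open Module Finset MulAction Pool.Agent.Lib.MP_640417_ag.Far Pool.Agent.Lib.MP_640417_ag.Full

lemma DihSys_mul4 : ∀ x y : DihedralGroup 4, rho 4 (x * y) = rho 4 x * rho 4 y := by
  decide +kernel

lemma DihSys_mul6 : ∀ x y : DihedralGroup 6, rho 6 (x * y) = rho 6 x * rho 6 y := by
  decide +kernel

lemma DihSys_one4 : ∀ x : DihedralGroup 4, rho 4 x = 1 ↔ x = 1 := by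
  decide +kernel

lemma DihSys_one6 : ∀ x : DihedralGroup 6, rho 6 x = 1 ↔ x = 1 := by
  decide +kernel

lemma DihSys_cen4 : ∀ x : DihedralGroup 4, (∀ y, y * x = x * y) → x ≠ 1 →
    x = DihedralGroup.r ((4 / 2 : ℕ) : ZMod 4) := by
  decide +kernel

lemma DihSys_cen6 : ∀ x : DihedralGroup 6, (∀ y, y * x = x * y) → x ≠ 1 →
    x = DihedralGroup.r ((6 / 2 : ℕ) : ZMod 6) := by
  decide +kernel

lemma DihSys_neg4 : rho 4 (DihedralGroup.r ((4 / 2 : ℕ) : ZMod 4)) = -1 := by
  decide +kernel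

lemma DihSys_neg6 : rho 6 (DihedralGroup.r ((6 / 2 : ℕ) : ZMod 6)) = -1 := by
  decide +kernel

lemma DihSys_vals4 : rho 4 1 = !![1, 0; 0, 1] ∧ rho 4 (DihedralGroup.r 1) = !![0, -1; 1, 0] ∧
    rho 4 (DihedralGroup.sr 0) = !![1, 0; 0, -1] ∧
    rho 4 (DihedralGroup.sr 1) = !![0, -1; -1, 0] := by
  decide +kernel

lemma DihSys_vals6 : rho 6 1 = !![1, 0; 0, 1] ∧ rho 6 (DihedralGroup.r 1) = !![0, -1; 1, 1] ∧
    rho 6 (DihedralGroup.sr 0) = !![0, 1; 1, 0] ∧
    rho 6 (DihedralGroup.sr 1) = !![1, 1; 0, -1] := by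
  decide +kernel

lemma DihSys_two {p : ℕ} (hp : p.Prime) {n : ℕ} (h : ¬ p ∣ 2 * n) {x : ZMod p} (hx : 2 * x = 0) :
    x = 0 := by
  have := Fact.mk hp
  rcases mul_eq_zero.1 hx with h1 | h1
  · exfalso
    apply h
    have h2 : ((2 : ℕ) : ZMod p) = 0 := by exact_mod_cast h1
    rw [ZMod.natCast_eq_zero_iff] at h2
    exact h2.mul_right n
  · exact h1

lemma DihSys_three {p : ℕ} (hp : p.Prime) (h : ¬ p ∣ 2 * 6) {x : ZMod p} (hx : 3 * x = 0) :
    x = 0 := by
  have := Fact.mk hp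
  rcases mul_eq_zero.1 hx with h1 | h1
  · exfalso
    apply h
    have h2 : ((3 : ℕ) : ZMod p) = 0 := by exact_mod_cast h1
    rw [ZMod.natCast_eq_zero_iff] at h2
    exact h2.trans (by norm_num)
  · exact h1

lemma DihSys_ind4 (p : ℕ) (hp : p.Prime) (h : ¬ p ∣ 2 * 4) (A : Matrix (Fin 2) (Fin 2) (ZMod p))
    (hA : ∀ t : DihedralGroup 4, (((rho 4 t).map (Int.cast : ℤ → ZMod p)) * A).trace = 0) :
    A = 0 := by
  obtain ⟨v1, v2, v3, v4⟩ := DihSys_vals4
  have h1 := hA 1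
  have h2 := hA (DihedralGroup.r 1)
  have h3 := hA (DihedralGroup.sr 0)
  have h4 := hA (DihedralGroup.sr 1)
  rw [v1] at h1
  rw [v2] at h2
  rw [v3] at h3
  rw [v4] at h4
  simp [Matrix.trace, Matrix.mul_apply, Fin.sum_univ_two] at h1 h2 h3 h4
  have e00 : A 0 0 = 0 := DihSys_two hp h (by linear_combination h1 + h3)
  have e11 : A 1 1 = 0 := DihSys_two hp h (by linear_combination h1 - h3)
  have e01 : A 0 1 = 0 := DihSys_two hp h (by linear_combination h2 - h4)
  have e10 : A 1 0 = 0 := DihSys_two hp h (by linear_combination (-1 : ZMod p) * h2 - h4)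
  ext i j
  fin_cases i <;> fin_cases j
  · exact e00
  · exact e01
  · exact e10
  · exact e11

lemma DihSys_ind6 (p : ℕ) (hp : p.Prime) (h : ¬ p ∣ 2 * 6) (A : Matrix (Fin 2) (Fin 2) (ZMod p))
    (hA : ∀ t : DihedralGroup 6, (((rho 6 t).map (Int.cast : ℤ → ZMod p)) * A).trace = 0) :
    A = 0 := by
  obtain ⟨v1, v2, v3, v4⟩ := DihSys_vals6
  have h1 := hA 1
  have h2 := hA (DihedralGroup.r 1)
  have h3 := hA (DihedralGroup.sr 0)
  have h4 := hA (DihedralGroup.sr 1)
  rw [v1] at h1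
  rw [v2] at h2
  rw [v3] at h3
  rw [v4] at h4
  simp [Matrix.trace, Matrix.mul_apply, Fin.sum_univ_two] at h1 h2 h3 h4
  -- h1 : a + d = 0, h2 : - c + (b + d) = 0, h3 : c + b = 0, h4 : a + c - d = 0
  have e01 : A 0 1 = 0 := DihSys_three hp h (by
    linear_combination 2 * h2 + 1 * h3 + h4 - h1)
  have e10 : A 1 0 = 0 := by linear_combination h3 - e01
  have e11 : A 1 1 = 0 := by linear_combination h2 + e10 - e01
  have e00 : A 0 0 = 0 := by linear_combination h1 - e11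
  ext i j
  fin_cases i <;> fin_cases j
  · exact e00
  · exact e01
  · exact e10
  · exact e11

theorem pDihSys : StDihSys := by
  intro n _ hn S G _ _ _ _ _ s₀ z hz hzz H hH hzH hdih
  have hfacts : (∀ x y : DihedralGroup n, rho n (x * y) = rho n x * rho n y) ∧
      (∀ x : DihedralGroup n, rho n x = 1 ↔ x = 1) ∧
      (∀ x : DihedralGroup n, (∀ y, y * x = x * y) → x ≠ 1 →
        x = DihedralGroup.r ((n / 2 : ℕ) : ZMod n)) ∧
      rho n (DihedralGroup.r ((n / 2 : ℕ) : ZMod n)) = -1 ∧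
      ∀ p : ℕ, p.Prime → ¬ p ∣ 2 * n → ∀ A : Matrix (Fin 2) (Fin 2) (ZMod p),
        (∀ t : DihedralGroup n, (((rho n t).map (Int.cast : ℤ → ZMod p)) * A).trace = 0) →
          A = 0 := by
    rcases hn with rfl | rfl
    · exact ⟨DihSys_mul4, DihSys_one4, DihSys_cen4, DihSys_neg4, DihSys_ind4⟩
    · exact ⟨DihSys_mul6, DihSys_one6, DihSys_cen6, DihSys_neg6, DihSys_ind6⟩
  obtain ⟨hmul, hone, hcen, hneg, hind⟩ := hfacts
  obtain ⟨hN, ⟨e⟩⟩ := hdih
  set π : G →* DihedralGroup n := e.toMonoidHom.comp (QuotientGroup.mk' H) with hπ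
  have hker : ∀ γ, π γ = 1 ↔ γ ∈ H := by
    intro γ
    have h1 : π γ = e (QuotientGroup.mk' H γ) := rfl
    rw [h1, map_eq_one_iff e e.injective]
    exact QuotientGroup.eq_one_iff γ
  have hsurj : Function.Surjective π := by
    intro t
    obtain ⟨q, hq⟩ := e.surjective t
    obtain ⟨γ, rfl⟩ := QuotientGroup.mk'_surjective H q
    exact ⟨γ, hq⟩
  have hex : ∀ s : S, ∃ γ : G, γ • s₀ = s := fun s => exists_smul_eq G s₀ s
  choose c hc using hex
  set τ : S → DihedralGroup n := fun s => π (c s) with hτdef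
  have hτ : ∀ γ : G, τ (γ • s₀) = π γ := by
    intro γ
    have h1 : (c (γ • s₀))⁻¹ * γ ∈ stabilizer G s₀ := by
      rw [mem_stabilizer_iff, mul_smul, inv_smul_eq_iff]
      exact (hc _).symm
    have h2 := (hker _).2 (hH h1)
    rw [map_mul, map_inv, inv_mul_eq_one] at h2
    exact h2
  have hτ2 : ∀ (γ : G) (s : S), τ (γ • s) = π γ * τ s := by
    intro γ s
    have h1 : γ • s = (γ * c s) • s₀ := by rw [mul_smul, hc]
    rw [h1, hτ, map_mul]
  have hπz : π z = DihedralGroup.r ((n / 2 : ℕ) : ZMod n) := by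
    apply hcen
    · intro y
      obtain ⟨γ, rfl⟩ := hsurj y
      rw [← map_mul, ← map_mul, hz]
    · intro h
      exact hzH ((hker z).1 h)
  have hR1 : rho n 1 = 1 := (hone 1).2 rfl
  refine ⟨{
    R := { toFun := fun γ => rho n (π γ), map_one' := ?_, map_mul' := ?_ }
    Φ := fun s => rho n (τ s)
    smul := ?_
    odd := ?_
    base := ?_
    indep := ?_ }, τ, ?_, ?_, ?_, ?_⟩
  · rw [map_one, hR1]
  · intro γ γ'
    simp only [map_mul, hmul]
  · intro γ s
    simp only [MonoidHom.coe_mk, OneHom.coe_mk, hτ2, hmul]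
  · intro s
    simp only [hτ2, hmul, hπz, hneg, neg_mul, one_mul]
  · refine ⟨s₀, ?_⟩
    have h1 : τ s₀ = 1 := by
      have := hτ 1
      rwa [one_smul, map_one] at this
    simp only [h1, hR1]
  · intro p hp hpn A hA
    apply hind p hp hpn A
    intro t
    obtain ⟨γ, rfl⟩ := hsurj t
    have := hA (γ • s₀)
    rwa [hτ] at this
  · intro γ
    change rho n (π γ) = 1 ↔ γ ∈ H
    rw [hone, hker]
  · intro s
    rfl
  · intro s
    rw [hτ2, hπz]
  · intro t
    have hcard : ∀ t' : DihedralGroup n, (univ.filter (fun s => τ s = t')).card =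
        (univ.filter (fun s => τ s = t)).card := by
      intro t'
      obtain ⟨γ, hγ⟩ := hsurj (t * t'⁻¹)
      apply Finset.card_bij (fun s _ => γ • s)
      · intro s hs
        rw [mem_filter] at hs ⊢
        refine ⟨mem_univ _, ?_⟩
        rw [hτ2, hγ, hs.2, inv_mul_cancel_right]
      · intro s _ s' _ h
        exact smul_left_cancel γ h
      · intro s hs
        rw [mem_filter] at hs
        refine ⟨γ⁻¹ • s, ?_, smul_inv_smul γ s⟩
        rw [mem_filter]
        refine ⟨mem_univ _, ?_⟩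
        rw [hτ2, map_inv, hγ, hs.2]
        group
    have h1 : Fintype.card S = ∑ t' : DihedralGroup n, (univ.filter (fun s => τ s = t')).card := by
      rw [← Finset.card_univ]
      exact Finset.card_eq_sum_card_fiberwise (fun s _ => mem_univ _)
    rw [h1, Finset.sum_congr rfl (fun t' _ => hcard t'), Finset.sum_const, Finset.card_univ,
      DihedralGroup.card, smul_eq_mul]

end Pool.Agent.Lib.MP_640417_ag.Sharp
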