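import Pool.Agent.Lib.MP_640417_ag.Sharp.SpecU
import Pool.Agent.Lib.MP_640417_ag.Full.Ord
import Pool.Agent.Lib.MP_640417_ag.Full.SubB

/-!
# The index of the group `H0` for spaces of dimension `2`
-/

set_option autoImplicit false

namespace Pool.Agent.Lib.MP_640417_ag.Sharp

open Module Finset MulAction Pool.Agent.Lib.MP_640417_ag.Far Pool.Agent.Lib.MP_640417_ag.Full

section EvIndex

variable {S G : Type} [Group G] [MulAction G S] [Fintype S]

private lemma EvIndex_sq {f : S → ℚ} (h : ∑ s, f s * f s = 0) : f = 0 := by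
  have h3 := (Finset.sum_eq_zero_iff_of_nonneg (fun s _ => mul_self_nonneg (f s))).mp h
  funext s
  exact mul_self_eq_zero.mp (h3 s (Finset.mem_univ s))

/-- The case of a two-dimensional endomorphism ring. -/
private lemma EvIndex_two {U : Submodule ℚ (S → ℚ)} (hU : IsIrr G U) (h2 : finrank ℚ U = 2)
    (he : finrank ℚ (endF G U) = 2) {f : S → ℚ} (hf : f ∈ U) (hf0 : f ≠ 0) :
    SubBfix G f = kerSub G U := by
  let ev : endF G U →ₗ[ℚ] U := (LinearMap.applyₗ (⟨f, hf⟩ : U)).comp (endF G U).subtype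
  have hev : ∀ θ, ev θ = θ.1 ⟨f, hf⟩ := fun θ => rfl
  have hinj : Function.Injective ev := by
    intro θ θ' hθ
    rw [hev, hev] at hθ
    let M : Submodule ℚ (S → ℚ) :=
      { carrier := {u | ∃ h : u ∈ U, θ.1 ⟨u, h⟩ = θ'.1 ⟨u, h⟩}
        add_mem' := by
          rintro a b ⟨ha, ha'⟩ ⟨hb, hb'⟩
          refine ⟨U.add_mem ha hb, ?_⟩
          have h1 : (⟨a + b, U.add_mem ha hb⟩ : U) = ⟨a, ha⟩ + ⟨b, hb⟩ := rfl
          rw [h1, map_add, map_add, ha', hb']
        zero_mem' := by
          refine ⟨U.zero_mem, ?_⟩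
          have h1 : (⟨0, U.zero_mem⟩ : U) = 0 := rfl
          rw [h1, map_zero, map_zero]
        smul_mem' := by
          rintro c a ⟨ha, ha'⟩
          refine ⟨U.smul_mem c ha, ?_⟩
          have h1 : (⟨c • a, U.smul_mem c ha⟩ : U) = c • ⟨a, ha⟩ := rfl
          rw [h1, map_smul, map_smul, ha'] }
    have hM : M = ⊥ ∨ M = U := by
      apply hU.2.2
      · exact fun x hx => hx.1
      · rintro u ⟨hu, hu'⟩ γ
        refine ⟨hU.2.1 _ hu γ, ?_⟩
        apply Subtype.ext
        funext s
        rw [θ.2 ⟨u, hu⟩ ⟨fun s => u (γ • s), hU.2.1 _ hu γ⟩ γ (fun s => rfl) s,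
          θ'.2 ⟨u, hu⟩ ⟨fun s => u (γ • s), hU.2.1 _ hu γ⟩ γ (fun s => rfl) s, hu']
    rcases hM with hM | hM
    · exfalso
      apply hf0
      have h3 : f ∈ M := ⟨hf, hθ⟩
      rw [hM] at h3
      exact (Submodule.mem_bot ℚ).1 h3
    · apply Subtype.ext
      apply LinearMap.ext
      intro y
      have h3 : (y : S → ℚ) ∈ M := by
        rw [hM]
        exact y.2
      exact h3.2
  have hsurj : Function.Surjective ev := by
    rw [← LinearMap.range_eq_top]
    apply Submodule.eq_top_of_finrank_eq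
    rw [h2, ← he]
    exact (LinearEquiv.ofInjective ev hinj).finrank_eq.symm
  ext γ
  rw [SubB_mem_fix, mem_kerSub]
  constructor
  · intro h u hu s
    obtain ⟨θ, hθ⟩ := hsurj ⟨u, hu⟩
    rw [hev] at hθ
    have h3 := θ.2 ⟨f, hf⟩ ⟨f, hf⟩ γ (fun s => (h s).symm) s
    rw [hθ] at h3
    exact h3.symm
  · intro h
    exact h f hf

/-- The case of a one-dimensional endomorphism ring. -/
private lemma EvIndex_one {U : Submodule ℚ (S → ℚ)} (hU : IsIrr G U) (h2 : finrank ℚ U = 2)
    (s₀ : S) (hh : finrank ℚ ↥(U ⊓ invF ℚ (stabilizer G s₀)) = 1) {f : S → ℚ}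
    (hf : f ∈ U) (hf0 : f ≠ 0) (hfi : f ∈ invF ℚ (stabilizer G s₀)) :
    (kerSub G U).relIndex (SubBfix G f) = 2 := by
  classical
  have hff : ∑ s, f s * f s ≠ 0 := fun h => hf0 (EvIndex_sq h)
  let L : U →ₗ[ℚ] ℚ :=
    { toFun := fun u => ∑ s, f s * u.1 s
      map_add' := by
        intro a b
        simp only [Submodule.coe_add, Pi.add_apply, mul_add, Finset.sum_add_distrib]
      map_smul' := by
        intro c a
        simp only [Submodule.coe_smul, Pi.smul_apply, smul_eq_mul, mul_left_comm, Finset.mul_sum,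
          RingHom.id_apply] }
  have hL : ∀ u : U, L u = ∑ s, f s * u.1 s := fun u => rfl
  have hker1 : LinearMap.ker L ≠ ⊥ := by
    intro h
    have h3 := LinearMap.finrank_range_add_finrank_ker L
    have h4 : finrank ℚ (LinearMap.range L) ≤ 1 := by
      have h5 := Submodule.finrank_le (LinearMap.range L)
      rwa [Module.finrank_self] at h5
    rw [h, finrank_bot] at h3
    omega
  obtain ⟨g', hg', hg0'⟩ := Submodule.exists_mem_ne_zero_of_ne_bot hker1
  obtain ⟨g, hgU⟩ := g'
  have hfg : ∑ s, f s * g s = 0 := hg'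
  have hg0 : g ≠ 0 := by
    rintro rfl
    exact hg0' rfl
  have hgg : ∑ s, g s * g s ≠ 0 := fun h => hg0 (EvIndex_sq h)
  -- linear combinations
  have hpair : ∀ a b : ℚ, ∑ s, f s * (a * f s + b * g s) = a * ∑ s, f s * f s := by
    intro a b
    have h3 : ∀ s, f s * (a * f s + b * g s) = a * (f s * f s) + b * (f s * g s) :=
      fun s => by ring
    rw [Finset.sum_congr rfl fun s _ => h3 s, Finset.sum_add_distrib, ← Finset.mul_sum,
      ← Finset.mul_sum, hfg, mul_zero, add_zero]
  have hli : LinearIndependent ℚ ![f, g] := by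
    rw [LinearIndependent.pair_iff]
    intro a b hab
    have h3 : ∀ s, a * f s + b * g s = 0 := fun s => congrFun hab s
    have h4 := hpair a b
    simp only [h3, mul_zero, Finset.sum_const_zero] at h4
    have h5 : a = 0 := by
      rcases mul_eq_zero.1 h4.symm with h | h
      · exact h
      · exact absurd h hff
    refine ⟨h5, ?_⟩
    by_contra hb
    apply hg0
    funext s
    have h6 := h3 s
    rw [h5, zero_mul, zero_add] at h6
    rcases mul_eq_zero.1 h6 with h | h
    · exact absurd h hb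
    · exact h
  have hspan : ∀ u ∈ U, ∃ a b : ℚ, ∀ s, u s = a * f s + b * g s := by
    have h3 : Submodule.span ℚ (Set.range ![f, g]) = U := by
      apply Submodule.eq_of_le_of_finrank_eq
      · rw [Submodule.span_le]
        rintro _ ⟨i, rfl⟩
        fin_cases i
        · exact hf
        · exact hgU
      · rw [finrank_span_eq_card hli, h2]
        rfl
    intro u hu
    rw [← h3] at hu
    have h4 : Set.range ![f, g] = {f, g} := by
      simp [Matrix.range_cons, Matrix.range_empty, Set.pair_comm]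
    rw [h4, Submodule.mem_span_pair] at hu
    obtain ⟨a, b, hab⟩ := hu
    exact ⟨a, b, fun s => by rw [← hab]; rfl⟩
  have hshift : ∀ (γ : G) (F : S → ℚ), ∑ s, F (γ • s) = ∑ s, F s := fun γ F =>
    Equiv.sum_comp (MulAction.toPerm γ) F
  -- the elements fixing `f` act by a sign on `g`
  have hsign : ∀ γ ∈ SubBfix G f, (∀ s, g (γ • s) = g s) ∨ (∀ s, g (γ • s) = - g s) := by
    intro γ hγ
    obtain ⟨a, c, hc⟩ := hspan _ (hU.2.1 _ hgU γ)
    have hc : ∀ s, g (γ • s) = a * f s + c * g s := hc
    have h3 : ∑ s, f s * g (γ • s) = 0 := by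
      have h4 : ∀ s, f s * g (γ • s) = (fun t => f t * g t) (γ • s) := fun s => by
        show _ = f (γ • s) * g (γ • s)
        rw [hγ s]
      rw [Finset.sum_congr rfl (fun s _ => h4 s), hshift γ (fun t => f t * g t)]
      exact hfg
    simp only [hc] at h3
    rw [hpair] at h3
    have ha : a = 0 := by
      rcases mul_eq_zero.1 h3 with h | h
      · exact h
      · exact absurd h hff
    have hc' : ∀ s, g (γ • s) = c * g s := fun s => by rw [hc s, ha, zero_mul, zero_add]
    have h5 : c * c = 1 := by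
      have h6 := hshift γ (fun t => g t * g t)
      simp only [hc'] at h6
      have h7 : ∑ s, c * g s * (c * g s) = c * c * ∑ s, g s * g s := by
        rw [Finset.mul_sum]
        exact Finset.sum_congr rfl fun s _ => by ring
      rw [h7] at h6
      exact mul_right_cancel₀ hgg (by rw [h6, one_mul])
    rcases mul_self_eq_one_iff.mp h5 with h6 | h6
    · left
      intro s
      rw [hc' s, h6, one_mul]
    · right
      intro s
      rw [hc' s, h6, neg_one_mul]
  have hkerfix : ∀ γ ∈ SubBfix G f, (∀ s, g (γ • s) = g s) → γ ∈ kerSub G U := by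
    intro γ hγ hgγ u hu s
    obtain ⟨a, b, hab⟩ := hspan u hu
    rw [hab, hab, hγ s, hgγ s]
  rw [Subgroup.relIndex_eq_two_iff_exists_notMem_and]
  -- an element of the stabilizer acting nontrivially
  have hex : ∃ b ∈ stabilizer G s₀, b ∉ kerSub G U := by
    by_contra hcon
    push Not at hcon
    have h3 : U ⊓ invF ℚ (stabilizer G s₀) = U := by
      apply inf_eq_left.2
      intro u hu b hb s
      exact hcon b hb u hu s
    rw [h3, h2] at hh
    omega
  obtain ⟨b₀, hb₀, hb₀'⟩ := hex
  have hb₀f : b₀ ∈ SubBfix G f := fun s => hfi b₀ hb₀ s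
  have hb₀g : ∀ s, g (b₀ • s) = - g s := by
    rcases hsign b₀ hb₀f with h3 | h3
    · exact absurd (hkerfix b₀ hb₀f h3) hb₀'
    · exact h3
  refine ⟨b₀, hb₀f, hb₀', fun b hb => ?_⟩
  rcases hsign b hb with h3 | h3
  · exact Or.inr (hkerfix b hb h3)
  · left
    apply hkerfix _ ((SubBfix G f).mul_mem hb hb₀f)
    intro s
    rw [mul_smul, h3, hb₀g, neg_neg]

/-- The group `H0` is the group fixing the function of the space which represents the evaluation. -/
private lemma EvIndex_riesz [IsPretransitive G S] (s₀ : S) {U : Submodule ℚ (S → ℚ)}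
    (hU : IsIrr G U) : ∃ f : S → ℚ, f ∈ U ∧ f ≠ 0 ∧ H0 G s₀ U = SubBfix G f := by
  classical
  let B : U →ₗ[ℚ] Module.Dual ℚ U :=
    { toFun := fun f =>
        { toFun := fun u => ∑ s, u.1 s * f.1 s
          map_add' := by
            intro a b
            simp only [Submodule.coe_add, Pi.add_apply, add_mul, Finset.sum_add_distrib]
          map_smul' := by
            intro c a
            simp only [Submodule.coe_smul, Pi.smul_apply, smul_eq_mul, mul_assoc,
              ← Finset.mul_sum, RingHom.id_apply] }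
      map_add' := by
        intro a b
        apply LinearMap.ext
        intro u
        show ∑ s, u.1 s * (a + b).1 s = ∑ s, u.1 s * a.1 s + ∑ s, u.1 s * b.1 s
        simp only [Submodule.coe_add, Pi.add_apply, mul_add, Finset.sum_add_distrib]
      map_smul' := by
        intro c a
        apply LinearMap.ext
        intro u
        show ∑ s, u.1 s * (c • a).1 s = c * ∑ s, u.1 s * a.1 s
        simp only [Submodule.coe_smul, Pi.smul_apply, smul_eq_mul, mul_left_comm,
          Finset.mul_sum] }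
  have hB : ∀ f u : U, B f u = ∑ s, u.1 s * f.1 s := fun f u => rfl
  have hinj : Function.Injective B := by
    rw [← LinearMap.ker_eq_bot, LinearMap.ker_eq_bot']
    intro f h
    have h1 : B f f = 0 := by rw [h]; rfl
    rw [hB] at h1
    exact Subtype.ext (EvIndex_sq h1)
  have hsurj : Function.Surjective B :=
    (LinearMap.injective_iff_surjective_of_finrank_eq_finrank
      (Subspace.dual_finrank_eq (K := ℚ) (V := U)).symm).1 hinj
  let lam : Module.Dual ℚ U :=
    { toFun := fun u => u.1 s₀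
      map_add' := by
        intro a b
        simp only [Submodule.coe_add, Pi.add_apply]
      map_smul' := by
        intro c a
        simp only [Submodule.coe_smul, Pi.smul_apply, smul_eq_mul, RingHom.id_apply] }
  have hlam : ∀ u : U, lam u = u.1 s₀ := fun u => rfl
  obtain ⟨f, hf⟩ := hsurj lam
  have hfe : ∀ u ∈ U, ∑ s, u s * f.1 s = u s₀ := by
    intro u hu
    have h1 : B f ⟨u, hu⟩ = lam ⟨u, hu⟩ := by rw [hf]
    rw [hB, hlam] at h1
    exact h1
  have hshift : ∀ (γ : G) (F : S → ℚ), ∑ s, F (γ • s) = ∑ s, F s := fun γ F =>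
    Equiv.sum_comp (MulAction.toPerm γ) F
  refine ⟨f.1, f.2, ?_, ?_⟩
  · intro h0
    apply hU.1
    rw [Submodule.eq_bot_iff]
    intro u hu
    funext s
    obtain ⟨γ, rfl⟩ := MulAction.exists_smul_eq G s₀ s
    have h1 := hfe _ (hU.2.1 u hu γ)
    rw [h0] at h1
    simp only [Pi.zero_apply, mul_zero, Finset.sum_const_zero] at h1
    exact h1.symm
  · ext γ
    rw [mem_H0, SubB_mem_fix]
    constructor
    · intro h
      have h1 : ∀ u ∈ U, ∑ s, u s * (f.1 (γ⁻¹ • s) - f.1 s) = 0 := by
        intro u hu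
        have h2 := h u hu 1
        rw [one_smul, one_smul] at h2
        have h3 := hfe _ (hU.2.1 u hu γ)
        have h4 := hshift γ (fun s => u s * f.1 (γ⁻¹ • s))
        simp only [inv_smul_smul] at h4
        simp only [mul_sub, Finset.sum_sub_distrib]
        rw [← h4, h3, hfe u hu, h2, sub_self]
      have h2 : (fun s => f.1 (γ⁻¹ • s)) - f.1 = 0 := by
        apply EvIndex_sq
        exact h1 _ (U.sub_mem (hU.2.1 _ f.2 γ⁻¹) f.2)
      intro s
      have h3 := congrFun h2 (γ • s)
      simp only [Pi.sub_apply, inv_smul_smul, Pi.zero_apply] at h3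
      linarith
    · intro h u hu δ
      have h1 := hfe _ (hU.2.1 u hu (δ * γ))
      have h2 := hfe _ (hU.2.1 u hu δ)
      simp only [mul_smul] at h1
      rw [← h1, ← h2, ← hshift γ (fun s => u (δ • s) * f.1 s)]
      exact Finset.sum_congr rfl fun s _ => by rw [h s]

end EvIndex

theorem pEvIndex : StEvIndex := by
  classical
  intro S G _ _ _ _ _ s₀ z U hU hodd h2 he
  have hst : stabilizer G s₀ ≤ H0 G s₀ U := by
    intro b hb u hu δ
    rw [MulAction.mem_stabilizer_iff.1 hb]
  have hz : z ∉ H0 G s₀ U := by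
    intro h
    apply hU.1
    rw [Submodule.eq_bot_iff]
    intro u hu
    funext s
    obtain ⟨γ, rfl⟩ := MulAction.exists_smul_eq G s₀ s
    have h1 := h _ (hU.2.1 u hu γ) 1
    have h3 := hodd _ (hU.2.1 u hu γ) s₀
    simp only [one_smul] at h1
    have h4 : u (γ • s₀) = - u (γ • s₀) := h1.symm.trans h3
    show u (γ • s₀) = 0
    linarith
  refine ⟨hst, hz, ?_⟩
  obtain ⟨f, hf, hf0, hH⟩ := EvIndex_riesz (G := G) s₀ hU
  have hfi : f ∈ invF ℚ (stabilizer G s₀) := by
    intro b hb s
    have h1 := hst hb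
    rw [hH] at h1
    exact h1 s
  have h3 : finrank ℚ ↥(U ⊓ invF ℚ (stabilizer G s₀)) ≤ 2 := by
    rw [← h2]
    exact Submodule.finrank_mono inf_le_left
  have h4 : 1 ≤ finrank ℚ ↥(U ⊓ invF ℚ (stabilizer G s₀)) := by
    rw [Nat.one_le_iff_ne_zero, Ne, Submodule.finrank_eq_zero]
    intro hbot
    have h5 : f ∈ U ⊓ invF ℚ (stabilizer G s₀) := ⟨hf, hfi⟩
    rw [hbot] at h5
    exact hf0 ((Submodule.mem_bot ℚ).1 h5)
  obtain ⟨ho1, ho2⟩ := pOrd S G z U hU hodd h2
  rcases (by omega : finrank ℚ ↥(U ⊓ invF ℚ (stabilizer G s₀)) = 1 ∨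
    finrank ℚ ↥(U ⊓ invF ℚ (stabilizer G s₀)) = 2) with h5 | h5
  · have h6 := EvIndex_one hU h2 s₀ h5 hf hf0 hfi
    have h7 : kerSub G U ≤ SubBfix G f := fun γ hγ => hγ _ hf
    have h8 := Subgroup.relIndex_mul_index h7
    rw [h6] at h8
    rw [hH]
    rcases ho1 (by rw [he, h5]) with h9 | h9
    · left
      exact ⟨Or.inr h9, by omega⟩
    · right
      exact ⟨Or.inr h9, by omega⟩
  · rw [hH, EvIndex_two hU h2 (by rw [he, h5]) hf hf0]
    rcases ho2 (by rw [he, h5]) with h9 | h9
    · left
      exact ⟨Or.inl h9, h9⟩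
    · right
      exact ⟨Or.inl h9, h9⟩

end Pool.Agent.Lib.MP_640417_ag.Sharp
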