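import Pool.Agent.Lib.MP_640417_ag.Sharp.SpecU

/-!
# A space of dimension `2` is determined by the subgroup `H0`
-/

namespace Pool.Agent.Lib.MP_640417_ag.Sharp

open Module Finset MulAction Pool.Agent.Lib.MP_640417_ag.Far Pool.Agent.Lib.MP_640417_ag.Full

/-- Odd functions for a fixed point free involution. -/
private lemma evSp_finrank {X : Type} [Fintype X] (τ : X → X) (h1 : ∀ x, τ (τ x) = x)
    (h2 : ∀ x, τ x ≠ x) (V : Submodule ℚ (X → ℚ)) (hV : ∀ F, F ∈ V ↔ ∀ x, F (τ x) = - F x) :
    2 * finrank ℚ V = Fintype.card X := by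
  classical
  let e := Fintype.equivFin X
  let D : Finset X := univ.filter fun x => e x < e (τ x)
  have hD : ∀ x, x ∉ D ↔ τ x ∈ D := by
    intro x
    have h3 : e x ≠ e (τ x) := fun h => h2 x (e.injective h).symm
    simp only [D, mem_filter, mem_univ, true_and, h1, not_lt]
    exact ⟨fun h => lt_of_le_of_ne h h3.symm, fun h => h.le⟩
  have hD' : ∀ x, x ∈ D → τ x ∉ D := by
    intro x hx hx'
    exact (hD x).mpr hx' hx
  let Θ : V ≃ₗ[ℚ] (D → ℚ) :=
    { toFun := fun F d => F.1 d.1
      map_add' := fun _ _ => rfl
      map_smul' := fun _ _ => rfl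
      invFun := fun g => ⟨fun x => if h : x ∈ D then g ⟨x, h⟩ else - g ⟨τ x, (hD x).mp h⟩, by
        rw [hV]
        intro x
        by_cases h : x ∈ D
        · have h' := hD' x h
          simp only [h, h', dite_true, dite_false, h1]
        · have h' := (hD x).mp h
          simp only [h, h', dite_true, dite_false, neg_neg]⟩
      left_inv := by
        intro F
        apply Subtype.ext
        funext x
        by_cases h : x ∈ D
        · simp only [h, dite_true]
        · simp only [h, dite_false]
          rw [(hV F.1).mp F.2 x, neg_neg]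
      right_inv := by
        intro g
        funext d
        simp only [d.2, dite_true] }
  rw [Θ.finrank_eq, finrank_fintype_fun_eq_card, Fintype.card_coe]
  have h3 : (univ.filter fun x => x ∉ D).card = D.card := by
    apply Finset.card_bij' (fun x _ => τ x) (fun x _ => τ x)
    · intro x hx
      simp only [mem_filter, mem_univ, true_and] at hx
      exact (hD x).mp hx
    · intro x hx
      simp only [mem_filter, mem_univ, true_and]
      exact hD' x hx
    · intro x _
      exact h1 x
    · intro x _
      exact h1 x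
  have h4 := Finset.card_filter_add_card_filter_not (s := (univ : Finset X)) (fun x => x ∈ D)
  have h5 : (univ.filter fun x => x ∈ D) = D := by
    ext x; simp
  rw [h5, h3, Finset.card_univ] at h4
  omega

section

variable {S G : Type} [Group G] [MulAction G S]

/-- Odd functions on `G ⧸ H`. -/
private def evSpO (s₀ : S) (z : G) (H : Subgroup G) : Submodule ℚ (S → ℚ) where
  carrier := {f | (∀ s, f (z • s) = - f s) ∧
    (∀ γ γ' : G, γ⁻¹ * γ' ∈ H → f (γ • s₀) = f (γ' • s₀))}
  add_mem' := by
    rintro f f' ⟨h1, h2⟩ ⟨h1', h2'⟩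
    refine ⟨fun s => ?_, fun γ γ' h => ?_⟩
    · simp only [Pi.add_apply, h1 s, h1' s]
      ring
    · simp only [Pi.add_apply, h2 γ γ' h, h2' γ γ' h]
  zero_mem' := by
    refine ⟨fun s => ?_, fun γ γ' _ => rfl⟩
    simp
  smul_mem' := by
    rintro c f ⟨h1, h2⟩
    refine ⟨fun s => ?_, fun γ γ' h => ?_⟩
    · simp only [Pi.smul_apply, h1 s, smul_eq_mul]
      ring
    · simp only [Pi.smul_apply, h2 γ γ' h]

private lemma evSp_memO (s₀ : S) (z : G) (H : Subgroup G) (f : S → ℚ) : f ∈ evSpO s₀ z H ↔
    (∀ s, f (z • s) = - f s) ∧ (∀ γ γ' : G, γ⁻¹ * γ' ∈ H → f (γ • s₀) = f (γ' • s₀)) := Iff.rfl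

private lemma evSp_finrankO [Finite G] [IsPretransitive G S] (s₀ : S) (z : G)
    (hz : ∀ γ : G, γ * z = z * γ) (hzz : ∀ s : S, z • z • s = s) (H : Subgroup G)
    (hH : stabilizer G s₀ ≤ H) (hzH : z ∉ H) : 2 * finrank ℚ (evSpO s₀ z H) = H.index := by
  classical
  have : Fintype (G ⧸ H) := Fintype.ofFinite _
  have hz2 : z * z ∈ H := by
    apply hH
    rw [mem_stabilizer_iff, mul_smul, hzz]
  let τ : G ⧸ H → G ⧸ H := fun x => z • x
  have hτ : ∀ γ : G, τ (γ : G ⧸ H) = ((z * γ : G) : G ⧸ H) := fun γ => rfl
  have h1 : ∀ x, τ (τ x) = x := by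
    intro x
    induction x using QuotientGroup.induction_on with
    | H γ =>
      rw [hτ, hτ, eq_comm, QuotientGroup.eq, ← hz, ← hz, mul_assoc, inv_mul_cancel_left]
      exact hz2
  have h2 : ∀ x, τ x ≠ x := by
    intro x
    induction x using QuotientGroup.induction_on with
    | H γ =>
      rw [hτ, ne_comm, Ne, QuotientGroup.eq, ← hz, inv_mul_cancel_left]
      exact hzH
  let V : Submodule ℚ (G ⧸ H → ℚ) :=
    { carrier := {F | ∀ x, F (τ x) = - F x}
      add_mem' := by
        intro F F' h h' x
        simp only [Pi.add_apply, h x, h' x]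
        ring
      zero_mem' := by intro x; simp
      smul_mem' := by
        intro c F h x
        simp only [Pi.smul_apply, h x, smul_eq_mul]
        ring }
  have h3 := evSp_finrank τ h1 h2 V (fun F => Iff.rfl)
  let π : S → G ⧸ H := fun s => ((exists_smul_eq G s₀ s).choose : G ⧸ H)
  have hπ : ∀ γ : G, π (γ • s₀) = (γ : G ⧸ H) := by
    intro γ
    have h4 := (exists_smul_eq G s₀ (γ • s₀)).choose_spec
    change ((exists_smul_eq G s₀ (γ • s₀)).choose : G ⧸ H) = _
    rw [QuotientGroup.eq]
    apply hH
    rw [mem_stabilizer_iff, mul_smul, inv_smul_eq_iff]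
    exact h4.symm
  have hπs : Function.Surjective π := by
    intro x
    induction x using QuotientGroup.induction_on with
    | H γ => exact ⟨γ • s₀, hπ γ⟩
  have hinj := LinearMap.funLeft_injective_of_surjective ℚ ℚ π hπs
  have h5 : evSpO s₀ z H = V.map (LinearMap.funLeft ℚ ℚ π) := by
    ext f
    rw [evSp_memO, Submodule.mem_map]
    constructor
    · rintro ⟨hf1, hf2⟩
      refine ⟨fun x => f (x.out • s₀), ?_, ?_⟩
      · intro x
        have h6 : (z • x).out⁻¹ * (z * x.out) ∈ H := by
          rw [← QuotientGroup.eq, QuotientGroup.out_eq', ← smul_eq_mul, ← MulAction.Quotient.smul_coe,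
            QuotientGroup.out_eq']
        change f ((z • x).out • s₀) = _
        rw [hf2 _ _ h6, mul_smul, hf1]
      · funext s
        obtain ⟨γ, rfl⟩ := exists_smul_eq G s₀ s
        rw [LinearMap.funLeft_apply, hπ]
        apply hf2
        rw [← QuotientGroup.eq, QuotientGroup.out_eq']
    · rintro ⟨F, hF, rfl⟩
      refine ⟨fun s => ?_, fun γ γ' h => ?_⟩
      · obtain ⟨γ, rfl⟩ := exists_smul_eq G s₀ s
        rw [LinearMap.funLeft_apply, LinearMap.funLeft_apply, ← mul_smul, hπ, hπ]
        exact hF (γ : G ⧸ H)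
      · rw [LinearMap.funLeft_apply, LinearMap.funLeft_apply, hπ, hπ]
        congr 1
        rw [QuotientGroup.eq]
        exact h
  rw [h5, ← (Submodule.equivMapOfInjective _ hinj V).finrank_eq, h3, Subgroup.index,
    Nat.card_eq_fintype_card]

private lemma evSp_le [IsPretransitive G S] (s₀ : S) (z : G) (U : Submodule ℚ (S → ℚ))
    (hU : IsOddSp z U) : U ≤ evSpO s₀ z (H0 G s₀ U) := by
  intro u hu
  refine ⟨hU u hu, fun γ γ' h => ?_⟩
  have h1 := h u hu γ
  rw [← mul_smul, mul_inv_cancel_left] at h1
  exact h1.symm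

/-- The sign character of a subgroup of index two, as a function on `S`. -/
private lemma evSp_line [IsPretransitive G S] (s₀ : S) (z : G) (H H' : Subgroup G)
    (hH : stabilizer G s₀ ≤ H) (hH' : H ≤ H') (hi : H'.index = 2) (hz : z ∉ H') :
    ∃ f ∈ evSpO s₀ z H, f s₀ ≠ 0 ∧
      ∀ γ : G, (fun s => f (γ • s)) = f ∨ (fun s => f (γ • s)) = - f := by
  classical
  have hst : stabilizer G s₀ ≤ H' := hH.trans hH'
  let f : S → ℚ := fun s => if ∃ γ ∈ H', s = γ • s₀ then 1 else -1
  have hf : ∀ γ : G, f (γ • s₀) = if γ ∈ H' then 1 else -1 := by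
    intro γ
    by_cases h : γ ∈ H'
    · have h1 : ∃ γ' ∈ H', γ • s₀ = γ' • s₀ := ⟨γ, h, rfl⟩
      simp only [f, h1, h, if_true]
    · have h1 : ¬ ∃ γ' ∈ H', γ • s₀ = γ' • s₀ := by
        rintro ⟨γ', h2, h3⟩
        apply h
        have h4 : γ'⁻¹ * γ ∈ stabilizer G s₀ := by
          rw [mem_stabilizer_iff, mul_smul, h3, inv_smul_smul]
        have h5 := H'.mul_mem h2 (hst h4)
        rwa [mul_inv_cancel_left] at h5
      simp only [f, h1, h, if_false]
  have hmul : ∀ a b : G, a * b ∈ H' ↔ (a ∈ H' ↔ b ∈ H') := fun a b =>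
    Subgroup.mul_mem_iff_of_index_two hi
  refine ⟨f, ⟨?_, ?_⟩, ?_, ?_⟩
  · intro s
    obtain ⟨γ, rfl⟩ := exists_smul_eq G s₀ s
    rw [← mul_smul, hf, hf, hmul]
    by_cases h : γ ∈ H' <;> simp [h, hz]
  · intro γ γ' h
    rw [hf, hf]
    have h1 := hH' h
    rw [hmul, Subgroup.inv_mem_iff] at h1
    simp only [h1]
  · have h1 := hf 1
    rw [one_smul] at h1
    rw [h1, if_pos H'.one_mem]
    norm_num
  · intro γ
    by_cases h : γ ∈ H'
    · left
      funext s
      obtain ⟨δ, rfl⟩ := exists_smul_eq G s₀ s
      rw [← mul_smul, hf, hf, hmul]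
      by_cases h2 : δ ∈ H' <;> simp [h, h2]
    · right
      funext s
      obtain ⟨δ, rfl⟩ := exists_smul_eq G s₀ s
      rw [← mul_smul, Pi.neg_apply, hf, hf, hmul]
      by_cases h2 : δ ∈ H' <;> simp [h, h2]

end

/-- Two subgroups of index two. -/
private lemma evSp_unique {G : Type} [Group G] (H H' H'' : Subgroup G) (h1 : H ≤ H')
    (h2 : H ≤ H'') (hi : H.index = 6) (hi' : H'.index = 2) (hi'' : H''.index = 2) : H'' = H' := by
  by_contra hne
  have h3 : (H' ⊓ H'').index = 4 := by
    have h4 := Subgroup.relIndex_mul_index (inf_le_left : H' ⊓ H'' ≤ H')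
    rw [hi', Subgroup.inf_relIndex_left] at h4
    have h5 : H''.relIndex H' ∣ 2 := by
      rw [← hi'']
      have : H''.Normal := Subgroup.normal_of_index_eq_two hi''
      exact Subgroup.relIndex_dvd_index_of_normal H'' H'
    have h6 : H''.relIndex H' ≠ 1 := by
      rw [Ne, Subgroup.relIndex_eq_one]
      intro h7
      apply hne
      have h8 := Subgroup.relIndex_mul_index h7
      rw [hi', hi''] at h8
      have h9 : H'.relIndex H'' = 1 := by omega
      exact le_antisymm (Subgroup.relIndex_eq_one.mp h9) h7
    have h7 : H''.relIndex H' = 2 := by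
      rcases (Nat.dvd_prime Nat.prime_two).mp h5 with h | h
      · exact absurd h h6
      · exact h
    rw [h7] at h4
    omega
  have h4 : (H' ⊓ H'').index ∣ H.index := Subgroup.index_dvd_of_le (le_inf h1 h2)
  rw [h3, hi] at h4
  omega

theorem pEvSp : StEvSp := by
  classical
  intro S G _ _ _ _ _ s₀ z hz hzz U hirr hodd hdim hst hzH
  set H := H0 G s₀ U with hHdef
  have hO := evSp_finrankO s₀ z hz hzz H hst hzH
  have hUO : U ≤ evSpO s₀ z H := evSp_le s₀ z U hodd
  have hspO : sp s₀ z H ≤ evSpO s₀ z H := fun f hf => ⟨hf.1, hf.2.1⟩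
  obtain ⟨hU0, hUs, hUirr⟩ := hirr
  constructor
  · intro h4
    rw [h4] at hO
    have hU : U = evSpO s₀ z H := Submodule.eq_of_le_of_finrank_le hUO (by omega)
    have hno : ∀ H' : Subgroup G, H ≤ H' → H'.index = 2 → z ∈ H' := by
      intro H' hH' hi
      by_contra hzH'
      obtain ⟨f, hf, hf0, hfs⟩ := evSp_line s₀ z H H' hst hH' hi hzH'
      have hfU : f ∈ U := by rw [hU]; exact hf
      rcases hUirr (Submodule.span ℚ {f}) ((Submodule.span_singleton_le_iff_mem f U).mpr hfU) (by
        intro f' hf' γ
        obtain ⟨c, rfl⟩ := Submodule.mem_span_singleton.mp hf'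
        rw [Submodule.mem_span_singleton]
        rcases hfs γ with h | h
        · refine ⟨c, ?_⟩
          funext s
          have h9 : f (γ • s) = f s := congrFun h s
          simp only [Pi.smul_apply, h9]
        · refine ⟨-c, ?_⟩
          funext s
          have h9 : f (γ • s) = - f s := congrFun h s
          simp only [Pi.smul_apply, h9, neg_smul, smul_neg]) with h | h
      · rw [Submodule.span_singleton_eq_bot] at h
        exact hf0 (by rw [h]; rfl)
      · have h5 := finrank_span_singleton (K := ℚ) (v := f) (by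
          rintro rfl
          exact hf0 rfl)
        rw [h] at h5
        omega
    refine ⟨⟨hst, hzH, h4, hno⟩, ?_⟩
    apply le_antisymm
    · intro u hu
      obtain ⟨a, b⟩ := hUO hu
      exact ⟨a, b, fun H' hH' hi hz' => absurd (hno H' hH' hi) hz'⟩
    · rw [hU]
      exact hspO
  · intro h6
    rw [h6] at hO
    -- a function in `O` orthogonal to `U`
    let B : (S → ℚ) →ₗ[ℚ] (U →ₗ[ℚ] ℚ) :=
      { toFun := fun f =>
          { toFun := fun u => ∑ s, f s * u.1 s
            map_add' := fun u u' => by
              simp only [Submodule.coe_add, Pi.add_apply, mul_add, Finset.sum_add_distrib]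
            map_smul' := fun c u => by
              simp only [Submodule.coe_smul, Pi.smul_apply, smul_eq_mul, RingHom.id_apply,
                Finset.mul_sum]
              apply Finset.sum_congr rfl
              intro s _
              ring }
        map_add' := fun f f' => by
          ext u
          simp only [LinearMap.coe_mk, AddHom.coe_mk, LinearMap.add_apply, Pi.add_apply, add_mul,
            Finset.sum_add_distrib]
        map_smul' := fun c f => by
          ext u
          simp only [LinearMap.coe_mk, AddHom.coe_mk, LinearMap.smul_apply, Pi.smul_apply,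
            smul_eq_mul, RingHom.id_apply, Finset.mul_sum, mul_assoc] }
    have hB : ∀ f (u : U), B f u = ∑ s, f s * u.1 s := fun f u => rfl
    obtain ⟨f, hfO, hfU, hf0⟩ : ∃ f ∈ evSpO s₀ z H, B f = 0 ∧ f ≠ 0 := by
      have h7 := LinearMap.finrank_range_add_finrank_ker (B.domRestrict (evSpO s₀ z H))
      have h8 : finrank ℚ (LinearMap.range (B.domRestrict (evSpO s₀ z H))) ≤ 2 := by
        refine (Submodule.finrank_le _).trans ?_
        rw [Module.finrank_linearMap_self, hdim]
      have h9 : 0 < finrank ℚ (LinearMap.ker (B.domRestrict (evSpO s₀ z H))) := by omega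
      have h10 : Nontrivial (LinearMap.ker (B.domRestrict (evSpO s₀ z H))) :=
        Module.nontrivial_of_finrank_pos h9
      obtain ⟨⟨f, hf⟩, hfne⟩ := exists_ne (0 : LinearMap.ker (B.domRestrict (evSpO s₀ z H)))
      refine ⟨f.1, f.2, ?_, ?_⟩
      · exact hf
      · intro h
        apply hfne
        apply Subtype.ext
        apply Subtype.ext
        exact h
    have hpos : 0 < ∑ s, f s ^ 2 := by
      obtain ⟨s, hs⟩ := Function.ne_iff.mp hf0
      exact Finset.sum_pos' (fun s _ => sq_nonneg _) ⟨s, mem_univ s, by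
        have h7 : f s ≠ 0 := hs
        positivity⟩
    -- the orthogonal complement is a line
    have hL : ∀ f' ∈ evSpO s₀ z H, B f' = 0 → ∃ c : ℚ, f' = c • f := by
      intro f' hf'O hf'U
      by_contra hcon
      push Not at hcon
      have h7 : LinearIndependent ℚ ![f, f'] := by
        rw [LinearIndependent.pair_iff]
        intro a b hab
        have hb : b = 0 := by
          by_contra hb
          apply hcon (-(b⁻¹ * a))
          have h8 : b • f' = - (a • f) := by
            rw [eq_neg_iff_add_eq_zero, add_comm]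
            exact hab
          calc f' = b⁻¹ • (b • f') := by rw [smul_smul, inv_mul_cancel₀ hb, one_smul]
            _ = _ := by rw [h8, smul_neg, smul_smul, neg_smul]
        subst hb
        rw [zero_smul, add_zero, smul_eq_zero] at hab
        exact ⟨hab.resolve_right hf0, rfl⟩
      let W := Submodule.span ℚ (Set.range ![f, f'])
      have h8 : finrank ℚ W = 2 := by
        have := finrank_span_eq_card h7
        simpa using this
      have h9 : ∀ w ∈ W, w ∈ evSpO s₀ z H ∧ B w = 0 := by
        intro w hw
        have hle : W ≤ evSpO s₀ z H ⊓ LinearMap.ker B := by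
          rw [Submodule.span_le]
          rintro _ ⟨i, rfl⟩
          fin_cases i
          · exact ⟨hfO, hfU⟩
          · exact ⟨hf'O, hf'U⟩
        exact hle hw
      have h10 : Disjoint U W := by
        rw [Submodule.disjoint_def]
        intro w hwU hwW
        have h11 := (h9 w hwW).2
        have h12 : ∑ s, w s * w s = 0 := by
          rw [← hB w ⟨w, hwU⟩, h11]
          rfl
        funext s
        have h13 := (Finset.sum_eq_zero_iff_of_nonneg (fun s _ => mul_self_nonneg (w s))).mp h12 s
          (mem_univ s)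
        exact mul_self_eq_zero.mp h13
      have h11 := Submodule.finrank_sup_add_finrank_inf_eq U W
      rw [h10.eq_bot, finrank_bot, h8, hdim] at h11
      have h12 : finrank ℚ ↥(U ⊔ W) ≤ finrank ℚ (evSpO s₀ z H) :=
        Submodule.finrank_mono (sup_le hUO fun w hw => (h9 w hw).1)
      omega
    have htr : ∀ γ : G, (∀ s, f (γ • s) = f s) ∨ (∀ s, f (γ • s) = - f s) := by
      intro γ
      obtain ⟨c, hc⟩ := hL (fun s => f (γ • s)) (by
        refine ⟨fun s => ?_, fun δ δ' h => ?_⟩
        · change f (γ • z • s) = - f (γ • s)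
          rw [← mul_smul, hz, mul_smul, hfO.1]
        · change f (γ • δ • s₀) = f (γ • δ' • s₀)
          rw [← mul_smul, ← mul_smul]
          apply hfO.2
          rw [mul_inv_rev, mul_assoc, inv_mul_cancel_left]
          exact h) (by
        ext u
        rw [hB]
        have h7 : ∑ s, f (γ • s) * u.1 s = ∑ s, f s * u.1 (γ⁻¹ • s) := by
          apply Fintype.sum_equiv (MulAction.toPerm γ)
          intro s
          rw [MulAction.toPerm_apply, inv_smul_smul]
        rw [h7]
        have h8 := hB f ⟨fun s => u.1 (γ⁻¹ • s), hUs u.1 u.2 γ⁻¹⟩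
        rw [hfU] at h8
        exact h8.symm)
      have hc' : ∀ s, f (γ • s) = c * f s := fun s => congrFun hc s
      have h7 : c ^ 2 = 1 := by
        have h8 : ∑ s, f s ^ 2 = c ^ 2 * ∑ s, f s ^ 2 := by
          calc ∑ s, f s ^ 2 = ∑ s, f (γ • s) ^ 2 := by
                symm
                apply Fintype.sum_equiv (MulAction.toPerm γ)
                intro s
                rfl
            _ = _ := by
                rw [Finset.mul_sum]
                apply Finset.sum_congr rfl
                intro s _
                rw [hc']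
                ring
        have h9 : (c ^ 2 - 1) * ∑ s, f s ^ 2 = 0 := by linarith
        rcases mul_eq_zero.mp h9 with h | h
        · linarith
        · exact absurd h hpos.ne'
      rcases sq_eq_one_iff.mp h7 with h | h
      · left
        intro s
        rw [hc', h, one_mul]
      · right
        intro s
        rw [hc', h, neg_one_mul]
    have hf0' : f s₀ ≠ 0 := by
      intro h
      apply hf0
      funext s
      obtain ⟨γ, rfl⟩ := exists_smul_eq G s₀ s
      rcases htr γ with h' | h'
      · rw [h' s₀, h]; rfl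
      · rw [h' s₀, h, neg_zero]; rfl
    let H' : Subgroup G :=
      { carrier := {γ | ∀ s, f (γ • s) = f s}
        mul_mem' := by
          intro a b ha hb s
          rw [mul_smul, ha, hb]
        one_mem' := by
          intro s
          rw [one_smul]
        inv_mem' := by
          intro a ha s
          have := ha (a⁻¹ • s)
          rw [smul_inv_smul] at this
          exact this.symm }
    have hH'mem : ∀ γ, γ ∈ H' ↔ ∀ s, f (γ • s) = f s := fun γ => Iff.rfl
    have hH'n : ∀ γ, γ ∉ H' → ∀ s, f (γ • s) = - f s := fun γ h => (htr γ).resolve_left h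
    have hself : ∀ q : ℚ, q ≠ 0 → - q ≠ q := by
      intro q hq h
      apply hq
      linarith
    have hzH' : z ∉ H' := by
      intro h
      have h7 := h s₀
      rw [hfO.1] at h7
      exact hself _ hf0' h7
    have hi' : H'.index = 2 := by
      rw [Subgroup.index_eq_two_iff]
      refine ⟨z, fun b => ?_⟩
      by_cases hb : b ∈ H'
      · right
        refine ⟨hb, fun h => ?_⟩
        have h7 := h s₀
        rw [hz, mul_smul, hfO.1, hb s₀] at h7
        exact hself _ hf0' h7
      · left
        refine ⟨fun s => ?_, hb⟩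
        rw [hz, mul_smul, hfO.1, hH'n b hb, neg_neg]
    have hHH' : H ≤ H' := by
      intro γ hγ
      by_contra h
      have h7 := hfO.2 1 γ (by rw [inv_one, one_mul]; exact hγ)
      rw [one_smul, hH'n γ h] at h7
      exact hself _ hf0' h7.symm
    refine ⟨⟨hst, hzH, h6, H', hHH', hi', hzH'⟩, ?_⟩
    have huniq : ∀ H'' : Subgroup G, H ≤ H'' → H''.index = 2 → H'' = H' := fun H'' h7 h8 =>
      evSp_unique H H' H'' hHH' h7 h6 hi' h8
    have hsum : ∀ f' ∈ evSpO s₀ z H, ∑ s, f s * f' s =
        2 * f s₀ * ∑ s, (if ∃ γ ∈ H', s = γ • s₀ then f' s else 0) := by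
      intro f' hf'
      have h7 : ∑ s, f' s = 0 := by
        have h8 : ∑ s, f' s = ∑ s, f' (z • s) := by
          symm
          apply Fintype.sum_equiv (MulAction.toPerm z)
          intro s
          rfl
        have h9 : ∑ s, f' (z • s) = - ∑ s, f' s := by
          rw [← Finset.sum_neg_distrib]
          exact Finset.sum_congr rfl fun s _ => hf'.1 s
        linarith
      have h8 : ∀ s, f s = f s₀ * (if ∃ γ ∈ H', s = γ • s₀ then 1 else -1) := by
        intro s
        split_ifs with h
        · obtain ⟨γ, hγ, rfl⟩ := h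
          rw [hγ s₀, mul_one]
        · obtain ⟨γ, rfl⟩ := exists_smul_eq G s₀ s
          have h9 : γ ∉ H' := fun h' => h ⟨γ, h', rfl⟩
          rw [hH'n γ h9]
          ring
      calc ∑ s, f s * f' s = ∑ s, (2 * f s₀ * (if ∃ γ ∈ H', s = γ • s₀ then f' s else 0) -
            f s₀ * f' s) := by
            apply Finset.sum_congr rfl
            intro s _
            rw [h8 s]
            split_ifs <;> ring
        _ = _ := by
            rw [Finset.sum_sub_distrib, ← Finset.mul_sum, ← Finset.mul_sum, h7]
            ring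
    have hUsp : U ≤ sp s₀ z H := by
      intro u hu
      obtain ⟨a, b⟩ := hUO hu
      refine ⟨a, b, fun H'' h7 h8 h9 => ?_⟩
      rw [huniq H'' h7 h8]
      have h10 := hsum u (hUO hu)
      have h11 := hB f ⟨u, hu⟩
      rw [hfU] at h11
      have h12 : 2 * f s₀ * ∑ s, (if ∃ γ ∈ H', s = γ • s₀ then u s else 0) = 0 := by
        rw [← h10]
        exact h11.symm
      rcases mul_eq_zero.mp h12 with h | h
      · exfalso
        apply hf0'
        linarith
      · convert h using 2
    apply Submodule.eq_of_le_of_finrank_le hUsp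
    have hlt : sp s₀ z H < evSpO s₀ z H := by
      refine lt_of_le_of_ne hspO fun h => ?_
      have h7 : f ∈ sp s₀ z H := by rw [h]; exact hfO
      have h8 := h7.2.2 H' hHH' hi' hzH'
      have h9 := hsum f hfO
      have h10 : ∑ s, (if ∃ γ ∈ H', s = γ • s₀ then f s else 0) = 0 := by
        convert h8 using 2
      rw [h10, mul_zero] at h9
      apply hpos.ne'
      rw [← h9]
      exact Finset.sum_congr rfl fun s _ => sq (f s)
    have := Submodule.finrank_lt_finrank_of_lt hlt
    omega

end Pool.Agent.Lib.MP_640417_ag.Sharp
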