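import Pool.Agent.Lib.MP_640417_ag.Sharp.SpecL

/-!
# The number of sign functions with given sums over the fibres
-/

namespace Pool.Agent.Lib.MP_640417_ag.Sharp

open Module Finset MulAction Pool.Agent.Lib.MP_640417_ag.Far Pool.Agent.Lib.MP_640417_ag.Full

private lemma Fib_finite {S G : Type} [Fintype S] [Group G] [MulAction G S] {z : G}
    (A : Set (S → ℤ)) (hA : ∀ e ∈ A, IsSgn z e) : A.Finite := by
  classical
  have h1 : A ⊆ ((Fintype.piFinset fun _ : S => ({1, -1} : Finset ℤ)) : Set (S → ℤ)) := by
    intro e he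
    rw [Finset.mem_coe, Fintype.mem_piFinset]
    intro s
    rcases (hA e he).1 s with h | h <;> simp [h]
  exact (Finset.finite_toSet _).subset h1

/-- Representatives of the pairs. -/
private lemma Fib_repr {T : Type} [Fintype T] [DecidableEq T] (zT : T → T)
    (h1 : ∀ t, zT (zT t) = t) (h2 : ∀ t, zT t ≠ t) :
    ∃ R : Finset T, (∀ t, t ∈ R ↔ zT t ∉ R) ∧ 2 * R.card = Fintype.card T := by
  classical
  let f := Fintype.equivFin T
  let R : Finset T := univ.filter fun t => f t < f (zT t)
  have hR : ∀ t, t ∈ R ↔ zT t ∉ R := by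
    intro t
    simp only [R, Finset.mem_filter, Finset.mem_univ, true_and, h1, not_lt]
    constructor
    · exact fun h => h.le
    · intro h
      exact lt_of_le_of_ne h fun h3 => h2 t (f.injective h3).symm
  refine ⟨R, hR, ?_⟩
  have h3 : R.card = (univ.filter fun t => t ∉ R).card := by
    refine Finset.card_bij' (fun t _ => zT t) (fun t _ => zT t) ?_ ?_ ?_ ?_
    · intro t ht
      simp only [Finset.mem_filter, Finset.mem_univ, true_and]
      exact (hR t).1 ht
    · intro t ht
      simp only [Finset.mem_filter, Finset.mem_univ, true_and] at ht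
      rw [hR, h1]
      exact ht
    · intro t _
      exact h1 t
    · intro t _
      exact h1 t
  have h4 := Finset.card_filter_add_card_filter_not (s := (univ : Finset T)) (fun t => t ∈ R)
  have h5 : (univ.filter fun t => t ∈ R) = R := by ext t; simp
  rw [h5, Finset.card_univ] at h4
  omega

/-- **Fib**. -/
theorem pFib (hBinom : StBinom) : StFib := by
  obtain ⟨c, hc, hB⟩ := hBinom
  refine ⟨c, hc, ?_⟩
  intro S G T _ _ _ _ _ z zT τ m k g hzz hT hT' hτ hm hm1 hkT hgS d hd hdm hd2
  classical
  obtain ⟨R, hR, hRc⟩ := Fib_repr zT hT hT'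
  have hRk : R.card = k := by omega
  -- `g = m k`
  have hg : g = m * k := by
    have h1 : Fintype.card S = ∑ t : T, (univ.filter (fun s => τ s = t)).card := by
      rw [← Finset.card_univ]
      exact Finset.card_eq_sum_card_fiberwise fun s _ => Finset.mem_univ (τ s)
    simp only [hm, Finset.sum_const, Finset.card_univ, smul_eq_mul, hkT, hgS] at h1
    have h2 : 2 * g = 2 * (m * k) := by rw [h1]; ring
    omega
  -- the sizes of the subsets
  let j : T → ℕ := fun t => (((m : ℤ) + d t) / 2).toNat
  have hdabs : ∀ t, |d t| ≤ (m : ℤ) := by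
    intro t
    have h1 := hdm t
    have h2 : (1 : ℤ) ≤ m := by exact_mod_cast hm1
    by_contra h3
    push Not at h3
    have h4 : (m : ℤ) ^ 2 < |d t| ^ 2 := by
      apply pow_lt_pow_left₀ h3 (by positivity) (by norm_num)
    rw [sq_abs] at h4
    nlinarith
  have hj : ∀ t, (2 * (j t : ℤ)) = m + d t := by
    intro t
    have h1 := abs_le.1 (hdabs t)
    obtain ⟨q, hq⟩ := hd2 t
    have h2 : ((m : ℤ) + d t) / 2 = m - q := by omega
    have h3 : 0 ≤ (m : ℤ) - q := by omega
    have h4 : (j t : ℤ) = m - q := by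
      simp only [j]
      rw [h2, Int.toNat_of_nonneg h3]
    rw [h4]
    omega
  have hjm : ∀ t, j t ≤ m := by
    intro t
    have h1 := abs_le.1 (hdabs t)
    have h2 := hj t
    omega
  -- the families
  let fib : T → Finset S := fun t => univ.filter (fun s => τ s = t)
  let F : T → Finset (Finset S) := fun t => if t ∈ R then (fib t).powersetCard (j t) else {∅}
  let φ : (T → Finset S) → (S → ℤ) := fun A s =>
    if τ s ∈ R then (if s ∈ A (τ s) then 1 else -1)
    else (if z • s ∈ A (zT (τ s)) then -1 else 1)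
  have hφR : ∀ (A : T → Finset S) (s : S), τ s ∈ R → φ A s = if s ∈ A (τ s) then 1 else -1 := by
    intro A s hs
    simp only [φ]
    rw [if_pos hs]
  have hφR' : ∀ (A : T → Finset S) (s : S), τ s ∉ R →
      φ A s = if z • s ∈ A (zT (τ s)) then -1 else 1 := by
    intro A s hs
    simp only [φ]
    rw [if_neg hs]
  have hodd : ∀ (A : T → Finset S) (s : S), φ A (z • s) = - φ A s := by
    intro A s
    by_cases hs : τ s ∈ R
    · have h1 : τ (z • s) ∉ R := by rw [hτ]; exact (hR _).1 hs
      rw [hφR A s hs, hφR' A _ h1, hzz, hτ, hT]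
      split_ifs <;> simp
    · have h1 : τ (z • s) ∈ R := by rw [hτ, hR, hT]; exact hs
      rw [hφR' A s hs, hφR A _ h1, hτ]
      split_ifs <;> simp
  have hsgn : ∀ A : T → Finset S, IsSgn z (φ A) := by
    intro A
    refine ⟨fun s => ?_, hodd A⟩
    by_cases hs : τ s ∈ R
    · rw [hφR A s hs]
      split_ifs <;> simp
    · rw [hφR' A s hs]
      split_ifs <;> simp
  have hAmem : ∀ A ∈ Fintype.piFinset F, ∀ t ∈ R, A t ⊆ fib t ∧ (A t).card = j t := by
    intro A hA t ht
    have h1 := (Fintype.mem_piFinset.1 hA) t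
    simp only [F] at h1
    rw [if_pos ht, Finset.mem_powersetCard] at h1
    exact h1
  have hsumR : ∀ A ∈ Fintype.piFinset F, ∀ t ∈ R, ∑ s ∈ fib t, φ A s = d t := by
    intro A hA t ht
    obtain ⟨h1, h2⟩ := hAmem A hA t ht
    have h3 : ∑ s ∈ fib t, φ A s = ∑ s ∈ fib t, (if s ∈ A t then (1 : ℤ) else -1) := by
      apply Finset.sum_congr rfl
      intro s hs
      have h4 : τ s = t := (Finset.mem_filter.1 hs).2
      rw [hφR A s (by rw [h4]; exact ht), h4]
    rw [h3]
    have h5 : ∀ s : S, (if s ∈ A t then (1 : ℤ) else -1) = 2 * (if s ∈ A t then 1 else 0) - 1 := by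
      intro s
      split_ifs <;> norm_num
    simp only [h5]
    rw [Finset.sum_sub_distrib, ← Finset.mul_sum, Finset.sum_ite_mem,
      Finset.inter_eq_right.2 h1]
    simp only [Finset.sum_const, smul_eq_mul, nsmul_eq_mul, mul_one]
    have h6 : (fib t).card = m := hm t
    rw [h2, h6, hj t]
    ring
  have hsum : ∀ A ∈ Fintype.piFinset F, ∀ t, ∑ s ∈ fib t, φ A s = d t := by
    intro A hA t
    by_cases ht : t ∈ R
    · exact hsumR A hA t ht
    · have ht' : zT t ∈ R := by rw [hR, hT]; exact ht
      have h1 := hsumR A hA _ ht'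
      have h2 : ∑ s ∈ fib t, φ A s = ∑ s ∈ fib (zT t), - φ A s := by
        refine Finset.sum_bij' (fun s _ => z • s) (fun s _ => z • s) ?_ ?_ ?_ ?_ ?_
        · intro s hs
          simp only [fib, Finset.mem_filter, Finset.mem_univ, true_and] at hs ⊢
          rw [hτ, hs]
        · intro s hs
          simp only [fib, Finset.mem_filter, Finset.mem_univ, true_and] at hs ⊢
          rw [hτ, hs, hT]
        · intro s _
          exact hzz s
        · intro s _
          exact hzz s
        · intro s _
          rw [hodd, neg_neg]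
      rw [h2, Finset.sum_neg_distrib, h1, hd, neg_neg]
  have hinj : Set.InjOn φ (Fintype.piFinset F : Set (T → Finset S)) := by
    intro A hA A' hA' h
    rw [Finset.mem_coe] at hA hA'
    funext t
    by_cases ht : t ∈ R
    · have key : ∀ A ∈ Fintype.piFinset F, ∀ A' ∈ Fintype.piFinset F, φ A = φ A' →
          A t ⊆ A' t := by
        intro A hA A' hA' h s hs
        obtain ⟨h1, _⟩ := hAmem A hA t ht
        have h3 : τ s = t := (Finset.mem_filter.1 (h1 hs)).2
        have h4 := congrFun h s
        rw [hφR A s (by rw [h3]; exact ht), hφR A' s (by rw [h3]; exact ht), h3, if_pos hs] at h4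
        by_contra h5
        rw [if_neg h5] at h4
        norm_num at h4
      exact Finset.Subset.antisymm (key A hA A' hA' h) (key A' hA' A hA h.symm)
    · have h1 := (Fintype.mem_piFinset.1 hA) t
      have h2 := (Fintype.mem_piFinset.1 hA') t
      simp only [F] at h1 h2
      rw [if_neg ht, Finset.mem_singleton] at h1 h2
      rw [h1, h2]
  -- the number
  have hcard : (Fintype.piFinset F).card = ∏ t ∈ R, m.choose (j t) := by
    rw [Fintype.card_piFinset]
    have h1 : ∀ t, (F t).card = if t ∈ R then m.choose (j t) else 1 := by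
      intro t
      simp only [F]
      split_ifs
      · rw [Finset.card_powersetCard]
        have h6 : (fib t).card = m := hm t
        rw [h6]
      · rfl
    simp only [h1]
    rw [Finset.prod_ite_mem, Finset.univ_inter]
  have hle : (Fintype.piFinset F).card ≤
      ({e : S → ℤ | IsSgn z e ∧ ∀ t, ∑ s ∈ univ.filter (fun s => τ s = t), e s = d t}).ncard := by
    have h1 : ((Fintype.piFinset F).image φ : Set (S → ℤ)) ⊆
        {e : S → ℤ | IsSgn z e ∧ ∀ t, ∑ s ∈ univ.filter (fun s => τ s = t), e s = d t} := by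
      intro e he
      rw [Finset.mem_coe, Finset.mem_image] at he
      obtain ⟨A, hA, rfl⟩ := he
      exact ⟨hsgn A, hsum A hA⟩
    have h2 := Set.ncard_le_ncard h1 (Fib_finite (z := z) _ fun e he => he.1)
    rw [Set.ncard_coe_finset, Finset.card_image_of_injOn hinj] at h2
    exact h2
  have hmpos : (0 : ℝ) < Real.sqrt m := by
    apply Real.sqrt_pos.2
    exact_mod_cast hm1
  have hprod : (c / Real.sqrt m) ^ k * 2 ^ g ≤ ((∏ t ∈ R, m.choose (j t) : ℕ) : ℝ) := by
    push_cast
    have h1 : (c / Real.sqrt m) ^ k * 2 ^ g = ∏ _t ∈ R, (c * 2 ^ m / Real.sqrt m) := by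
      rw [Finset.prod_const, hRk, hg, pow_mul, ← mul_pow]
      congr 1
      ring
    rw [h1]
    apply Finset.prod_le_prod
    · intro t _
      positivity
    · intro t _
      apply hB m (j t) hm1 (hjm t)
      rw [hj t]
      have := hdm t
      have h2 : ((m : ℤ) + d t - m) ^ 2 = d t ^ 2 := by ring
      rw [h2]
      exact this
  refine hprod.trans ?_
  rw [← hcard]
  exact_mod_cast hle

end Pool.Agent.Lib.MP_640417_ag.Sharp
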