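import Pool.Agent.Lib.MP_640417_ag.Sharp.SpecF

/-!
# The sharp criterion: numbers of subfields and of subgroups
-/

namespace Pool.Agent.Lib.MP_640417_ag.Sharp

open Module Finset MulAction NumberField Pool.Agent.Lib.MP_640417_ag
  Pool.Agent.Lib.MP_640417_ag.Far Pool.Agent.Lib.MP_640417_ag.Full

private lemma fieldEq_count {E : Type} [Field E] [NumberField E] (φ₀ : Emb E)
    (hsurj : ∀ K : IntermediateField ℚ E, ∃ H : Subgroup (galGroup E),
      stabilizer (galGroup E) φ₀ ≤ H ∧ fixAt φ₀ H = K)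
    (hord : ∀ H H' : Subgroup (galGroup E), stabilizer (galGroup E) φ₀ ≤ H →
      stabilizer (galGroup E) φ₀ ≤ H' → (fixAt φ₀ H ≤ fixAt φ₀ H' ↔ H' ≤ H))
    (P : Subgroup (galGroup E) → Prop) (Q : IntermediateField ℚ E → Prop)
    (hPQ : ∀ H : Subgroup (galGroup E), stabilizer (galGroup E) φ₀ ≤ H →
      (Q (fixAt φ₀ H) ↔ P H)) :
    {K : IntermediateField ℚ E | Q K}.ncard =
      {H : Subgroup (galGroup E) | stabilizer (galGroup E) φ₀ ≤ H ∧ P H}.ncard := by
  have himg : {K : IntermediateField ℚ E | Q K} =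
      fixAt φ₀ '' {H : Subgroup (galGroup E) | stabilizer (galGroup E) φ₀ ≤ H ∧ P H} := by
    ext K
    simp only [Set.mem_setOf_eq, Set.mem_image]
    constructor
    · intro hK
      obtain ⟨H, hH, rfl⟩ := hsurj K
      exact ⟨H, ⟨hH, (hPQ H hH).mp hK⟩, rfl⟩
    · rintro ⟨H, ⟨hH, hP⟩, rfl⟩
      exact (hPQ H hH).mpr hP
  rw [himg]
  apply Set.ncard_image_of_injOn
  rintro H ⟨hH, -⟩ H' ⟨hH', -⟩ heq
  apply le_antisymm
  · exact (hord H' H hH' hH).mp (le_of_eq heq.symm)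
  · exact (hord H H' hH hH').mp (le_of_eq heq)

theorem pFieldEq (hCorrA : StCorrA) (hCorrG : StCorrG) : StFieldEq := by
  intro E _ _ _ φ₀ z hz
  obtain ⟨hsurj, hord, hfix⟩ := hCorrA E φ₀ z hz
  have hG := hCorrG E φ₀ z hz
  refine ⟨?_, ?_, ?_, ?_⟩
  · have h := fieldEq_count φ₀ hsurj hord (fun H => z ∉ H ∧ H.index = 2)
      (fun K => finrank ℚ K = 2 ∧ ∃ x ∈ K, IsCMField.complexConj E x ≠ x) (by
        intro H hH
        obtain ⟨h1, h2⟩ := hfix H hH
        rw [h1, ← h2]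
        exact and_comm)
    exact h
  · have h := fieldEq_count φ₀ hsurj hord
      (fun H => z ∉ H ∧ H.index = 4 ∧
        ∀ H' : Subgroup (galGroup E), H ≤ H' → H'.index = 2 → z ∈ H')
      (fun K => finrank ℚ K = 4 ∧ (∃ x ∈ K, IsCMField.complexConj E x ≠ x) ∧
        ∀ K' : IntermediateField ℚ E, K' ≤ K → finrank ℚ K' = 2 →
          ∀ x ∈ K', IsCMField.complexConj E x = x) (by
        intro H hH
        obtain ⟨h1, h2⟩ := hfix H hH
        rw [h1, ← h2]
        constructor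
        · rintro ⟨ha, hb, hc⟩
          refine ⟨hb, ha, ?_⟩
          intro H' hHH' hi
          by_contra hzH'
          obtain ⟨h3, h4⟩ := hfix H' (hH.trans hHH')
          obtain ⟨x, hx, hx'⟩ := h4.mp hzH'
          exact hx' (hc (fixAt φ₀ H') ((hord H' H (hH.trans hHH') hH).mpr hHH')
            (by rw [h3, hi]) x hx)
        · rintro ⟨hb, ha, hc⟩
          refine ⟨ha, hb, ?_⟩
          intro K' hK' hd x hx
          obtain ⟨H', hH', rfl⟩ := hsurj K'
          obtain ⟨h3, h4⟩ := hfix H' hH'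
          by_contra hcon
          exact (h4.mpr ⟨x, hx, hcon⟩) (hc H' ((hord H' H hH' hH).mp hK') (by rw [← h3, hd])))
    exact h
  · have h := fieldEq_count φ₀ hsurj hord
      (fun H => z ∉ H ∧ H.index = 6 ∧
        ∃ H' : Subgroup (galGroup E), H ≤ H' ∧ H'.index = 2 ∧ z ∉ H')
      (fun K => finrank ℚ K = 6 ∧ (∃ x ∈ K, IsCMField.complexConj E x ≠ x) ∧
        ∃ K' : IntermediateField ℚ E, K' ≤ K ∧ finrank ℚ K' = 2 ∧
          ∃ x ∈ K', IsCMField.complexConj E x ≠ x) (by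
        intro H hH
        obtain ⟨h1, h2⟩ := hfix H hH
        rw [h1, ← h2]
        constructor
        · rintro ⟨ha, hb, K', hK', hd, hx⟩
          refine ⟨hb, ha, ?_⟩
          obtain ⟨H', hH', rfl⟩ := hsurj K'
          obtain ⟨h3, h4⟩ := hfix H' hH'
          exact ⟨H', (hord H' H hH' hH).mp hK', by rw [← h3, hd], h4.mpr hx⟩
        · rintro ⟨hb, ha, H', hHH', hi, hzH'⟩
          refine ⟨ha, hb, ?_⟩
          obtain ⟨h3, h4⟩ := hfix H' (hH.trans hHH')
          exact ⟨fixAt φ₀ H', (hord H' H (hH.trans hHH') hH).mpr hHH', by rw [h3, hi],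
            h4.mp hzH'⟩)
    exact h
  · intro n
    have h := fieldEq_count φ₀ hsurj hord (fun H => z ∉ H ∧ IsDih n H)
      (fun K => (∃ x ∈ K, IsCMField.complexConj E x ≠ x) ∧ IsGalois ℚ K ∧
        Nonempty ((K ≃ₐ[ℚ] K) ≃* DihedralGroup n)) (by
        intro H hH
        obtain ⟨h1, h2⟩ := hfix H hH
        exact and_congr h2.symm (hG H hH n).symm)
    exact h

end Pool.Agent.Lib.MP_640417_ag.Sharp
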