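import Pool.Agent.Lib.MP_640417_ag.Sharp.SpecU
import Pool.Agent.Lib.MP_640417_ag.All.Minkowski

/-!
# Finite groups of integral matrices of degree two
-/

namespace Pool.Agent.Lib.MP_640417_ag.Sharp

theorem pGL2 : StGL2 := by
  intro G _ _ R
  have := Fintype.ofFinite G
  have h := All.ncard_range_le R
  norm_num at h
  exact h

end Pool.Agent.Lib.MP_640417_ag.Sharp
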