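import Pool.Agent.Lib.MP_640417_ag.Sharp.SpecL

/-!
# Independence of two matrix systems with different kernels
-/

namespace Pool.Agent.Lib.MP_640417_ag.Sharp

open Module Finset MulAction Pool.Agent.Lib.MP_640417_ag.Far Pool.Agent.Lib.MP_640417_ag.Full

/-- Reduction of a product of matrices. -/
private lemma indepPair_map_mul {R : Type*} [Ring R] (A B : Matrix (Fin 2) (Fin 2) ℤ) :
    (A * B).map (Int.cast : ℤ → R) = A.map (Int.cast : ℤ → R) * B.map (Int.cast : ℤ → R) := by
  ext i j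
  simp only [Matrix.map_apply, Matrix.mul_apply, Int.cast_sum, Int.cast_mul]

/-- Reduction of the trace. -/
private lemma indepPair_map_trace {R : Type*} [Ring R] (A : Matrix (Fin 2) (Fin 2) ℤ) :
    (A.map (Int.cast : ℤ → R)).trace = ((A.trace : ℤ) : R) := by
  simp only [Matrix.trace, Matrix.diag_apply, Matrix.map_apply, Int.cast_sum]

/-- Independence over the rational numbers. -/
private lemma indepPair_rat {S G : Type} [Fintype S] [Group G] [MulAction G S] {z : G} {N : ℕ}
    (M : MatSys S G z 2 N) (hN : 0 < N) (C : Matrix (Fin 2) (Fin 2) ℚ)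
    (hC : ∀ s, ((M.Φ s).map (Int.cast : ℤ → ℚ) * C).trace = 0) : C = 0 := by
  classical
  obtain ⟨b, hb⟩ := IsLocalization.exist_integer_multiples_of_finite (nonZeroDivisors ℤ)
    (fun ij : Fin 2 × Fin 2 => C ij.1 ij.2)
  have hb0 : ((b : ℤ) : ℚ) ≠ 0 := by
    exact_mod_cast nonZeroDivisors.ne_zero b.2
  choose v hv using hb
  have hv' : ∀ i j, ((v (i, j) : ℤ) : ℚ) = (b : ℤ) * C i j := by
    intro i j
    have := hv (i, j)
    rw [zsmul_eq_mul] at this
    exact this
  let D : Matrix (Fin 2) (Fin 2) ℤ := fun i j => v (i, j)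
  have hD : D.map (Int.cast : ℤ → ℚ) = ((b : ℤ) : ℚ) • C := by
    ext i j
    rw [Matrix.map_apply, Matrix.smul_apply, smul_eq_mul]
    exact hv' i j
  have htr : ∀ s, (M.Φ s * D).trace = 0 := by
    intro s
    have h1 : (((M.Φ s * D).trace : ℤ) : ℚ) = 0 := by
      rw [← indepPair_map_trace, indepPair_map_mul, hD, Matrix.mul_smul, Matrix.trace_smul, hC s,
        smul_zero]
    exact_mod_cast h1
  -- a large prime
  obtain ⟨p, hp1, hp⟩ := Nat.exists_infinite_primes
    (N + ∑ ij : Fin 2 × Fin 2, (v ij).natAbs + 1)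
  have hpN : ¬ p ∣ N := by
    intro h
    have := Nat.le_of_dvd hN h
    omega
  have h0 := M.indep p hp hpN (D.map (Int.cast : ℤ → ZMod p)) (by
    intro s
    rw [← indepPair_map_mul, indepPair_map_trace, htr s, Int.cast_zero])
  have hD0 : ∀ i j, D i j = 0 := by
    intro i j
    have h1 := congrFun (congrFun h0 i) j
    rw [Matrix.map_apply, Matrix.zero_apply, ZMod.intCast_zmod_eq_zero_iff_dvd] at h1
    have h2 : (D i j).natAbs < p := by
      have h3 : (v (i, j)).natAbs ≤ ∑ ij : Fin 2 × Fin 2, (v ij).natAbs :=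
        Finset.single_le_sum (f := fun ij => (v ij).natAbs) (fun _ _ => Nat.zero_le _)
          (Finset.mem_univ (i, j))
      have h4 : (D i j).natAbs = (v (i, j)).natAbs := rfl
      omega
    have h5 : p ∣ (D i j).natAbs := by
      have := Int.natAbs_dvd_natAbs.mpr h1
      simpa using this
    exact Int.natAbs_eq_zero.mp (Nat.eq_zero_of_dvd_of_lt h5 h2)
  ext i j
  have h1 := hv' i j
  have h2 : v (i, j) = 0 := hD0 i j
  rw [h2, Int.cast_zero] at h1
  rcases mul_eq_zero.mp h1.symm with h | h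
  · exact absurd h hb0
  · exact h

/-- The first half. -/
private lemma indepPair_aux {S G : Type} [Fintype S] [Group G] [MulAction G S]
    [IsPretransitive G S] {z : G} {N : ℕ} (M M' : MatSys S G z 2 N) (hN : 0 < N)
    (hν : ∃ ν, M.R ν ≠ 1 ∧ M'.R ν = 1) (A A' : Matrix (Fin 2) (Fin 2) ℚ)
    (h : ∀ s, ((M.Φ s).map (Int.cast : ℤ → ℚ) * A).trace
      + ((M'.Φ s).map (Int.cast : ℤ → ℚ) * A').trace = 0) : A = 0 := by
  classical
  obtain ⟨ν, h1, h2⟩ := hν
  let q : Matrix (Fin 2) (Fin 2) ℤ → Matrix (Fin 2) (Fin 2) ℚ := fun B =>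
    B.map (Int.cast : ℤ → ℚ)
  have hqm : ∀ B C, q (B * C) = q B * q C := fun B C => indepPair_map_mul B C
  have hq1 : q 1 = 1 := by
    change (1 : Matrix (Fin 2) (Fin 2) ℤ).map (Int.cast : ℤ → ℚ) = 1
    exact Matrix.map_one _ Int.cast_zero Int.cast_one
  -- the first relation
  have hA1 : ∀ γ : G, A * (q (M.R (γ * ν * γ⁻¹)) - 1) = 0 := by
    intro γ
    apply indepPair_rat M hN
    intro s
    have h3 := h ((γ * ν * γ⁻¹) • s)
    have h4 := h s
    have h5 : M'.R (γ * ν * γ⁻¹) = 1 := by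
      rw [map_mul, map_mul, h2, mul_one, ← map_mul, mul_inv_cancel, map_one]
    rw [M.smul, M'.smul, h5, one_mul, indepPair_map_mul] at h3
    have h6 : (q (M.R (γ * ν * γ⁻¹)) * q (M.Φ s) * A).trace = (q (M.Φ s) * A).trace := by
      change _ + _ = _ at h3
      change _ + _ = _ at h4
      linarith
    change (q (M.Φ s) * (A * (q (M.R (γ * ν * γ⁻¹)) - 1))).trace = 0
    rw [Matrix.mul_sub, mul_one, Matrix.mul_sub, Matrix.trace_sub, ← Matrix.mul_assoc,
      Matrix.trace_mul_comm, ← Matrix.mul_assoc, h6, sub_self]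
  have hA2 : ∀ γ : G, A * q (M.R γ) * (q (M.R ν) - 1) = 0 := by
    intro γ
    have h3 : A * q (M.R γ) * (q (M.R ν) - 1)
        = A * (q (M.R (γ * ν * γ⁻¹)) - 1) * q (M.R γ) := by
      rw [Matrix.mul_sub, Matrix.mul_sub, Matrix.sub_mul, mul_one, mul_one, Matrix.mul_assoc,
        Matrix.mul_assoc, ← hqm, ← hqm, ← map_mul, ← map_mul, inv_mul_cancel_right]
    rw [h3, hA1 γ, Matrix.zero_mul]
  obtain ⟨s₁, hs₁⟩ := M.base
  have hA3 : ∀ s : S, A * q (M.Φ s) * (q (M.R ν) - 1) = 0 := by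
    intro s
    obtain ⟨γ, rfl⟩ := MulAction.exists_smul_eq G s₁ s
    rw [M.smul, hs₁, mul_one]
    exact hA2 γ
  have hP : ∃ l j, (q (M.R ν) - 1) l j ≠ 0 := by
    by_contra hcon
    push Not at hcon
    apply h1
    ext l j
    have h3 := hcon l j
    rw [Matrix.sub_apply, sub_eq_zero, ← hq1] at h3
    change ((M.R ν l j : ℤ) : ℚ) = (((1 : Matrix (Fin 2) (Fin 2) ℤ) l j : ℤ) : ℚ) at h3
    exact_mod_cast h3
  obtain ⟨l, j, hlj⟩ := hP
  ext i k
  have h3 : Matrix.vecMulVec (fun l' => (q (M.R ν) - 1) l' j) (fun k' => A i k')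
      = (0 : Matrix (Fin 2) (Fin 2) ℚ) := by
    apply indepPair_rat M hN
    intro s
    have h4 := congrFun (congrFun (hA3 s) i) j
    rw [Matrix.zero_apply] at h4
    rw [← h4]
    change (q (M.Φ s) * Matrix.vecMulVec (fun l' => (q (M.R ν) - 1) l' j)
      (fun k' => A i k')).trace = _
    simp only [Matrix.trace, Matrix.diag_apply, Matrix.mul_apply, Matrix.vecMulVec_apply,
      Fin.sum_univ_two]
    ring
  have h5 := congrFun (congrFun h3 l) k
  rw [Matrix.vecMulVec_apply, Matrix.zero_apply] at h5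
  rcases mul_eq_zero.mp h5 with h6 | h6
  · exact absurd h6 hlj
  · exact h6

/-- **Independence of two matrix systems with different kernels.** -/
theorem pIndepPair : StIndepPair := by
  intro S G _ _ _ _ _ z N M M' hN hν hν' A A' h
  refine ⟨indepPair_aux M M' hN hν' A A' h, ?_⟩
  obtain ⟨ν, h1, h2⟩ := hν
  refine indepPair_aux M' M hN ⟨ν, h2, h1⟩ A' A (fun s => ?_)
  rw [add_comm]
  exact h s

end Pool.Agent.Lib.MP_640417_ag.Sharp
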