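import Pool.Agent.Lib.MP_640417_ag.Sharp.SpecU
import Pool.Agent.Lib.MP_640417_ag.Full.Ord

/-!
# The group acting on an absolutely irreducible space of dimension two is dihedral

The first lemmas are copies of private lemmas in `Full/Ord.lean`.
-/

namespace Pool.Agent.Lib.MP_640417_ag.Sharp

open Module Finset MulAction Pool.Agent.Lib.MP_640417_ag.Far Pool.Agent.Lib.MP_640417_ag.Full
open scoped Matrix

section mat

/-- The matrices commuting with the rotations of the form with matrix `(x, y; y, w)`. -/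
private def KerDihM (x y w τ k : ℚ) : Matrix (Fin 2) (Fin 2) ℚ :=
  !![τ / 2 - k * y, -(k * w); k * x, τ / 2 + k * y]

private lemma KerDihM_split (x y w τ k : ℚ) :
    KerDihM x y w τ k = (τ / 2) • 1 + k • KerDihM x y w 0 1 := by
  ext i j
  fin_cases i <;> fin_cases j <;> simp [KerDihM]; ring

/-- There is an invariant positive definite form. -/
private lemma KerDih_form {G : Type} [Group G] [Finite G] (R : G →* Matrix (Fin 2) (Fin 2) ℚ) :
    ∃ x y w : ℚ, 0 < x ∧ 0 < x * w - y ^ 2 ∧
      ∀ g, (R g)ᵀ * !![x, y; y, w] * R g = !![x, y; y, w] := by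
  classical
  haveI := Fintype.ofFinite G
  set B : Matrix (Fin 2) (Fin 2) ℚ := ∑ g, (R g)ᵀ * R g with hB
  have hent : ∀ i j, B i j = ∑ g, ((R g) 0 i * (R g) 0 j + (R g) 1 i * (R g) 1 j) := by
    intro i j
    rw [hB, Matrix.sum_apply]
    refine Finset.sum_congr rfl (fun g _ => ?_)
    rw [Matrix.mul_apply, Fin.sum_univ_two, Matrix.transpose_apply, Matrix.transpose_apply]
  have hq : ∀ u v : ℚ, u ^ 2 + v ^ 2 ≤ u ^ 2 * B 0 0 + 2 * u * v * B 0 1 + v ^ 2 * B 1 1 := by
    intro u v
    have h1 : u ^ 2 * B 0 0 + 2 * u * v * B 0 1 + v ^ 2 * B 1 1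
        = ∑ g, ((R g 0 0 * u + R g 0 1 * v) ^ 2 + (R g 1 0 * u + R g 1 1 * v) ^ 2) := by
      rw [hent, hent, hent, Finset.mul_sum, Finset.mul_sum, Finset.mul_sum,
        ← Finset.sum_add_distrib, ← Finset.sum_add_distrib]
      refine Finset.sum_congr rfl (fun g _ => ?_)
      ring
    rw [h1]
    have h2 := Finset.single_le_sum (s := Finset.univ)
      (f := fun g : G => (R g 0 0 * u + R g 0 1 * v) ^ 2 + (R g 1 0 * u + R g 1 1 * v) ^ 2)
      (fun g _ => by positivity) (Finset.mem_univ (1 : G))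
    simp only [map_one, Matrix.one_apply_eq, ne_eq, zero_ne_one, one_ne_zero, not_false_eq_true,
      Matrix.one_apply_ne] at h2
    linarith
  have hx : 0 < B 0 0 := by
    have := hq 1 0
    linarith
  have hsym : B 1 0 = B 0 1 := by
    rw [hent, hent]
    refine Finset.sum_congr rfl (fun g _ => ?_)
    ring
  have hB' : B = !![B 0 0, B 0 1; B 0 1, B 1 1] := by
    conv_lhs => rw [Matrix.eta_fin_two B, hsym]
  refine ⟨B 0 0, B 0 1, B 1 1, hx, ?_, fun g => ?_⟩
  · have h1 := hq (-B 0 1) (B 0 0)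
    have h2 : 0 < B 0 0 * (B 0 0 * B 1 1 - B 0 1 ^ 2) := by
      nlinarith [sq_nonneg (B 0 1), pow_pos hx 2]
    exact (mul_pos_iff_of_pos_left hx).mp h2
  · rw [← hB']
    rw [hB, Matrix.mul_sum, Matrix.sum_mul]
    refine Fintype.sum_equiv (Equiv.mulRight g) _ _ (fun h => ?_)
    rw [Equiv.coe_mulRight, map_mul, Matrix.transpose_mul]
    simp only [Matrix.mul_assoc]

/-- The consequence of invariance. -/
private lemma KerDih_adj {x y w a b c d : ℚ}
    (h : (!![a, b; c, d] : Matrix (Fin 2) (Fin 2) ℚ)ᵀ * !![x, y; y, w] * !![a, b; c, d]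
      = !![x, y; y, w]) :
    x * d - y * c = (a * d - b * c) * (a * x + c * y) ∧
    -(x * b) + y * a = (a * d - b * c) * (a * y + c * w) := by
  have h1 : !![x, y; y, w] * (!![a, b; c, d] : Matrix (Fin 2) (Fin 2) ℚ).adjugate
      = (!![a, b; c, d] : Matrix (Fin 2) (Fin 2) ℚ).det •
        ((!![a, b; c, d] : Matrix (Fin 2) (Fin 2) ℚ)ᵀ * !![x, y; y, w]) := by
    conv_lhs => rw [← h]
    rw [Matrix.mul_assoc, Matrix.mul_adjugate, Matrix.mul_smul, Matrix.mul_one]
  rw [Matrix.adjugate_fin_two_of, Matrix.det_fin_two_of] at h1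
  have e1 := congrFun (congrFun h1 0) 0
  have e2 := congrFun (congrFun h1 0) 1
  simp only [Matrix.mul_apply, Fin.sum_univ_two, Matrix.of_apply, Matrix.cons_val',
    Matrix.cons_val_zero, Matrix.cons_val_one, Matrix.cons_val_fin_one, Matrix.smul_apply,
    Matrix.transpose_apply, smul_eq_mul] at e1 e2
  constructor
  · linarith
  · linarith

private lemma KerDih_det {x y w : ℚ} (hΔ : 0 < x * w - y ^ 2) (t : Matrix (Fin 2) (Fin 2) ℚ)
    (h : tᵀ * !![x, y; y, w] * t = !![x, y; y, w]) : t.det = 1 ∨ t.det = -1 := by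
  have h1 := congrArg Matrix.det h
  rw [Matrix.det_mul, Matrix.det_mul, Matrix.det_transpose, Matrix.det_fin_two_of] at h1
  have h2 : (t.det ^ 2 - 1) * (x * w - y ^ 2) = 0 := by
    linear_combination h1
  rcases mul_eq_zero.mp h2 with h3 | h3
  · have h4 : (t.det - 1) * (t.det + 1) = 0 := by linear_combination h3
    rcases mul_eq_zero.mp h4 with h5 | h5
    · left; linarith
    · right; linarith
  · exact absurd h3 hΔ.ne'

private lemma KerDih_plus {x y w : ℚ} (hx : 0 < x) (t : Matrix (Fin 2) (Fin 2) ℚ)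
    (h : tᵀ * !![x, y; y, w] * t = !![x, y; y, w]) (hd : t.det = 1) :
    t = KerDihM x y w t.trace (t 1 0 / x) ∧
      t.trace ^ 2 / 4 + (t 1 0 / x) ^ 2 * (x * w - y ^ 2) = 1 := by
  obtain ⟨a, b, c, d, rfl⟩ : ∃ a b c d, t = !![a, b; c, d] := ⟨_, _, _, _, Matrix.eta_fin_two t⟩
  obtain ⟨h1, h2⟩ := KerDih_adj h
  rw [Matrix.det_fin_two_of] at hd
  rw [hd] at h1 h2
  rw [Matrix.trace_fin_two_of]
  have hc : (!![a, b; c, d] : Matrix (Fin 2) (Fin 2) ℚ) 1 0 = c := rfl
  rw [hc]
  have hk : (c / x) * x = c := div_mul_cancel₀ c hx.ne'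
  set k := c / x with hkdef
  have e1 : d - a = 2 * y * k := by
    have : x * (d - a) = x * (2 * y * k) := by
      rw [show x * (2 * y * k) = 2 * y * (k * x) by ring, hk]
      linarith
    exact mul_left_cancel₀ hx.ne' this
  have e2 : b = -(k * w) := by
    have : x * b = x * (-(k * w)) := by
      rw [show x * (-(k * w)) = -(k * x * w) by ring, hk]
      linarith
    exact mul_left_cancel₀ hx.ne' this
  refine ⟨?_, ?_⟩
  · have f1 : (a + d) / 2 - k * y = a := by linarith
    have f2 : (a + d) / 2 + k * y = d := by linarith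
    rw [KerDihM, f1, f2, hk, ← e2]
  · have f1 : a = (a + d) / 2 - k * y := by linarith
    have f2 : d = (a + d) / 2 + k * y := by linarith
    have h3 : a * d - b * c = (a + d) ^ 2 / 4 + k ^ 2 * (x * w - y ^ 2) := by
      rw [e2, ← hk]
      have : a * d = ((a + d) / 2 - k * y) * ((a + d) / 2 + k * y) := by
        rw [← f1, ← f2]
      rw [this]
      ring
    rw [← h3, hd]

private lemma KerDih_minus {x y w : ℚ} (hx : 0 < x) (t : Matrix (Fin 2) (Fin 2) ℚ)
    (h : tᵀ * !![x, y; y, w] * t = !![x, y; y, w]) (hd : t.det = -1) :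
    t.trace = 0 ∧ t * KerDihM x y w 0 1 = -(KerDihM x y w 0 1 * t) := by
  obtain ⟨a, b, c, d, rfl⟩ : ∃ a b c d, t = !![a, b; c, d] := ⟨_, _, _, _, Matrix.eta_fin_two t⟩
  obtain ⟨h1, h2⟩ := KerDih_adj h
  rw [Matrix.det_fin_two_of] at hd
  rw [hd] at h1 h2
  have e1 : d = -a := by
    have : x * d = x * (-a) := by linarith
    exact mul_left_cancel₀ hx.ne' this
  subst e1
  refine ⟨by rw [Matrix.trace_fin_two_of]; ring, ?_⟩
  ext i j
  fin_cases i <;> fin_cases j <;> simp [KerDihM, Matrix.mul_apply, Fin.sum_univ_two] <;> linarith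

private lemma KerDih_sq {t : Matrix (Fin 2) (Fin 2) ℚ} (hd : t.det = -1) (htr : t.trace = 0) :
    t * t = 1 := by
  obtain ⟨a, b, c, d, rfl⟩ : ∃ a b c d, t = !![a, b; c, d] := ⟨_, _, _, _, Matrix.eta_fin_two t⟩
  rw [Matrix.det_fin_two_of] at hd
  rw [Matrix.trace_fin_two_of] at htr
  have e1 : d = -a := by linarith
  subst e1
  have e2 : a * a + b * c = 1 := by linarith
  ext i j
  fin_cases i <;> fin_cases j <;> simp [Matrix.mul_apply, Fin.sum_univ_two] <;> linarith

private lemma KerDih_invol {t : Matrix (Fin 2) (Fin 2) ℚ} (hd : t.det = 1) (ht : t * t = 1) :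
    t = 1 ∨ t = -1 := by
  obtain ⟨a, b, c, d, rfl⟩ : ∃ a b c d, t = !![a, b; c, d] := ⟨_, _, _, _, Matrix.eta_fin_two t⟩
  rw [Matrix.det_fin_two_of] at hd
  have e00 := congrFun (congrFun ht 0) 0
  have e01 := congrFun (congrFun ht 0) 1
  have e10 := congrFun (congrFun ht 1) 0
  have e11 := congrFun (congrFun ht 1) 1
  simp [Matrix.mul_apply, Fin.sum_univ_two] at e00 e01 e10 e11
  have h1 : a * (a + d) = 2 := by linarith
  have h2 : a + d ≠ 0 := by
    intro h
    rw [h] at h1
    norm_num at h1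
  have hb : b = 0 := by
    have : b * (a + d) = 0 := by linarith
    exact (mul_eq_zero.1 this).resolve_right h2
  have hc : c = 0 := by
    have : c * (a + d) = 0 := by linarith
    exact (mul_eq_zero.1 this).resolve_right h2
  subst hb hc
  have h3 : (a - 1) * (a + 1) = 0 := by linarith
  rcases mul_eq_zero.1 h3 with h | h
  · left
    have ha : a = 1 := by linarith
    subst ha
    have hd' : d = 1 := by linarith
    subst hd'
    exact Matrix.one_fin_two.symm
  · right
    have ha : a = -1 := by linarith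
    subst ha
    have hd' : d = -1 := by linarith
    subst hd'
    rw [Matrix.one_fin_two]
    ext i j
    fin_cases i <;> fin_cases j <;> simp

end mat

section dihedral

/-- A group generated by a rotation and a reflection. -/
private theorem KerDih_iso {Q : Type} [Group Q] [Finite Q] (n : ℕ) (a b : Q) (P : Subgroup Q)
    (haP : a ∈ P) (hbP : b ∉ P) (ha : orderOf a = n) (hb : b * b = 1)
    (hba : b * a * (b * a) = 1) (hcard : Nat.card Q = 2 * n) : Nonempty (Q ≃* DihedralGroup n) := by
  have han : (zmultiplesHom (Additive Q) (Additive.ofMul a)) (n : ℤ) = 0 := by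
    show (n : ℤ) • Additive.ofMul a = 0
    rw [← ofMul_zpow, ← ha, zpow_natCast, pow_orderOf_eq_one]
    rfl
  set α : ZMod n →+ Additive Q := ZMod.lift n ⟨zmultiplesHom (Additive Q) (Additive.ofMul a), han⟩
    with hα
  set A : ZMod n → Q := fun i => Additive.toMul (α i) with hA
  have hadd : ∀ i j, A (i + j) = A i * A j := by
    intro i j
    simp only [hA, map_add, toMul_add]
  have hint : ∀ k : ℤ, A (k : ZMod n) = a ^ k := by
    intro k
    simp only [hA, hα, ZMod.lift_coe]
    rfl
  have hsc : SemiconjBy b a a⁻¹ := by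
    have h1 : b * a = (b * a)⁻¹ := eq_inv_of_mul_eq_one_left hba
    have h2 : b⁻¹ = b := inv_eq_of_mul_eq_one_left hb
    show b * a = a⁻¹ * b
    rw [h1, mul_inv_rev, h2]
  have hconj : ∀ i, b * A i = A (-i) * b := by
    intro i
    obtain ⟨k, rfl⟩ := ZMod.intCast_surjective i
    have h1 := (hsc.zpow_right k).eq
    rw [← Int.cast_neg, hint, hint, h1, inv_zpow, zpow_neg]
  have hconj' : ∀ i, A i * b = b * A (-i) := by
    intro i
    rw [hconj, neg_neg]
  have hAP : ∀ i, A i ∈ P := by
    intro i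
    obtain ⟨k, rfl⟩ := ZMod.intCast_surjective i
    rw [hint]
    exact P.zpow_mem haP k
  let f : DihedralGroup n → Q := fun x => match x with
    | .r i => A i
    | .sr i => b * A i
  have hfr : ∀ i, f (.r i) = A i := fun _ => rfl
  have hfs : ∀ i, f (.sr i) = b * A i := fun _ => rfl
  have hmul : ∀ x y, f (x * y) = f x * f y := by
    rintro (i | i) (j | j)
    · rw [DihedralGroup.r_mul_r, hfr, hfr, hfr, hadd]
    · rw [DihedralGroup.r_mul_sr, hfs, hfr, hfs, ← mul_assoc, hconj', mul_assoc, ← hadd,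
        neg_add_eq_sub]
    · rw [DihedralGroup.sr_mul_r, hfs, hfs, hfr, hadd, mul_assoc]
    · rw [DihedralGroup.sr_mul_sr, hfr, hfs, hfs, mul_assoc, ← mul_assoc (A i), hconj', mul_assoc b,
        ← hadd, ← mul_assoc, hb, one_mul, neg_add_eq_sub]
  let F : DihedralGroup n →* Q := MonoidHom.mk' f hmul
  have hinj : Function.Injective F := by
    rw [injective_iff_map_eq_one]
    rintro (i | i) h
    · have h1 : A i = 1 := h
      obtain ⟨k, rfl⟩ := ZMod.intCast_surjective i
      rw [hint, ← orderOf_dvd_iff_zpow_eq_one, ha] at h1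
      rw [(ZMod.intCast_zmod_eq_zero_iff_dvd k n).2 h1, DihedralGroup.r_zero]
    · exfalso
      have h1 : b * A i = 1 := h
      apply hbP
      rw [mul_eq_one_iff_eq_inv] at h1
      rw [h1]
      exact P.inv_mem (hAP i)
  have hbij : Function.Bijective F := hinj.bijective_of_nat_card_le (by
    rw [hcard, DihedralGroup.nat_card])
  exact ⟨(MulEquiv.ofBijective F hbij).symm⟩

/-- The theorem for groups of matrices. -/
private theorem KerDih_core {Q : Type} [Group Q] [Finite Q] (R : Q →* Matrix (Fin 2) (Fin 2) ℚ)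
    (hRi : Function.Injective R) (z : Q) (hz : R z = -1)
    (hS : ∀ A : Matrix (Fin 2) (Fin 2) ℚ, (∀ g, R g * A = A * R g) → ∃ c : ℚ, A = c • 1) (n : ℕ)
    (hn : n = 4 ∨ n = 6) (hcard : Nat.card Q = 2 * n) : Nonempty (Q ≃* DihedralGroup n) := by
  obtain ⟨x, y, w, hx, hD, hinv⟩ := KerDih_form R
  have hdet : ∀ g, (R g).det = 1 ∨ (R g).det = -1 := fun g => KerDih_det hD (R g) (hinv g)
  have hu : ∃ h, (R h).det = -1 := by
    by_contra hcon
    push Not at hcon
    obtain ⟨c, hc⟩ := hS (KerDihM x y w 0 1) (fun g => by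
      rcases hdet g with hg | hg
      · have e := (KerDih_plus hx (R g) (hinv g) hg).1
        rw [e, KerDihM_split, add_mul, mul_add]
        simp
      · exact absurd hg (hcon g))
    have h1 := congrFun (congrFun hc 1) 0
    simp [KerDihM] at h1
    exact hx.ne' h1
  obtain ⟨h, hh⟩ := hu
  set P : Subgroup Q := ((Matrix.detMonoidHom (n := Fin 2) (R := ℚ)).comp R).ker with hP
  have hPm : ∀ g, g ∈ P ↔ (R g).det = 1 := fun g => Iff.rfl
  have hhP : h ∉ P := by
    rw [hPm, hh]
    norm_num
  have hminus : ∀ g, (R g).det = -1 → g * g = 1 := by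
    intro g hg
    apply hRi
    rw [map_mul, map_one]
    exact KerDih_sq hg (KerDih_minus hx (R g) (hinv g) hg).1
  have hindex : P.index = 2 := by
    rw [Subgroup.index_eq_two_iff_exists_notMem_and']
    refine ⟨h, hhP, fun g => ?_⟩
    rcases hdet g with hg | hg
    · right
      exact (hPm g).2 hg
    · left
      rw [hPm, map_mul, Matrix.det_mul, hh, hg]
      norm_num
  have hPcard : Nat.card P = n := by
    have h1 := P.card_mul_index
    rw [hindex, hcard] at h1
    omega
  have hzP : z ∈ P := by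
    rw [hPm, hz, Matrix.det_neg, Matrix.det_one]
    norm_num
  have hz1 : z ≠ 1 := by
    intro h1
    rw [h1, map_one] at hz
    have h2 := congrFun (congrFun hz 0) 0
    simp at h2
    norm_num at h2
  have hzz : z ^ 2 = 1 := by
    apply hRi
    rw [map_pow, map_one, hz]
    norm_num
  have ha : ∃ a ∈ P, orderOf a = n := by
    rcases hn with hn | hn
    · obtain ⟨a, haP, ha1, haz⟩ : ∃ a ∈ P, a ≠ 1 ∧ a ≠ z := by
        by_contra hcon
        push Not at hcon
        have hsub : (P : Set Q) ⊆ {1, z} := by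
          intro a haP
          by_cases h1 : a = 1
          · left
            exact h1
          · right
            exact hcon a haP h1
        have h1 : (P : Set Q).ncard ≤ 2 :=
          (Set.ncard_le_ncard hsub (Set.toFinite _)).trans
            ((Set.ncard_insert_le _ _).trans (by rw [Set.ncard_singleton]))
        have h2 : (P : Set Q).ncard = n := by
          rw [← hPcard]
          rfl
        omega
      refine ⟨a, haP, ?_⟩
      have h1 : orderOf a ∣ 2 ^ 2 := by
        have := P.orderOf_dvd_natCard haP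
        rw [hPcard, hn] at this
        exact this
      obtain ⟨k, hk, hk'⟩ := (Nat.dvd_prime_pow Nat.prime_two).1 h1
      interval_cases k
      · exfalso
        rw [pow_zero, orderOf_eq_one_iff] at hk'
        exact ha1 hk'
      · exfalso
        have h2 : a * a = 1 := by
          rw [← pow_two, ← pow_orderOf_eq_one a, hk', pow_one]
        have h3 : R a * R a = 1 := by rw [← map_mul, h2, map_one]
        rcases KerDih_invol ((hPm a).1 haP) h3 with h4 | h4
        · exact ha1 (hRi (by rw [h4, map_one]))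
        · exact haz (hRi (by rw [h4, hz]))
      · rw [hk', hn]
        norm_num
    · haveI : Fact (Nat.Prime 3) := ⟨Nat.prime_three⟩
      obtain ⟨c, hc⟩ := exists_prime_orderOf_dvd_card' (G := P) 3 (by rw [hPcard, hn]; norm_num)
      have hc' : orderOf (c : Q) = 3 := by rw [Subgroup.orderOf_coe, hc]
      refine ⟨z * c, P.mul_mem hzP c.2, ?_⟩
      have hcomm : Commute z (c : Q) := by
        show z * (c : Q) = (c : Q) * z
        apply hRi
        rw [map_mul, map_mul, hz]
        simp
      have hz2 : orderOf z = 2 := orderOf_eq_prime hzz hz1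
      rw [hcomm.orderOf_mul_eq_mul_orderOf_of_coprime (by rw [hz2, hc']; norm_num), hz2, hc', hn]
  obtain ⟨a, haP, han⟩ := ha
  refine KerDih_iso n a h P haP hhP han (hminus h hh) (hminus (h * a) ?_) hcard
  rw [map_mul, Matrix.det_mul, hh, (hPm a).1 haP, mul_one]

end dihedral

section space

variable {S G : Type} [Group G] [MulAction G S]

/-- The hom of the group to the endomorphisms of a stable space. -/
private noncomputable def KerDihRho (U : Submodule ℚ (S → ℚ)) (hU : IsStab G U) :
    G →* (U →ₗ[ℚ] U) :=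
  (LinearEquiv.automorphismGroup.toLinearMapMonoidHom).comp (actHom U hU)

private lemma KerDihRho_apply (U : Submodule ℚ (S → ℚ)) (hU : IsStab G U) (γ : G) (f : U) (s : S) :
    (KerDihRho U hU γ f).1 s = f.1 (γ⁻¹ • s) := rfl

private lemma KerDih_comm_iff (U : Submodule ℚ (S → ℚ)) (hU : IsStab G U) (θ : U →ₗ[ℚ] U) :
    θ ∈ endF G U ↔ ∀ γ, KerDihRho U hU γ * θ = θ * KerDihRho U hU γ := by
  rw [mem_endF]
  constructor
  · intro h γ
    apply LinearMap.ext
    intro f
    apply Subtype.ext
    funext s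
    rw [Module.End.mul_apply, Module.End.mul_apply, KerDihRho_apply]
    exact (h f (KerDihRho U hU γ f) γ⁻¹ (fun s => KerDihRho_apply U hU γ f s) s).symm
  · intro h f f' γ hff s
    have h1 : f' = KerDihRho U hU γ⁻¹ f := by
      apply Subtype.ext
      funext t
      rw [KerDihRho_apply, inv_inv, hff]
    have h2 := LinearMap.congr_fun (h γ⁻¹) f
    rw [Module.End.mul_apply, Module.End.mul_apply, ← h1] at h2
    rw [← h2, KerDihRho_apply, inv_inv]

end space

/-- **The group acting on an absolutely irreducible odd space of dimension two is dihedral.** -/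
theorem pKerDih : StKerDih := by
  intro S G _ _ _ _ z U hU hodd h2 he
  have hUs := hU.2.1
  let b : Basis (Fin 2) ℚ U := Module.finBasisOfFinrankEq ℚ U h2
  let T := LinearMap.toMatrixAlgEquiv b
  let R : G →* Matrix (Fin 2) (Fin 2) ℚ := ((T : (U →ₗ[ℚ] U) →* Matrix (Fin 2) (Fin 2) ℚ)).comp
    (KerDihRho U hUs)
  have hR : ∀ g, R g = T (KerDihRho U hUs g) := fun g => rfl
  have hcomm : ∀ A : Matrix (Fin 2) (Fin 2) ℚ, (∀ g, R g * A = A * R g) ↔
      T.symm A ∈ endF G U := by
    intro A
    rw [KerDih_comm_iff U hUs]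
    refine forall_congr' (fun g => ?_)
    rw [hR]
    constructor
    · intro h
      apply T.injective
      rw [map_mul, map_mul, AlgEquiv.apply_symm_apply, h]
    · intro h
      have := congrArg T h
      rwa [map_mul, map_mul, AlgEquiv.apply_symm_apply] at this
  have hz : R z = -1 := by
    have h1 : KerDihRho U hUs z = -1 := by
      apply LinearMap.ext
      intro f
      apply Subtype.ext
      funext s
      rw [KerDihRho_apply]
      show f.1 (z⁻¹ • s) = - f.1 s
      have := hodd f.1 f.2 (z⁻¹ • s)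
      rw [smul_inv_smul] at this
      rw [this, neg_neg]
    have h3 : (-1 : U →ₗ[ℚ] U) = (-1 : ℚ) • (1 : U →ₗ[ℚ] U) := by
      apply LinearMap.ext
      intro f
      exact (neg_one_smul ℚ f).symm
    rw [hR, h1, h3, map_smul, map_one, neg_smul, one_smul]
  set C : Submodule ℚ (Matrix (Fin 2) (Fin 2) ℚ) :=
    (endF G U).map (T.toLinearEquiv : (U →ₗ[ℚ] U) →ₗ[ℚ] Matrix (Fin 2) (Fin 2) ℚ) with hC
  have hfr : finrank ℚ C = finrank ℚ (endF G U) :=
    (T.toLinearEquiv.submoduleMap (endF G U)).finrank_eq.symm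
  have hCmem : ∀ A, (∀ g, R g * A = A * R g) ↔ A ∈ C := by
    intro A
    rw [hcomm]
    constructor
    · intro h
      exact ⟨T.symm A, h, T.apply_symm_apply A⟩
    · rintro ⟨θ, hθ, rfl⟩
      have : T.symm (T θ) = θ := T.symm_apply_apply θ
      rw [show T.symm ((T.toLinearEquiv : (U →ₗ[ℚ] U) →ₗ[ℚ] Matrix (Fin 2) (Fin 2) ℚ) θ) = θ
        from this]
      exact hθ
  have h1C : (1 : Matrix (Fin 2) (Fin 2) ℚ) ∈ C := (hCmem 1).mp (fun g => by simp)
  have hS : ∀ A : Matrix (Fin 2) (Fin 2) ℚ, (∀ g, R g * A = A * R g) → ∃ c : ℚ, A = c • 1 := by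
    intro A hA
    have h3 : (⟨1, h1C⟩ : C) ≠ 0 := by
      intro h4
      have h5 : (1 : Matrix (Fin 2) (Fin 2) ℚ) = 0 := congrArg Subtype.val h4
      have h6 := congrFun (congrFun h5 0) 0
      simp at h6
    obtain ⟨c, hc⟩ := (finrank_eq_one_iff_of_nonzero' _ h3).mp (hfr.trans he)
      ⟨A, (hCmem A).mp hA⟩
    exact ⟨c, (congrArg Subtype.val hc).symm⟩
  -- pass to the quotient
  haveI hnorm : (kerSub G U).Normal := kerSub_normal U hUs
  have hker : ∀ g, R g = 1 ↔ g ∈ kerSub G U := by
    intro g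
    rw [← actHom_ker U hUs, MonoidHom.mem_ker, hR]
    constructor
    · intro h
      apply LinearEquiv.toLinearMap_injective
      apply T.injective
      have h1 : T ((1 : U ≃ₗ[ℚ] U) : U →ₗ[ℚ] U) = 1 := map_one T
      rw [h1]
      exact h
    · intro h
      have h1 : KerDihRho U hUs g = 1 := by
        show ((actHom U hUs g : U ≃ₗ[ℚ] U) : U →ₗ[ℚ] U) = 1
        rw [h]
        rfl
      rw [h1, map_one]
  have hle : kerSub G U ≤ R.ker := fun g hg => (hker g).2 hg
  let R' : G ⧸ kerSub G U →* Matrix (Fin 2) (Fin 2) ℚ := QuotientGroup.lift (kerSub G U) R hle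
  have hR' : ∀ g : G, R' (g : G ⧸ kerSub G U) = R g := fun g => rfl
  have hinj : Function.Injective R' := by
    rw [injective_iff_map_eq_one]
    intro q hq
    obtain ⟨g, rfl⟩ := QuotientGroup.mk_surjective q
    rw [hR'] at hq
    exact (QuotientGroup.eq_one_iff g).2 ((hker g).1 hq)
  have hS' : ∀ A : Matrix (Fin 2) (Fin 2) ℚ, (∀ q, R' q * A = A * R' q) → ∃ c : ℚ, A = c • 1 :=
    fun A hA => hS A (fun g => hA (g : G ⧸ kerSub G U))
  have hidx := (pOrd S G z U hU hodd h2).1 he
  have hcard : Nat.card (G ⧸ kerSub G U) = (kerSub G U).index := rfl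
  rcases hidx with h8 | h12
  · left
    exact ⟨hnorm, KerDih_core R' hinj (z : G ⧸ kerSub G U) hz hS' 4 (Or.inl rfl)
      (by rw [hcard, h8])⟩
  · right
    exact ⟨hnorm, KerDih_core R' hinj (z : G ⧸ kerSub G U) hz hS' 6 (Or.inr rfl)
      (by rw [hcard, h12])⟩

end Pool.Agent.Lib.MP_640417_ag.Sharp
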