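import Pool.Agent.Lib.MP_640417_ag.Sharp.SpecL

/-!
# The lower bound from dihedral subfields
-/

namespace Pool.Agent.Lib.MP_640417_ag.Sharp

open Module Finset MulAction Pool.Agent.Lib.MP_640417_ag.Far Pool.Agent.Lib.MP_640417_ag.Full

/-- Sets of sign functions are finite. -/
private lemma lowDih_finite {S G : Type} [Fintype S] [Group G] [MulAction G S] (z : G)
    (A : Set (S → ℤ)) (hA : ∀ e ∈ A, IsSgn z e) : A.Finite := by
  apply Set.Finite.subset (Set.Finite.pi' (fun _ : S => Set.toFinite ({1, -1} : Set ℤ)))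
  intro e he s
  rcases (hA e he).1 s with h | h <;> simp [h]

/-- The index of a subgroup with dihedral quotient. -/
private lemma lowDih_index {G : Type} [Group G] {n : ℕ} {H : Subgroup G} (h : IsDih n H) :
    H.index = 2 * n := by
  obtain ⟨hN, ⟨e⟩⟩ := h
  rw [Subgroup.index_eq_card, Nat.card_congr e.toEquiv, DihedralGroup.nat_card]

/-- Different subgroups of the same index are not contained in one another. -/
private lemma lowDih_sep {G : Type} [Group G] {k : ℕ} (hk : k ≠ 0) {H H' : Subgroup G}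
    (h : H.index = k) (h' : H'.index = k) (hne : H ≠ H') : ∃ ν ∈ H, ν ∉ H' := by
  by_contra hcon
  push Not at hcon
  have hle : H ≤ H' := hcon
  have h1 := Subgroup.relIndex_mul_index hle
  rw [h, h'] at h1
  have h2 : H.relIndex H' = 1 := by
    have : H.relIndex H' * k = 1 * k := by rw [h1, one_mul]
    exact Nat.eq_of_mul_eq_mul_right (Nat.pos_of_ne_zero hk) this
  exact hne (le_antisymm hle (Subgroup.relIndex_eq_one.mp h2))

/-- **The lower bound from dihedral subfields.** -/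
theorem pLowDih (hUnion : StUnion) (hDihSys : StDihSys) (hDihLow : StDihLow)
    (hDihPair : StDihPair) (hRel : StRel) : StLowDih := by
  classical
  obtain ⟨c₁, hc₁, g₀, hlow⟩ := hDihLow
  obtain ⟨C₁, hC₁, hpair⟩ := hDihPair
  obtain ⟨c, hc, hun⟩ := hUnion c₁ C₁ hc₁ hC₁
  refine ⟨c, hc, max g₀ 2, ?_⟩
  intro n _ hn S G _ _ _ _ _ s₀ z hz hzz hzs g hg hg0
  have hg2 : 2 ≤ g := le_trans (le_max_right _ _) hg0
  have hg1 : g₀ ≤ g := le_trans (le_max_left _ _) hg0
  have hn0 : 0 < n := by rcases hn with h | h <;> omega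
  obtain ⟨X, hX⟩ := exists_transversal (fun s : S => z • s) hzz hzs
  have hXc : X.card = g := by
    have := two_mul_card_transversal (fun s : S => z • s) hzz X hX
    omega
  have hsys : ∀ H : dih n s₀ z, ∃ (M : MatSys S G z 2 (2 * n)) (τ : S → DihedralGroup n),
      (∀ γ, M.R γ = 1 ↔ γ ∈ H.1) ∧ (∀ s, M.Φ s = rho n (τ s)) ∧
      (∀ s, τ (z • s) = DihedralGroup.r ((n / 2 : ℕ) : ZMod n) * τ s) ∧
      ∀ t, 2 * n * (univ.filter (fun s => τ s = t)).card = Fintype.card S :=
    fun H => hDihSys n hn S G s₀ z hz hzz H.1 H.2.1 H.2.2.1 H.2.2.2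
  choose M τ hM using hsys
  have hgr : (1 : ℝ) < g := by exact_mod_cast (show 1 < g by omega)
  have hlog : 0 < Real.log g := Real.log_pos hgr
  have ht0 : 0 < Real.log g / g := div_pos hlog (by linarith)
  have ht1 : Real.log g / g ≤ 1 := by
    rw [div_le_one (by linarith)]
    have := Real.log_le_sub_one_of_pos (show (0 : ℝ) < g by linarith)
    linarith
  have hsep : ∀ H H' : dih n s₀ z, H ≠ H' → ∃ ν, (M H).R ν = 1 ∧ (M H').R ν ≠ 1 := by
    intro H H' hne
    obtain ⟨ν, h1, h2⟩ := lowDih_sep (k := 2 * n) (by omega) (lowDih_index H.2.2.2)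
      (lowDih_index H'.2.2.2) (fun h => hne (Subtype.ext h))
    exact ⟨ν, ((hM H).1 ν).mpr h1, fun h => h2 (((hM H').1 ν).mp h)⟩
  have h1 := hun (dih n s₀ z) (S → ℤ) (fun H => small (M H) g)
    (fun H => lowDih_finite z _ (fun e he => he.1)) (2 ^ g) (Real.log g / g) (by positivity)
    ht0 ht1 (fun H => hlow n hn S G z hzz g hg hg1 (M H) (τ H) (hM H).2.1 (hM H).2.2.1
      (hM H).2.2.2)
    (fun H H' hne => hpair S G z hzz X hX g hXc hg2 (2 * n) (M H) (M H') (by omega)
      (hsep H H' hne) (by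
        obtain ⟨ν, h1, h2⟩ := hsep H' H hne.symm
        exact ⟨ν, h2, h1⟩))
  have h2 : (⋃ H : dih n s₀ z, small (M H) g) ⊆ relSet z :=
    Set.iUnion_subset (fun H => (hRel S G z hzz).2 (2 * n) g (M H))
  have h3 : ((⋃ H : dih n s₀ z, small (M H) g).ncard : ℝ)
      ≤ ((relSet z : Set (S → ℤ)).ncard : ℝ) := by
    exact_mod_cast Set.ncard_le_ncard h2 (lowDih_finite z _ (fun e he => he.1))
  have h4 : (Nat.card (dih n s₀ z) : ℝ) * (Real.log g / g)
      = ((dih n s₀ z).ncard : ℝ) * Real.log g / g := by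
    rw [Nat.card_coe_set_eq, mul_div_assoc]
  rw [h4] at h1
  exact h1.trans h3

end Pool.Agent.Lib.MP_640417_ag.Sharp
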