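import Pool.Agent.Lib.MP_640417_ag.Sharp.SpecU

/-!
# Parity for spaces of dimension `1`
-/

namespace Pool.Agent.Lib.MP_640417_ag.Sharp

open Module Finset MulAction Pool.Agent.Lib.MP_640417_ag.Far Pool.Agent.Lib.MP_640417_ag.Full

theorem pPar1 : StPar1 := by
  intro S G _ _ _ _ _ z hz hz' g hg U hU hUo h1 hbad
  classical
  obtain ⟨e, ⟨he, hez⟩, U', hst, ⟨θ, hθ⟩, hperp⟩ := hbad
  have h1' : finrank ℚ U' = 1 := by rw [← θ.finrank_eq, h1]
  obtain ⟨⟨f, hf⟩, hf0, hspan⟩ := finrank_eq_one_iff'.mp h1'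
  have hfne : f ≠ 0 := fun h => hf0 (Subtype.ext h)
  -- oddness
  have hodd : ∀ s, f (z • s) = - f s := by
    intro s
    obtain ⟨u, hu⟩ := θ.surjective ⟨f, hf⟩
    have h2 := hθ u (-u) z (fun s => by
      rw [hUo u.1 u.2 s]
      rfl) s
    rw [map_neg, hu] at h2
    simpa using h2.symm
  -- the character
  obtain ⟨s₀, hs₀⟩ : ∃ s₀, f s₀ ≠ 0 := by
    by_contra hcon
    push Not at hcon
    exact hfne (funext hcon)
  have hsq : ∀ (γ : G) (s : S), f (γ • s) ^ 2 = f s ^ 2 := by
    intro γ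
    obtain ⟨c, hc⟩ := hspan ⟨fun s => f (γ • s), hst f hf γ⟩
    have hc' : ∀ s, f (γ • s) = c * f s := by
      intro s
      have := congrFun (congrArg Subtype.val hc) s
      simpa using this.symm
    have hsum : ∑ s, f (γ • s) ^ 2 = ∑ s, f s ^ 2 :=
      Equiv.sum_comp (MulAction.toPerm γ) (fun s => f s ^ 2)
    have hpos : 0 < ∑ s, f s ^ 2 :=
      Finset.sum_pos' (fun s _ => sq_nonneg _) ⟨s₀, Finset.mem_univ _, by positivity⟩
    have h3 : c ^ 2 * ∑ s, f s ^ 2 = ∑ s, f s ^ 2 := by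
      rw [Finset.mul_sum]
      refine Eq.trans ?_ hsum
      exact Finset.sum_congr rfl fun s _ => by rw [hc' s]; ring
    have h4 : c ^ 2 = 1 := by
      have : (c ^ 2 - 1) * ∑ s, f s ^ 2 = 0 := by linarith
      rcases mul_eq_zero.mp this with h | h
      · linarith
      · exact absurd h hpos.ne'
    intro s
    rw [hc' s, mul_pow, h4, one_mul]
  set k := f s₀ with hk
  have hval : ∀ s, f s * (e s : ℚ) = k ∨ f s * (e s : ℚ) = - k := by
    intro s
    obtain ⟨γ, rfl⟩ := exists_smul_eq G s₀ s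
    have h5 := hsq γ s₀
    have h6 : (e (γ • s₀) : ℚ) ^ 2 = 1 := by
      rcases he (γ • s₀) with h | h <;> rw [h] <;> norm_num
    have h7 : (f (γ • s₀) * (e (γ • s₀) : ℚ)) ^ 2 = k ^ 2 := by
      rw [mul_pow, h6, h5, mul_one]
    exact sq_eq_sq_iff_eq_or_eq_neg.mp h7
  set A := Finset.univ.filter fun s => f s * (e s : ℚ) = k with hA
  have hsum := hperp f hf
  have h8 : ∀ s, f s * (e s : ℚ) = 2 * k * (if f s * (e s : ℚ) = k then 1 else 0) - k := by
    intro s
    rcases hval s with h | h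
    · rw [h, if_pos rfl]
      ring
    · rw [h, if_neg (fun h' => hs₀ (by linarith))]
      ring
  rw [Finset.sum_congr rfl fun s _ => h8 s, Finset.sum_sub_distrib, ← Finset.mul_sum,
    Finset.sum_boole, Finset.sum_const, Finset.card_univ, hg, nsmul_eq_mul] at hsum
  have h9 : (A.card : ℚ) = g := by
    have h10 : 2 * k * ((A.card : ℚ) - g) = 0 := by
      push_cast at hsum
      linear_combination hsum
    rcases mul_eq_zero.mp h10 with h | h
    · exact absurd h (by simpa using hs₀)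
    · linarith
  have h11 : A.card = g := by exact_mod_cast h9
  rw [← h11, ← ZMod.natCast_eq_zero_iff]
  have h12 : ∑ _s ∈ A, (1 : ZMod 2) = 0 := by
    refine Finset.sum_involution (fun s _ => z • s) (fun _ _ => by decide)
      (fun s _ _ => hz' s) (fun s hs => ?_) (fun s _ => hz s)
    rw [hA, Finset.mem_filter] at hs ⊢
    refine ⟨Finset.mem_univ _, ?_⟩
    rw [hodd s, hez s]
    push_cast
    rw [neg_mul_neg]
    exact hs.2
  simpa using h12

end Pool.Agent.Lib.MP_640417_ag.Sharp
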