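import Pool.Agent.Lib.MP_640417_ag.Sharp.SpecU

/-!
# The sharp criterion: parity for quartic subfields
-/

namespace Pool.Agent.Lib.MP_640417_ag.Sharp

open Module Finset MulAction Pool.Agent.Lib.MP_640417_ag.Far Pool.Agent.Lib.MP_640417_ag.Full

private lemma ParQ_card {S G : Type} [Fintype S] [Group G] [Finite G] [MulAction G S]
    [IsPretransitive G S] (s₀ : S) (H : Subgroup G) (hst : stabilizer G s₀ ≤ H) :
    (orbit H s₀).ncard * H.index = Fintype.card S := by
  have h1 : (stabilizer G s₀).index = Fintype.card S := by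
    rw [index_stabilizer_of_transitive, Nat.card_eq_fintype_card]
  have h2 : (stabilizer H s₀).index = (orbit H s₀).ncard := index_stabilizer H s₀
  have h3 : stabilizer H s₀ = (stabilizer G s₀).subgroupOf H := by
    ext γ
    rw [mem_stabilizer_iff, Subgroup.mem_subgroupOf, mem_stabilizer_iff]
    rfl
  have h4 := Subgroup.relIndex_mul_index hst
  rw [Subgroup.relIndex, ← h3, h2, h1] at h4
  exact h4

private lemma ParQ_mem {S G : Type} [Group G] [MulAction G S] (s₀ : S) (H : Subgroup G)
    (hst : stabilizer G s₀ ≤ H) (γ : G) : γ • s₀ ∈ orbit H s₀ ↔ γ ∈ H := by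
  constructor
  · rintro ⟨δ, hδ⟩
    have h1 : (δ : G) • s₀ = γ • s₀ := hδ
    have h2 : (δ : G)⁻¹ * γ ∈ stabilizer G s₀ := by
      rw [mem_stabilizer_iff, mul_smul, ← h1, inv_smul_smul]
    have h3 := H.mul_mem δ.2 (hst h2)
    rwa [mul_inv_cancel_left] at h3
  · intro h
    exact ⟨⟨γ, h⟩, rfl⟩

theorem pParQ : StParQ := by
  classical
  intro S G _ _ _ _ _ s₀ z hzc hzz g hg H hH e he hp
  obtain ⟨hst, hzH, hidx, hq⟩ := hH
  have hT := ParQ_mem s₀ H hst
  set f : S → ℚ := fun s => (if s ∈ orbit H s₀ then 1 else 0) -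
    (if z • s ∈ orbit H s₀ then 1 else 0) with hf
  have hfm : f ∈ sp s₀ z H := by
    refine ⟨fun s => ?_, fun γ γ' h => ?_, fun H' hH' hi hz => ?_⟩
    · simp only [hf, hzz]
      ring
    · have h1 : γ ∈ H ↔ γ' ∈ H := by
        constructor
        · intro h2
          have := H.mul_mem h2 h
          rwa [mul_inv_cancel_left] at this
        · intro h2
          have := H.mul_mem h2 (H.inv_mem h)
          rwa [mul_inv_rev, inv_inv, mul_inv_cancel_left] at this
      have h3 : z * γ ∈ H ↔ z * γ' ∈ H := by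
        constructor
        · intro h2
          have := H.mul_mem h2 h
          rwa [mul_assoc, mul_inv_cancel_left] at this
        · intro h2
          have := H.mul_mem h2 (H.inv_mem h)
          rwa [mul_assoc, mul_inv_rev, inv_inv, mul_inv_cancel_left] at this
      simp only [hf, ← mul_smul, hT, h1, h3]
    · exact absurd (hq H' hH' hi) hz
  have h0 := hp f hfm
  -- the sum over the orbit vanishes
  have hinv : ∀ F : S → ℚ, ∑ s, F (z • s) = ∑ s, F s := fun F =>
    Fintype.sum_equiv ⟨fun s => z • s, fun s => z • s, hzz, hzz⟩ _ _ (fun s => rfl)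
  have h1 : ∑ s, (if z • s ∈ orbit H s₀ then (1 : ℚ) else 0) * (e s : ℚ) =
      - ∑ s, (if s ∈ orbit H s₀ then (1 : ℚ) else 0) * (e s : ℚ) := by
    rw [← hinv fun s => (if s ∈ orbit H s₀ then (1 : ℚ) else 0) * (e s : ℚ),
      ← Finset.sum_neg_distrib]
    apply Finset.sum_congr rfl
    intro s _
    rw [he.2 s]
    push_cast
    ring
  have h2 : ∑ s, (if s ∈ orbit H s₀ then (1 : ℚ) else 0) * (e s : ℚ) = 0 := by
    have h3 : ∑ s, f s * (e s : ℚ) = ∑ s, (if s ∈ orbit H s₀ then (1 : ℚ) else 0) * (e s : ℚ) -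
        ∑ s, (if z • s ∈ orbit H s₀ then (1 : ℚ) else 0) * (e s : ℚ) := by
      rw [← Finset.sum_sub_distrib]
      apply Finset.sum_congr rfl
      intro s _
      simp only [hf]
      ring
    rw [h3, h1] at h0
    linarith
  set T : Finset S := Finset.univ.filter (fun s => s ∈ orbit H s₀) with hTd
  have h4 : ∑ s ∈ T, e s = 0 := by
    have h5 : ((∑ s ∈ T, e s : ℤ) : ℚ) = 0 := by
      rw [← h2, hTd, Finset.sum_filter]
      push_cast
      apply Finset.sum_congr rfl
      intro s _
      split_ifs <;> simp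
    exact_mod_cast h5
  have h6 : Even T.card := by
    have h7 : ((T.card : ℤ)) % 2 = (∑ s ∈ T, e s) % 2 := by
      have h8 : (T.card : ℤ) = ∑ s ∈ T, (1 : ℤ) := by simp
      rw [h8]
      apply Int.ModEq.sum
      intro s _
      rcases he.1 s with h9 | h9
      · rw [h9]
      · rw [h9]
        decide
    rw [h4] at h7
    rw [Nat.even_iff]
    omega
  have h10 : T.card = (orbit H s₀).ncard := by
    rw [Set.ncard_eq_toFinset_card', hTd]
    congr 1
    ext s
    simp
  have h11 := ParQ_card s₀ H hst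
  rw [hidx, hg, ← h10] at h11
  obtain ⟨k, hk⟩ := h6
  refine ⟨k, ?_⟩
  omega

end Pool.Agent.Lib.MP_640417_ag.Sharp
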