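import Pool.Agent.Lib.MP_640417_ag.Sharp.SpecL

/-!
# Relations from orthogonal spaces and singular matrices
-/

namespace Pool.Agent.Lib.MP_640417_ag.Sharp

open Module Finset MulAction Pool.Agent.Lib.MP_640417_ag.Far Pool.Agent.Lib.MP_640417_ag.Full

/-- Shift of the summation variable. -/
private lemma rel_shift {S G : Type} [Fintype S] [Group G] [MulAction G S] {R : Type*}
    [AddCommMonoid R] (γ : G) (F : S → S → R) :
    ∑ s, F s (γ • s) = ∑ s, F (γ⁻¹ • s) s := by
  apply Fintype.sum_bijective (fun s => γ • s) (MulAction.bijective γ)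
  intro s
  rw [inv_smul_smul]

/-- **Relations from orthogonal spaces and singular matrices.** -/
theorem pRel : StRel := by
  classical
  intro S G _ _ _ _ z hzz
  refine ⟨?_, ?_⟩
  · intro U hU hst hod e he hperp
    obtain ⟨f, hf, hf0⟩ := U.ne_bot_iff.mp hU
    obtain ⟨b, hb⟩ := IsLocalization.exist_integer_multiples_of_finite (nonZeroDivisors ℤ) f
    have hb0 : ((b : ℤ) : ℚ) ≠ 0 := by
      exact_mod_cast nonZeroDivisors.ne_zero b.2
    choose v hv using hb
    have hv' : ∀ s, ((v s : ℤ) : ℚ) = (b : ℤ) * f s := by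
      intro s
      have := hv s
      rw [zsmul_eq_mul] at this
      exact this
    refine ⟨he, v, ?_, ?_, ?_⟩
    · intro h0
      apply hf0
      funext s
      have h1 := hv' s
      rw [h0] at h1
      simp only [Pi.zero_apply, Int.cast_zero] at h1
      rcases mul_eq_zero.mp h1.symm with h | h
      · exact absurd h hb0
      · exact h
    · intro s
      have h1 : ((v (z • s) : ℤ) : ℚ) = ((- v s : ℤ) : ℚ) := by
        push_cast
        rw [hv', hv', hod f hf s]
        ring
      exact_mod_cast h1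
    · intro γ
      have h1 := hperp _ (hst f hf γ⁻¹)
      have h2 : ((∑ s, v s * e (γ • s) : ℤ) : ℚ) = 0 := by
        push_cast
        calc ∑ s, ((v s : ℤ) : ℚ) * ((e (γ • s) : ℤ) : ℚ)
            = ∑ s, ((b : ℤ) : ℚ) * (f s * (e (γ • s) : ℚ)) := by
              apply Finset.sum_congr rfl
              intro s _
              rw [hv' s]
              ring
          _ = (b : ℤ) * ∑ s, f s * (e (γ • s) : ℚ) := by rw [Finset.mul_sum]
          _ = (b : ℤ) * ∑ s, f (γ⁻¹ • s) * (e s : ℚ) := by
              rw [rel_shift γ (fun s t => f s * (e t : ℚ))]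
          _ = 0 := by
              rw [h1, mul_zero]
      exact_mod_cast h2
  · rintro N g M e ⟨he, hdet, -⟩
    obtain ⟨l, hl0, hl⟩ := Matrix.exists_mulVec_eq_zero_iff.mpr hdet
    obtain ⟨s₁, hs₁⟩ := M.base
    obtain ⟨i, hi⟩ := Function.ne_iff.mp hl0
    refine ⟨he, fun s => (M.Φ s).mulVec l i, ?_, ?_, ?_⟩
    · intro h0
      have h1 := congrFun h0 s₁
      simp only [hs₁, Matrix.one_mulVec] at h1
      exact hi h1
    · intro s
      simp only [M.odd s, Matrix.neg_mulVec, Pi.neg_apply]
    · intro γ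
      have h1 : ∑ s, (M.Φ s).mulVec l i * e (γ • s)
          = ∑ s, (M.Φ (γ⁻¹ • s)).mulVec l i * e s :=
        rel_shift γ (fun s t => (M.Φ s).mulVec l i * e t)
      have h2 : ∑ s, (M.Φ (γ⁻¹ • s)).mulVec l i * e s
          = (M.R γ⁻¹ * ∑ s, e s • M.Φ s).mulVec l i := by
        rw [Finset.mul_sum, Matrix.sum_mulVec, Finset.sum_apply]
        apply Finset.sum_congr rfl
        intro s _
        rw [M.smul, Matrix.mul_smul, Matrix.smul_mulVec, Pi.smul_apply, smul_eq_mul, mul_comm]
      change ∑ s, (M.Φ s).mulVec l i * e (γ • s) = 0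
      rw [h1, h2, ← Matrix.mulVec_mulVec, hl, Matrix.mulVec_zero, Pi.zero_apply]

end Pool.Agent.Lib.MP_640417_ag.Sharp
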