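import Pool.Agent.Lib.MP_640417_ag.Sharp.SpecL

/-!
# The space attached to a quartic or sextic subfield
-/

set_option linter.unusedSectionVars false

namespace Pool.Agent.Lib.MP_640417_ag.Sharp

open Module Finset MulAction Pool.Agent.Lib.MP_640417_ag.Far Pool.Agent.Lib.MP_640417_ag.Full

section spDim

/-- A space of functions determined by the values at two points has dimension two. -/
private lemma spDim_two {S : Type} (V : Submodule ℚ (S → ℚ)) (s₁ s₂ : S)
    (hinj : ∀ f ∈ V, f s₁ = 0 → f s₂ = 0 → f = 0)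
    (hsurj : ∀ x y : ℚ, ∃ f ∈ V, f s₁ = x ∧ f s₂ = y) : finrank ℚ V = 2 := by
  let φ : V →ₗ[ℚ] ℚ × ℚ :=
    { toFun := fun f => (f.1 s₁, f.1 s₂)
      map_add' := fun f g => rfl
      map_smul' := fun c f => rfl }
  have hb : Function.Bijective φ := by
    constructor
    · rw [← LinearMap.ker_eq_bot, LinearMap.ker_eq_bot']
      intro f hf
      have h1 : f.1 s₁ = 0 := congrArg Prod.fst hf
      have h2 : f.1 s₂ = 0 := congrArg Prod.snd hf
      exact Subtype.ext (hinj f.1 f.2 h1 h2)
    · rintro ⟨x, y⟩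
      obtain ⟨f, hf, h1, h2⟩ := hsurj x y
      exact ⟨⟨f, hf⟩, Prod.ext h1 h2⟩
  rw [(LinearEquiv.ofBijective φ hb).finrank_eq]
  simp

variable {S G : Type} [Group G] [MulAction G S] [IsPretransitive G S]

/-- the coset of a point -/
private noncomputable def tau (s₀ : S) (H : Subgroup G) (s : S) : G ⧸ H :=
  ((exists_smul_eq G s₀ s).choose : G)

private lemma tau_spec (s₀ : S) (H : Subgroup G) (hst : stabilizer G s₀ ≤ H) (γ : G) :
    tau s₀ H (γ • s₀) = (γ : G ⧸ H) := by
  have h := (exists_smul_eq G s₀ (γ • s₀)).choose_spec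
  unfold tau
  rw [QuotientGroup.eq]
  apply hst
  rw [mem_stabilizer_iff, mul_smul, inv_smul_eq_iff, h]

private lemma tau_smul (s₀ : S) (H : Subgroup G) (hst : stabilizer G s₀ ≤ H) (γ : G) (s : S) :
    tau s₀ H (γ • s) = γ • tau s₀ H s := by
  obtain ⟨δ, rfl⟩ := exists_smul_eq G s₀ s
  rw [← mul_smul, tau_spec s₀ H hst, tau_spec s₀ H hst]
  rfl

/-- the odd function attached to a function on the quotient -/
private noncomputable def spf (s₀ : S) (z : G) (H : Subgroup G) (g : G ⧸ H → ℚ) (s : S) : ℚ :=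
  g (tau s₀ H s) - g (z • tau s₀ H s)

variable [Fintype S] [Finite G]

/-- the sum of a function which is constant on the fibres -/
private lemma tau_sum (s₀ : S) (H : Subgroup G) (hst : stabilizer G s₀ ≤ H) [Fintype (G ⧸ H)] :
    ∃ m : ℕ, 0 < m ∧ ∀ h : G ⧸ H → ℚ, ∑ s, h (tau s₀ H s) = m * ∑ t, h t := by
  classical
  refine ⟨(univ.filter (fun s => tau s₀ H s = ((1 : G) : G ⧸ H))).card, ?_, ?_⟩
  · refine Finset.card_pos.2 ⟨s₀, ?_⟩
    rw [Finset.mem_filter]
    refine ⟨Finset.mem_univ _, ?_⟩
    have := tau_spec s₀ H hst 1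
    rwa [one_smul] at this
  · intro h
    have hcard : ∀ t : G ⧸ H, (univ.filter (fun s => tau s₀ H s = t)).card =
        (univ.filter (fun s => tau s₀ H s = ((1 : G) : G ⧸ H))).card := by
      intro t
      obtain ⟨γ, rfl⟩ := QuotientGroup.mk_surjective t
      symm
      refine Finset.card_bij (fun s _ => γ • s) ?_ ?_ ?_
      · intro s hs
        rw [Finset.mem_filter] at hs ⊢
        refine ⟨Finset.mem_univ _, ?_⟩
        rw [tau_smul s₀ H hst, hs.2]
        change ((γ * 1 : G) : G ⧸ H) = _
        rw [mul_one]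
      · intro s _ s' _ hss
        exact smul_left_cancel γ hss
      · intro s hs
        rw [Finset.mem_filter] at hs
        refine ⟨γ⁻¹ • s, ?_, smul_inv_smul _ _⟩
        rw [Finset.mem_filter]
        refine ⟨Finset.mem_univ _, ?_⟩
        rw [tau_smul s₀ H hst, hs.2]
        change ((γ⁻¹ * γ : G) : G ⧸ H) = _
        rw [inv_mul_cancel]
    rw [← Finset.sum_fiberwise (s := univ) (g := fun s => tau s₀ H s), Finset.mul_sum]
    refine Finset.sum_congr rfl fun t _ => ?_
    rw [← hcard t, ← nsmul_eq_mul, ← Finset.sum_const]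
    refine Finset.sum_congr rfl fun s hs => ?_
    rw [Finset.mem_filter] at hs
    rw [hs.2]

variable {s₀ : S} {z : G} {H : Subgroup G}

/-- stability -/
private lemma sp_stab (hz : ∀ γ : G, γ * z = z * γ) : IsStab G (sp s₀ z H) := by
  classical
  rintro f ⟨h1, h2, h3⟩ δ
  refine ⟨fun s => ?_, fun γ γ' h => ?_, fun H' hH hi hzH => ?_⟩
  · change f (δ • z • s) = - f (δ • s)
    rw [← mul_smul, hz, mul_smul, h1]
  · change f (δ • γ • s₀) = f (δ • γ' • s₀)
    rw [← mul_smul, ← mul_smul]
    apply h2
    rw [mul_inv_rev, mul_assoc, inv_mul_cancel_left]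
    exact h
  · have key : ∀ ε ∈ H', ∑ s, (if ∃ γ ∈ H', s = γ • s₀ then f (ε • s) else 0) = 0 := by
      intro ε hε
      refine Eq.trans ?_ (h3 H' hH hi hzH)
      refine Fintype.sum_equiv (MulAction.toPerm ε) _ _ fun s => ?_
      have hiff : (∃ γ ∈ H', s = γ • s₀) ↔ ∃ γ ∈ H', (MulAction.toPerm ε) s = γ • s₀ := by
        constructor
        · rintro ⟨γ, hγ, rfl⟩
          exact ⟨ε * γ, H'.mul_mem hε hγ, by rw [mul_smul]; rfl⟩
        · rintro ⟨γ, hγ, h⟩
          refine ⟨ε⁻¹ * γ, H'.mul_mem (H'.inv_mem hε) hγ, ?_⟩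
          rw [mul_smul, ← h]
          exact (inv_smul_smul ε s).symm
      by_cases hc : ∃ γ ∈ H', s = γ • s₀
      · rw [if_pos hc, if_pos (hiff.1 hc)]
        rfl
      · rw [if_neg hc, if_neg (fun h => hc (hiff.2 h))]
    by_cases hδ : δ ∈ H'
    · exact key δ hδ
    · have h4 : z⁻¹ * δ ∈ H' := by
        rw [Subgroup.mul_mem_iff_of_index_two hi]
        exact ⟨fun h => absurd ((Subgroup.inv_mem_iff H').1 h) hzH, fun h => absurd h hδ⟩
      have h5 := key _ h4
      have h6 : ∀ s, f (δ • s) = - f ((z⁻¹ * δ) • s) := by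
        intro s
        rw [← h1, ← mul_smul, mul_inv_cancel_left]
      have h7 : ∑ s, (if ∃ γ ∈ H', s = γ • s₀ then f (δ • s) else 0) =
          - ∑ s, (if ∃ γ ∈ H', s = γ • s₀ then f ((z⁻¹ * δ) • s) else 0) := by
        rw [← Finset.sum_neg_distrib]
        refine Finset.sum_congr rfl fun s _ => ?_
        rw [h6 s]
        split_ifs
        · rfl
        · simp
      change ∑ s, (if ∃ γ ∈ H', s = γ • s₀ then f (δ • s) else 0) = 0
      rw [h7, h5, neg_zero]

/-- the facts on the action of `z` on the quotient -/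
private lemma z_facts (hz : ∀ γ : G, γ * z = z * γ) (hzz : ∀ s : S, z • z • s = s)
    (hst : stabilizer G s₀ ≤ H) (hzH : z ∉ H) :
    (∀ t : G ⧸ H, z • z • t = t) ∧ (∀ t : G ⧸ H, z • t ≠ t) := by
  constructor
  · intro t
    obtain ⟨γ, rfl⟩ := QuotientGroup.mk_surjective t
    change ((z * (z * γ) : G) : G ⧸ H) = (γ : G ⧸ H)
    rw [eq_comm, QuotientGroup.eq]
    have h1 : γ⁻¹ * (z * (z * γ)) = z * z := by
      rw [← hz γ, ← mul_assoc z γ z, ← hz γ, mul_assoc, inv_mul_cancel_left]
    rw [h1]
    apply hst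
    rw [mem_stabilizer_iff, mul_smul, hzz]
  · intro t
    obtain ⟨γ, rfl⟩ := QuotientGroup.mk_surjective t
    intro h
    change ((z * γ : G) : G ⧸ H) = (γ : G ⧸ H) at h
    rw [eq_comm, QuotientGroup.eq, ← hz γ, inv_mul_cancel_left] at h
    exact hzH h

private lemma spf_odd (hst : stabilizer G s₀ ≤ H) (hz2 : ∀ t : G ⧸ H, z • z • t = t)
    (g : G ⧸ H → ℚ) (s : S) : spf s₀ z H g (z • s) = - spf s₀ z H g s := by
  unfold spf
  rw [tau_smul s₀ H hst, hz2]
  ring

private lemma spf_coset (hst : stabilizer G s₀ ≤ H) (g : G ⧸ H → ℚ) (γ γ' : G)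
    (h : γ⁻¹ * γ' ∈ H) : spf s₀ z H g (γ • s₀) = spf s₀ z H g (γ' • s₀) := by
  unfold spf
  rw [tau_spec s₀ H hst, tau_spec s₀ H hst, QuotientGroup.eq.2 h]

/-- A function in `sp` which vanishes on a set of representatives is zero. -/
private lemma sp_zero (f : S → ℚ) (hf : f ∈ sp s₀ z H) (P : G ⧸ H → Prop)
    (hP : ∀ t : G ⧸ H, P t ∨ P (z • t))
    (h0 : ∀ γ : G, P (γ : G ⧸ H) → f (γ • s₀) = 0) : f = 0 := by
  funext s
  obtain ⟨γ, rfl⟩ := exists_smul_eq G s₀ s
  rcases hP (γ : G ⧸ H) with h | h
  · exact h0 γ h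
  · have h1 : f ((z * γ) • s₀) = 0 := h0 (z * γ) h
    rw [mul_smul, hf.1] at h1
    simpa using h1

end spDim

theorem pSpDim : StSpDim := by
  classical
  intro S G _ _ _ _ _ s₀ z hz hzz H hH
  refine ⟨sp_stab hz, fun f hf => hf.1, ?_⟩
  have : Fintype (G ⧸ H) := Fintype.ofFinite _
  rcases hH with ⟨hst, hzH, hind, hno⟩ | ⟨hst, hzH, hind, H', hHH', hH'2, hzH'⟩
  · -- quartic case
    obtain ⟨hz2, hz1⟩ := z_facts (s₀ := s₀) hz hzz hst hzH
    have hcard : Fintype.card (G ⧸ H) = 4 := by
      rw [← hind, Subgroup.index, Nat.card_eq_fintype_card]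
    -- the base point and a second coset
    set a : G ⧸ H := ((1 : G) : G ⧸ H) with ha
    obtain ⟨b, hb⟩ : ∃ b : G ⧸ H, b ∉ ({a, z • a} : Finset (G ⧸ H)) := by
      by_contra hcon
      push Not at hcon
      have h1 : (univ : Finset (G ⧸ H)) ⊆ {a, z • a} := fun t _ => hcon t
      have h2 := Finset.card_le_card h1
      rw [Finset.card_univ, hcard] at h2
      have h3 := Finset.card_le_two (a := a) (b := z • a)
      omega
    rw [Finset.mem_insert, Finset.mem_singleton, not_or] at hb
    obtain ⟨hba, hbza⟩ := hb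
    have hza := hz1 a
    have hzb := hz1 b
    have hzba : z • b ≠ a := fun h => hbza (by rw [← h, hz2])
    have hzbza : z • b ≠ z • a := fun h => hba (smul_left_cancel z h)
    have hall : ∀ t : G ⧸ H, t = a ∨ t = z • a ∨ t = b ∨ t = z • b := by
      have h1 : ({a, z • a, b, z • b} : Finset (G ⧸ H)) = univ := by
        apply Finset.eq_univ_of_card
        rw [hcard, Finset.card_insert_of_notMem, Finset.card_insert_of_notMem,
          Finset.card_pair hzb.symm]
        · simp only [Finset.mem_insert, Finset.mem_singleton, not_or]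
          exact ⟨Ne.symm hbza, Ne.symm hzbza⟩
        · simp only [Finset.mem_insert, Finset.mem_singleton, not_or]
          exact ⟨Ne.symm hza, Ne.symm hba, Ne.symm hzba⟩
      intro t
      have h2 : t ∈ ({a, z • a, b, z • b} : Finset (G ⧸ H)) := by rw [h1]; exact Finset.mem_univ _
      simpa only [Finset.mem_insert, Finset.mem_singleton] using h2
    have hmem : ∀ g : G ⧸ H → ℚ, spf s₀ z H g ∈ sp s₀ z H := fun g =>
      ⟨spf_odd hst hz2 g, spf_coset hst g, fun H'' h1 h2 h3 => absurd (hno H'' h1 h2) h3⟩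
    obtain ⟨β, hβ⟩ := QuotientGroup.mk_surjective b
    have hτ0 : tau s₀ H s₀ = a := by
      have := tau_spec s₀ H hst 1
      rwa [one_smul] at this
    constructor
    · refine spDim_two _ s₀ (β • s₀) ?_ ?_
      · intro f hf h1 h2
        refine sp_zero f hf (fun t => t = a ∨ t = b) ?_ ?_
        · intro t
          rcases hall t with h | h | h | h
          · exact Or.inl (Or.inl h)
          · exact Or.inr (Or.inl (by rw [h, hz2]))
          · exact Or.inl (Or.inr h)
          · exact Or.inr (Or.inr (by rw [h, hz2]))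
        · intro γ hγ
          rcases hγ with h | h
          · rw [ha, eq_comm, QuotientGroup.eq] at h
            rw [← hf.2.1 1 γ h, one_smul]
            exact h1
          · rw [← hβ] at h
            have h3 : β⁻¹ * γ ∈ H := QuotientGroup.eq.1 h.symm
            rw [← hf.2.1 β γ h3]
            exact h2
      · intro x y
        refine ⟨_, hmem (fun t => if t = a then x else if t = b then y else 0), ?_, ?_⟩
        · simp only [spf, hτ0]
          rw [if_pos trivial, if_neg hza, if_neg (Ne.symm hbza), sub_zero]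
        · simp only [spf, tau_spec s₀ H hst]
          rw [hβ, if_neg hba, if_pos rfl, if_neg hzba, if_neg hzb, sub_zero]
    · intro γ hγ
      have h1 := hγ _ (hmem (fun t => if t = a then 1 else 0))
      simp only [spf, hτ0, tau_spec s₀ H hst] at h1
      rw [if_pos trivial, if_neg hza] at h1
      by_contra hγH
      have h2 : (γ : G ⧸ H) ≠ a := by
        intro h
        rw [ha, eq_comm, QuotientGroup.eq] at h
        exact hγH (by simpa using h)
      rw [if_neg h2] at h1
      split_ifs at h1 <;> norm_num at h1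
  · -- sextic case
    obtain ⟨hz2, hz1⟩ := z_facts (s₀ := s₀) hz hzz hst hzH
    have hcard : Fintype.card (G ⧸ H) = 6 := by
      rw [← hind, Subgroup.index, Nat.card_eq_fintype_card]
    -- uniqueness of `H'`
    have huniq : ∀ H'' : Subgroup G, H ≤ H'' → H''.index = 2 → z ∉ H'' → H'' = H' := by
      intro H'' h1 h2 h3
      have : H''.Normal := Subgroup.normal_of_index_eq_two h2
      have e1 : (H' ⊓ H'').index ∣ 6 := by
        rw [← hind]
        exact Subgroup.index_dvd_of_le (le_inf hHH' h1)
      have e2 : (H' ⊓ H'').relIndex H' * H'.index = (H' ⊓ H'').index :=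
        Subgroup.relIndex_mul_index inf_le_left
      rw [Subgroup.inf_relIndex_left, hH'2] at e2
      have e3 : H''.relIndex H' ∣ 2 := by
        rw [← h2]
        exact Subgroup.relIndex_dvd_index_of_normal H'' H'
      have e4 : H''.relIndex H' = 1 := by
        rcases (Nat.dvd_prime Nat.prime_two).1 e3 with h | h
        · exact h
        · rw [h] at e2
          rw [← e2] at e1
          norm_num at e1
      have e5 : H' ≤ H'' := Subgroup.relIndex_eq_one.1 e4
      have e6 := Subgroup.relIndex_mul_index e5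
      rw [h2, hH'2] at e6
      have e7 : H'.relIndex H'' = 1 := by omega
      exact le_antisymm (Subgroup.relIndex_eq_one.1 e7) e5
    -- the cosets in `H'`
    let P : G ⧸ H → Prop := fun t => ∃ γ ∈ H', t = (γ : G ⧸ H)
    have hPiff : ∀ γ : G, P (γ : G ⧸ H) ↔ γ ∈ H' := by
      intro γ
      constructor
      · rintro ⟨δ, hδ, h⟩
        rw [eq_comm, QuotientGroup.eq] at h
        have h1 := H'.mul_mem hδ (hHH' h)
        rwa [mul_inv_cancel_left] at h1
      · intro h
        exact ⟨γ, h, rfl⟩
    have hPz : ∀ t : G ⧸ H, P (z • t) ↔ ¬ P t := by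
      intro t
      obtain ⟨γ, rfl⟩ := QuotientGroup.mk_surjective t
      have h1 : P (z • (γ : G ⧸ H)) ↔ z * γ ∈ H' := hPiff (z * γ)
      rw [h1, Subgroup.mul_mem_iff_of_index_two hH'2]
      constructor
      · intro h h2
        exact hzH' (h.2 ((hPiff γ).1 h2))
      · intro h
        exact ⟨fun h2 => absurd h2 hzH', fun h2 => absurd ((hPiff γ).2 h2) h⟩
    set T' : Finset (G ⧸ H) := univ.filter P with hT'
    have hmemT : ∀ t, t ∈ T' ↔ P t := fun t => by
      rw [hT', Finset.mem_filter]
      exact ⟨fun h => h.2, fun h => ⟨Finset.mem_univ _, h⟩⟩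
    have hT3 : T'.card = 3 := by
      have h1 : T'.card = (univ.filter (fun t => ¬ P t)).card := by
        refine Finset.card_bij (fun t _ => z • t) ?_ ?_ ?_
        · intro t ht
          rw [hmemT] at ht
          rw [Finset.mem_filter]
          exact ⟨Finset.mem_univ _, fun h => ((hPz t).1 h) ht⟩
        · intro t _ t' _ h
          exact smul_left_cancel z h
        · intro t ht
          rw [Finset.mem_filter] at ht
          exact ⟨z • t, (hmemT _).2 ((hPz t).2 ht.2), hz2 t⟩
      have h2 : T'.card + (univ.filter (fun t => ¬ P t)).card = 6 := by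
        rw [hT', Finset.card_filter_add_card_filter_not, Finset.card_univ, hcard]
      omega
    set a : G ⧸ H := ((1 : G) : G ⧸ H) with ha
    have haT : a ∈ T' := (hmemT a).2 ⟨1, H'.one_mem, rfl⟩
    obtain ⟨b, c, hbc, hbcT⟩ : ∃ b c, b ≠ c ∧ T'.erase a = {b, c} := by
      rw [← Finset.card_eq_two, Finset.card_erase_of_mem haT, hT3]
    have hTabc : T' = insert a {b, c} := by
      rw [← hbcT, Finset.insert_erase haT]
    have hab : a ≠ b := by
      intro h
      have : b ∈ T'.erase a := by rw [hbcT]; simp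
      exact (Finset.mem_erase.1 this).1 h.symm
    have hac : a ≠ c := by
      intro h
      have : c ∈ T'.erase a := by rw [hbcT]; simp
      exact (Finset.mem_erase.1 this).1 h.symm
    have hPabc : ∀ t, P t ↔ t = a ∨ t = b ∨ t = c := by
      intro t
      rw [← hmemT, hTabc]
      simp only [Finset.mem_insert, Finset.mem_singleton]
    have hsumT : ∀ F : G ⧸ H → ℚ, ∑ t ∈ T', F t = F a + F b + F c := by
      intro F
      rw [hTabc, Finset.sum_insert, Finset.sum_pair hbc, add_assoc]
      simp only [Finset.mem_insert, Finset.mem_singleton, not_or]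
      exact ⟨hab, hac⟩
    obtain ⟨m, hm, hsum⟩ := tau_sum s₀ H hst
    -- points over `T'`
    have hPt : ∀ s : S, (∃ γ ∈ H', s = γ • s₀) ↔ P (tau s₀ H s) := by
      intro s
      constructor
      · rintro ⟨γ, hγ, rfl⟩
        rw [tau_spec s₀ H hst]
        exact (hPiff γ).2 hγ
      · intro h
        obtain ⟨δ, rfl⟩ := exists_smul_eq G s₀ s
        rw [tau_spec s₀ H hst] at h
        exact ⟨δ, (hPiff δ).1 h, rfl⟩
    have hsumP : ∀ F : G ⧸ H → ℚ, ∑ s, (if ∃ γ ∈ H', s = γ • s₀ then F (tau s₀ H s) else 0) =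
        m * (F a + F b + F c) := by
      intro F
      have h1 : ∑ s, (if ∃ γ ∈ H', s = γ • s₀ then F (tau s₀ H s) else 0) =
          ∑ s, (fun t => if P t then F t else 0) (tau s₀ H s) := by
        refine Finset.sum_congr rfl fun s _ => ?_
        by_cases hc : ∃ γ ∈ H', s = γ • s₀
        · rw [if_pos hc]
          simp only
          rw [if_pos ((hPt s).1 hc)]
        · rw [if_neg hc]
          simp only
          rw [if_neg (fun h => hc ((hPt s).2 h))]
      rw [h1, hsum (fun t => if P t then F t else 0), ← hsumT F, hT', Finset.sum_filter]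
    have hmem : ∀ g : G ⧸ H → ℚ, (∀ t, ¬ P t → g t = 0) → g a + g b + g c = 0 →
        spf s₀ z H g ∈ sp s₀ z H := by
      intro g hg hg0
      refine ⟨spf_odd hst hz2 g, spf_coset hst g, fun H'' h1 h2 h3 => ?_⟩
      rw [huniq H'' h1 h2 h3]
      have h4 := hsumP (fun t => g t - g (z • t))
      have h5 : ∀ t, P t → g (z • t) = 0 := fun t ht => hg _ fun h => ((hPz t).1 h) ht
      rw [h5 a ((hPabc a).2 (Or.inl rfl)), h5 b ((hPabc b).2 (Or.inr (Or.inl rfl))),
        h5 c ((hPabc c).2 (Or.inr (Or.inr rfl))), sub_zero, sub_zero, sub_zero, hg0,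
        mul_zero] at h4
      exact h4
    have hPa : P a := (hPabc a).2 (Or.inl rfl)
    have hPb : P b := (hPabc b).2 (Or.inr (Or.inl rfl))
    have hPc : P c := (hPabc c).2 (Or.inr (Or.inr rfl))
    have hnz : ∀ t, P t → z • t ≠ a ∧ z • t ≠ b ∧ z • t ≠ c := by
      intro t ht
      have h1 : ¬ P (z • t) := fun h => ((hPz t).1 h) ht
      exact ⟨fun h => h1 (h ▸ hPa), fun h => h1 (h ▸ hPb), fun h => h1 (h ▸ hPc)⟩
    obtain ⟨β, hβ⟩ := QuotientGroup.mk_surjective b
    obtain ⟨κ, hκ⟩ := QuotientGroup.mk_surjective c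
    have hτ0 : tau s₀ H s₀ = a := by
      have := tau_spec s₀ H hst 1
      rwa [one_smul] at this
    let gg : ℚ → ℚ → G ⧸ H → ℚ := fun x y t =>
      if t = a then x else if t = b then y else if t = c then - x - y else 0
    have hgg : ∀ x y, spf s₀ z H (gg x y) ∈ sp s₀ z H := by
      intro x y
      refine hmem _ ?_ ?_
      · intro t ht
        rw [hPabc, not_or, not_or] at ht
        simp only [gg]
        rw [if_neg ht.1, if_neg ht.2.1, if_neg ht.2.2]
      · simp only [gg]
        rw [if_pos trivial, if_neg hab.symm, if_pos trivial, if_neg hac.symm, if_neg hbc.symm,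
          if_pos trivial]
        ring
    constructor
    · refine spDim_two _ s₀ (β • s₀) ?_ ?_
      · intro f hf h1 h2
        -- the third value
        have hfτ : ∀ s, f s = (fun t : G ⧸ H => f (t.out • s₀)) (tau s₀ H s) := by
          intro s
          obtain ⟨γ, rfl⟩ := exists_smul_eq G s₀ s
          simp only
          apply hf.2.1
          rw [tau_spec s₀ H hst, ← QuotientGroup.eq, QuotientGroup.out_eq']
        have h3 := hf.2.2 H' hHH' hH'2 hzH'
        have h4 := hsumP (fun t : G ⧸ H => f (t.out • s₀))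
        have h5 : ∑ s, (if ∃ γ ∈ H', s = γ • s₀ then f s else 0) =
            ∑ s, (if ∃ γ ∈ H', s = γ • s₀ then
              (fun t : G ⧸ H => f (t.out • s₀)) (tau s₀ H s) else 0) := by
          refine Finset.sum_congr rfl fun s _ => ?_
          rw [← hfτ s]
        rw [← h5, h3] at h4
        have ea : f (a.out • s₀) = 0 := by
          rw [← h1]
          have := hf.2.1 a.out 1 (by rw [← QuotientGroup.eq, QuotientGroup.out_eq'])
          rwa [one_smul] at this
        have eb : f (b.out • s₀) = 0 := by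
          rw [← h2]
          exact hf.2.1 b.out β (by rw [← QuotientGroup.eq, QuotientGroup.out_eq', hβ])
        have ec : f (c.out • s₀) = 0 := by
          rw [ea, eb, zero_add, zero_add] at h4
          rcases mul_eq_zero.1 h4.symm with h | h
          · exfalso
            have : m = 0 := by exact_mod_cast h
            omega
          · exact h
        refine sp_zero f hf P (fun t => ?_) ?_
        · by_cases h : P t
          · exact Or.inl h
          · exact Or.inr ((hPz t).2 h)
        · intro γ hγ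
          rw [hfτ, tau_spec s₀ H hst]
          simp only
          rcases (hPabc _).1 hγ with h | h | h
          · rw [h, ea]
          · rw [h, eb]
          · rw [h, ec]
      · intro x y
        refine ⟨_, hgg x y, ?_, ?_⟩
        · simp only [spf, hτ0, gg]
          obtain ⟨n1, n2, n3⟩ := hnz a hPa
          rw [if_pos trivial, if_neg n1, if_neg n2, if_neg n3, sub_zero]
        · simp only [spf, tau_spec s₀ H hst, gg]
          obtain ⟨n1, n2, n3⟩ := hnz b hPb
          rw [hβ, if_neg hab.symm, if_pos rfl, if_neg n1, if_neg n2, if_neg n3, sub_zero]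
    · intro γ hγ
      have h1 := hγ _ (hgg 2 (-1))
      simp only [spf, hτ0, tau_spec s₀ H hst, gg] at h1
      obtain ⟨n1, n2, n3⟩ := hnz a hPa
      rw [if_pos trivial, if_neg n1, if_neg n2, if_neg n3] at h1
      by_contra hγH
      have h2 : (γ : G ⧸ H) ≠ a := by
        intro h
        rw [ha, eq_comm, QuotientGroup.eq] at h
        exact hγH (by simpa using h)
      rw [if_neg h2] at h1
      split_ifs at h1 <;> norm_num at h1

end Pool.Agent.Lib.MP_640417_ag.Sharp
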