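import Pool.Agent.Lib.MP_640417_ag.Sharp.SpecL

/-!
# The probability of the event attached to a quartic or sextic subfield
-/

namespace Pool.Agent.Lib.MP_640417_ag.Sharp

open Module Finset MulAction Pool.Agent.Lib.MP_640417_ag.Far Pool.Agent.Lib.MP_640417_ag.Full

section quotient

variable {S G : Type} [Group G] [MulAction G S] [IsPretransitive G S]

/-- The map `γ • s₀ ↦ γ H`. -/
noncomputable def SpLow_tau (s₀ : S) (H : Subgroup G) (s : S) : G ⧸ H :=
  ((MulAction.exists_smul_eq G s₀ s).choose : G ⧸ H)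

private lemma SpLow_spec (s₀ : S) (H : Subgroup G) (s : S) :
    ∃ γ : G, γ • s₀ = s ∧ SpLow_tau s₀ H s = (γ : G ⧸ H) :=
  ⟨_, (MulAction.exists_smul_eq G s₀ s).choose_spec, rfl⟩

private lemma SpLow_smul {s₀ : S} {H : Subgroup G} (hst : stabilizer G s₀ ≤ H) (γ : G) :
    SpLow_tau s₀ H (γ • s₀) = (γ : G ⧸ H) := by
  obtain ⟨δ, h1, h2⟩ := SpLow_spec s₀ H (γ • s₀)
  rw [h2, QuotientGroup.eq]
  apply hst
  rw [mem_stabilizer_iff, mul_smul, ← h1, inv_smul_smul]

private lemma SpLow_act {s₀ : S} {H : Subgroup G} (hst : stabilizer G s₀ ≤ H) (γ : G) (s : S) :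
    SpLow_tau s₀ H (γ • s) = γ • SpLow_tau s₀ H s := by
  obtain ⟨δ, rfl, h2⟩ := SpLow_spec s₀ H s
  rw [h2, ← mul_smul, SpLow_smul hst]
  rfl

private lemma SpLow_fib [Fintype S] {s₀ : S} {H : Subgroup G} (hst : stabilizer G s₀ ≤ H)
    [DecidableEq (G ⧸ H)] (t : G ⧸ H) :
    (univ.filter (fun s => SpLow_tau s₀ H s = t)).card =
      (univ.filter (fun s => SpLow_tau s₀ H s = ((1 : G) : G ⧸ H))).card := by
  induction t using QuotientGroup.induction_on with
  | H γ =>
    symm
    apply Finset.card_bij (fun s _ => γ • s)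
    · intro s hs
      rw [mem_filter] at hs ⊢
      refine ⟨mem_univ _, ?_⟩
      rw [SpLow_act hst, hs.2]
      change ((γ * 1 : G) : G ⧸ H) = γ
      rw [mul_one]
    · intro s _ s' _ h
      exact smul_left_cancel γ h
    · intro s hs
      rw [mem_filter] at hs
      refine ⟨γ⁻¹ • s, ?_, smul_inv_smul γ s⟩
      rw [mem_filter]
      refine ⟨mem_univ _, ?_⟩
      rw [SpLow_act hst, hs.2]
      change ((γ⁻¹ * γ : G) : G ⧸ H) = _
      rw [inv_mul_cancel]

private lemma SpLow_card [Fintype S] {s₀ : S} {H : Subgroup G} (hst : stabilizer G s₀ ≤ H)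
    [Fintype (G ⧸ H)] [DecidableEq (G ⧸ H)] :
    Fintype.card S = Fintype.card (G ⧸ H) *
      (univ.filter (fun s => SpLow_tau s₀ H s = ((1 : G) : G ⧸ H))).card := by
  have h1 : Fintype.card S = ∑ t : G ⧸ H, (univ.filter (fun s => SpLow_tau s₀ H s = t)).card := by
    rw [← Finset.card_univ]
    exact Finset.card_eq_sum_card_fiberwise (fun s _ => by simp)
  rw [h1, Finset.sum_congr rfl (fun t _ => SpLow_fib hst t), Finset.sum_const, Finset.card_univ,
    smul_eq_mul]

/-- functions constant on the cosets come from functions on the quotient -/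
private lemma SpLow_const {s₀ : S} {H : Subgroup G} {f : S → ℚ}
    (hf : ∀ γ γ' : G, γ⁻¹ * γ' ∈ H → f (γ • s₀) = f (γ' • s₀)) :
    ∃ F : G ⧸ H → ℚ, ∀ s, f s = F (SpLow_tau s₀ H s) := by
  refine ⟨fun t => f (t.out • s₀), fun s => ?_⟩
  obtain ⟨δ, rfl, h2⟩ := SpLow_spec s₀ H s
  rw [h2]
  apply (hf _ _ _).symm
  rw [← QuotientGroup.eq]
  exact Quotient.out_eq' _

/-- sum over the fibres -/
private lemma SpLow_sum [Fintype S] {T : Type} [Fintype T] [DecidableEq T] (τ : S → T)
    (F : T → ℚ) (e : S → ℤ) (d : T → ℤ)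
    (hd : ∀ t, ∑ s ∈ univ.filter (fun s => τ s = t), e s = d t) :
    ∑ s, F (τ s) * (e s : ℚ) = ∑ t, F t * (d t : ℚ) := by
  rw [← Finset.sum_fiberwise univ τ]
  apply Finset.sum_congr rfl
  intro t _
  rw [← hd t]
  push_cast
  rw [Finset.mul_sum]
  apply Finset.sum_congr rfl
  intro s hs
  rw [(mem_filter.1 hs).2]

end quotient

/-- Sets of sign functions are finite. -/
private lemma SpLow_finite {S G : Type} [Fintype S] [Group G] [MulAction G S] (z : G)
    (A : Set (S → ℤ)) (hA : ∀ e ∈ A, IsSgn z e) : A.Finite := by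
  apply Set.Finite.subset (Set.Finite.pi' (fun _ : S => Set.toFinite ({1, -1} : Set ℤ)))
  intro e he s
  rcases (hA e he).1 s with h | h <;> simp [h]

/-- counting a disjoint union of `n` sets -/
private lemma SpLow_union {Ω : Type} (A : Set Ω) (hA : A.Finite) (n : ℕ) (B : ℕ → Set Ω)
    (hB : ∀ i < n, B i ⊆ A) (hd : ∀ i < n, ∀ j < n, i ≠ j → Disjoint (B i) (B j)) (x : ℝ)
    (hx : ∀ i < n, x ≤ ((B i).ncard : ℝ)) : n * x ≤ (A.ncard : ℝ) := by
  classical
  have hfin : ∀ i < n, (B i).Finite := fun i hi => hA.subset (hB i hi)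
  let Bf : ℕ → Finset Ω := fun i => if hi : i < n then (hfin i hi).toFinset else ∅
  have h1 : (Finset.range n).biUnion Bf ⊆ hA.toFinset := by
    intro e he
    obtain ⟨i, hi, he⟩ := Finset.mem_biUnion.1 he
    have hi' := Finset.mem_range.1 hi
    have h2 : Bf i = (hfin i hi').toFinset := dif_pos hi'
    rw [h2, Set.Finite.mem_toFinset] at he
    rw [Set.Finite.mem_toFinset]
    exact hB i hi' he
  have h2 : ((Finset.range n).biUnion Bf).card = ∑ i ∈ Finset.range n, (Bf i).card := by
    apply Finset.card_biUnion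
    intro i hi j hj hij
    have hi' := Finset.mem_range.1 hi
    have hj' := Finset.mem_range.1 hj
    have h3 : Bf i = (hfin i hi').toFinset := dif_pos hi'
    have h4 : Bf j = (hfin j hj').toFinset := dif_pos hj'
    change Disjoint (Bf i) (Bf j)
    rw [h3, h4, Set.Finite.disjoint_toFinset]
    exact hd i hi' j hj' hij
  have h3 := Finset.card_le_card h1
  rw [h2, ← Set.ncard_eq_toFinset_card A hA] at h3
  have h4 : (n : ℝ) * x ≤ ∑ i ∈ Finset.range n, ((Bf i).card : ℝ) := by
    have h5 : ∑ i ∈ Finset.range n, x = (n : ℝ) * x := by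
      rw [Finset.sum_const, Finset.card_range, nsmul_eq_mul]
    rw [← h5]
    apply Finset.sum_le_sum
    intro i hi
    have hi' := Finset.mem_range.1 hi
    have h6 : Bf i = (hfin i hi').toFinset := dif_pos hi'
    rw [h6, ← Set.ncard_eq_toFinset_card (B i) (hfin i hi')]
    exact hx i hi'
  calc (n : ℝ) * x ≤ ∑ i ∈ Finset.range n, ((Bf i).card : ℝ) := h4
    _ ≤ (A.ncard : ℝ) := by exact_mod_cast h3

theorem pSpLow (hFib : StFib) : StSpLow := by
  classical
  obtain ⟨c, hc, hF⟩ := hFib
  refine ⟨min (c ^ 2) (c ^ 3), by positivity, ?_⟩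
  intro S G _ _ _ _ _ s₀ z hz hzz g hg H hH
  have hst : stabilizer G s₀ ≤ H := by
    rcases hH with h | h
    · exact h.1.1
    · exact h.1
  have hzH : z ∉ H := by
    rcases hH with h | h
    · exact h.1.2.1
    · exact h.2.1
  have : Fintype (G ⧸ H) := Fintype.ofFinite _
  set m : ℕ := (univ.filter (fun s => SpLow_tau s₀ H s = ((1 : G) : G ⧸ H))).card with hm
  have hcard : Fintype.card S = Fintype.card (G ⧸ H) * m := SpLow_card hst
  have hindex : H.index = Fintype.card (G ⧸ H) := by
    rw [Subgroup.index, Nat.card_eq_fintype_card]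
  have hm1 : 1 ≤ m := by
    rw [hm]
    apply Finset.card_pos.2
    refine ⟨s₀, ?_⟩
    rw [mem_filter]
    refine ⟨mem_univ _, ?_⟩
    have := SpLow_smul hst (1 : G)
    rwa [one_smul] at this
  have hzz2 : z * z ∈ H := by
    apply hst
    rw [mem_stabilizer_iff, mul_smul]
    exact hzz s₀
  have hT1 : ∀ t : G ⧸ H, z • z • t = t := by
    intro t
    induction t using QuotientGroup.induction_on with
    | H γ =>
      change ((z * (z * γ) : G) : G ⧸ H) = γ
      rw [QuotientGroup.eq]
      have h0 : z * (z * γ) = γ * (z * z) := by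
        rw [← hz γ, ← mul_assoc, ← hz γ, mul_assoc]
      have h1 : (z * (z * γ))⁻¹ * γ = (z * z)⁻¹ := by
        rw [h0, mul_inv_rev, inv_mul_cancel_right]
      rw [h1]
      exact H.inv_mem hzz2
  have hT2 : ∀ t : G ⧸ H, z • t ≠ t := by
    intro t
    induction t using QuotientGroup.induction_on with
    | H γ =>
      intro h
      change ((z * γ : G) : G ⧸ H) = γ at h
      rw [QuotientGroup.eq] at h
      apply hzH
      have h1 : (z * γ)⁻¹ * γ = z⁻¹ := by
        rw [← hz γ]
        group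
      rw [h1] at h
      exact H.inv_mem_iff.1 h
  have hτz : ∀ s : S, SpLow_tau s₀ H (z • s) = z • SpLow_tau s₀ H s := fun s => SpLow_act hst z s
  have hfib : ∀ t : G ⧸ H, (univ.filter (fun s => SpLow_tau s₀ H s = t)).card = m :=
    fun t => SpLow_fib hst t
  have hfin : {e : S → ℤ | IsSgn z e ∧ Perp e (sp s₀ z H)}.Finite :=
    SpLow_finite z _ fun e he => he.1
  have hmr : (1 : ℝ) ≤ m := by exact_mod_cast hm1
  have hsq : Real.sqrt m ^ 2 = m := Real.sq_sqrt (by linarith)
  have hsq0 : 0 < Real.sqrt m := Real.sqrt_pos.2 (by linarith)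
  rcases hH with ⟨hq, h4⟩ | hs
  · -- quartic subfields
    have hT : Fintype.card (G ⧸ H) = 2 * 2 := by rw [← hindex]; exact hq.2.2.1
    have hgm : g = 2 * m := by
      rw [hT] at hcard
      omega
    have h1 := hF S G (G ⧸ H) z (fun t => z • t) (SpLow_tau s₀ H) m 2 g hzz hT1 hT2 hτz hfib hm1
      hT hg (fun _ => 0) (fun _ => by simp) (fun _ => by positivity) (fun _ => by omega)
    have h2 : {e : S → ℤ | IsSgn z e ∧
        ∀ t, ∑ s ∈ univ.filter (fun s => SpLow_tau s₀ H s = t), e s = 0} ⊆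
        {e : S → ℤ | IsSgn z e ∧ Perp e (sp s₀ z H)} := by
      rintro e ⟨he1, he2⟩
      refine ⟨he1, fun f hf => ?_⟩
      obtain ⟨F, hFf⟩ := SpLow_const hf.2.1
      simp only [hFf]
      rw [SpLow_sum (SpLow_tau s₀ H) F e (fun _ => 0) he2]
      simp
    have h3 := Set.ncard_le_ncard h2 hfin
    have h5 : min (c ^ 2) (c ^ 3) / g * 2 ^ g ≤ (c / Real.sqrt m) ^ 2 * 2 ^ g := by
      apply mul_le_mul_of_nonneg_right _ (by positivity)
      rw [div_pow, hsq, hgm]
      push_cast
      calc min (c ^ 2) (c ^ 3) / (2 * m) ≤ c ^ 2 / (2 * m) :=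
            div_le_div_of_nonneg_right (min_le_left _ _) (by positivity)
        _ ≤ c ^ 2 / m := div_le_div_of_nonneg_left (by positivity) (by linarith) (by linarith)
    calc min (c ^ 2) (c ^ 3) / g * 2 ^ g ≤ (c / Real.sqrt m) ^ 2 * 2 ^ g := h5
      _ ≤ _ := h1
      _ ≤ _ := by exact_mod_cast h3
  · -- sextic subfields
    obtain ⟨-, -, h6, H', hHH', hi', hzH'⟩ := hs
    have hT : Fintype.card (G ⧸ H) = 2 * 3 := by rw [← hindex]; exact h6
    have hgm : g = 3 * m := by
      rw [hT] at hcard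
      omega
    -- the character
    let χ : G ⧸ H → ℤ := fun t => if t.out ∈ H' then 1 else -1
    have hχ : ∀ γ : G, χ (γ : G ⧸ H) = if γ ∈ H' then 1 else -1 := by
      intro γ
      have h1 : ((γ : G ⧸ H).out)⁻¹ * γ ∈ H := by
        rw [← QuotientGroup.eq]
        exact Quotient.out_eq' _
      have h2 : (γ : G ⧸ H).out ∈ H' ↔ γ ∈ H' := by
        have h3 := hHH' h1
        rw [Subgroup.mul_mem_iff_of_index_two hi', H'.inv_mem_iff] at h3
        exact h3
      simp only [χ, h2]
    have hχz : ∀ t : G ⧸ H, χ (z • t) = - χ t := by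
      intro t
      induction t using QuotientGroup.induction_on with
      | H γ =>
        change χ ((z * γ : G) : G ⧸ H) = _
        rw [hχ, hχ]
        by_cases hγ : γ ∈ H'
        · have : z * γ ∉ H' := by
            rw [Subgroup.mul_mem_iff_of_index_two hi']
            tauto
          rw [if_neg this, if_pos hγ]
        · have : z * γ ∈ H' := by
            rw [Subgroup.mul_mem_iff_of_index_two hi']
            tauto
          rw [if_pos this, if_neg hγ]
          norm_num
    have hχ1 : ∀ t, χ t = 1 ∨ χ t = -1 := by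
      intro t
      simp only [χ]
      split_ifs <;> simp
    have hχ2 : ∀ t, χ t ^ 2 = 1 := by
      intro t
      rcases hχ1 t with h | h <;> rw [h] <;> norm_num
    have hχo : χ ((1 : G) : G ⧸ H) = 1 := by
      rw [hχ, if_pos H'.one_mem]
    -- orthogonality
    have horth : ∀ f ∈ sp s₀ z H, ∀ F : G ⧸ H → ℚ, (∀ s, f s = F (SpLow_tau s₀ H s)) →
        ∑ t, F t * (χ t : ℚ) = 0 := by
      intro f hf F hFf
      have h1 : ∑ s, f s = 0 := by
        have h2 : ∑ s, f (z • s) = ∑ s, f s :=
          Equiv.sum_comp (MulAction.toPerm z) f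
        have h3 : ∑ s, f (z • s) = - ∑ s, f s := by
          rw [← Finset.sum_neg_distrib]
          exact Finset.sum_congr rfl fun s _ => hf.1 s
        linarith
      have h2 := hf.2.2 H' hHH' hi' hzH'
      have h3 : ∀ s : S, (χ (SpLow_tau s₀ H s) : ℚ) * f s =
          2 * (if ∃ γ ∈ H', s = γ • s₀ then f s else 0) - f s := by
        intro s
        obtain ⟨δ, h4, h5⟩ := SpLow_spec s₀ H s
        rw [h5, hχ]
        have h6 : (∃ γ ∈ H', s = γ • s₀) ↔ δ ∈ H' := by
          constructor
          · rintro ⟨γ, hγ, hs⟩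
            have h7 : γ⁻¹ * δ ∈ H := by
              apply hst
              rw [mem_stabilizer_iff, mul_smul, h4, hs, inv_smul_smul]
            have h8 := H'.mul_mem hγ (hHH' h7)
            rwa [mul_inv_cancel_left] at h8
          · intro h
            exact ⟨δ, h, h4.symm⟩
        by_cases hδ : δ ∈ H'
        · rw [if_pos hδ, if_pos (h6.2 hδ)]
          push_cast
          ring
        · rw [if_neg hδ, if_neg (fun h => hδ (h6.1 h))]
          push_cast
          ring
      have h4 : ∑ s, (χ (SpLow_tau s₀ H s) : ℚ) * f s = 0 := by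
        rw [Finset.sum_congr rfl fun s _ => h3 s, Finset.sum_sub_distrib, ← Finset.mul_sum, h2, h1]
        ring
      have h5 : ∑ s, (χ (SpLow_tau s₀ H s) : ℚ) * f s = m * ∑ t, F t * (χ t : ℚ) := by
        rw [← Finset.sum_fiberwise univ (SpLow_tau s₀ H), Finset.mul_sum]
        apply Finset.sum_congr rfl
        intro t _
        have h6 : ∀ s ∈ univ.filter (fun s => SpLow_tau s₀ H s = t),
            (χ (SpLow_tau s₀ H s) : ℚ) * f s = (χ t : ℚ) * F t := by
          intro s hs
          rw [hFf s, (mem_filter.1 hs).2]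
        rw [Finset.sum_congr rfl h6, Finset.sum_const, hfib t, nsmul_eq_mul]
        ring
      rw [h4] at h5
      have h6 : (m : ℚ) ≠ 0 := by
        have : m ≠ 0 := by omega
        exact_mod_cast this
      rcases mul_eq_zero.1 h5.symm with h | h
      · exact absurd h h6
      · exact h
    -- the numbers `a`
    obtain ⟨r, hr1, hr2, hr3⟩ : ∃ r : ℕ, (2 : ℤ) ∣ m - r ∧ r ^ 2 ≤ m ∧
        Real.sqrt m / 2 ≤ (r + 1 : ℕ) := by
      have h1 : 1 ≤ Nat.sqrt m := Nat.le_sqrt.2 (by omega)
      have h2 : Nat.sqrt m ^ 2 ≤ m := Nat.sqrt_le' m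
      have h3 : Real.sqrt m ≤ Nat.sqrt m + 1 := by
        rw [Real.sqrt_le_left (by positivity)]
        have := Nat.lt_succ_sqrt' m
        have h4 : (m : ℝ) < ((Nat.sqrt m).succ ^ 2 : ℕ) := by exact_mod_cast this
        push_cast at h4
        linarith
      have h1r : (1 : ℝ) ≤ Nat.sqrt m := by exact_mod_cast h1
      by_cases hpar : (2 : ℤ) ∣ m - Nat.sqrt m
      · refine ⟨Nat.sqrt m, hpar, h2, ?_⟩
        push_cast
        linarith
      · refine ⟨Nat.sqrt m - 1, ?_, ?_, ?_⟩
        · omega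
        · calc (Nat.sqrt m - 1) ^ 2 ≤ Nat.sqrt m ^ 2 := Nat.pow_le_pow_left (by omega) 2
            _ ≤ m := h2
        · have h4 : Nat.sqrt m - 1 + 1 = Nat.sqrt m := by omega
          rw [h4]
          linarith
    let a : ℕ → ℤ := fun i => r - 2 * i
    let B : ℕ → Set (S → ℤ) := fun i => {e : S → ℤ | IsSgn z e ∧
        ∀ t, ∑ s ∈ univ.filter (fun s => SpLow_tau s₀ H s = t), e s = χ t * a i}
    have hB1 : ∀ i < r + 1, B i ⊆ {e : S → ℤ | IsSgn z e ∧ Perp e (sp s₀ z H)} := by
      rintro i hi e ⟨he1, he2⟩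
      refine ⟨he1, fun f hf => ?_⟩
      obtain ⟨F, hFf⟩ := SpLow_const hf.2.1
      have h1 := horth f hf F hFf
      simp only [hFf]
      rw [SpLow_sum (SpLow_tau s₀ H) F e (fun t => χ t * a i) he2]
      have h2 : ∑ t, F t * ((χ t * a i : ℤ) : ℚ) = (∑ t, F t * (χ t : ℚ)) * (a i : ℚ) := by
        rw [Finset.sum_mul]
        apply Finset.sum_congr rfl
        intro t _
        push_cast
        ring
      rw [h2, h1, zero_mul]
    have hB2 : ∀ i < r + 1, ∀ j < r + 1, i ≠ j → Disjoint (B i) (B j) := by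
      intro i hi j hj hij
      rw [Set.disjoint_left]
      rintro e ⟨-, he1⟩ ⟨-, he2⟩
      have h1 := (he1 ((1 : G) : G ⧸ H)).symm.trans (he2 ((1 : G) : G ⧸ H))
      rw [hχo, one_mul, one_mul] at h1
      simp only [a] at h1
      apply hij
      omega
    have hB3 : ∀ i < r + 1, (c / Real.sqrt m) ^ 3 * 2 ^ g ≤ ((B i).ncard : ℝ) := by
      intro i hi
      have ha : (a i) ^ 2 ≤ m := by
        have h1 : (a i) ^ 2 ≤ (r : ℤ) ^ 2 := by
          simp only [a]
          apply sq_le_sq'
          · omega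
          · omega
        have h2 : ((r ^ 2 : ℕ) : ℤ) ≤ m := by exact_mod_cast hr2
        push_cast at h2
        linarith
      have hap : (2 : ℤ) ∣ m - a i := by
        simp only [a]
        omega
      exact hF S G (G ⧸ H) z (fun t => z • t) (SpLow_tau s₀ H) m 3 g hzz hT1 hT2 hτz hfib hm1
        hT hg (fun t => χ t * a i) (fun t => by
          simp only [hχz t]
          ring) (fun t => by
          rw [mul_pow, hχ2 t, one_mul]
          exact ha) (fun t => by
          rcases hχ1 t with h | h <;> rw [h] <;> omega)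
    have h1 := SpLow_union _ hfin (r + 1) B hB1 hB2 _ hB3
    have h2 : min (c ^ 2) (c ^ 3) / g * 2 ^ g ≤
        ((r + 1 : ℕ) : ℝ) * ((c / Real.sqrt m) ^ 3 * 2 ^ g) := by
      rw [← mul_assoc]
      apply mul_le_mul_of_nonneg_right _ (by positivity)
      rw [div_pow, hgm]
      push_cast
      calc min (c ^ 2) (c ^ 3) / (3 * m) ≤ c ^ 3 / (3 * m) :=
            div_le_div_of_nonneg_right (min_le_right _ _) (by positivity)
        _ ≤ c ^ 3 / (2 * m) := div_le_div_of_nonneg_left (by positivity) (by linarith) (by linarith)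
        _ = (Real.sqrt m / 2) * (c ^ 3 / Real.sqrt m ^ 3) := by
          have h3 : Real.sqrt m ^ 3 = Real.sqrt m * m := by rw [pow_succ, hsq]; ring
          rw [h3]
          field_simp
        _ ≤ ((r : ℝ) + 1) * (c ^ 3 / Real.sqrt m ^ 3) := by
          apply mul_le_mul_of_nonneg_right _ (by positivity)
          push_cast at hr3
          exact hr3
    exact h2.trans h1

end Pool.Agent.Lib.MP_640417_ag.Sharp
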