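import Pool.Agent.Lib.MP_640417_ag.Sharp.SpecL

/-!
# Different subfields give independent spaces
-/

namespace Pool.Agent.Lib.MP_640417_ag.Sharp

open Module Finset MulAction Pool.Agent.Lib.MP_640417_ag.Far Pool.Agent.Lib.MP_640417_ag.Full

section

variable {S G : Type} [Fintype S] [Group G] [Finite G] [MulAction G S] [IsPretransitive G S]
  {s₀ : S} {z : G} {H : Subgroup G}

omit [Finite G] [IsPretransitive G S] in
/-- The functions of the space are constant on the cosets. -/
private theorem spSep_const {f : S → ℚ} (hf : f ∈ sp s₀ z H) {γ : G} (hγ : γ ∈ H) :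
    f (γ • s₀) = f s₀ := by
  have h1 := hf.2.1 γ 1 (by simpa using H.inv_mem hγ)
  rwa [one_smul] at h1

/-- A line in the space gives a contradiction. -/
private theorem spSep_line {f : S → ℚ} (hf : f ∈ sp s₀ z H) (hf0 : f ≠ 0) (c : G → ℚ)
    (hc : ∀ γ s, f (γ • s) = c γ * f s) : False := by
  have hs0 : f s₀ ≠ 0 := by
    intro h
    apply hf0
    funext s
    obtain ⟨γ, rfl⟩ := exists_smul_eq G s₀ s
    rw [hc, h, mul_zero]
    rfl
  have hmul : ∀ γ δ, c (γ * δ) = c γ * c δ := by
    intro γ δ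
    have h1 := hc (γ * δ) s₀
    rw [mul_smul, hc, hc, ← mul_assoc] at h1
    exact (mul_right_cancel₀ hs0 h1).symm
  have hone : c 1 = 1 := by
    have h1 := hc 1 s₀
    rw [one_smul] at h1
    have h2 : 1 * f s₀ = c 1 * f s₀ := by rw [one_mul]; exact h1
    exact (mul_right_cancel₀ hs0 h2).symm
  have hpow : ∀ γ (n : ℕ), c (γ ^ n) = c γ ^ n := by
    intro γ n
    induction n with
    | zero => rw [pow_zero, pow_zero, hone]
    | succ n ih => rw [pow_succ, pow_succ, hmul, ih]
  have hsgn : ∀ γ, c γ = 1 ∨ c γ = -1 := by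
    intro γ
    have h1 : c γ ^ Nat.card G = 1 := by
      rw [← hpow, pow_card_eq_one', hone]
    have h2 : |c γ| ^ Nat.card G = 1 := by rw [← abs_pow, h1, abs_one]
    have h3 : |c γ| = 1 := (pow_eq_one_iff_of_nonneg (abs_nonneg _) Nat.card_pos.ne').mp h2
    exact (abs_eq one_pos.le).mp h3
  let χ : G →* ℤˣ :=
    { toFun := fun γ => if c γ = 1 then 1 else -1
      map_one' := if_pos hone
      map_mul' := by
        intro γ δ
        rcases hsgn γ with h1 | h1 <;> rcases hsgn δ with h2 | h2 <;>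
          simp only [hmul, h1, h2] <;> norm_num }
  have hχ : ∀ γ, γ ∈ χ.ker ↔ c γ = 1 := by
    intro γ
    rw [MonoidHom.mem_ker]
    show (if c γ = 1 then (1 : ℤˣ) else -1) = 1 ↔ c γ = 1
    constructor
    · intro h
      by_contra hcon
      rw [if_neg hcon] at h
      exact absurd h (by decide)
    · intro h
      rw [if_pos h]
  have hz : c z = -1 := by
    have h1 := hc z s₀
    rw [hf.1 s₀] at h1
    have h2 : (-1) * f s₀ = c z * f s₀ := by rw [neg_one_mul]; exact h1
    exact (mul_right_cancel₀ hs0 h2).symm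
  have hzker : z ∉ χ.ker := by
    rw [hχ, hz]
    norm_num
  have hidx : χ.ker.index = 2 := by
    have hsurj : Function.Surjective χ := by
      intro u
      rcases Int.units_eq_one_or u with rfl | rfl
      · exact ⟨1, map_one χ⟩
      · refine ⟨z, ?_⟩
        show (if c z = 1 then (1 : ℤˣ) else -1) = -1
        rw [if_neg]
        rw [hz]
        norm_num
    rw [Subgroup.index_ker, MonoidHom.range_eq_top.mpr hsurj, Subgroup.card_top]
    simp
  have hle : H ≤ χ.ker := by
    intro γ hγ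
    rw [hχ]
    have h1 := hc γ s₀
    rw [spSep_const hf hγ] at h1
    have h2 : 1 * f s₀ = c γ * f s₀ := by rw [one_mul]; exact h1
    exact (mul_right_cancel₀ hs0 h2).symm
  have hsum := hf.2.2 χ.ker hle hidx hzker
  have hkey := congrArg (fun x => x * f s₀) hsum
  simp only [zero_mul] at hkey
  rw [Finset.sum_mul] at hkey
  classical
  have hnn : ∀ s ∈ (Finset.univ : Finset S),
      0 ≤ (if ∃ γ ∈ χ.ker, s = γ • s₀ then f s else 0) * f s₀ := by
    intro s _
    split_ifs with h
    · obtain ⟨γ, hγ, rfl⟩ := h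
      rw [hc, (hχ γ).mp hγ, one_mul]
      exact mul_self_nonneg _
    · rw [zero_mul]
  have h4 := (Finset.sum_eq_zero_iff_of_nonneg hnn).mp hkey s₀ (Finset.mem_univ _)
  rw [if_pos ⟨1, χ.ker.one_mem, (one_smul G s₀).symm⟩] at h4
  exact hs0 (mul_self_eq_zero.mp h4)

end

theorem pSpSep (hSpDim : StSpDim) : StSpSep := by
  intro S G _ _ _ _ _ s₀ z hz hz2 H H' hH hH' hne
  obtain ⟨hst, -, hfr, hlast⟩ := hSpDim S G s₀ z hz hz2 H hH
  obtain ⟨hst', -, hfr', hlast'⟩ := hSpDim S G s₀ z hz hz2 H' hH'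
  have hneq : sp s₀ z H ≠ sp s₀ z H' := by
    intro heq
    apply hne
    ext γ
    constructor
    · intro hγ
      apply hlast'
      intro f hf
      rw [← heq] at hf
      exact spSep_const hf hγ
    · intro hγ
      apply hlast
      intro f hf
      rw [heq] at hf
      exact spSep_const hf hγ
  by_contra hcon
  have hlt : sp s₀ z H ⊓ sp s₀ z H' < sp s₀ z H := by
    refine lt_of_le_of_ne inf_le_left ?_
    intro h
    apply hneq
    have hle : sp s₀ z H ≤ sp s₀ z H' := inf_eq_left.mp h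
    exact Submodule.eq_of_le_of_finrank_eq hle (by rw [hfr, hfr'])
  have hfl := Submodule.finrank_lt_finrank_of_lt hlt
  rw [hfr] at hfl
  have hpos : 1 ≤ finrank ℚ (sp s₀ z H ⊓ sp s₀ z H' : Submodule ℚ (S → ℚ)) :=
    Submodule.one_le_finrank_iff.mpr hcon
  have hone : finrank ℚ (sp s₀ z H ⊓ sp s₀ z H' : Submodule ℚ (S → ℚ)) = 1 := by omega
  obtain ⟨v, hv0, hv⟩ := finrank_eq_one_iff'.mp hone
  have hstI : ∀ γ : G, (fun s => v.1 (γ • s)) ∈ sp s₀ z H ⊓ sp s₀ z H' := fun γ =>
    ⟨hst v.1 v.2.1 γ, hst' v.1 v.2.2 γ⟩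
  choose c hc using fun γ : G => hv ⟨_, hstI γ⟩
  refine spSep_line (f := v.1) v.2.1 (fun h => hv0 (Subtype.ext h)) c ?_
  intro γ s
  have h1 := congrArg (fun w => w.1 s) (hc γ)
  exact h1.symm

end Pool.Agent.Lib.MP_640417_ag.Sharp
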