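import Pool.Agent.Lib.MP_640417_ag.Sharp.SpecU
import Pool.Agent.Lib.MP_640417_ag.Full.Coef
import Pool.Agent.Lib.MP_640417_ag.Full.Sing
import Pool.Agent.Lib.MP_640417_ag.FpMain

/-!
# Singular matrices of degree two, with the right power of the logarithm
-/

namespace Pool.Agent.Lib.MP_640417_ag.Sharp

open Module Finset MulAction Pool.Agent.Lib.MP_640417_ag.Far Pool.Agent.Lib.MP_640417_ag.Full

/-- The largest absolute value of an entry. -/
private def TwoLog_mx (B : Matrix (Fin 2) (Fin 2) ℤ) : ℤ :=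
  max (max |B 0 0| |B 0 1|) (max |B 1 0| |B 1 1|)

private lemma TwoLog_le_mx (B : Matrix (Fin 2) (Fin 2) ℤ) (i j : Fin 2) :
    |B i j| ≤ TwoLog_mx B := by
  unfold TwoLog_mx
  fin_cases i <;> fin_cases j
  · exact (le_max_left _ _).trans (le_max_left _ _)
  · exact (le_max_right _ _).trans (le_max_left _ _)
  · exact (le_max_left _ _).trans (le_max_right _ _)
  · exact (le_max_right _ _).trans (le_max_right _ _)

private lemma TwoLog_mx_eq (B : Matrix (Fin 2) (Fin 2) ℤ) : ∃ i j, |B i j| = TwoLog_mx B := by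
  unfold TwoLog_mx
  rcases max_choice (max |B 0 0| |B 0 1|) (max |B 1 0| |B 1 1|) with h | h
  · rw [h]
    rcases max_choice |B 0 0| |B 0 1| with h' | h'
    · exact ⟨0, 0, h'.symm⟩
    · exact ⟨0, 1, h'.symm⟩
  · rw [h]
    rcases max_choice |B 1 0| |B 1 1| with h' | h'
    · exact ⟨1, 0, h'.symm⟩
    · exact ⟨1, 1, h'.symm⟩

private lemma TwoLog_mx_nonneg (B : Matrix (Fin 2) (Fin 2) ℤ) : 0 ≤ TwoLog_mx B :=
  (abs_nonneg _).trans (TwoLog_le_mx B 0 0)

private lemma TwoLog_box (R : ℕ) :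
    {B : Matrix (Fin 2) (Fin 2) ℤ | (∀ i j, |B i j| ≤ R) ∧ B.det = 0}.Finite := by
  refine Set.Finite.subset (Finset.finite_toSet (Fintype.piFinset
    (fun _ : Fin 2 => Fintype.piFinset (fun _ : Fin 2 => Finset.Icc (-(R : ℤ)) R)))) ?_
  rintro B ⟨hB, -⟩
  rw [Finset.mem_coe, Fintype.mem_piFinset]
  intro i
  rw [Fintype.mem_piFinset]
  intro j
  rw [Finset.mem_Icc]
  exact abs_le.mp (hB i j)

private lemma TwoLog_fib {α β : Type} (A : Set α) (hA : A.Finite) (f : α → β) (V : Set β)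
    (hV : V.Finite) (hf : ∀ a ∈ A, f a ∈ V) (K : ℝ)
    (hK : ∀ v ∈ V, ({a | a ∈ A ∧ f a = v}.ncard : ℝ) ≤ K) :
    (A.ncard : ℝ) ≤ V.ncard * K := by
  classical
  have h1 := Finset.card_eq_sum_card_fiberwise (f := f) (s := hA.toFinset) (t := hV.toFinset)
    (by
      intro a ha
      have ha' : a ∈ A := by simpa using ha
      simpa using hf a ha')
  have h2 : A.ncard = hA.toFinset.card := Set.ncard_eq_toFinset_card A hA
  have h3 : V.ncard = hV.toFinset.card := Set.ncard_eq_toFinset_card V hV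
  rw [h2, h1, h3]
  push_cast
  calc ∑ b ∈ hV.toFinset, ((hA.toFinset.filter (fun a => f a = b)).card : ℝ)
      ≤ ∑ b ∈ hV.toFinset, K := by
        refine Finset.sum_le_sum fun b hb => ?_
        have hb' : b ∈ V := by simpa using hb
        refine le_trans (le_of_eq ?_) (hK b hb')
        rw [← Set.ncard_coe_finset]
        congr 2
        ext a
        simp
    _ = hV.toFinset.card * K := by rw [Finset.sum_const, nsmul_eq_mul]

private lemma TwoLog_split {α : Type} (A : Set α) (hA : A.Finite) (φ : α → ℕ) (J : ℕ)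
    (hφ : ∀ a ∈ A, φ a < J) (K : ℕ → ℝ)
    (hK : ∀ j, ({a | a ∈ A ∧ φ a = j}.ncard : ℝ) ≤ K j) :
    (A.ncard : ℝ) ≤ ∑ j ∈ Finset.range J, K j := by
  classical
  have h1 := Finset.card_eq_sum_card_fiberwise (f := φ) (s := hA.toFinset) (t := Finset.range J)
    (by
      intro a ha
      have ha' : a ∈ A := by simpa using ha
      simpa using hφ a ha')
  have h2 : A.ncard = hA.toFinset.card := Set.ncard_eq_toFinset_card A hA
  rw [h2, h1]
  push_cast
  refine Finset.sum_le_sum fun j _ => ?_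
  refine le_trans (le_of_eq ?_) (hK j)
  rw [← Set.ncard_coe_finset]
  congr 2
  ext a
  simp

private lemma TwoLog_summable {c : ℝ} (hc : 0 < c) :
    Summable (fun j : ℕ => ((j : ℝ) + 2) ^ 3 * Real.exp (-(c * (j : ℝ) ^ 2))) := by
  have hr : ‖Real.exp (-c)‖ < 1 := by
    rw [Real.norm_of_nonneg (Real.exp_pos _).le]
    rw [← Real.exp_zero]
    exact Real.exp_lt_exp.2 (by linarith)
  have h3 := summable_pow_mul_geometric_of_norm_lt_one 3 hr
  have h0 := summable_pow_mul_geometric_of_norm_lt_one 0 hr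
  have hs : Summable (fun j : ℕ => 4 * ((j : ℝ) ^ 3 * Real.exp (-c) ^ j) +
      32 * ((j : ℝ) ^ 0 * Real.exp (-c) ^ j)) := (h3.mul_left 4).add (h0.mul_left 32)
  refine Summable.of_nonneg_of_le (fun j => by positivity) (fun j => ?_) hs
  have hj : (0 : ℝ) ≤ j := Nat.cast_nonneg j
  have e1 : Real.exp (-(c * (j : ℝ) ^ 2)) ≤ Real.exp (-c) ^ j := by
    rw [← Real.exp_nat_mul]
    apply Real.exp_le_exp.mpr
    have h4 : (j : ℝ) ≤ (j : ℝ) ^ 2 := by
      rcases Nat.eq_zero_or_pos j with h | h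
      · subst h; simp
      · have : (1 : ℝ) ≤ j := by exact_mod_cast h
        nlinarith
    nlinarith
  have e2 : ((j : ℝ) + 2) ^ 3 ≤ 4 * (j : ℝ) ^ 3 + 32 := by
    nlinarith [mul_nonneg (by linarith : (0 : ℝ) ≤ (j : ℝ) + 2) (sq_nonneg ((j : ℝ) - 2))]
  calc ((j : ℝ) + 2) ^ 3 * Real.exp (-(c * (j : ℝ) ^ 2))
      ≤ (4 * (j : ℝ) ^ 3 + 32) * Real.exp (-c) ^ j := mul_le_mul e2 e1 (Real.exp_pos _).le (by positivity)
    _ = _ := by rw [pow_zero]; ring

private lemma TwoLog_num {C₂ g r : ℝ} (hC₂ : 0 < C₂) (hg : 1 ≤ g) (hr : r ^ 2 = g) (hr1 : 1 ≤ r)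
    (j : ℕ) (R : ℕ) (hR1 : 1 ≤ R) (hR : (R : ℝ) ≤ (j + 2) * r) :
    C₂ * (R : ℝ) ^ (2 ^ 2 - min 2 3) * (1 + Real.log R) ≤
      C₂ * (((j : ℝ) + 2) ^ 3 * g * (3 * Real.log (g + 1))) := by
  have hj : (0 : ℝ) ≤ j := Nat.cast_nonneg j
  have hR1' : (1 : ℝ) ≤ R := by exact_mod_cast hR1
  have hR0 : (0 : ℝ) < R := by linarith
  have e0 : (2 ^ 2 - min 2 3 : ℕ) = 2 := by norm_num
  rw [e0, mul_assoc]
  refine mul_le_mul_of_nonneg_left ?_ hC₂.le
  have h1 : (R : ℝ) ^ 2 ≤ ((j : ℝ) + 2) ^ 2 * g := by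
    calc (R : ℝ) ^ 2 ≤ (((j : ℝ) + 2) * r) ^ 2 := pow_le_pow_left₀ hR0.le hR 2
      _ = ((j : ℝ) + 2) ^ 2 * g := by rw [mul_pow, hr]
  have hl2 : (1 / 2 : ℝ) ≤ Real.log (g + 1) := by
    have h2 : Real.log 2 ≤ Real.log (g + 1) := Real.log_le_log (by norm_num) (by linarith)
    have h3 := Real.log_two_gt_d9
    linarith
  have h4 : Real.log R ≤ Real.log ((j : ℝ) + 2) + Real.log (g + 1) := by
    have hrg : r ≤ g + 1 := by nlinarith
    calc Real.log R ≤ Real.log (((j : ℝ) + 2) * r) := Real.log_le_log hR0 hR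
      _ = Real.log ((j : ℝ) + 2) + Real.log r := Real.log_mul (by linarith) (by linarith)
      _ ≤ _ := by
        have := Real.log_le_log (by linarith) hrg
        linarith
  have h5 : Real.log ((j : ℝ) + 2) ≤ (j : ℝ) + 2 - 1 := Real.log_le_sub_one_of_pos (by linarith)
  have h6 : 1 + Real.log R ≤ ((j : ℝ) + 2) * (3 * Real.log (g + 1)) := by
    have h7 : 1 + Real.log R ≤ ((j : ℝ) + 2) + Real.log (g + 1) := by linarith
    nlinarith
  have h8 : 0 ≤ 1 + Real.log R := by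
    have := Real.log_nonneg hR1'
    linarith
  calc (R : ℝ) ^ 2 * (1 + Real.log R)
      ≤ (((j : ℝ) + 2) ^ 2 * g) * (((j : ℝ) + 2) * (3 * Real.log (g + 1))) :=
        mul_le_mul h1 h6 h8 (by positivity)
    _ = _ := by ring

/-- Singular matrices of degree `2`, with the right power of the logarithm. -/
theorem pTwoLog (hTwoTail : StTwoTail) : StTwoLog := by
  classical
  obtain ⟨C₁, c, hC₁, hc, hT⟩ := hTwoTail
  obtain ⟨C₂, hC₂, hS⟩ := pSing 2 le_rfl
  set T : ℝ := ∑' j : ℕ, ((j : ℝ) + 2) ^ 3 * Real.exp (-(c * (j : ℝ) ^ 2)) with hTdef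
  have hT0 : 0 ≤ T := tsum_nonneg fun j => by positivity
  refine ⟨3 * C₁ * C₂ * T + 1, by positivity, ?_⟩
  intro S G _ _ _ _ _ z hzz X hX hX1 N M hN
  obtain ⟨P, hP, -, hPb⟩ := pCoef S G z 2 N M hN (by norm_num)
  have hPb' : ∀ s i j, |(P.adjugate * M.Φ s * P) i j| ≤ 256 := by
    intro s i j
    have := hPb s i j
    norm_num at this
    exact this
  set B : (S → ℤ) → Matrix (Fin 2) (Fin 2) ℤ :=
    fun e => ∑ s, e s • (P.adjugate * M.Φ s * P) with hB
  have hBeq : ∀ e, B e = P.adjugate * (∑ s, e s • M.Φ s) * P := by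
    intro e
    rw [hB, Finset.mul_sum, Finset.sum_mul]
    refine Finset.sum_congr rfl fun s _ => ?_
    rw [mul_smul_comm, smul_mul_assoc]
  have hdet : ∀ e ∈ M.sing, (B e).det = 0 := by
    rintro e ⟨-, v, hv, hMv⟩
    rw [hBeq, Matrix.det_mul, Matrix.det_mul,
      Matrix.exists_mulVec_eq_zero_iff.mp ⟨v, hv, hMv⟩, mul_zero, zero_mul]
  have hbound : ∀ e, IsSgn z e → ∀ i j, |B e i j| ≤ 256 * Fintype.card S := by
    intro e he i j
    have h1 : B e i j = ∑ s, e s * (P.adjugate * M.Φ s * P) i j := by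
      rw [hB]
      simp only [Matrix.sum_apply, Matrix.smul_apply, smul_eq_mul]
    rw [h1]
    refine (Finset.abs_sum_le_sum_abs _ _).trans ?_
    calc ∑ s, |e s * (P.adjugate * M.Φ s * P) i j| ≤ ∑ _s : S, (256 : ℤ) := by
          refine Finset.sum_le_sum fun s _ => ?_
          rw [abs_mul]
          have h2 : |e s| = 1 := by
            rcases he.1 s with h | h <;> rw [h] <;> simp
          rw [h2, one_mul]
          exact hPb' s i j
      _ = 256 * Fintype.card S := by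
          rw [Finset.sum_const, Finset.card_univ, nsmul_eq_mul, mul_comm]
  set g : ℝ := (X.card : ℝ) with hgdef
  have hg : 1 ≤ g := by rw [hgdef]; exact_mod_cast hX1
  set r : ℝ := √g with hrdef
  have hr2 : r ^ 2 = g := Real.sq_sqrt (by linarith)
  have hr1 : 1 ≤ r := by
    rw [hrdef]
    exact Real.one_le_sqrt.mpr hg
  have hr0 : 0 < r := by linarith
  have hfinS : M.sing.Finite := finite_isSgn z _
  set φ : (S → ℤ) → ℕ := fun e => ⌊((TwoLog_mx (B e) : ℤ) : ℝ) / r⌋₊ with hφ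
  have hmx0 : ∀ e, 0 ≤ ((TwoLog_mx (B e) : ℤ) : ℝ) := fun e => by
    exact_mod_cast TwoLog_mx_nonneg (B e)
  have hφlt : ∀ e ∈ M.sing, φ e < 256 * Fintype.card S + 1 := by
    intro e he
    obtain ⟨i, j, hij⟩ := TwoLog_mx_eq (B e)
    have h1 : TwoLog_mx (B e) ≤ 256 * Fintype.card S := by
      rw [← hij]
      exact hbound e he.1 i j
    have h2 : ((TwoLog_mx (B e) : ℤ) : ℝ) ≤ ((256 * Fintype.card S : ℕ) : ℝ) := by
      exact_mod_cast h1
    have h3 : ((TwoLog_mx (B e) : ℤ) : ℝ) / r ≤ ((256 * Fintype.card S : ℕ) : ℝ) :=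
      (div_le_self (hmx0 e) hr1).trans h2
    have h4 : φ e ≤ 256 * Fintype.card S := by
      rw [hφ]
      exact Nat.floor_le_of_le h3
    omega
  set L : ℝ := 3 * C₁ * C₂ * (Real.log (g + 1) / g) * 2 ^ X.card with hL
  have hlog0 : 0 ≤ Real.log (g + 1) := Real.log_nonneg (by linarith)
  have hL0 : 0 ≤ L := by positivity
  have hmain := TwoLog_split M.sing hfinS φ (256 * Fintype.card S + 1) hφlt
    (fun j => L * (((j : ℝ) + 2) ^ 3 * Real.exp (-(c * (j : ℝ) ^ 2)))) (by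
    intro j
    set R : ℕ := ⌈((j : ℝ) + 1) * r⌉₊ with hR
    have hj : (0 : ℝ) ≤ j := Nat.cast_nonneg j
    have hRpos : 0 < ((j : ℝ) + 1) * r := by positivity
    have hR1 : 1 ≤ R := Nat.one_le_iff_ne_zero.mpr (Nat.pos_iff_ne_zero.mp (Nat.ceil_pos.mpr hRpos))
    have hRle : ((j : ℝ) + 1) * r ≤ R := Nat.le_ceil _
    have hRlt : (R : ℝ) ≤ ((j : ℝ) + 2) * r := by
      have h1 : (R : ℝ) < ((j : ℝ) + 1) * r + 1 := Nat.ceil_lt_add_one hRpos.le
      nlinarith
    set V : Set (Matrix (Fin 2) (Fin 2) ℤ) := {B | (∀ i j, |B i j| ≤ R) ∧ B.det = 0} with hV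
    have hVfin : V.Finite := TwoLog_box R
    set K' : ℝ := C₁ * g ^ (-2 : ℝ) * Real.exp (-(c * ((j : ℝ) * r) ^ 2 / g)) * 2 ^ X.card
      with hK'
    have hK'0 : 0 ≤ K' := by positivity
    have hAfin : {e | e ∈ M.sing ∧ φ e = j}.Finite := hfinS.subset fun e he => he.1
    have hfl : ∀ e, φ e = j → (j : ℝ) * r ≤ ((TwoLog_mx (B e) : ℤ) : ℝ) ∧
        ((TwoLog_mx (B e) : ℤ) : ℝ) < ((j : ℝ) + 1) * r := by
      intro e he
      have h1 : 0 ≤ ((TwoLog_mx (B e) : ℤ) : ℝ) / r := div_nonneg (hmx0 e) hr0.le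
      have h2 := (Nat.floor_eq_iff h1).mp he
      exact ⟨(le_div_iff₀ hr0).mp h2.1, (div_lt_iff₀ hr0).mp h2.2⟩
    have hfib := TwoLog_fib {e | e ∈ M.sing ∧ φ e = j} hAfin B V hVfin (by
      rintro e ⟨he, hej⟩
      refine ⟨fun i k => ?_, hdet e he⟩
      have h1 := (hfl e hej).2
      have h2 : ((TwoLog_mx (B e) : ℤ) : ℝ) ≤ (R : ℝ) := h1.le.trans hRle
      have h3 : TwoLog_mx (B e) ≤ (R : ℤ) := by exact_mod_cast h2
      exact (TwoLog_le_mx (B e) i k).trans h3) K' (by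
      intro v _
      rcases Set.eq_empty_or_nonempty {a | a ∈ {e | e ∈ M.sing ∧ φ e = j} ∧ B a = v} with h0 | h0
      · rw [h0, Set.ncard_empty, Nat.cast_zero]
        exact hK'0
      · obtain ⟨e₀, ⟨_, he₀⟩, hBe₀⟩ := h0
        have h1 := (hfl e₀ he₀).1
        obtain ⟨i, k, hik⟩ := TwoLog_mx_eq (B e₀)
        have h2 : ∃ i k, (j : ℝ) * r ≤ |((v i k : ℤ) : ℝ)| := by
          refine ⟨i, k, ?_⟩
          rw [← hBe₀, ← Int.cast_abs, hik]
          exact h1
        have h3 := hT S G z hzz X hX hX1 N M hN P hP hPb' ((j : ℝ) * r) v (by positivity) h2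
        refine le_trans ?_ h3
        have h4 : {a | a ∈ {e | e ∈ M.sing ∧ φ e = j} ∧ B a = v} ⊆
            {e : S → ℤ | IsSgn z e ∧ ∑ s, e s • (P.adjugate * M.Φ s * P) = v} := by
          rintro e ⟨⟨he, _⟩, heB⟩
          exact ⟨he.1, heB⟩
        exact_mod_cast Set.ncard_le_ncard h4 (finite_isSgn z _))
    have hVn : (V.ncard : ℝ) ≤ C₂ * (((j : ℝ) + 2) ^ 3 * g * (3 * Real.log (g + 1))) :=
      (hS R hR1).trans (TwoLog_num hC₂ hg hr2 hr1 j R hR1 hRlt)
    refine hfib.trans ((mul_le_mul_of_nonneg_right hVn hK'0).trans (le_of_eq ?_))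
    have hg0 : g ≠ 0 := by linarith
    have e1 : c * ((j : ℝ) * r) ^ 2 / g = c * (j : ℝ) ^ 2 := by
      rw [mul_pow, hr2]
      field_simp
    have e2 : g ^ (-2 : ℝ) = (g ^ 2)⁻¹ := by
      rw [Real.rpow_neg (by linarith)]
      norm_num
    rw [hK', e1, e2, hL]
    field_simp)
  refine hmain.trans ?_
  rw [← Finset.mul_sum]
  have hsum : ∑ j ∈ Finset.range (256 * Fintype.card S + 1),
      ((j : ℝ) + 2) ^ 3 * Real.exp (-(c * (j : ℝ) ^ 2)) ≤ T :=
    (TwoLog_summable hc).sum_le_tsum _ fun j _ => by positivity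
  have hfin : 0 ≤ Real.log (g + 1) / g * 2 ^ X.card := by positivity
  calc L * ∑ j ∈ Finset.range (256 * Fintype.card S + 1),
        ((j : ℝ) + 2) ^ 3 * Real.exp (-(c * (j : ℝ) ^ 2)) ≤ L * T :=
        mul_le_mul_of_nonneg_left hsum hL0
    _ = (3 * C₁ * C₂ * T) * (Real.log (g + 1) / g * 2 ^ X.card) := by rw [hL]; ring
    _ ≤ (3 * C₁ * C₂ * T + 1) * (Real.log (g + 1) / g * 2 ^ X.card) :=
        mul_le_mul_of_nonneg_right (by linarith) hfin
    _ = (3 * C₁ * C₂ * T + 1) * (Real.log (g + 1) / g) * 2 ^ X.card := by ring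

end Pool.Agent.Lib.MP_640417_ag.Sharp
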