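import Pool.Agent.Lib.MP_640417_ag.Sharp.SpecU
import Pool.Agent.Lib.MP_640417_ag.Full.Tail

/-!
# The probability of a single large value, matrices of degree `2`
-/

set_option autoImplicit false

namespace Pool.Agent.Lib.MP_640417_ag.Sharp

open Module Finset MulAction Pool.Agent.Lib.MP_640417_ag.Far Pool.Agent.Lib.MP_640417_ag.Full

private lemma twoTail_central (n : ℕ) : (2 * n + 1) * (n.centralBinom) ^ 2 ≤ 16 ^ n := by
  induction n with
  | zero => simp
  | succ n ih =>
    have h1 := Nat.succ_mul_centralBinom_succ n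
    have h2 : (2 * (n + 1) + 1) * ((n + 1).centralBinom) ^ 2 * (n + 1) ^ 2
        ≤ 16 ^ (n + 1) * (n + 1) ^ 2 := by
      calc (2 * (n + 1) + 1) * ((n + 1).centralBinom) ^ 2 * (n + 1) ^ 2
          = (2 * n + 3) * ((n + 1) * (n + 1).centralBinom) ^ 2 := by ring
        _ = (2 * n + 3) * (2 * (2 * n + 1) * n.centralBinom) ^ 2 := by rw [h1]
        _ = 4 * (2 * n + 3) * (2 * n + 1) * ((2 * n + 1) * n.centralBinom ^ 2) := by ring
        _ ≤ 4 * (2 * n + 3) * (2 * n + 1) * 16 ^ n := Nat.mul_le_mul_left _ ih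
        _ ≤ (16 * (n + 1) ^ 2) * 16 ^ n := by
            apply Nat.mul_le_mul_right
            nlinarith
        _ = _ := by ring
    exact Nat.le_of_mul_le_mul_right h2 (by positivity)

private lemma twoTail_choose (m : ℕ) : m * (m.choose (m / 2)) ^ 2 ≤ 4 ^ m := by
  have key : (m + 1) * (m.choose (m / 2)) ^ 2 ≤ 4 ^ m := by
    rcases Nat.even_or_odd' m with ⟨n, rfl | rfl⟩
    · have h1 := twoTail_central n
      have h2 : (2 * n) / 2 = n := by omega
      rw [h2, ← Nat.centralBinom_eq_two_mul_choose, pow_mul]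
      norm_num
      exact h1
    · have h1 := twoTail_central (n + 1)
      have h2 : (2 * n + 1) / 2 = n := by omega
      rw [h2]
      have h3 : (n + 1).centralBinom = 2 * (2 * n + 1).choose n := by
        rw [Nat.centralBinom_eq_two_mul_choose]
        have h4 : 2 * (n + 1) = (2 * n + 1) + 1 := by ring
        rw [h4, Nat.choose_succ_succ]
        have h5 : (2 * n + 1).choose (n + 1) = (2 * n + 1).choose n := by
          rw [← Nat.choose_symm_of_eq_add (a := n + 1) (b := n) (by ring)]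
        rw [h5]; ring
      rw [h3] at h1
      have h6 : 4 ^ (2 * n + 1) * 4 = 16 ^ (n + 1) := by
        rw [← pow_succ, show 2 * n + 1 + 1 = 2 * (n + 1) by ring, pow_mul]; norm_num
      nlinarith
  refine le_trans ?_ key
  exact Nat.mul_le_mul_right _ (Nat.le_succ m)

/-- The number of subsets of `⋃ D k` with a given sum. -/
private lemma twoTail_count {S V κ : Type} [DecidableEq S] [AddCommGroup V] [DecidableEq V]
    [Fintype κ] [DecidableEq κ] (Ψ : S → V) (D : κ → Finset S) (v : κ → V) (d : ℕ)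
    (hd : ∀ k, (D k).card = d) (hdis : ∀ k l, k ≠ l → Disjoint (D k) (D l))
    (hΨ : ∀ k, ∀ x ∈ D k, Ψ x = v k)
    (hind : ∀ n n' : κ → ℕ, (∀ k, n k ≤ d) → (∀ k, n' k ≤ d) →
      ∑ k, n k • v k = ∑ k, n' k • v k → n = n') (b : V) :
    ((univ.biUnion D).powerset.filter fun W => ∑ x ∈ W, Ψ x = b).card
      ≤ (d.choose (d / 2)) ^ Fintype.card κ := by
  classical
  set A := (univ.biUnion D).powerset.filter fun W => ∑ x ∈ W, Ψ x = b with hA
  rcases A.eq_empty_or_nonempty with hAe | ⟨W₀, hW₀⟩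
  · rw [hAe, Finset.card_empty]
    exact Nat.zero_le _
  have hdec : ∀ W ⊆ univ.biUnion D, W = univ.biUnion fun k => W ∩ D k := by
    intro W hW
    ext x
    simp only [Finset.mem_biUnion, Finset.mem_univ, true_and, Finset.mem_inter]
    constructor
    · intro hx
      obtain ⟨k, _, hk⟩ := Finset.mem_biUnion.mp (hW hx)
      exact ⟨k, hx, hk⟩
    · rintro ⟨k, hx, _⟩
      exact hx
  have hsum : ∀ W ⊆ univ.biUnion D, ∑ x ∈ W, Ψ x = ∑ k, (W ∩ D k).card • v k := by
    intro W hW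
    conv_lhs => rw [hdec W hW]
    rw [Finset.sum_biUnion]
    · refine Finset.sum_congr rfl fun k _ => ?_
      rw [Finset.sum_congr rfl fun x hx => hΨ k x (Finset.mem_inter.mp hx).2, Finset.sum_const]
    · intro k _ l _ hkl
      exact (hdis k l hkl).mono Finset.inter_subset_right Finset.inter_subset_right
  have hle : ∀ (W : Finset S) (k : κ), (W ∩ D k).card ≤ d := fun W k =>
    (Finset.card_le_card Finset.inter_subset_right).trans_eq (hd k)
  have hW₀' := Finset.mem_filter.mp hW₀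
  have hcard : ∀ W ∈ A, ∀ k, (W ∩ D k).card = (W₀ ∩ D k).card := by
    intro W hW k
    have hW' := Finset.mem_filter.mp hW
    have h1 := hind (fun k => (W ∩ D k).card) (fun k => (W₀ ∩ D k).card) (hle W) (hle W₀) (by
      rw [← hsum W (Finset.mem_powerset.mp hW'.1), ← hsum W₀ (Finset.mem_powerset.mp hW₀'.1),
        hW'.2, hW₀'.2])
    exact congrFun h1 k
  calc A.card ≤ (Fintype.piFinset fun k => (D k).powersetCard (W₀ ∩ D k).card).card := by
        refine Finset.card_le_card_of_injOn (fun W k => W ∩ D k) ?_ ?_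
        · intro W hW
          rw [Finset.mem_coe, Fintype.mem_piFinset]
          intro k
          rw [Finset.mem_powersetCard]
          exact ⟨Finset.inter_subset_right, hcard W hW k⟩
        · intro W hW W' hW' h
          have hW1 := Finset.mem_powerset.mp (Finset.mem_filter.mp hW).1
          have hW2 := Finset.mem_powerset.mp (Finset.mem_filter.mp hW').1
          rw [hdec W hW1, hdec W' hW2]
          simp only at h
          rw [h]
    _ = ∏ k, d.choose (W₀ ∩ D k).card := by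
        rw [Fintype.card_piFinset]
        refine Finset.prod_congr rfl fun k _ => ?_
        rw [Finset.card_powersetCard, hd]
    _ ≤ ∏ _k : κ, d.choose (d / 2) :=
        Finset.prod_le_prod' fun k _ => Nat.choose_le_middle _ _
    _ = (d.choose (d / 2)) ^ Fintype.card κ := by
        rw [Finset.prod_const, Finset.card_univ]

/-- Resampling of `Y ∩ D`. -/
private lemma twoTail_resample {S V : Type} [DecidableEq S] [AddCommGroup V] [DecidableEq V]
    (Ψ : S → V) (X D : Finset S) (hDX : D ⊆ X) (q : Finset S → Prop) [DecidablePred q]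
    (hq : ∀ Y ⊆ X, q (Y \ D) ↔ q Y) (K : ℕ)
    (hK : ∀ b : V, (D.powerset.filter fun W => ∑ x ∈ W, Ψ x = b).card ≤ K) (b : V) :
    (X.powerset.filter fun Y => ∑ x ∈ Y, Ψ x = b ∧ q Y).card * 2 ^ D.card
      ≤ K * (X.powerset.filter fun Y => q Y).card := by
  set T := (X \ D).powerset.filter fun Z => q Z with hT
  have h1 : (X.powerset.filter fun Y => ∑ x ∈ Y, Ψ x = b ∧ q Y).card ≤ K * T.card := by
    refine Finset.card_le_mul_card_image_of_maps_to (f := fun Y => Y \ D) ?_ K ?_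
    · intro Y hY
      rw [Finset.mem_filter, Finset.mem_powerset] at hY
      rw [hT, Finset.mem_filter, Finset.mem_powerset]
      exact ⟨Finset.sdiff_subset_sdiff hY.1 le_rfl, (hq Y hY.1).mpr hY.2.2⟩
    · intro Z _
      refine le_trans ?_ (hK (b - ∑ x ∈ Z, Ψ x))
      refine Finset.card_le_card_of_injOn (fun Y => Y ∩ D) ?_ ?_
      · intro Y hY
        rw [Finset.mem_coe, Finset.mem_filter, Finset.mem_filter] at hY
        rw [Finset.mem_coe, Finset.mem_filter, Finset.mem_powerset]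
        refine ⟨Finset.inter_subset_right, ?_⟩
        rw [← hY.1.2.1, ← hY.2, eq_sub_iff_add_eq]
        exact Finset.sum_inter_add_sum_sdiff Y D Ψ
      · intro Y hY Y' hY' h
        rw [Finset.mem_coe, Finset.mem_filter] at hY hY'
        have h2 : Y ∩ D = Y' ∩ D := h
        rw [← Finset.sdiff_union_inter Y D, ← Finset.sdiff_union_inter Y' D, h2, hY.2, hY'.2]
  have h2 : T.card * 2 ^ D.card ≤ (X.powerset.filter fun Y => q Y).card := by
    rw [← Finset.card_powerset D, ← Finset.card_product]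
    refine Finset.card_le_card_of_injOn (fun p => p.1 ∪ p.2) ?_ ?_
    · rintro ⟨Z, W⟩ h
      rw [Finset.mem_coe, Finset.mem_product, hT, Finset.mem_filter, Finset.mem_powerset,
        Finset.mem_powerset] at h
      obtain ⟨⟨hZ, hqZ⟩, hW⟩ := h
      simp only at hZ hqZ hW
      have hsub : Z ∪ W ⊆ X := Finset.union_subset (hZ.trans Finset.sdiff_subset) (hW.trans hDX)
      rw [Finset.mem_coe, Finset.mem_filter, Finset.mem_powerset]
      refine ⟨hsub, ?_⟩
      rw [← hq _ hsub]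
      have h3 : (Z ∪ W) \ D = Z := by
        ext x
        rw [Finset.mem_sdiff, Finset.mem_union]
        constructor
        · rintro ⟨h4 | h4, h5⟩
          · exact h4
          · exact absurd (hW h4) h5
        · intro h4
          exact ⟨Or.inl h4, (Finset.mem_sdiff.mp (hZ h4)).2⟩
      rw [h3]
      exact hqZ
    · rintro ⟨Z, W⟩ h ⟨Z', W'⟩ h' he
      rw [Finset.mem_coe, Finset.mem_product, hT, Finset.mem_filter, Finset.mem_powerset,
        Finset.mem_powerset] at h h'
      obtain ⟨⟨hZ, -⟩, hW⟩ := h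
      obtain ⟨⟨hZ', -⟩, hW'⟩ := h'
      simp only at hZ hW hZ' hW' he
      have key : ∀ Z W : Finset S, Z ⊆ X \ D → W ⊆ D → (Z ∪ W) \ D = Z ∧ (Z ∪ W) ∩ D = W := by
        intro Z W hZ hW
        constructor
        · ext x
          rw [Finset.mem_sdiff, Finset.mem_union]
          constructor
          · rintro ⟨h4 | h4, h5⟩
            · exact h4
            · exact absurd (hW h4) h5
          · intro h4
            exact ⟨Or.inl h4, (Finset.mem_sdiff.mp (hZ h4)).2⟩
        · ext x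
          rw [Finset.mem_inter, Finset.mem_union]
          constructor
          · rintro ⟨h4 | h4, h5⟩
            · exact absurd h5 (Finset.mem_sdiff.mp (hZ h4)).2
            · exact h4
          · intro h4
            exact ⟨Or.inr h4, hW h4⟩
      obtain ⟨e1, e2⟩ := key Z W hZ hW
      obtain ⟨e3, e4⟩ := key Z' W' hZ' hW'
      rw [he] at e1 e2
      rw [Prod.mk.injEq]
      exact ⟨e1.symm.trans e3, e2.symm.trans e4⟩
  calc (X.powerset.filter fun Y => ∑ x ∈ Y, Ψ x = b ∧ q Y).card * 2 ^ D.card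
      ≤ K * T.card * 2 ^ D.card := Nat.mul_le_mul_right _ h1
    _ = K * (T.card * 2 ^ D.card) := by ring
    _ ≤ _ := Nat.mul_le_mul_left _ h2

/-- Tails with a weak inequality. -/
private lemma twoTail_tail {S : Type} [DecidableEq S] (X : Finset S) (c : S → ℝ) (H : ℝ)
    (hH : 0 < H) (hcH : ∀ s, |c s| ≤ H) (T : ℝ) (hT : 0 ≤ T) (hX : X.Nonempty) :
    ((X.powerset.filter (fun Y => T ≤ |∑ x ∈ Y, c x - ∑ x ∈ X \ Y, c x|)).card : ℝ)
      ≤ 2 * Real.exp (-(T ^ 2 / (8 * X.card * H ^ 2))) * 2 ^ X.card := by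
  rcases hT.eq_or_lt with h0 | h0
  · rw [← h0]
    simp only [ne_eq, OfNat.ofNat_ne_zero, not_false_eq_true, zero_pow, zero_div, neg_zero,
      Real.exp_zero, mul_one]
    have h1 : (X.powerset.filter (fun Y => (0 : ℝ) ≤ |∑ x ∈ Y, c x - ∑ x ∈ X \ Y, c x|)).card
        ≤ 2 ^ X.card := by
      rw [← Finset.card_powerset]
      exact Finset.card_filter_le _ _
    have h2 : ((X.powerset.filter (fun Y => (0 : ℝ) ≤
        |∑ x ∈ Y, c x - ∑ x ∈ X \ Y, c x|)).card : ℝ) ≤ 2 ^ X.card := by exact_mod_cast h1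
    have h3 : (0 : ℝ) ≤ 2 ^ X.card := by positivity
    linarith
  · have h1 := tail_count X c H hH hcH (T / 2) (by linarith) hX
    have h2 : (T / 2) ^ 2 / (2 * X.card * H ^ 2) = T ^ 2 / (8 * X.card * H ^ 2) := by
      field_simp
      ring
    rw [h2] at h1
    refine le_trans ?_ h1
    norm_cast
    refine Finset.card_le_card ?_
    intro Y hY
    rw [Finset.mem_filter] at hY ⊢
    exact ⟨hY.1, lt_of_lt_of_le (by linarith) hY.2⟩

/-- The combination of the local bound and of the tails. -/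
private lemma twoTail_combine {S V κ : Type} [DecidableEq S] [AddCommGroup V] [DecidableEq V]
    [Fintype κ] [DecidableEq κ] (hκ : Fintype.card κ = 4) (Ψ : S → V) (X : Finset S)
    (hX : X.Nonempty) (D D' : κ → Finset S) (v : κ → V) (d : ℕ)
    (hd : ∀ k, (D k).card = d) (hd' : ∀ k, (D' k).card = d)
    (hdis : ∀ k l, k ≠ l → Disjoint (D k) (D l)) (hdis' : ∀ k l, k ≠ l → Disjoint (D' k) (D' l))
    (hDD : ∀ k l, Disjoint (D k) (D' l))
    (hDX : ∀ k, D k ⊆ X) (hDX' : ∀ k, D' k ⊆ X)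
    (hΨ : ∀ k, ∀ x ∈ D k, Ψ x = v k) (hΨ' : ∀ k, ∀ x ∈ D' k, Ψ x = v k)
    (hind : ∀ n n' : κ → ℕ, (∀ k, n k ≤ d) → (∀ k, n' k ≤ d) →
      ∑ k, n k • v k = ∑ k, n' k • v k → n = n') (b : V) (c : S → ℝ) (H : ℝ) (hH : 0 < H)
    (hcH : ∀ s, |c s| ≤ H) (T : ℝ) (hT : 0 ≤ T)
    (hb : ∀ Y ⊆ X, ∑ x ∈ Y, Ψ x = b → 2 * T ≤ |∑ x ∈ Y, c x - ∑ x ∈ X \ Y, c x|) :
    ((X.powerset.filter fun Y => ∑ x ∈ Y, Ψ x = b).card : ℝ) * d ^ 2
      ≤ 4 * Real.exp (-(T ^ 2 / (8 * X.card * H ^ 2))) * 2 ^ X.card := by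
  classical
  set E := univ.biUnion D with hE
  set E' := univ.biUnion D' with hE'
  have hEX : E ⊆ X := Finset.biUnion_subset.mpr fun k _ => hDX k
  have hEX' : E' ⊆ X := Finset.biUnion_subset.mpr fun k _ => hDX' k
  have hEE : Disjoint E E' := by
    rw [Finset.disjoint_left]
    intro x hx hx'
    obtain ⟨k, _, hk⟩ := Finset.mem_biUnion.mp hx
    obtain ⟨l, _, hl⟩ := Finset.mem_biUnion.mp hx'
    exact Finset.disjoint_left.mp (hDD k l) hk hl
  have hcE : ∀ D : κ → Finset S, (∀ k, (D k).card = d) → (∀ k l, k ≠ l → Disjoint (D k) (D l)) →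
      (univ.biUnion D).card = 4 * d := by
    intro D hd hdis
    rw [Finset.card_biUnion fun k _ l _ hkl => hdis k l hkl, Finset.sum_congr rfl fun k _ => hd k,
      Finset.sum_const, Finset.card_univ, hκ, smul_eq_mul]
  -- the resampling bound
  have main : ∀ (D : κ → Finset S), (∀ k, (D k).card = d) → (∀ k l, k ≠ l → Disjoint (D k) (D l)) →
      (∀ k, D k ⊆ X) → (∀ k, ∀ x ∈ D k, Ψ x = v k) → ∀ c₁ : S → ℝ, (∀ s, |c₁ s| ≤ H) →
      (∀ k, ∀ x ∈ D k, c₁ x = 0) →
      ((X.powerset.filter fun Y => ∑ x ∈ Y, Ψ x = b ∧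
        T ≤ |∑ x ∈ Y, c₁ x - ∑ x ∈ X \ Y, c₁ x|).card : ℝ) * d ^ 2 ≤
      2 * Real.exp (-(T ^ 2 / (8 * X.card * H ^ 2))) * 2 ^ X.card := by
    intro D hd hdis hDX hΨ c₁ hc₁ hc₁0
    have hEX : univ.biUnion D ⊆ X := Finset.biUnion_subset.mpr fun k _ => hDX k
    have hz : ∀ x ∈ univ.biUnion D, c₁ x = 0 := by
      intro x hx
      obtain ⟨k, _, hk⟩ := Finset.mem_biUnion.mp hx
      exact hc₁0 k x hk
    have hq : ∀ Y ⊆ X, (T ≤ |∑ x ∈ Y \ univ.biUnion D, c₁ x -
        ∑ x ∈ X \ (Y \ univ.biUnion D), c₁ x|) ↔ T ≤ |∑ x ∈ Y, c₁ x - ∑ x ∈ X \ Y, c₁ x| := by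
      intro Y _
      have h1 : ∑ x ∈ Y \ univ.biUnion D, c₁ x = ∑ x ∈ Y, c₁ x := by
        rw [← Finset.sum_inter_add_sum_sdiff Y (univ.biUnion D) c₁,
          Finset.sum_eq_zero fun x hx => hz x (Finset.mem_inter.mp hx).2, zero_add]
      have h2 : ∑ x ∈ X \ (Y \ univ.biUnion D), c₁ x = ∑ x ∈ X \ Y, c₁ x := by
        symm
        refine Finset.sum_subset (Finset.sdiff_subset_sdiff le_rfl Finset.sdiff_subset) ?_
        intro x hx hx'
        rw [Finset.mem_sdiff] at hx hx'
        apply hz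
        by_contra h3
        apply hx'
        refine ⟨hx.1, fun h4 => hx.2 ?_⟩
        exact Finset.mem_sdiff.mpr ⟨h4, h3⟩
      rw [h1, h2]
    have h1 := twoTail_resample Ψ X (univ.biUnion D) hEX
      (fun Y => T ≤ |∑ x ∈ Y, c₁ x - ∑ x ∈ X \ Y, c₁ x|) hq ((d.choose (d / 2)) ^ 4)
      (fun b' => by
        have := twoTail_count Ψ D v d hd hdis hΨ hind b'
        rwa [hκ] at this) b
    rw [hcE D hd hdis] at h1
    set a := (X.powerset.filter fun Y => ∑ x ∈ Y, Ψ x = b ∧
        T ≤ |∑ x ∈ Y, c₁ x - ∑ x ∈ X \ Y, c₁ x|).card with ha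
    set u := (X.powerset.filter fun Y => T ≤ |∑ x ∈ Y, c₁ x - ∑ x ∈ X \ Y, c₁ x|).card with hu
    have h2 : a * d ^ 2 ≤ u := by
      have h3 := twoTail_choose d
      have h4 : d ^ 2 * (d.choose (d / 2)) ^ 4 ≤ 2 ^ (4 * d) := by
        calc d ^ 2 * (d.choose (d / 2)) ^ 4 = (d * (d.choose (d / 2)) ^ 2) ^ 2 := by ring
          _ ≤ (4 ^ d) ^ 2 := Nat.pow_le_pow_left h3 2
          _ = 2 ^ (4 * d) := by
              rw [← pow_mul, show (4 : ℕ) = 2 ^ 2 by norm_num, ← pow_mul]
              congr 1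
              ring
      have h5 : a * d ^ 2 * 2 ^ (4 * d) ≤ u * 2 ^ (4 * d) := by
        calc a * d ^ 2 * 2 ^ (4 * d) = (a * 2 ^ (4 * d)) * d ^ 2 := by ring
          _ ≤ ((d.choose (d / 2)) ^ 4 * u) * d ^ 2 := Nat.mul_le_mul_right _ h1
          _ = u * (d ^ 2 * (d.choose (d / 2)) ^ 4) := by ring
          _ ≤ u * 2 ^ (4 * d) := Nat.mul_le_mul_left _ h4
      exact Nat.le_of_mul_le_mul_right h5 (by positivity)
    have h6 : (a : ℝ) * d ^ 2 ≤ u := by exact_mod_cast h2
    exact h6.trans (twoTail_tail X c₁ H hH hc₁ T hT hX)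
  -- the two halves
  have hm1 := main D' hd' hdis' hDX' hΨ' (fun s => if s ∈ E then c s else 0) (fun s => by
    split_ifs
    · exact hcH s
    · rw [abs_zero]; exact hH.le) (fun k x hx => by
    rw [if_neg]
    intro h
    exact Finset.disjoint_left.mp hEE h (Finset.mem_biUnion.mpr ⟨k, Finset.mem_univ _, hx⟩))
  have hm2 := main D hd hdis hDX hΨ (fun s => if s ∈ E then 0 else c s) (fun s => by
    split_ifs
    · rw [abs_zero]; exact hH.le
    · exact hcH s) (fun k x hx => by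
    rw [if_pos]
    exact Finset.mem_biUnion.mpr ⟨k, Finset.mem_univ _, hx⟩)
  have hsplit : ∀ Z : Finset S, ∑ x ∈ Z, c x =
      ∑ x ∈ Z, (if x ∈ E then c x else 0) + ∑ x ∈ Z, (if x ∈ E then 0 else c x) := by
    intro Z
    rw [← Finset.sum_add_distrib]
    refine Finset.sum_congr rfl fun x _ => ?_
    split_ifs <;> ring
  have hcover : (X.powerset.filter fun Y => ∑ x ∈ Y, Ψ x = b) ⊆
      (X.powerset.filter fun Y => ∑ x ∈ Y, Ψ x = b ∧
        T ≤ |∑ x ∈ Y, (if x ∈ E then c x else 0) - ∑ x ∈ X \ Y, (if x ∈ E then c x else 0)|) ∪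
      (X.powerset.filter fun Y => ∑ x ∈ Y, Ψ x = b ∧
        T ≤ |∑ x ∈ Y, (if x ∈ E then 0 else c x) - ∑ x ∈ X \ Y, (if x ∈ E then 0 else c x)|) := by
    intro Y hY
    rw [Finset.mem_filter, Finset.mem_powerset] at hY
    have h1 := hb Y hY.1 hY.2
    rw [hsplit Y, hsplit (X \ Y)] at h1
    rw [Finset.mem_union, Finset.mem_filter, Finset.mem_filter, Finset.mem_powerset]
    by_contra hcon
    push Not at hcon
    have h2 := hcon.1 hY.1 hY.2
    have h3 := hcon.2 hY.1 hY.2
    have h4 := abs_add_le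
      (∑ x ∈ Y, (if x ∈ E then c x else 0) - ∑ x ∈ X \ Y, (if x ∈ E then c x else 0))
      (∑ x ∈ Y, (if x ∈ E then 0 else c x) - ∑ x ∈ X \ Y, (if x ∈ E then 0 else c x))
    have h5 : ∑ x ∈ Y, (if x ∈ E then c x else 0) + ∑ x ∈ Y, (if x ∈ E then 0 else c x) -
        (∑ x ∈ X \ Y, (if x ∈ E then c x else 0) + ∑ x ∈ X \ Y, (if x ∈ E then 0 else c x)) =
      (∑ x ∈ Y, (if x ∈ E then c x else 0) - ∑ x ∈ X \ Y, (if x ∈ E then c x else 0)) +
      (∑ x ∈ Y, (if x ∈ E then 0 else c x) - ∑ x ∈ X \ Y, (if x ∈ E then 0 else c x)) := by ring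
    rw [h5] at h1
    linarith
  have hcc := (Finset.card_le_card hcover).trans (Finset.card_union_le _ _)
  have hcc' : ((X.powerset.filter fun Y => ∑ x ∈ Y, Ψ x = b).card : ℝ) ≤
      ((X.powerset.filter fun Y => ∑ x ∈ Y, Ψ x = b ∧
        T ≤ |∑ x ∈ Y, (if x ∈ E then c x else 0) -
          ∑ x ∈ X \ Y, (if x ∈ E then c x else 0)|).card : ℝ) +
      ((X.powerset.filter fun Y => ∑ x ∈ Y, Ψ x = b ∧
        T ≤ |∑ x ∈ Y, (if x ∈ E then 0 else c x) -
          ∑ x ∈ X \ Y, (if x ∈ E then 0 else c x)|).card : ℝ) := by exact_mod_cast hcc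
  have hd2 : (0 : ℝ) ≤ (d : ℝ) ^ 2 := by positivity
  have := mul_le_mul_of_nonneg_right hcc' hd2
  rw [add_mul] at this
  linarith

/-- Independent points. -/
private lemma twoTail_indep {S G : Type} [Fintype S] [Group G] [MulAction G S] {z : G} {N : ℕ}
    (M : MatSys S G z 2 N) (hN : 0 < N) (L : ℕ) : ∃ (κ : Type) (_ : Fintype κ) (a : κ → S),
    Fintype.card κ = 4 ∧ ∀ n n' : κ → ℕ, (∀ k, n k ≤ L) → (∀ k, n' k ≤ L) →
      ∑ k, n k • M.Φ (a k) = ∑ k, n' k • M.Φ (a k) → n = n' := by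
  classical
  obtain ⟨p, hpL, hp⟩ := Nat.exists_infinite_primes (N + L + 1)
  have hpf : Fact p.Prime := ⟨hp⟩
  have hpN : ¬ p ∣ N := fun h => by
    have := Nat.le_of_dvd hN h
    omega
  set w : S → Matrix (Fin 2) (Fin 2) (ZMod p) := fun s => (M.Φ s).map (Int.cast : ℤ → ZMod p)
    with hw
  have hspan : Submodule.span (ZMod p) (Set.range w) = ⊤ := by
    by_contra hne
    obtain ⟨f, hf0, hf⟩ := Submodule.exists_le_ker_of_lt_top _ (lt_top_iff_ne_top.mpr hne)
    set A : Matrix (Fin 2) (Fin 2) (ZMod p) := Matrix.of fun j i => f (Matrix.single i j 1)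
      with hA
    have hfA : ∀ Y : Matrix (Fin 2) (Fin 2) (ZMod p), f Y = (Y * A).trace := by
      intro Y
      conv_lhs => rw [Matrix.matrix_eq_sum_single Y]
      rw [map_sum, Matrix.trace]
      refine Finset.sum_congr rfl fun i _ => ?_
      rw [map_sum, Matrix.diag_apply, Matrix.mul_apply]
      refine Finset.sum_congr rfl fun j _ => ?_
      have h1 : Matrix.single i j (Y i j) = Y i j • Matrix.single i j (1 : ZMod p) := by
        rw [Matrix.smul_single, smul_eq_mul, mul_one]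
      rw [h1, map_smul, smul_eq_mul, hA, Matrix.of_apply]
    have hA0 := M.indep p hp hpN A (fun s => by
      rw [← hfA]
      exact hf (Submodule.subset_span ⟨s, rfl⟩))
    apply hf0
    refine LinearMap.ext fun Y => ?_
    rw [hfA, hA0, mul_zero, Matrix.trace_zero]
    rfl
  obtain ⟨κ, a, ha, hsp, hli⟩ := exists_linearIndependent' (ZMod p) w
  have hfin : Finite κ := Finite.of_injective a ha
  have hft : Fintype κ := Fintype.ofFinite κ
  refine ⟨κ, hft, a, ?_, ?_⟩
  · have hb := Basis.mk hli (by rw [hsp, hspan])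
    rw [← Module.finrank_eq_card_basis hb, Module.finrank_matrix, Module.finrank_self,
      Fintype.card_fin]
  · intro n n' hn hn' h
    have h1 : ∑ k, ((n k : ℕ) : ZMod p) • w (a k) = ∑ k, ((n' k : ℕ) : ZMod p) • w (a k) := by
      have h2 : (∑ k, n k • M.Φ (a k)).map (Int.cast : ℤ → ZMod p) =
          (∑ k, n' k • M.Φ (a k)).map (Int.cast : ℤ → ZMod p) := by rw [h]
      have h3 : ∀ n : κ → ℕ, (∑ k, n k • M.Φ (a k)).map (Int.cast : ℤ → ZMod p) =
          ∑ k, ((n k : ℕ) : ZMod p) • w (a k) := by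
        intro n
        ext i j
        rw [Matrix.map_apply, Matrix.sum_apply, Matrix.sum_apply, Int.cast_sum]
        refine Finset.sum_congr rfl fun k _ => ?_
        simp [hw]
      rw [h3, h3] at h2
      exact h2
    rw [← sub_eq_zero, ← Finset.sum_sub_distrib] at h1
    simp only [← sub_smul] at h1
    have h2 := Fintype.linearIndependent_iff.mp hli (fun k => ((n k : ℕ) : ZMod p) - (n' k : ℕ)) h1
    funext k
    have h3 := sub_eq_zero.mp (h2 k)
    rw [ZMod.natCast_eq_natCast_iff] at h3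
    exact Nat.ModEq.eq_of_lt_of_lt h3 (by have := hn k; omega) (by have := hn' k; omega)

/-- A transversal and its complement. -/
private lemma twoTail_card {S G : Type} [Fintype S] [DecidableEq S] [Group G] [MulAction G S]
    (z : G) (hzz : ∀ s : S, z • z • s = s) (X : Finset S) (hX : ∀ s, s ∈ X ↔ z • s ∉ X) :
    Fintype.card S = 2 * X.card := by
  have h1 : Xᶜ.card = X.card := by
    refine Finset.card_nbij' (fun s => z • s) (fun s => z • s) ?_ ?_ ?_ ?_
    · intro s hs
      rw [Finset.mem_coe, Finset.mem_compl] at hs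
      by_contra h
      exact hs ((hX s).mpr h)
    · intro s hs
      rw [Finset.mem_coe, Finset.mem_compl]
      exact (hX s).mp hs
    · intro s _
      exact hzz s
    · intro s _
      exact hzz s
  have h2 := Finset.card_add_card_compl X
  omega

/-- From sign functions to subsets of a transversal. -/
private lemma twoTail_sets {S G V : Type} [Fintype S] [DecidableEq S] [Group G] [MulAction G S]
    [AddCommGroup V] [DecidableEq V] (z : G) (hzz : ∀ s : S, z • z • s = s) (X : Finset S)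
    (hX : ∀ s, s ∈ X ↔ z • s ∉ X) (Ψ : S → V) (hΨ : ∀ s, Ψ (z • s) = - Ψ s) (e : S → ℤ)
    (he : IsSgn z e) : ∑ s, e s • Ψ s =
      (2 : ℤ) • ((2 : ℤ) • ∑ x ∈ X.filter (fun s => e s = 1), Ψ x - ∑ x ∈ X, Ψ x) := by
  have h1 : ∑ s ∈ Xᶜ, e s • Ψ s = ∑ s ∈ X, e s • Ψ s := by
    refine Finset.sum_nbij' (fun s => z • s) (fun s => z • s) ?_ ?_ ?_ ?_ ?_
    · intro s hs
      rw [Finset.mem_compl] at hs
      by_contra h
      exact hs ((hX s).mpr h)
    · intro s hs
      rw [Finset.mem_compl]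
      exact (hX s).mp hs
    · intro s _
      exact hzz s
    · intro s _
      exact hzz s
    · intro s _
      rw [he.2 s, hΨ s, smul_neg, neg_smul, neg_neg]
  have h2 : ∑ s ∈ X, e s • Ψ s = ∑ x ∈ X.filter (fun s => e s = 1), Ψ x
      - ∑ x ∈ X.filter (fun s => ¬ e s = 1), Ψ x := by
    rw [← Finset.sum_filter_add_sum_filter_not X (fun s => e s = 1), sub_eq_add_neg,
      ← Finset.sum_neg_distrib]
    congr 1
    · refine Finset.sum_congr rfl fun s hs => ?_
      rw [(Finset.mem_filter.mp hs).2, one_smul]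
    · refine Finset.sum_congr rfl fun s hs => ?_
      have h4 : e s = -1 := (he.1 s).resolve_left (Finset.mem_filter.mp hs).2
      rw [h4, neg_smul, one_smul]
  have h3 : ∑ x ∈ X, Ψ x = ∑ x ∈ X.filter (fun s => e s = 1), Ψ x
      + ∑ x ∈ X.filter (fun s => ¬ e s = 1), Ψ x :=
    (Finset.sum_filter_add_sum_filter_not X (fun s => e s = 1) Ψ).symm
  rw [← Finset.sum_add_sum_compl X, h1, h2, h3]
  module

private lemma twoTail_inj {S G : Type} [Fintype S] [DecidableEq S] [Group G] [MulAction G S]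
    (z : G) (X : Finset S) (hX : ∀ s, s ∈ X ↔ z • s ∉ X) {e e' : S → ℤ}
    (he : IsSgn z e) (he' : IsSgn z e')
    (hee' : X.filter (fun s => e s = 1) = X.filter (fun s => e' s = 1)) : e = e' := by
  have h1 : ∀ s ∈ X, e s = e' s := by
    intro s hs
    have h3 : s ∈ X.filter (fun s => e s = 1) ↔ s ∈ X.filter (fun s => e' s = 1) := by
      rw [hee']
    rw [Finset.mem_filter, Finset.mem_filter] at h3
    rcases he.1 s with h | h
    · rw [h, (h3.1 ⟨hs, h⟩).2]
    · rcases he'.1 s with h' | h'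
      · rw [(h3.2 ⟨hs, h'⟩).2, h']
      · rw [h, h']
  funext s
  by_cases hs : s ∈ X
  · exact h1 s hs
  · have h3 : z • s ∈ X := by
      by_contra h
      exact hs ((hX s).2 h)
    have h4 := h1 _ h3
    rw [he.2, he'.2] at h4
    linarith

/-- The fibres of `Φ` have the same number of elements. -/
private lemma twoTail_fibre {S G : Type} [Fintype S] [DecidableEq S] [Group G] [MulAction G S]
    [IsPretransitive G S] {z : G} {N : ℕ} (M : MatSys S G z 2 N) (s s' : S) :
    (univ.filter fun x => M.Φ x = M.Φ s).card = (univ.filter fun x => M.Φ x = M.Φ s').card := by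
  obtain ⟨γ, rfl⟩ := MulAction.exists_smul_eq G s s'
  refine Finset.card_nbij' (fun x => γ • x) (fun x => γ⁻¹ • x) ?_ ?_ ?_ ?_
  · intro x hx
    rw [Finset.mem_coe, Finset.mem_filter] at hx ⊢
    refine ⟨Finset.mem_univ _, ?_⟩
    rw [M.smul, M.smul, hx.2]
  · intro x hx
    rw [Finset.mem_coe, Finset.mem_filter] at hx ⊢
    refine ⟨Finset.mem_univ _, ?_⟩
    rw [M.smul, hx.2, ← M.smul, inv_smul_smul]
  · intro x _
    exact inv_smul_smul γ x
  · intro x _
    exact smul_inv_smul γ x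

private lemma twoTail_size (hGL2 : StGL2) {S G : Type} [Fintype S] [DecidableEq S] [Group G]
    [Finite G] [MulAction G S] [IsPretransitive G S] {z : G} {N : ℕ} (M : MatSys S G z 2 N)
    (s : S) : Fintype.card S ≤ 81 * (univ.filter fun x => M.Φ x = M.Φ s).card := by
  classical
  set m := (univ.filter fun x => M.Φ x = M.Φ s).card with hm
  have h1 : Fintype.card S = (univ.image M.Φ).card * m := by
    rw [← Finset.card_univ, Finset.card_eq_sum_card_image M.Φ univ]
    rw [Finset.sum_congr rfl (g := fun _ => m), Finset.sum_const, smul_eq_mul]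
    intro t ht
    obtain ⟨s', _, rfl⟩ := Finset.mem_image.mp ht
    exact twoTail_fibre M s' s
  have h2 : (univ.image M.Φ).card ≤ 81 := by
    refine le_trans ?_ (hGL2 G M.R)
    rw [← Set.ncard_coe_finset]
    refine Set.ncard_le_ncard ?_ (Set.finite_range _)
    intro t ht
    rw [Finset.mem_coe, Finset.mem_image] at ht
    obtain ⟨s', _, rfl⟩ := ht
    obtain ⟨s₀, hs₀⟩ := M.base
    obtain ⟨γ, rfl⟩ := MulAction.exists_smul_eq G s₀ s'
    exact ⟨γ, by rw [M.smul, hs₀, mul_one]⟩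
  rw [h1]
  exact Nat.mul_le_mul_right _ h2

private lemma twoTail_cancel (P : Matrix (Fin 2) (Fin 2) ℤ) (hP : P.det ≠ 0)
    {A A' : Matrix (Fin 2) (Fin 2) ℤ} (h : P.adjugate * A * P = P.adjugate * A' * P) : A = A' := by
  have h3 : ∀ A : Matrix (Fin 2) (Fin 2) ℤ,
      P * (P.adjugate * A * P) * P.adjugate = (P.det * P.det) • A := by
    intro A
    have h4 := Matrix.mul_adjugate P
    calc P * (P.adjugate * A * P) * P.adjugate
        = (P * P.adjugate) * A * (P * P.adjugate) := by simp only [Matrix.mul_assoc]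
      _ = (P.det * P.det) • A := by
          rw [h4, Matrix.smul_mul, Matrix.one_mul, Matrix.mul_smul, Matrix.mul_one, smul_smul]
  have h5 : P * (P.adjugate * A * P) * P.adjugate = P * (P.adjugate * A' * P) * P.adjugate := by
    rw [h]
  rw [h3, h3] at h5
  ext i j
  have h6 := congrFun (congrFun h5 i) j
  simp only [Matrix.smul_apply, smul_eq_mul] at h6
  exact mul_left_cancel₀ (mul_ne_zero hP hP) h6

private lemma twoTail_arith (x g d e p : ℝ) (hx : 0 ≤ x) (hg : 0 ≤ g) (h3 : 2 * g ≤ 243 * d)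
    (h1 : x * d ^ 2 ≤ 4 * e * p) : x * g ^ 2 ≤ 59049 * e * p := by
  have h4 : 4 * g ^ 2 ≤ 59049 * d ^ 2 := by nlinarith
  have h6 := mul_le_mul_of_nonneg_left h4 hx
  linarith

private lemma twoTail_arith' (x g e p : ℝ) (h7 : x ≤ 2 * e * p) (h6 : g ^ 2 ≤ 1600)
    (he : 0 < e) (hp : 0 < p) : x * g ^ 2 ≤ 59049 * e * p := by
  have h8 := mul_pos he hp
  calc x * g ^ 2 ≤ (2 * e * p) * 1600 :=
        mul_le_mul h7 h6 (sq_nonneg _) (by rw [mul_assoc]; linarith)
    _ ≤ 59049 * e * p := by linarith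

private lemma twoTail_final (w x g e p : ℝ) (hwx : w ≤ x) (hg : 0 < g)
    (h : x * g ^ 2 ≤ 59049 * e * p) : w ≤ 59049 * (g ^ 2)⁻¹ * e * p := by
  have hg2 : g ^ 2 ≠ 0 := (pow_pos hg 2).ne'
  calc w ≤ x := hwx
    _ = x * g ^ 2 * (g ^ 2)⁻¹ := by rw [mul_assoc, mul_inv_cancel₀ hg2, mul_one]
    _ ≤ 59049 * e * p * (g ^ 2)⁻¹ :=
        mul_le_mul_of_nonneg_right h (inv_nonneg.mpr (sq_nonneg _))
    _ = 59049 * (g ^ 2)⁻¹ * e * p := by ring

theorem pTwoTail (hGL2 : StGL2) : StTwoTail := by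
  refine ⟨59049, 1 / 8388608, by norm_num, by norm_num, ?_⟩
  intro S G _ _ _ _ _ z hzz X hX hX1 N M hN P hP hbd R B hR hB
  classical
  obtain ⟨i, j, hij⟩ := hB
  obtain ⟨s₀, hs₀⟩ := M.base
  set Ψ : S → Matrix (Fin 2) (Fin 2) ℤ := fun s => P.adjugate * M.Φ s * P with hΨdef
  have hΨodd : ∀ s, Ψ (z • s) = - Ψ s := by
    intro s
    simp only [hΨdef, M.odd, Matrix.mul_neg, Matrix.neg_mul]
  set g := X.card with hg
  set m := (univ.filter fun x => M.Φ x = M.Φ s₀).card with hm
  have hm1 : 1 ≤ m := Finset.card_pos.mpr ⟨s₀, Finset.mem_filter.mpr ⟨Finset.mem_univ _, rfl⟩⟩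
  have hsize : Fintype.card S ≤ 81 * m := twoTail_size hGL2 M s₀
  have hcardX : Fintype.card S = 2 * g := twoTail_card z hzz X hX
  obtain ⟨κ, hκf, a, hκ, hind⟩ := twoTail_indep M hN (Fintype.card S + 2)
  -- fibres
  set F : κ → Finset S := fun k => univ.filter fun x => M.Φ x = M.Φ (a k) with hF
  have hFcard : ∀ k, (F k).card = m := fun k => twoTail_fibre M (a k) s₀
  have hFdis : ∀ k l, k ≠ l → Disjoint (F k) (F l) := by
    intro k l hkl
    rw [Finset.disjoint_left]
    intro x hx hx'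
    have h1 : M.Φ (a k) = M.Φ (a l) :=
      (Finset.mem_filter.mp hx).2.symm.trans (Finset.mem_filter.mp hx').2
    have h2 := hind (Pi.single k 1) (Pi.single l 1) (fun q => by
      rw [Pi.single_apply]; split_ifs <;> omega) (fun q => by
      rw [Pi.single_apply]; split_ifs <;> omega) (by
      rw [Finset.sum_eq_single k, Finset.sum_eq_single l]
      · rw [Pi.single_eq_same, Pi.single_eq_same, h1]
      · intro q _ hq
        rw [Pi.single_eq_of_ne hq, zero_smul]
      · intro h; exact absurd (Finset.mem_univ _) h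
      · intro q _ hq
        rw [Pi.single_eq_of_ne hq, zero_smul]
      · intro h; exact absurd (Finset.mem_univ _) h)
    have h3 := congrFun h2 k
    rw [Pi.single_eq_same, Pi.single_eq_of_ne hkl] at h3
    exact one_ne_zero h3
  have hneg : ∀ k l, M.Φ (a k) + M.Φ (a l) ≠ 0 := by
    intro k l h0
    have hs : ∀ q : κ, ∑ r, (Pi.single q 1 : κ → ℕ) r • M.Φ (a r) = M.Φ (a q) := by
      intro q
      rw [Finset.sum_eq_single q]
      · rw [Pi.single_eq_same, one_smul]
      · intro r _ hr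
        rw [Pi.single_eq_of_ne hr, zero_smul]
      · intro h; exact absurd (Finset.mem_univ _) h
    have h2 := hind (Pi.single k 1 + Pi.single l 1) 0 (fun q => by
      rw [Pi.add_apply, Pi.single_apply, Pi.single_apply]; split_ifs <;> omega) (fun q => by
      rw [Pi.zero_apply]; omega) (by
      simp only [Pi.add_apply, add_smul, Finset.sum_add_distrib, Pi.zero_apply, zero_smul,
        Finset.sum_const_zero]
      rw [hs, hs, h0])
    have h3 := congrFun h2 k
    rw [Pi.add_apply, Pi.single_eq_same, Pi.zero_apply] at h3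
    omega
  set E := univ.biUnion F with hE
  have hEz : ∀ s, s ∈ E → z • s ∉ E := by
    intro s hs hs'
    obtain ⟨k, _, hk⟩ := Finset.mem_biUnion.mp hs
    obtain ⟨l, _, hl⟩ := Finset.mem_biUnion.mp hs'
    have h1 := (Finset.mem_filter.mp hk).2
    have h2 := (Finset.mem_filter.mp hl).2
    rw [M.odd, h1] at h2
    apply hneg k l
    rw [← h2, add_neg_cancel]
  set X' := univ.filter fun s => s ∈ E ∨ (s ∈ X ∧ z • s ∉ E) with hX'def
  have hX' : ∀ s, s ∈ X' ↔ z • s ∉ X' := by
    intro s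
    have h1 := hEz s
    have h2 := hEz (z • s)
    have h3 := hX s
    rw [hzz] at h2
    rw [hX'def, Finset.mem_filter, Finset.mem_filter, hzz]
    simp only [Finset.mem_univ, true_and]
    by_cases c1 : s ∈ E
    · have := h1 c1
      tauto
    · by_cases c2 : z • s ∈ E
      · tauto
      · tauto
  have hX'card : X'.card = g := by
    have := twoTail_card z hzz X' hX'
    omega
  have hX'ne : X'.Nonempty := by
    rw [← Finset.card_pos, hX'card]
    exact hX1
  have hFX' : ∀ k, F k ⊆ X' := by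
    intro k x hx
    rw [hX'def, Finset.mem_filter]
    exact ⟨Finset.mem_univ _, Or.inl (Finset.mem_biUnion.mpr ⟨k, Finset.mem_univ _, hx⟩)⟩
  -- parts of the fibres
  set d := m / 2 with hd
  have hparts : ∀ k, ∃ D D' : Finset S, D ⊆ F k ∧ D' ⊆ F k ∧ Disjoint D D' ∧ D.card = d ∧
      D'.card = d := by
    intro k
    obtain ⟨D, hD, hDc⟩ := Finset.exists_subset_card_eq (s := F k) (n := d) (by
      rw [hFcard]; omega)
    obtain ⟨D', hD', hDc'⟩ := Finset.exists_subset_card_eq (s := F k \ D) (n := d) (by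
      rw [Finset.card_sdiff_of_subset hD, hFcard, hDc]; omega)
    refine ⟨D, D', hD, hD'.trans Finset.sdiff_subset, ?_, hDc, hDc'⟩
    rw [Finset.disjoint_left]
    intro x hx hx'
    exact (Finset.mem_sdiff.mp (hD' hx')).2 hx
  choose D D' hDF hDF' hDD hDc hDc' using hparts
  have hdis : ∀ k l, k ≠ l → Disjoint (D k) (D l) := fun k l hkl =>
    (hFdis k l hkl).mono (hDF k) (hDF l)
  have hdis' : ∀ k l, k ≠ l → Disjoint (D' k) (D' l) := fun k l hkl =>
    (hFdis k l hkl).mono (hDF' k) (hDF' l)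
  have hDD' : ∀ k l, Disjoint (D k) (D' l) := by
    intro k l
    by_cases hkl : k = l
    · rw [← hkl]; exact hDD k
    · exact (hFdis k l hkl).mono (hDF k) (hDF' l)
  have hΨF : ∀ k, ∀ x ∈ F k, Ψ x = Ψ (a k) := by
    intro k x hx
    simp only [hΨdef]
    rw [(Finset.mem_filter.mp hx).2]
  have hmS : m ≤ Fintype.card S := by
    rw [hm, ← Finset.card_univ]
    exact Finset.card_filter_le _ _
  have hindΨ : ∀ n n' : κ → ℕ, (∀ k, n k ≤ d) → (∀ k, n' k ≤ d) →
      ∑ k, n k • Ψ (a k) = ∑ k, n' k • Ψ (a k) → n = n' := by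
    intro n n' hn hn' h
    have h1 : ∀ n : κ → ℕ, ∑ k, n k • Ψ (a k) = P.adjugate * (∑ k, n k • M.Φ (a k)) * P := by
      intro n
      rw [Finset.mul_sum, Finset.sum_mul]
      refine Finset.sum_congr rfl fun k _ => ?_
      rw [Matrix.mul_smul, Matrix.smul_mul]
    rw [h1, h1] at h
    exact hind n n' (fun k => by have := hn k; omega) (fun k => by have := hn' k; omega)
      (twoTail_cancel P hP h)
  -- the set
  set W := {e : S → ℤ | IsSgn z e ∧ ∑ s, e s • (P.adjugate * M.Φ s * P) = B} with hW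
  have hg0 : (0 : ℝ) < g := by exact_mod_cast hX1
  have hrp : (g : ℝ) ^ (-2 : ℝ) = ((g : ℝ) ^ 2)⁻¹ := by
    rw [Real.rpow_neg hg0.le, Real.rpow_two]
  rcases W.eq_empty_or_nonempty with hWe | ⟨e₀, he₀⟩
  · rw [hWe, Set.ncard_empty, Nat.cast_zero]
    exact mul_nonneg (mul_nonneg (mul_nonneg (by norm_num) (Real.rpow_nonneg hg0.le _))
      (Real.exp_pos _).le) (pow_nonneg (by norm_num) _)
  set b := ∑ x ∈ X'.filter (fun s => e₀ s = 1), Ψ x with hb
  have hBb : B = (2 : ℤ) • ((2 : ℤ) • b - ∑ x ∈ X', Ψ x) := by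
    rw [hb, ← twoTail_sets z hzz X' hX' Ψ hΨodd e₀ he₀.1]
    exact he₀.2.symm
  have hWcard : W.ncard ≤ (X'.powerset.filter fun Y => ∑ x ∈ Y, Ψ x = b).card := by
    rw [← Set.ncard_coe_finset]
    refine Set.ncard_le_ncard_of_injOn (fun e => X'.filter fun s => e s = 1) ?_ ?_
      (Finset.finite_toSet _)
    · intro e he
      rw [Finset.mem_coe, Finset.mem_filter, Finset.mem_powerset]
      refine ⟨Finset.filter_subset _ _, ?_⟩
      have h1 := twoTail_sets z hzz X' hX' Ψ hΨodd e he.1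
      have h2 : ∑ s, e s • Ψ s = B := he.2
      rw [h2, hBb] at h1
      ext k l
      have h3 := congrFun (congrFun h1 k) l
      simp only [Matrix.smul_apply, Matrix.sub_apply, smul_eq_mul] at h3
      omega
    · intro e he e' he' hee
      exact twoTail_inj z X' hX' he.1 he'.1 hee
  set c : S → ℝ := fun s => ((Ψ s i j : ℤ) : ℝ) with hc
  have hcH : ∀ s, |c s| ≤ 256 := by
    intro s
    have h1 := hbd s i j
    simp only [hc]
    rw [← Int.cast_abs]
    exact_mod_cast h1
  have hbY : ∀ Y ⊆ X', ∑ x ∈ Y, Ψ x = b → 2 * (R / 4) ≤ |∑ x ∈ Y, c x - ∑ x ∈ X' \ Y, c x| := by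
    intro Y hY hYb
    have h1 : ∑ x ∈ X' \ Y, c x = ∑ x ∈ X', c x - ∑ x ∈ Y, c x := by
      rw [← Finset.sum_sdiff hY]; ring
    have h2 : ∀ Z : Finset S, ∑ x ∈ Z, c x = (((∑ x ∈ Z, Ψ x) i j : ℤ) : ℝ) := by
      intro Z
      rw [Matrix.sum_apply, Int.cast_sum]
    have h3 : ((B i j : ℤ) : ℝ) = 2 * (∑ x ∈ Y, c x - ∑ x ∈ X' \ Y, c x) := by
      rw [h1, h2, h2, hYb, hBb]
      simp only [Matrix.smul_apply, Matrix.sub_apply, smul_eq_mul, Int.cast_mul, Int.cast_sub,
        Int.cast_ofNat]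
      ring
    rw [h3, abs_mul, abs_of_pos (by norm_num : (0 : ℝ) < 2)] at hij
    linarith
  have hT : 0 ≤ R / 4 := by linarith
  have hexp : (R / 4) ^ 2 / (8 * (X'.card : ℝ) * 256 ^ 2) = 1 / 8388608 * R ^ 2 / g := by
    rw [hX'card]
    field_simp
    ring
  set Z := (X'.powerset.filter fun Y => ∑ x ∈ Y, Ψ x = b) with hZ
  set ex := Real.exp (-(1 / 8388608 * R ^ 2 / g)) with hex
  have hex0 : 0 < ex := Real.exp_pos _
  have h2g : (0 : ℝ) < 2 ^ g := by positivity
  have hWZ : (W.ncard : ℝ) ≤ Z.card := by exact_mod_cast hWcard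
  have hkey : (Z.card : ℝ) * (g : ℝ) ^ 2 ≤ 59049 * ex * 2 ^ g := by
    by_cases hm2 : 2 ≤ m
    · have h1 := twoTail_combine hκ Ψ X' hX'ne D D' (fun k => Ψ (a k)) d hDc hDc' hdis hdis' hDD'
        (fun k => (hDF k).trans (hFX' k)) (fun k => (hDF' k).trans (hFX' k))
        (fun k x hx => hΨF k x (hDF k hx)) (fun k x hx => hΨF k x (hDF' k hx)) hindΨ b c 256
        (by norm_num) hcH (R / 4) hT hbY
      rw [hexp, hX'card] at h1
      have h2 : 2 * g ≤ 243 * d := by omega
      have h3 : (2 : ℝ) * g ≤ 243 * d := by exact_mod_cast h2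
      exact twoTail_arith _ _ _ _ _ (Nat.cast_nonneg _) hg0.le h3 h1
    · have h1 := twoTail_tail X' c 256 (by norm_num) hcH (2 * (R / 4)) (by linarith) hX'ne
      have h2 : Z.card ≤ (X'.powerset.filter
          (fun Y => 2 * (R / 4) ≤ |∑ x ∈ Y, c x - ∑ x ∈ X' \ Y, c x|)).card := by
        refine Finset.card_le_card fun Y hY => ?_
        rw [hZ, Finset.mem_filter] at hY
        rw [Finset.mem_filter]
        exact ⟨hY.1, hbY Y (Finset.mem_powerset.mp hY.1) hY.2⟩
      have h3 : (Z.card : ℝ) ≤ ((X'.powerset.filter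
          (fun Y => 2 * (R / 4) ≤ |∑ x ∈ Y, c x - ∑ x ∈ X' \ Y, c x|)).card : ℝ) := by
        exact_mod_cast h2
      have h4 : Real.exp (-((2 * (R / 4)) ^ 2 / (8 * (X'.card : ℝ) * 256 ^ 2))) ≤ ex := by
        rw [hex]
        apply Real.exp_le_exp.mpr
        apply neg_le_neg
        have h5 : (2 * (R / 4)) ^ 2 / (8 * (X'.card : ℝ) * 256 ^ 2) =
            4 * ((R / 4) ^ 2 / (8 * (X'.card : ℝ) * 256 ^ 2)) := by ring
        rw [h5, hexp]
        have h6 : 0 ≤ 1 / 8388608 * R ^ 2 / (g : ℝ) :=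
          div_nonneg (mul_nonneg (by norm_num) (sq_nonneg R)) hg0.le
        linarith
      rw [hX'card] at h1
      have h5 : g ≤ 40 := by omega
      have h6 : (g : ℝ) ^ 2 ≤ 1600 := by
        have : (g : ℝ) ≤ 40 := by exact_mod_cast h5
        nlinarith
      have h7 : (Z.card : ℝ) ≤ 2 * ex * 2 ^ g := by
        refine h3.trans (h1.trans ?_)
        rw [hX'card] at h4
        exact mul_le_mul_of_nonneg_right (mul_le_mul_of_nonneg_left h4 (by norm_num)) h2g.le
      exact twoTail_arith' _ _ _ _ h7 h6 hex0 h2g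
  rw [hrp]
  exact twoTail_final _ _ _ _ _ hWZ hg0 hkey

end Pool.Agent.Lib.MP_640417_ag.Sharp
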