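import Pool.Agent.Lib.MP_640417_ag.Sharp.SpecL

/-!
# Union of pairwise almost independent events
-/

namespace Pool.Agent.Lib.MP_640417_ag.Sharp

open Finset

private lemma union_bonf {ι Ω : Type} (A : ι → Set Ω) (hA : ∀ i, (A i).Finite) {a b : ℝ}
    (hb : 0 ≤ b) (h1 : ∀ i, a ≤ (A i).ncard)
    (h2 : ∀ i j, i ≠ j → ((A i ∩ A j).ncard : ℝ) ≤ b) (s : Finset ι) :
    (s.card : ℝ) * a - (s.card : ℝ) ^ 2 / 2 * b ≤ ((⋃ i ∈ s, A i).ncard : ℝ) := by
  classical
  induction s using Finset.induction_on with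
  | empty => simp
  | insert i s his ih =>
    have hU : (⋃ j ∈ s, A j).Finite := s.finite_toSet.biUnion fun j _ => hA j
    have e1 : (⋃ j ∈ insert i s, A j) = A i ∪ ⋃ j ∈ s, A j := by
      rw [Finset.set_biUnion_insert]
    have e2 := Set.ncard_union_add_ncard_inter (A i) (⋃ j ∈ s, A j) (hA i) hU
    have e3 : A i ∩ (⋃ j ∈ s, A j) = ⋃ j ∈ s, (A i ∩ A j) := by
      rw [Set.inter_iUnion₂]
    have h3 : ((A i ∩ (⋃ j ∈ s, A j)).ncard : ℝ) ≤ s.card * b := by
      rw [e3]
      calc ((⋃ j ∈ s, (A i ∩ A j)).ncard : ℝ) ≤ ((∑ j ∈ s, (A i ∩ A j).ncard : ℕ) : ℝ) := by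
            exact_mod_cast Finset.set_ncard_biUnion_le s _
        _ = ∑ j ∈ s, ((A i ∩ A j).ncard : ℝ) := by push_cast; rfl
        _ ≤ ∑ j ∈ s, b := Finset.sum_le_sum fun j hj =>
            h2 i j (fun h => his (h ▸ hj))
        _ = s.card * b := by rw [Finset.sum_const, nsmul_eq_mul]
    have e4 : ((A i ∪ ⋃ j ∈ s, A j).ncard : ℝ) + ((A i ∩ (⋃ j ∈ s, A j)).ncard : ℝ) =
        ((A i).ncard : ℝ) + ((⋃ j ∈ s, A j).ncard : ℝ) := by exact_mod_cast e2
    rw [e1, Finset.card_insert_of_notMem his]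
    push_cast
    have h4 := h1 i
    nlinarith

/-- A union of events which are independent in pairs up to a constant. -/
theorem pUnion : StUnion := by
  classical
  intro c₁ C₁ hc hC
  set C := max c₁ C₁ with hCdef
  have hC0 : 0 < C := lt_of_lt_of_le hc (le_max_left _ _)
  have hcC : c₁ ≤ C := le_max_left _ _
  refine ⟨c₁ ^ 2 / (4 * C), by positivity, ?_⟩
  intro ι Ω hι A hA N t hN ht ht1 h1 h2
  have hc0 : 0 ≤ c₁ ^ 2 / (4 * C) := by positivity
  have hfin : (⋃ i, A i).Finite := Set.finite_iUnion hA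
  have hmin0 : 0 ≤ min 1 ((Nat.card ι : ℝ) * t) := le_min zero_le_one (by positivity)
  have h2' : ∀ i j, i ≠ j → ((A i ∩ A j).ncard : ℝ) ≤ C * t ^ 2 * N := fun i j hij =>
    (h2 i j hij).trans (by
      apply mul_le_mul_of_nonneg_right _ hN
      exact mul_le_mul_of_nonneg_right (le_max_right _ _) (by positivity))
  rcases Nat.eq_zero_or_pos (Nat.card ι) with hn | hn
  · rw [hn]
    have : min (1 : ℝ) (((0 : ℕ) : ℝ) * t) = 0 := by simp
    rw [this, mul_zero, zero_mul]
    positivity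
  rcases lt_or_ge c₁ (2 * C * t) with hlt | hge
  · have : Nonempty ι := (Nat.card_pos_iff.mp hn).1
    obtain ⟨i⟩ := this
    have h3 : ((A i).ncard : ℝ) ≤ ((⋃ i, A i).ncard : ℝ) := by
      exact_mod_cast Set.ncard_le_ncard (Set.subset_iUnion A i) hfin
    refine le_trans ?_ ((h1 i).trans h3)
    apply mul_le_mul_of_nonneg_right _ hN
    calc c₁ ^ 2 / (4 * C) * min 1 ((Nat.card ι : ℝ) * t) ≤ c₁ ^ 2 / (4 * C) * 1 :=
          mul_le_mul_of_nonneg_left (min_le_left _ _) hc0
      _ ≤ c₁ * t := by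
          rw [mul_one, div_le_iff₀ (by positivity)]
          nlinarith
  · set y : ℝ := c₁ / (C * t) with hy
    have hCt : 0 < C * t := by positivity
    have hy2 : 2 ≤ y := by
      rw [hy, le_div_iff₀ hCt]
      linarith
    have hfl : y / 2 ≤ (⌊y⌋₊ : ℝ) := by
      have := Nat.lt_floor_add_one y
      linarith
    have hfl2 : (⌊y⌋₊ : ℝ) ≤ y := Nat.floor_le (by linarith)
    have := Fintype.ofFinite ι
    have hkn : min (Nat.card ι) ⌊y⌋₊ ≤ (Finset.univ : Finset ι).card := by
      rw [Finset.card_univ, ← Nat.card_eq_fintype_card]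
      exact min_le_left _ _
    obtain ⟨s, -, hs⟩ := Finset.exists_subset_card_eq hkn
    have hB := union_bonf A hA (a := c₁ * t * N) (b := C * t ^ 2 * N) (by positivity) h1 h2' s
    have hsub : ((⋃ i ∈ s, A i).ncard : ℝ) ≤ ((⋃ i, A i).ncard : ℝ) := by
      have : (⋃ i ∈ s, A i) ⊆ ⋃ i, A i := Set.iUnion₂_subset fun i _ => Set.subset_iUnion A i
      exact_mod_cast Set.ncard_le_ncard this hfin
    set k : ℝ := (s.card : ℝ) with hk
    have hk0 : 0 ≤ k := Nat.cast_nonneg _
    have hky : k ≤ y := by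
      refine le_trans ?_ hfl2
      rw [hk, hs]
      exact_mod_cast min_le_right _ _
    have hkC : k * (C * t) ≤ c₁ := by
      rw [hy, le_div_iff₀ hCt] at hky
      exact hky
    have hhalf : k * (c₁ * t * N) / 2 ≤ ((⋃ i, A i).ncard : ℝ) := by
      refine le_trans ?_ (hB.trans hsub)
      have h5 : k * (C * t) * (k * t * N) ≤ c₁ * (k * t * N) :=
        mul_le_mul_of_nonneg_right hkC (by positivity)
      nlinarith
    refine le_trans ?_ hhalf
    rcases min_choice (Nat.card ι) ⌊y⌋₊ with hm | hm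
    · have hkn' : k = (Nat.card ι : ℝ) := by rw [hk, hs, hm]
      rw [hkn']
      calc c₁ ^ 2 / (4 * C) * min 1 ((Nat.card ι : ℝ) * t) * N
          ≤ (c₁ / 2) * ((Nat.card ι : ℝ) * t) * N := by
            apply mul_le_mul_of_nonneg_right _ hN
            apply mul_le_mul _ (min_le_right _ _) hmin0 (by positivity)
            rw [div_le_div_iff₀ (by positivity) (by norm_num)]
            nlinarith
        _ = (Nat.card ι : ℝ) * (c₁ * t * N) / 2 := by ring
    · have hkn' : k = (⌊y⌋₊ : ℝ) := by rw [hk, hs, hm]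
      have hky2 : y / 2 ≤ k := hkn' ▸ hfl
      calc c₁ ^ 2 / (4 * C) * min 1 ((Nat.card ι : ℝ) * t) * N
          ≤ c₁ ^ 2 / (4 * C) * 1 * N := by
            apply mul_le_mul_of_nonneg_right _ hN
            exact mul_le_mul_of_nonneg_left (min_le_left _ _) hc0
        _ = y / 2 * (c₁ * t * N) / 2 := by
            rw [hy]
            field_simp
            ring
        _ ≤ k * (c₁ * t * N) / 2 := by
            have := mul_le_mul_of_nonneg_right hky2 (show 0 ≤ c₁ * t * N by positivity)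
            linarith

end Pool.Agent.Lib.MP_640417_ag.Sharp
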