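import Pool.Agent.Lib.MP_640417_ag.Sharp.Final
import Pool.Agent.Lib.MP_640417_ag.Full.All
import Pool.Agent.Lib.MP_640417_ag.All.LowerMain
import Pool.Agent.Lib.MP_640417_ag.Sharp.Binom
import Pool.Agent.Lib.MP_640417_ag.Sharp.CorrA
import Pool.Agent.Lib.MP_640417_ag.Sharp.CorrG
import Pool.Agent.Lib.MP_640417_ag.Sharp.CountM
import Pool.Agent.Lib.MP_640417_ag.Sharp.DihCount4
import Pool.Agent.Lib.MP_640417_ag.Sharp.DihCount6
import Pool.Agent.Lib.MP_640417_ag.Sharp.DihLow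
import Pool.Agent.Lib.MP_640417_ag.Sharp.DihPair
import Pool.Agent.Lib.MP_640417_ag.Sharp.DihSys
import Pool.Agent.Lib.MP_640417_ag.Sharp.EvIndex
import Pool.Agent.Lib.MP_640417_ag.Sharp.EvSp
import Pool.Agent.Lib.MP_640417_ag.Sharp.Fib
import Pool.Agent.Lib.MP_640417_ag.Sharp.FieldEq
import Pool.Agent.Lib.MP_640417_ag.Sharp.GL2
import Pool.Agent.Lib.MP_640417_ag.Sharp.IndepPair
import Pool.Agent.Lib.MP_640417_ag.Sharp.KerDih
import Pool.Agent.Lib.MP_640417_ag.Sharp.Local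
import Pool.Agent.Lib.MP_640417_ag.Sharp.LowDih
import Pool.Agent.Lib.MP_640417_ag.Sharp.LowSp
import Pool.Agent.Lib.MP_640417_ag.Sharp.Par1
import Pool.Agent.Lib.MP_640417_ag.Sharp.ParQ
import Pool.Agent.Lib.MP_640417_ag.Sharp.Rel
import Pool.Agent.Lib.MP_640417_ag.Sharp.SpDim
import Pool.Agent.Lib.MP_640417_ag.Sharp.SpLow
import Pool.Agent.Lib.MP_640417_ag.Sharp.SpSep
import Pool.Agent.Lib.MP_640417_ag.Sharp.SubB2
import Pool.Agent.Lib.MP_640417_ag.Sharp.SubC2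
import Pool.Agent.Lib.MP_640417_ag.Sharp.TwoTail
import Pool.Agent.Lib.MP_640417_ag.Sharp.TwoLog
import Pool.Agent.Lib.MP_640417_ag.Sharp.Transfer
import Pool.Agent.Lib.MP_640417_ag.Sharp.Union

/-!
# Assembly of the sharp criterion
-/

namespace Pool.Agent.Lib.MP_640417_ag.Sharp

open NumberField Module Finset MulAction Pool.Agent.Lib.MP_640417_ag
  Pool.Agent.Lib.MP_640417_ag.Far Pool.Agent.Lib.MP_640417_ag.Full

theorem qFib : StFib := pFib pBinom
theorem qRel : StRel := pRel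
theorem qSpSep : StSpSep := pSpSep pSpDim
theorem qSpLow : StSpLow := pSpLow qFib
theorem qLowSp : StLowSp := pLowSp pUnion qSpLow pSpDim qSpSep pLocal qRel
theorem qDihLow : StDihLow := pDihLow qFib (pDihCount4 pCountM) (pDihCount6 pCountM)
theorem qDihPair : StDihPair := pDihPair pLocal pIndepPair
theorem qLowDih : StLowDih := pLowDih pUnion pDihSys qDihLow qDihPair qRel
theorem qFieldEq : StFieldEq := pFieldEq pCorrA pCorrG
theorem qTwoLog : StTwoLog := pTwoLog (pTwoTail pGL2)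
theorem qSubB2 : StSubB2 := pSubB2 pEvIndex pEvSp pParQ
theorem qSubC2 : StSubC2 := pSubC2 pKerDih

/-- **The upper bound**, for sign functions. -/
theorem upper_sharp : ∃ C : ℝ, 0 < C ∧
    ∀ (E : Type) [Field E] [NumberField E] [IsCMField E] (g : ℕ) (_ : finrank ℚ E = 2 * g)
      (_ : 2 ≤ g) (z : galGroup E) (_ : ∀ φ : Emb E, z • φ = conjEmb φ),
      ((relSet z : Set (Emb E → ℤ)).ncard : ℝ)
      ≤ C * (rate E g + Real.log g ^ (-(1 / 4) : ℝ)) * 2 ^ g :=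
  upper_fields (upper_groups qMult qMod qBig qTwo qSplit pSum pMat irrEx pSubA pPar1 qSubB2 qSubC2
    qTwoLog) qFieldEq

/-- **The lower bound**, for primitive CM types. -/
theorem lower_sharp : ∃ c : ℝ, 0 < c ∧ ∃ g₀ : ℕ,
    ∀ (E : Type) [Field E] [NumberField E] [IsCMField E] (g : ℕ),
      finrank ℚ E = 2 * g → g₀ ≤ g → 2 ^ g ≤ {Φ : Set (Emb E) | IsCMType Φ}.ncard →
      c * min 1 (rate E g) * 2 ^ g ≤
        ({Φ : Set (Emb E) | IsCMType Φ ∧ OddGal.Primitive Φ ∧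
          ∃ v ∈ relLattice Φ, v ≠ 0}.ncard : ℝ) :=
  lower_fields (fun E _ _ _ g hE he hg => All.lowerMain E g hE he hg) qLowSp qLowDih qFieldEq
    pTransfer

end Pool.Agent.Lib.MP_640417_ag.Sharp
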