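import Pool.Agent.Lib.MP_640417_ag.Full.Defs
import Mathlib.GroupTheory.SpecificGroups.Dihedral

/-!
# The sharp criterion: definitions

`G` is a group acting transitively on the set `S`, `s₀` is a point of `S`, `z` is a central element
of `G` acting without fixed points, with `z • z • s = s`. Subgroups containing the stabilizer of `s₀`
correspond to subfields, those which do not contain `z` to nonreal subfields.
-/

namespace Pool.Agent.Lib.MP_640417_ag.Sharp

open Module Finset MulAction Pool.Agent.Lib.MP_640417_ag.Far Pool.Agent.Lib.MP_640417_ag.Full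

section subgroups

variable {S G : Type} [Group G] [MulAction G S]

/-- Nonreal quadratic subfields. -/
def quad (s₀ : S) (z : G) : Set (Subgroup G) :=
  {H | stabilizer G s₀ ≤ H ∧ z ∉ H ∧ H.index = 2}

/-- Nonreal quartic subfields without a nonreal quadratic subfield. -/
def quart (s₀ : S) (z : G) : Set (Subgroup G) :=
  {H | stabilizer G s₀ ≤ H ∧ z ∉ H ∧ H.index = 4 ∧
    ∀ H' : Subgroup G, H ≤ H' → H'.index = 2 → z ∈ H'}

/-- Nonreal sextic subfields with a nonreal quadratic subfield. -/
def sext (s₀ : S) (z : G) : Set (Subgroup G) :=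
  {H | stabilizer G s₀ ≤ H ∧ z ∉ H ∧ H.index = 6 ∧
    ∃ H' : Subgroup G, H ≤ H' ∧ H'.index = 2 ∧ z ∉ H'}

/-- The quotient by `H` is a dihedral group of order `2 n`. -/
def IsDih (n : ℕ) (H : Subgroup G) : Prop :=
  ∃ _ : H.Normal, Nonempty (G ⧸ H ≃* DihedralGroup n)

/-- Nonreal subfields which are Galois with a dihedral group of order `2 n`. -/
def dih (n : ℕ) (s₀ : S) (z : G) : Set (Subgroup G) :=
  {H | stabilizer G s₀ ≤ H ∧ z ∉ H ∧ IsDih n H}

/-- The sign functions with a nonzero odd relation. -/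
def relSet [Fintype S] (z : G) : Set (S → ℤ) :=
  {e | IsSgn z e ∧ ∃ v : S → ℤ, v ≠ 0 ∧ (∀ s, v (z • s) = - v s) ∧
    ∀ γ : G, ∑ s, v s * e (γ • s) = 0}

open Classical in
/-- Odd functions on `G ⧸ H`, orthogonal to the odd characters of order two of `G` which are trivial
on `H`; considered as functions on `S`. -/
noncomputable def sp [Fintype S] (s₀ : S) (z : G) (H : Subgroup G) : Submodule ℚ (S → ℚ) where
  carrier := {f | (∀ s, f (z • s) = - f s) ∧
    (∀ γ γ' : G, γ⁻¹ * γ' ∈ H → f (γ • s₀) = f (γ' • s₀)) ∧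
    ∀ H' : Subgroup G, H ≤ H' → H'.index = 2 → z ∉ H' →
      ∑ s, (if ∃ γ ∈ H', s = γ • s₀ then f s else 0) = 0}
  add_mem' := by
    rintro f f' ⟨h1, h2, h3⟩ ⟨h1', h2', h3'⟩
    refine ⟨fun s => ?_, fun γ γ' h => ?_, fun H' hH hi hz => ?_⟩
    · simp only [Pi.add_apply, h1 s, h1' s]
      ring
    · simp only [Pi.add_apply, h2 γ γ' h, h2' γ γ' h]
    · have h5 : ∑ s, (if ∃ γ ∈ H', s = γ • s₀ then (f + f') s else 0) =
          ∑ s, (if ∃ γ ∈ H', s = γ • s₀ then f s else 0) +
          ∑ s, (if ∃ γ ∈ H', s = γ • s₀ then f' s else 0) := by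
        rw [← Finset.sum_add_distrib]
        apply Finset.sum_congr rfl
        intro s _
        split_ifs
        · simp
        · simp
      rw [h5, h3 H' hH hi hz, h3' H' hH hi hz, add_zero]
  zero_mem' := by
    refine ⟨fun s => ?_, fun γ γ' _ => rfl, fun H' _ _ _ => ?_⟩
    · simp
    · simp
  smul_mem' := by
    rintro c f ⟨h1, h2, h3⟩
    refine ⟨fun s => ?_, fun γ γ' h => ?_, fun H' hH hi hz => ?_⟩
    · simp only [Pi.smul_apply, h1 s, smul_eq_mul]
      ring
    · simp only [Pi.smul_apply, h2 γ γ' h]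
    · have h4 := h3 H' hH hi hz
      have h5 : ∑ s, (if ∃ γ ∈ H', s = γ • s₀ then (c • f) s else 0) =
          c * ∑ s, (if ∃ γ ∈ H', s = γ • s₀ then f s else 0) := by
        rw [Finset.mul_sum]
        apply Finset.sum_congr rfl
        intro s _
        split_ifs
        · simp
        · simp
      rw [h5, h4, mul_zero]

end subgroups

/-- Generators of the dihedral groups of order `8` and `12` in `GL₂(ℤ)`: rotations. -/
def rhoA (n : ℕ) : Matrix (Fin 2) (Fin 2) ℤ :=
  if n = 4 then !![0, -1; 1, 0] else !![0, -1; 1, 1]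

/-- Generators of the dihedral groups of order `8` and `12` in `GL₂(ℤ)`: reflections. -/
def rhoB (n : ℕ) : Matrix (Fin 2) (Fin 2) ℤ :=
  if n = 4 then !![1, 0; 0, -1] else !![0, 1; 1, 0]

/-- The two-dimensional representations of the dihedral groups of order `8` and `12`. -/
def rho (n : ℕ) : DihedralGroup n → Matrix (Fin 2) (Fin 2) ℤ
  | .r i => rhoA n ^ i.val
  | .sr i => rhoB n * rhoA n ^ i.val

section walk

variable {S G : Type} [Fintype S] [Group G] [MulAction G S] {z : G} {N : ℕ}

/-- The sign functions for which the matrix `∑ s, e s • Φ s` is singular and not too large. -/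
def small (M : MatSys S G z 2 N) (g : ℕ) : Set (S → ℤ) :=
  {e | IsSgn z e ∧ (∑ s, e s • M.Φ s).det = 0 ∧ ∀ i j, (∑ s, e s • M.Φ s) i j ^ 2 ≤ 144 * g}

end walk

end Pool.Agent.Lib.MP_640417_ag.Sharp
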