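import Pool.Agent.Lib.MP_640417_ag.Sharp.SpecL

/-!
# The probability of the event attached to a dihedral quotient, from below
-/

namespace Pool.Agent.Lib.MP_640417_ag.Sharp

open Module Finset MulAction Pool.Agent.Lib.MP_640417_ag.Far Pool.Agent.Lib.MP_640417_ag.Full

/-- Sets of sign functions are finite. -/
private lemma dihLow_finite {S G : Type} [Fintype S] [Group G] [MulAction G S] (z : G)
    (A : Set (S → ℤ)) (hA : ∀ e ∈ A, IsSgn z e) : A.Finite := by
  apply Set.Finite.subset (Set.Finite.pi' (fun _ : S => Set.toFinite ({1, -1} : Set ℤ)))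
  intro e he s
  rcases (hA e he).1 s with h | h <;> simp [h]

/-- Counting by the values of a function. -/
private lemma dihLow_count {α β : Type*} (A : Set α) (hA : A.Finite) (D : Set β) (hD : D.Finite)
    (φ : α → β) (K : ℝ) (hK : ∀ d ∈ D, K ≤ ({e | e ∈ A ∧ φ e = d}.ncard : ℝ)) :
    (D.ncard : ℝ) * K ≤ ({e | e ∈ A ∧ φ e ∈ D}.ncard : ℝ) := by
  classical
  have hB : {e | e ∈ A ∧ φ e ∈ D}.Finite := hA.subset (fun e he => he.1)
  have h1 : (hB.toFinset.card : ℝ) = ∑ b ∈ hD.toFinset,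
      ((hB.toFinset.filter (fun a => φ a = b)).card : ℝ) := by
    have h := Finset.card_eq_sum_card_fiberwise (f := φ) (s := hB.toFinset)
      (t := hD.toFinset) (by
        intro e he
        have h2 : e ∈ hB.toFinset := he
        rw [Set.Finite.mem_toFinset] at h2
        have h3 : φ e ∈ hD.toFinset := by
          rw [Set.Finite.mem_toFinset]
          exact h2.2
        exact h3)
    exact_mod_cast h
  have h2 : ∀ b ∈ hD.toFinset, K ≤ ((hB.toFinset.filter (fun a => φ a = b)).card : ℝ) := by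
    intro b hb
    rw [Set.Finite.mem_toFinset] at hb
    have h3 := hK b hb
    have h4 : {e | e ∈ A ∧ φ e = b} = ((hB.toFinset.filter (fun a => φ a = b) : Finset α) :
        Set α) := by
      ext e
      simp only [Set.mem_setOf_eq, Finset.coe_filter, Set.Finite.mem_toFinset]
      constructor
      · rintro ⟨h5, h6⟩
        exact ⟨⟨h5, h6 ▸ hb⟩, h6⟩
      · rintro ⟨h5, h6⟩
        exact ⟨h5.1, h6⟩
    rw [h4, Set.ncard_coe_finset] at h3
    exact h3
  have h3 := Finset.sum_le_sum h2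
  rw [Finset.sum_const, nsmul_eq_mul, ← h1] at h3
  rw [Set.ncard_eq_toFinset_card _ hD, Set.ncard_eq_toFinset_card _ hB]
  exact h3

/-- Odd functions on the dihedral group with a singular matrix. -/
private def dihLowSet (n : ℕ) [NeZero n] (m : ℕ) : Set (DihedralGroup n → ℤ) :=
  {d | (∀ t, d (DihedralGroup.r ((n / 2 : ℕ) : ZMod n) * t) = - d t) ∧ (∀ t, d t ^ 2 ≤ m) ∧
    (∀ t, (2 : ℤ) ∣ m - d t) ∧ (∑ t, d t • rho n t).det = 0}

/-- The sets are finite. -/
private lemma dihLowSet_finite (n : ℕ) [NeZero n] (m : ℕ) : (dihLowSet n m).Finite := by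
  apply Set.Finite.subset (Set.Finite.pi' (fun _ : DihedralGroup n =>
    Set.finite_Icc (-(m : ℤ)) (m : ℤ)))
  rintro d ⟨-, hd, -⟩ t
  have h1 := hd t
  have h2 : |d t| ≤ m := by
    by_contra h
    push Not at h
    have h3 : (m : ℤ) + 1 ≤ |d t| := h
    have h4 : ((m : ℤ) + 1) ^ 2 ≤ |d t| ^ 2 := by
      apply pow_le_pow_left₀ (by positivity) h3
    rw [sq_abs] at h4
    have h5 : (0 : ℤ) ≤ (m : ℤ) := by positivity
    nlinarith
  exact Set.mem_Icc.mpr (abs_le.mp h2)

private lemma dihLow_rr (n : ℕ) [NeZero n] (hn : n = 4 ∨ n = 6) : ∀ t : DihedralGroup n,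
    DihedralGroup.r ((n / 2 : ℕ) : ZMod n) * (DihedralGroup.r ((n / 2 : ℕ) : ZMod n) * t) = t := by
  rcases hn with rfl | rfl
  · decide
  · decide

private lemma dihLow_rne (n : ℕ) [NeZero n] (hn : n = 4 ∨ n = 6) : ∀ t : DihedralGroup n,
    DihedralGroup.r ((n / 2 : ℕ) : ZMod n) * t ≠ t := by
  rcases hn with rfl | rfl
  · decide
  · decide

private lemma dihLow_rho (n : ℕ) [NeZero n] (hn : n = 4 ∨ n = 6) : ∀ (t : DihedralGroup n)
    (i j : Fin 2), rho n t i j ^ 2 ≤ 1 := by
  rcases hn with rfl | rfl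
  · decide
  · decide

/-- The bound for one of the two groups. -/
private lemma dihLow_aux (cF : ℝ) (hcF : 0 < cF)
    (hF : ∀ (S G T : Type) [Fintype S] [Group G] [MulAction G S]
      [Fintype T] [DecidableEq T] (z : G) (zT : T → T) (τ : S → T) (m k g : ℕ),
      (∀ s : S, z • z • s = s) → (∀ t, zT (zT t) = t) → (∀ t, zT t ≠ t) →
      (∀ s, τ (z • s) = zT (τ s)) → (∀ t, (univ.filter (fun s => τ s = t)).card = m) → 1 ≤ m →
      Fintype.card T = 2 * k → Fintype.card S = 2 * g → ∀ d : T → ℤ, (∀ t, d (zT t) = - d t) →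
      (∀ t, d t ^ 2 ≤ m) → (∀ t, (2 : ℤ) ∣ m - d t) →
      (cF / Real.sqrt m) ^ k * 2 ^ g
        ≤ ({e : S → ℤ | IsSgn z e ∧ ∀ t, ∑ s ∈ univ.filter (fun s => τ s = t), e s
          = d t}.ncard : ℝ))
    (n : ℕ) [NeZero n] (hn : n = 4 ∨ n = 6) (c : ℝ) (hc : 0 < c)
    (hcount : ∀ m : ℕ, 2 ≤ m →
      c * (m : ℝ) ^ (n / 2 - 1) * Real.log m ≤ ((dihLowSet n m).ncard : ℝ))
    (S G : Type) [Fintype S] [Group G] [Finite G] [MulAction G S] (z : G)
    (hzz : ∀ s : S, z • z • s = s) (g : ℕ) (hg : Fintype.card S = 2 * g) (hg0 : 36 ≤ g)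
    (M : MatSys S G z 2 (2 * n)) (τ : S → DihedralGroup n) (hM : ∀ s, M.Φ s = rho n (τ s))
    (hτ : ∀ s, τ (z • s) = DihedralGroup.r ((n / 2 : ℕ) : ZMod n) * τ s)
    (hfib : ∀ t, 2 * n * (univ.filter (fun s => τ s = t)).card = Fintype.card S) :
    c * cF ^ n * (Real.log g / g) * 2 ^ g ≤ ((small M g).ncard : ℝ) := by
  classical
  have hn4 : 4 ≤ n := by rcases hn with h | h <;> omega
  have hn6 : n ≤ 6 := by rcases hn with h | h <;> omega
  set m := (univ.filter (fun s => τ s = 1)).card with hm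
  have hmg : n * m = g := by
    have := hfib 1
    rw [hg, mul_assoc] at this
    exact Nat.eq_of_mul_eq_mul_left (by norm_num) this
  have hfib' : ∀ t, (univ.filter (fun s => τ s = t)).card = m := by
    intro t
    have h1 := hfib t
    rw [hg, mul_assoc] at h1
    have h2 : n * (univ.filter (fun s => τ s = t)).card = n * m := by
      rw [hmg]
      exact Nat.eq_of_mul_eq_mul_left (by norm_num) h1
    exact Nat.eq_of_mul_eq_mul_left (by omega) h2
  have hm6 : 6 ≤ m := by
    by_contra h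
    push Not at h
    have : n * m ≤ 6 * 5 := Nat.mul_le_mul hn6 (by omega)
    omega
  have hm0 : (0 : ℝ) < m := by exact_mod_cast (show 0 < m by omega)
  have hg0' : (0 : ℝ) < g := by exact_mod_cast (show 0 < g by omega)
  have hcard : Fintype.card (DihedralGroup n) = 2 * n := DihedralGroup.card
  -- the counting
  let A : Set (S → ℤ) := {e | IsSgn z e}
  have hA : A.Finite := dihLow_finite z A (fun e he => he)
  let φ : (S → ℤ) → (DihedralGroup n → ℤ) := fun e t =>
    ∑ s ∈ univ.filter (fun s => τ s = t), e s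
  have h1 := dihLow_count A hA (dihLowSet n m) (dihLowSet_finite n m) φ
    ((cF / Real.sqrt m) ^ n * 2 ^ g) (by
      rintro d ⟨hd1, hd2, hd3, -⟩
      refine (hF S G (DihedralGroup n) z
        (fun t => DihedralGroup.r ((n / 2 : ℕ) : ZMod n) * t) τ m n g hzz (dihLow_rr n hn)
        (dihLow_rne n hn) hτ hfib' (by omega) hcard hg d hd1 hd2 hd3).trans (le_of_eq ?_)
      congr 2
      ext e
      simp only [Set.mem_setOf_eq, A, φ]
      constructor
      · rintro ⟨h2, h3⟩
        exact ⟨h2, funext h3⟩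
      · rintro ⟨h2, h3⟩
        exact ⟨h2, fun t => congrFun h3 t⟩)
  -- such functions are in the set
  have h2 : {e | e ∈ A ∧ φ e ∈ dihLowSet n m} ⊆ small M g := by
    rintro e ⟨he, hd1, hd2, hd3, hd4⟩
    have h3 : ∑ s, e s • M.Φ s = ∑ t, φ e t • rho n t := by
      rw [← Finset.sum_fiberwise univ τ (fun s => e s • M.Φ s)]
      apply Finset.sum_congr rfl
      intro t _
      change _ = (∑ s ∈ univ.filter (fun s => τ s = t), e s) • rho n t
      rw [Finset.sum_smul]
      apply Finset.sum_congr rfl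
      intro s hs
      rw [Finset.mem_filter] at hs
      rw [hM s, hs.2]
    refine ⟨he, ?_, ?_⟩
    · rw [h3]
      exact hd4
    · intro i j
      rw [h3]
      have h4 : (∑ t, φ e t • rho n t) i j = ∑ t, φ e t * rho n t i j := by
        rw [Matrix.sum_apply]
        apply Finset.sum_congr rfl
        intro t _
        rw [Matrix.smul_apply, smul_eq_mul]
      rw [h4]
      have h5 := sq_sum_le_card_mul_sum_sq (s := (univ : Finset (DihedralGroup n)))
        (f := fun t => φ e t * rho n t i j)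
      have h6 : ∑ t, (φ e t * rho n t i j) ^ 2 ≤ ∑ _t : DihedralGroup n, (m : ℤ) := by
        apply Finset.sum_le_sum
        intro t _
        rw [mul_pow]
        have h7 := hd2 t
        have h8 := dihLow_rho n hn t i j
        have h9 : 0 ≤ φ e t ^ 2 := sq_nonneg _
        nlinarith
      rw [Finset.sum_const, Finset.card_univ, hcard, nsmul_eq_mul] at h6
      rw [Finset.card_univ, hcard] at h5
      have h7 : (g : ℤ) = n * m := by rw [← hmg]; push_cast; ring
      have h8 : (n : ℤ) ≤ 6 := by exact_mod_cast hn6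
      have h9 : (0 : ℤ) ≤ (n : ℤ) * m := by positivity
      have h10 : (0 : ℤ) ≤ (n : ℤ) := by positivity
      push_cast at h5 h6 ⊢
      rw [h7]
      calc (∑ t, φ e t * rho n t i j) ^ 2 ≤ 2 * (n : ℤ) * ∑ t, (φ e t * rho n t i j) ^ 2 := h5
        _ ≤ 2 * (n : ℤ) * (2 * (n : ℤ) * m) := by
            apply mul_le_mul_of_nonneg_left h6
            positivity
        _ ≤ 144 * ((n : ℤ) * m) := by nlinarith
  have h3 : ({e | e ∈ A ∧ φ e ∈ dihLowSet n m}.ncard : ℝ) ≤ ((small M g).ncard : ℝ) := by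
    exact_mod_cast Set.ncard_le_ncard h2 (dihLow_finite z _ (fun e he => he.1))
  refine le_trans ?_ (h1.trans h3)
  have h4 := hcount m (by omega)
  have hlogm : 0 ≤ Real.log m := Real.log_nonneg (by exact_mod_cast (show 1 ≤ m by omega))
  have hsq : (Real.sqrt m) ^ n = (m : ℝ) ^ (n / 2) := by
    have hev : n = 2 * (n / 2) := by rcases hn with h | h <;> omega
    conv_lhs => rw [hev]
    rw [pow_mul, Real.sq_sqrt hm0.le]
  have h5 : c * (m : ℝ) ^ (n / 2 - 1) * Real.log m * ((cF / Real.sqrt m) ^ n * 2 ^ g)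
      = c * cF ^ n * (Real.log m / m) * 2 ^ g := by
    rw [div_pow, hsq]
    have h6 : (m : ℝ) ^ (n / 2) = (m : ℝ) ^ (n / 2 - 1) * m := by
      rw [← pow_succ]
      congr 1
      omega
    rw [h6]
    have h7 : (m : ℝ) ^ (n / 2 - 1) ≠ 0 := by positivity
    field_simp
  have h6 : Real.log g / g ≤ Real.log m / m := by
    have h7 : Real.log g ≤ 2 * Real.log m := by
      have h8 : (g : ℝ) ≤ (m : ℝ) ^ 2 := by
        have h9 : g ≤ m ^ 2 := by
          rw [← hmg, sq]
          exact Nat.mul_le_mul_right m (by omega)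
        exact_mod_cast h9
      calc Real.log g ≤ Real.log ((m : ℝ) ^ 2) := Real.log_le_log hg0' h8
        _ = 2 * Real.log m := by rw [Real.log_pow]; push_cast; ring
    have h8 : (g : ℝ) = n * m := by rw [← hmg]; push_cast; ring
    rw [div_le_div_iff₀ hg0' hm0, h8]
    have h9 : (4 : ℝ) ≤ n := by exact_mod_cast hn4
    have h10 : 0 ≤ Real.log m * m := by positivity
    rw [h8] at h7
    nlinarith
  calc c * cF ^ n * (Real.log g / g) * 2 ^ g
      ≤ c * cF ^ n * (Real.log m / m) * 2 ^ g := by gcongr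
    _ = c * (m : ℝ) ^ (n / 2 - 1) * Real.log m * ((cF / Real.sqrt m) ^ n * 2 ^ g) := h5.symm
    _ ≤ ((dihLowSet n m).ncard : ℝ) * ((cF / Real.sqrt m) ^ n * 2 ^ g) := by gcongr

/-- **The probability of the event attached to a dihedral quotient, from below.** -/
theorem pDihLow (hFib : StFib) (hDihCount4 : StDihCount4) (hDihCount6 : StDihCount6) :
    StDihLow := by
  classical
  obtain ⟨cF, hcF, hF⟩ := hFib
  obtain ⟨c₄, hc₄, h₄⟩ := hDihCount4
  obtain ⟨c₆, hc₆, h₆⟩ := hDihCount6
  refine ⟨min (c₄ * cF ^ 4) (c₆ * cF ^ 6), by positivity, 36, ?_⟩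
  intro n _ hn S G _ _ _ _ z hzz g hg hg0 M τ hM hτ hfib
  have hlog : 0 ≤ Real.log g / g := by
    have h1 : (1 : ℝ) ≤ g := by exact_mod_cast (show 1 ≤ g by omega)
    have := Real.log_nonneg h1
    positivity
  rcases hn with hn' | hn'
  · subst hn'
    have h1 := dihLow_aux cF hcF hF 4 (Or.inl rfl) c₄ hc₄ (by
      intro m hm
      have h2 := h₄ m hm
      rw [show 4 / 2 - 1 = 1 by norm_num, pow_one]
      exact h2) S G z hzz g hg hg0 M τ hM hτ hfib
    refine le_trans ?_ h1
    have h2 : min (c₄ * cF ^ 4) (c₆ * cF ^ 6) ≤ c₄ * cF ^ 4 := min_le_left _ _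
    gcongr
  · subst hn'
    have h1 := dihLow_aux cF hcF hF 6 (Or.inr rfl) c₆ hc₆ (by
      intro m hm
      have h2 := h₆ m hm
      rw [show 6 / 2 - 1 = 2 by norm_num]
      exact h2) S G z hzz g hg hg0 M τ hM hτ hfib
    refine le_trans ?_ h1
    have h2 : min (c₄ * cF ^ 4) (c₆ * cF ^ 6) ≤ c₆ * cF ^ 6 := min_le_right _ _
    gcongr

end Pool.Agent.Lib.MP_640417_ag.Sharp
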