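import Pool.Agent.Lib.MP_640417_ag.Sharp.Defs

/-!
# The sharp criterion: statements of the steps for the lower bound

Conventions: `|S| = 2 g`, `X` is a set of representatives of the pairs `{s, z • s}`, `|X| = g`; there
are `2 ^ g` sign functions. Constants may be chosen as small (or large) as convenient.
-/

namespace Pool.Agent.Lib.MP_640417_ag.Sharp

open Module Finset MulAction Pool.Agent.Lib.MP_640417_ag.Far Pool.Agent.Lib.MP_640417_ag.Full

/-- A union of events which are independent in pairs up to a constant.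

Proof. Enlarge `C₁` such that `c₁ ≤ C₁`. Let `n = Nat.card ι`; for `n = 0` the left side is `0`. For
every set of `k ≤ n` indices `|⋃ A i| ≥ k c₁ t N - (k ^ 2 / 2) C₁ t ^ 2 N` (Bonferroni:
`|⋃ A i| ≥ ∑ |A i| - ∑_{i < j} |A i ∩ A j|`). If `c₁ ≥ 2 C₁ t` let `k = min n ⌊c₁ / (C₁ t)⌋`: then
`k C₁ t ≤ c₁`, so `|⋃ A i| ≥ k c₁ t N / 2`, and this is `n t c₁ N / 2` or at least
`c₁ ^ 2 N / (4 C₁)`, as `⌊y⌋ ≥ y / 2` for `y ≥ 1`. If `c₁ < 2 C₁ t` use one event:
`c₁ t N ≥ c₁ ^ 2 N / (2 C₁)`. -/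
def StUnion : Prop := ∀ c₁ C₁ : ℝ, 0 < c₁ → 0 < C₁ → ∃ c : ℝ, 0 < c ∧ ∀ (ι Ω : Type) [Finite ι]
  (A : ι → Set Ω) (_ : ∀ i, (A i).Finite) (N t : ℝ), 0 ≤ N → 0 < t → t ≤ 1 →
  (∀ i, c₁ * t * N ≤ (A i).ncard) →
  (∀ i j, i ≠ j → ((A i ∩ A j).ncard : ℝ) ≤ C₁ * t ^ 2 * N) →
  c * min 1 (Nat.card ι * t) * N ≤ ((⋃ i, A i).ncard : ℝ)

/-- Central binomial coefficients.

Proof. `m.choose (m / 2) ≥ 2 ^ m / (2 √m)` (induction; for even `m = 2 n` see `moment_central_ge` in
`All/Moment.lean`: `16 ^ n ≤ centralBinom n ^ 2 * (4 n)`, and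
`choose (2 n + 1) n = choose (2 n + 2) (n + 1) / 2`). By symmetry let `j = ⌊m / 2⌋ - k ≥ 0`,
`4 k ^ 2 ≤ (2 j - m) ^ 2 ≤ m`. `choose m j / choose m ⌊m / 2⌋ = ∏_{i < k} (⌊m/2⌋ - i) / (⌈m/2⌉ + i + 1)
≥ ∏_{i < k} (1 - (2 i + 2) / (m / 2 + i + 1))`, which is at least
`1 - ∑_{i < k} (4 i + 4) / m ≥ 1 - 2 k (k + 1) / m`; for `m ≥ 64` this is at least `1/4` as
`k ≤ √m / 2`. For `m < 64` use `choose m j ≥ 1`. -/
def StBinom : Prop := ∃ c : ℝ, 0 < c ∧ ∀ m j : ℕ, 1 ≤ m → j ≤ m → ((2 * j : ℤ) - m) ^ 2 ≤ m →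
  c * 2 ^ m / Real.sqrt m ≤ (m.choose j : ℝ)

/-- The number of sign functions with given sums over the fibres (from `StBinom`).

Proof. Let `t 1, …, t k` be representatives of the pairs `{t, zT t}`. A sign function is determined by
its restrictions to the fibres of the `t i`, and these `k m = g` values are arbitrary (the fibre of
`zT t` is `z` applied to the fibre of `t`). The sum over the fibre of `t i` is `d (t i)` iff exactly
`(m + d (t i)) / 2` of the values are `1`. So the number is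
`∏ choose m ((m + d (t i)) / 2) ≥ ∏ (c 2 ^ m / √m)`. -/
def StFib : Prop := ∃ c : ℝ, 0 < c ∧ ∀ (S G T : Type) [Fintype S] [Group G] [MulAction G S]
  [Fintype T] [DecidableEq T] (z : G) (zT : T → T) (τ : S → T) (m k g : ℕ),
  (∀ s : S, z • z • s = s) → (∀ t, zT (zT t) = t) → (∀ t, zT t ≠ t) →
  (∀ s, τ (z • s) = zT (τ s)) → (∀ t, (univ.filter (fun s => τ s = t)).card = m) → 1 ≤ m →
  Fintype.card T = 2 * k → Fintype.card S = 2 * g → ∀ d : T → ℤ, (∀ t, d (zT t) = - d t) →
  (∀ t, d t ^ 2 ≤ m) → (∀ t, (2 : ℤ) ∣ m - d t) →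
  (c / Real.sqrt m) ^ k * 2 ^ g
    ≤ ({e : S → ℤ | IsSgn z e ∧ ∀ t, ∑ s ∈ univ.filter (fun s => τ s = t), e s = d t}.ncard : ℝ)

/-- The local bound for the values of a sign function on a stable space.

Proof. Let `d ≥ 1` (for `d = 0` the left side is at most `2 ^ g`, `ncard_isSgn_le`), `g = X.card`,
`p` a prime with `√g + 2 ≤ p ≤ 4 √g + 8` (Bertrand), `W = red p U`, which is stable, odd and of
dimension `d` (`StRed`). For the `e` in the set `∑ s, w s (e s - e₀ s) = 0` for all `w ∈ W`. If `e₀`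
were absent `ncard_orth_le` (`FourierPack.lean`) would give the bound `2 ^ g κ ^ d`, `κ = cosAvg p a`,
`a = g / d`. With `e₀` the Fourier formula of its proof only gets factors of absolute value `1`. This
has already been carried out in `Full/Lclt.lean` (proof of `StLclt`), copy the argument from there.
Finally `κ ≤ 1 / p + 1 / √a ≤ 2 √d / √g` by `StKappa` (2) (`pKappa` in `Full/Kappa.lean`). -/
def StLocal : Prop := ∀ d : ℕ, ∃ C : ℝ, 0 < C ∧ ∀ (S G : Type) [Fintype S] [Group G] [Finite G]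
  [MulAction G S] [IsPretransitive G S] (z : G) (_ : ∀ s : S, z • z • s = s) (X : Finset S)
  (_ : ∀ s, s ∈ X ↔ z • s ∉ X) (_ : 1 ≤ X.card) (U : Submodule ℚ (S → ℚ)), IsStab G U →
  IsOddSp z U → finrank ℚ U = d → ∀ e₀ : S → ℤ, IsSgn z e₀ →
  ({e : S → ℤ | IsSgn z e ∧ ∀ f ∈ U, ∑ s, f s * (e s : ℚ) = ∑ s, f s * (e₀ s : ℚ)}.ncard : ℝ)
    ≤ C * (X.card : ℝ) ^ (-(d / 2 : ℝ)) * 2 ^ X.card

/-- Many singular integer matrices.

Proof. For odd `p, q ≥ 1` with `gcd (p, q) = 1` and integers `t, t'` with `t + t'` odd and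
`max(p, q) * max(|t|, |t'|) ≤ R` take `A = !![p t, p t'; q t, q t']`. Then `det A = 0`,
`A 0 0 + A 1 1 = p t + q t' ≡ t + t'` and `A 0 1 + A 1 0 = p t' + q t ≡ t + t'` are odd. `(p, q)` is
determined by `A ≠ 0` (positive primitive vector spanning the column space), and then `t, t'`. For
given `(p, q)` with `max(p, q) = h ≤ R` there are at least `(R / h) ^ 2 / 2` pairs `(t, t')`. So the number
is at least `(R ^ 2 / 2) ∑_{h ≤ R} a(h) / h ^ 2` with `a(h)` the number of odd coprime pairs `(p, q)` with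
`max(p, q) = h`. The number of odd coprime pairs with `p, q ≤ H`: there are at least `(H / 2 - 1) ^ 2`
odd pairs, and at most `((H / l + 1) / 2) ^ 2` of them are divisible by a given odd `l ≥ 3`, `l ≤ H`; the
sum over `l` is at most `(H ^ 2 / 4) ∑_{l odd ≥ 3} 1 / l ^ 2 + H (1 + log H)`, and
`∑_{l odd ≥ 3} 1 / l ^ 2 ≤ 1/9 + (1/4) ∑_{k ≥ 2} 1 / (k (k + 1)) = 1/9 + 1/8 < 1/4`. So for large `H` there
are at least `H ^ 2 / 8` such pairs. Hence at least `(4 H) ^ 2 / 8 - ((H + 1) / 2) ^ 2 ≥ H ^ 2` of them have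
`H < max(p, q) ≤ 4 H`, they contribute at least `1/16` to `∑ a(h) / h ^ 2`; there are `≥ c log R`
disjoint ranges of this kind up to `R`. For small `R` the matrix `!![1, 1; 0, 0]` is in the set. -/
def StCountM : Prop := ∃ c : ℝ, 0 < c ∧ ∀ R : ℕ, 2 ≤ R → c * (R : ℝ) ^ 2 * Real.log R ≤
  ({A : Matrix (Fin 2) (Fin 2) ℤ | (∀ i j, |A i j| ≤ R) ∧ A.det = 0 ∧ Odd (A 0 0 + A 1 1) ∧
    Odd (A 0 1 + A 1 0)}.ncard : ℝ)

/-- Many odd functions on the dihedral group of order `8` with a singular matrix (from `StCountM`).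

Proof. The sum is `2 (d(1) 1 + d(r) A + d(sr 0) B + d(sr 1) B A)` with `A = rhoA 4`, `B = rhoB 4`,
`B A = !![0, -1; -1, 0]`, that is twice
`!![d(1) + d(sr 0), -d(r) - d(sr 1); d(r) - d(sr 1), d(1) - d(sr 0)]`. The four values are arbitrary
(the other four are their negatives: `r 2 * r i = r (i + 2)`, `r 2 * sr i = sr (i + 2)` or so). For a
matrix `Q` of `StCountM` with `R = ⌊√m / 2⌋` (if this is at least `2`; `d` with all values in
`{0}` (even `m`) or all values `± 1` (odd `m`) otherwise) put, for odd `m`, `d(1) = Q 0 0 + Q 1 1`,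
`d(sr 0) = Q 0 0 - Q 1 1`, `d(r) = Q 1 0 - Q 0 1`, `d(sr 1) = - Q 0 1 - Q 1 0`: these are odd, at most
`√m` in absolute value, and the matrix is `4 Q`. For even `m` take `R = ⌊√m / 4⌋` and twice these
values. -/
def StDihCount4 : Prop := ∃ c : ℝ, 0 < c ∧ ∀ m : ℕ, 2 ≤ m → c * (m : ℝ) * Real.log m ≤
  ({d : DihedralGroup 4 → ℤ | (∀ t, d (DihedralGroup.r 2 * t) = - d t) ∧ (∀ t, d t ^ 2 ≤ m) ∧
    (∀ t, (2 : ℤ) ∣ m - d t) ∧ (∑ t, d t • rho 4 t).det = 0}.ncard : ℝ)

/-- Many odd functions on the dihedral group of order `12` with a singular matrix (from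
`StCountM`).

Proof. `A = rhoA 6` satisfies `A ^ 3 = - 1`, `1 - A + A ^ 2 = 0`. Six values of `d` are arbitrary, at
`1, r 1, r 2, sr 0, sr 1, sr 2`, and the sum is twice
`d(1) + d(r) A + d(r 2) A ^ 2 + B (d(sr 0) + d(sr 1) A + d(sr 2) A ^ 2)`. The matrices `1, A, B, B A` are
linearly independent over `ℚ` and span a sublattice of index `3`: for every integer matrix `Q` there
are integers with `3 Q = x 1 + y A + u B + v B A`, bounded by a constant times the entries of `Q`
(compute them). For a matrix `Q` of `StCountM` (only `det Q = 0` is used, `R = ⌊√m / K⌋` with a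
constant `K`) and integers `k, l` of the parity of `m`, at most `√m / 4` in absolute value, put
`d(1) = 2 x + k`, `d(r) = 2 y - k`, `d(r 2) = k`, and similarly `d(sr 0) = 2 u + l`,
`d(sr 1) = 2 v - l`, `d(sr 2) = l`: because `1 - A + A ^ 2 = 0` the matrix is `12 Q`, `d` has the right
parity (note `- k ≡ k`), and `(Q, k, l)` is determined by `d`. There are `≥ c √m` choices of `k`, of `l`
(at least one for every `m ≥ 1`: `0` or `1`... take the bound `√m / 4` replaced by `max 1 (√m / 4)` for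
small `m`), and `c m log m` choices of `Q`. For small `m` it is enough that the set is not empty: all
values `0`, resp. `d(1) = 1, d(r) = - 1, d(r 2) = 1` and the same for `sr`. -/
def StDihCount6 : Prop := ∃ c : ℝ, 0 < c ∧ ∀ m : ℕ, 2 ≤ m → c * (m : ℝ) ^ 2 * Real.log m ≤
  ({d : DihedralGroup 6 → ℤ | (∀ t, d (DihedralGroup.r 3 * t) = - d t) ∧ (∀ t, d t ^ 2 ≤ m) ∧
    (∀ t, (2 : ℤ) ∣ m - d t) ∧ (∑ t, d t • rho 6 t).det = 0}.ncard : ℝ)

/-- The matrix system of a dihedral quotient.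

Proof. `rho n` is multiplicative (`by decide` for `n = 4`, `by decide +kernel` for `n = 6`) and
`rho n x = 1` only for `x = 1`. Let `π : G → G ⧸ H ≃* DihedralGroup n`, `R γ = rho n (π γ)`,
`τ (γ • s₀) = π γ`, well defined as the stabilizer is in `H = ker π`; `Φ s = rho n (τ s)`. `π z` is
central (decide: the center of the dihedral group is `{1, r (n / 2)}`) and not `1`, so it is
`r (n / 2)`, and `rho n (r (n / 2)) = - 1`. `indep`: the matrices `rho n (1), rho n (r 1), rho n (sr 0),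
rho n (sr 1)` have determinant `± 4` (`n = 4`) or `± 3` (`n = 6`) as vectors in `ℤ ^ 4`, so they are a
basis modulo `p` for `p ∤ 2 n`. The fibres of `τ` have the same number of elements because `G` is
transitive and `τ` is onto with `τ (γ • s) = π γ * τ s`. -/
def StDihSys : Prop := ∀ (n : ℕ) [NeZero n], n = 4 ∨ n = 6 → ∀ (S G : Type) [Fintype S] [Group G]
  [Finite G] [MulAction G S] [IsPretransitive G S] (s₀ : S) (z : G) (_ : ∀ γ : G, γ * z = z * γ)
  (_ : ∀ s : S, z • z • s = s) (H : Subgroup G), stabilizer G s₀ ≤ H → z ∉ H → IsDih n H →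
  ∃ (M : MatSys S G z 2 (2 * n)) (τ : S → DihedralGroup n), (∀ γ, M.R γ = 1 ↔ γ ∈ H) ∧
    (∀ s, M.Φ s = rho n (τ s)) ∧
    (∀ s, τ (z • s) = DihedralGroup.r ((n / 2 : ℕ) : ZMod n) * τ s) ∧
    ∀ t, 2 * n * (univ.filter (fun s => τ s = t)).card = Fintype.card S

/-- The probability of the event attached to a dihedral quotient, from below (from `StFib`,
`StDihCount4`, `StDihCount6`).

Proof. Let `m` be the size of the fibres, `n m = g`. For each of the functions `d` of `StDihCount` the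
sign functions with `∑_{τ s = t} e s = d t` for all `t` number at least `(c / √m) ^ n 2 ^ g` (`StFib` with
`zT t = r (n / 2) * t`, `k = n`), these sets are disjoint for different `d`, and for such `e`
`∑ s, e s • Φ s = ∑ t, d t • rho n t` is singular, with entries at most `2 n √m` in absolute value
(the entries of `rho n t` are `0, ± 1`, decide), and `4 n ^ 2 m = 4 n g ≤ 144 g`. The total is at least
`c' m ^ (n / 2 - 1) log m * m ^ (- n / 2) 2 ^ g = c' (log m / m) 2 ^ g`; `m = g / n ≥ 2` for large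
`g`. -/
def StDihLow : Prop := ∃ c : ℝ, 0 < c ∧ ∃ g₀ : ℕ, ∀ (n : ℕ) [NeZero n], n = 4 ∨ n = 6 →
  ∀ (S G : Type) [Fintype S] [Group G] [Finite G] [MulAction G S] (z : G)
  (_ : ∀ s : S, z • z • s = s) (g : ℕ) (_ : Fintype.card S = 2 * g) (_ : g₀ ≤ g)
  (M : MatSys S G z 2 (2 * n)) (τ : S → DihedralGroup n), (∀ s, M.Φ s = rho n (τ s)) →
  (∀ s, τ (z • s) = DihedralGroup.r ((n / 2 : ℕ) : ZMod n) * τ s) →
  (∀ t, 2 * n * (univ.filter (fun s => τ s = t)).card = Fintype.card S) →
  c * (Real.log g / g) * 2 ^ g ≤ ((small M g).ncard : ℝ)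

/-- Independence of two matrix systems with different kernels.

Proof. First, `indep` over `ℚ`: if `tr (Φ s C) = 0` for all `s`, `C` rational, then `C = 0` (otherwise
scale `C` to an integer matrix not divisible by a prime `p ∤ N`, and reduce modulo `p`). Let
`f s = tr (Φ s A) = - tr (Φ' s A')`. If `M.R ν = 1` then `f (ν s) = tr (R ν Φ s A) = f s`, and the same
for `M'.R ν = 1`. Choose `ν` with `R ν ≠ 1`, `R' ν = 1`. All conjugates `γ ν γ⁻¹` have the same
properties. So `tr ((R (γ ν γ⁻¹) - 1) Φ s A) = 0` for all `s` and `γ`. Let `s` be a point with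
`Φ s = 1`; `tr ((R (γ ν γ⁻¹) - 1) R δ A) = 0` for all `δ`, hence (cyclic invariance of the trace,
independence; every `Φ s'` is an `R δ`) `A (R (γ ν γ⁻¹) - 1) = 0`, i.e. `A R γ (R ν - 1) = 0` for all
`γ`. If `A ≠ 0`, let `a` be a nonzero row of `A` and `b` a nonzero column of `R ν - 1`: `a R γ b = 0` for
all `γ`, so `tr (R γ (b a)) = 0` for all `γ`, and `b a = 0` by independence, a contradiction. So
`A = 0`. In the same way `A' = 0`. -/
def StIndepPair : Prop := ∀ (S G : Type) [Fintype S] [Group G] [Finite G] [MulAction G S]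
  [IsPretransitive G S] (z : G) (N : ℕ) (M M' : MatSys S G z 2 N), 0 < N →
  (∃ ν, M.R ν = 1 ∧ M'.R ν ≠ 1) → (∃ ν, M.R ν ≠ 1 ∧ M'.R ν = 1) →
  ∀ A A' : Matrix (Fin 2) (Fin 2) ℚ,
  (∀ s, ((M.Φ s).map (Int.cast : ℤ → ℚ) * A).trace
    + ((M'.Φ s).map (Int.cast : ℤ → ℚ) * A').trace = 0) → A = 0 ∧ A' = 0

/-- The probability of two events attached to different matrix systems (from `StLocal`,
`StIndepPair`, and `pSing` in `Full/Sing.lean`).

Proof. The functions `s ↦ tr (Φ s A) + tr (Φ' s A')` form a stable space `U` of odd functions of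
dimension `8` (`StIndepPair`; `Φ (γ s) = R γ Φ s`). For given integer matrices `B, B'` the number of
sign functions with `∑ s, e s • Φ s = B` and `∑ s, e s • Φ' s = B'` is at most `C g ^ (-4) 2 ^ g`: if there
is one, `e₀`, then all are in the set of `StLocal`. The number of possible `B` with `det B = 0` and
entries of square at most `144 g` is at most `C R ^ 2 (1 + log R) ≤ C' g log g`, `R = ⌈12 √g⌉`
(`StSing` for `2`, `pSing`), the same for `B'`. -/
def StDihPair : Prop := ∃ C : ℝ, 0 < C ∧ ∀ (S G : Type) [Fintype S] [Group G] [Finite G]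
  [MulAction G S] [IsPretransitive G S] (z : G) (_ : ∀ s : S, z • z • s = s) (X : Finset S)
  (_ : ∀ s, s ∈ X ↔ z • s ∉ X) (g : ℕ) (_ : X.card = g) (_ : 2 ≤ g) (N : ℕ)
  (M M' : MatSys S G z 2 N), 0 < N → (∃ ν, M.R ν = 1 ∧ M'.R ν ≠ 1) →
  (∃ ν, M.R ν ≠ 1 ∧ M'.R ν = 1) →
  ((small M g ∩ small M' g).ncard : ℝ) ≤ C * (Real.log g / g) ^ 2 * 2 ^ g

/-- The space attached to a quartic or sextic subfield.

Proof. `z ^ 2` acts trivially, so it lies in the stabilizer of `s₀` and in `H`; as `z ∉ H` is central,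
`z` acts without fixed points on `G ⧸ H`, with square `1`. `f ∈ sp` corresponds to an odd function `F` on
`G ⧸ H`, `f (γ s₀) = F (γ H)`. For `H ∈ quart` the last condition is empty and the dimension is `2`.
For `H ∈ sext` there is exactly one subgroup `H'` of index `2` with `H ≤ H'` and `z ∉ H'` (the
intersection of two different ones would have index `4`, which does not divide `6`), and the last
condition is one linear condition on the `3`-dimensional space of odd functions on `G ⧸ H`, which is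
not satisfied by the character of `H'`, so the dimension is `2`. Stability: the first two conditions
are clear (`z` central). For the third: `{s | ∃ γ ∈ H', s = γ s₀}` is stable under `δ ∈ H'`, and for
`δ ∉ H'` it is mapped to its complement, which is its image under `z`, so the sum changes its sign
for odd `f`. Last statement: suppose `γ ∉ H`. Points of `G ⧸ H`: for `quart` there is an odd `F` with
`F(H) = 1` and `F(γ H) = 0` or `- 1`. For `sext` the three cosets in `H'` are `a = H, b, c` and the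
others are `z a, z b, z c`; `F(a) = 2, F(b) = F(c) = - 1` (and odd) is in the space and takes the value
`2` only at `a`. -/
def StSpDim : Prop := ∀ (S G : Type) [Fintype S] [Group G] [Finite G] [MulAction G S]
  [IsPretransitive G S] (s₀ : S) (z : G) (_ : ∀ γ : G, γ * z = z * γ)
  (_ : ∀ s : S, z • z • s = s) (H : Subgroup G), H ∈ quart s₀ z ∪ sext s₀ z →
  IsStab G (sp s₀ z H) ∧ IsOddSp z (sp s₀ z H) ∧ finrank ℚ (sp s₀ z H) = 2 ∧
    ∀ γ : G, (∀ f ∈ sp s₀ z H, f (γ • s₀) = f s₀) → γ ∈ H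

/-- Different subfields give independent spaces (from `StSpDim`).

Proof. Let `I` be the intersection, stable, of dimension at most `2`, and suppose `I ≠ ⊥`. If
`dim I = 2` the two spaces are equal, and `γ ∈ H` iff `f (γ s₀) = f s₀` for all `f` in this space, iff
`γ ∈ H'`; contradiction. If `dim I = 1`, `I = ℚ f`, `f (γ s) = χ(γ) f s` with `χ(γ) = ± 1` (finite
order), `χ(z) = - 1`, `f s₀ ≠ 0`. Let `H''` be the kernel of `χ`; its index is `2`, `z ∉ H''`, and `H ≤ H''`
because `f (γ s₀) = f s₀` for `γ ∈ H`. So `∑_{s ∈ H'' s₀} f s = 0` as `f ∈ sp s₀ z H`; but `f = f s₀ ≠ 0` on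
`H'' s₀`, a contradiction. -/
def StSpSep : Prop := ∀ (S G : Type) [Fintype S] [Group G] [Finite G] [MulAction G S]
  [IsPretransitive G S] (s₀ : S) (z : G) (_ : ∀ γ : G, γ * z = z * γ)
  (_ : ∀ s : S, z • z • s = s) (H H' : Subgroup G), H ∈ quart s₀ z ∪ sext s₀ z →
  H' ∈ quart s₀ z ∪ sext s₀ z → H ≠ H' → sp s₀ z H ⊓ sp s₀ z H' = ⊥

/-- The probability of the event attached to a quartic or sextic subfield (from `StFib`).

Proof. Let `T = G ⧸ H` (as a type with `2 k` elements, `k = 2` or `3`), `τ (γ s₀) = γ H`,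
`zT (γ H) = z γ H`, the fibres have `m = g / k` elements. `H ∈ quart`, `4 ∣ g`: `m = g / 2` is even, take
`d = 0`: the sign functions with zero sums over all the fibres are orthogonal to `sp`, because
the functions in `sp` are constant on the fibres; their number is at least
`(c / √m) ^ 2 2 ^ g = 2 c ^ 2 2 ^ g / g`. `H ∈ sext`: let `H'` be as in the proof of `StSpDim` and `χ` the
odd character `G → {± 1}` with kernel `H'`. For an integer `a ≡ m` modulo `2`, `a ^ 2 ≤ m`, take
`d(γ H) = χ(γ) a`. If the sums of `e` over the fibres are given by `d` then for `f ∈ sp`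
`∑ s, f s e s = ∑_{γ H} F(γ H) χ(γ) a = 2 a ∑_{γ H ⊆ H'} F(γ H) = (2 a / m) ∑_{s ∈ H' s₀} f s = 0`. The
number of `a` is at least `√m / 2` (and at least `1`), different `a` give disjoint sets, and each has
at least `(c / √m) ^ 3 2 ^ g` elements. -/
def StSpLow : Prop := ∃ c : ℝ, 0 < c ∧ ∀ (S G : Type) [Fintype S] [Group G] [Finite G]
  [MulAction G S] [IsPretransitive G S] (s₀ : S) (z : G) (_ : ∀ γ : G, γ * z = z * γ)
  (_ : ∀ s : S, z • z • s = s) (g : ℕ) (_ : Fintype.card S = 2 * g) (H : Subgroup G),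
  (H ∈ quart s₀ z ∧ 4 ∣ g) ∨ H ∈ sext s₀ z →
  c / g * 2 ^ g ≤ ({e : S → ℤ | IsSgn z e ∧ Perp e (sp s₀ z H)}.ncard : ℝ)

/-- Sign functions orthogonal to a stable space, or with a singular matrix, have a relation.

Proof. (1) Choose a nonzero `f ∈ U`, multiply it by a positive integer to make it integer valued,
`f s = v s`. `∑ s, v s e (γ s) = ∑ s, v (γ⁻¹ s) e s = 0` as `U` is stable. (2) Let `B = ∑ s, e s • Φ s`,
`B λ = 0` with a nonzero integer vector `λ` (`Matrix.exists_mulVec_eq_zero_iff`; `det B = 0`), choose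
`i` such that `v s = (Φ s λ) i` is not identically zero (`Φ s = 1` for some `s`). `v` is odd, and
`∑ s, e (γ s) Φ s = ∑ s, e s Φ (γ⁻¹ s) = R γ⁻¹ B`, so `∑ s, v s e (γ s) = (R γ⁻¹ B λ) i = 0`. -/
def StRel : Prop := ∀ (S G : Type) [Fintype S] [Group G] [Finite G] [MulAction G S]
  (z : G) (_ : ∀ s : S, z • z • s = s),
  (∀ U : Submodule ℚ (S → ℚ), U ≠ ⊥ → IsStab G U → IsOddSp z U →
    ∀ e : S → ℤ, IsSgn z e → Perp e U → e ∈ relSet z) ∧
  ∀ (N g : ℕ) (M : MatSys S G z 2 N), small M g ⊆ relSet z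

/-- The lower bound from quartic and sextic subfields (from `StUnion`, `StSpLow`, `StSpDim`,
`StSpSep`, `StLocal`, `StRel`).

Proof. Apply `StUnion` with `ι` the set of the `H` in question, `A H = {e | IsSgn z e ∧ Perp e (sp H)}`,
`N = 2 ^ g`, `t = 1 / g`. For `H ≠ H'` the functions in the intersection `A H ∩ A H'` are orthogonal to
the stable odd space `sp H ⊔ sp H'` of dimension `4`; if `e₀` is one of them use `StLocal` (`d = 4`).
All the `A H` are contained in `relSet z` by `StRel`. The type of subgroups of a finite group is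
finite. -/
def StLowSp : Prop := ∃ c : ℝ, 0 < c ∧ ∀ (S G : Type) [Fintype S] [Group G] [Finite G]
  [MulAction G S] [IsPretransitive G S] (s₀ : S) (z : G) (_ : ∀ γ : G, γ * z = z * γ)
  (_ : ∀ s : S, z • z • s = s) (_ : ∀ s : S, z • s ≠ s) (g : ℕ) (_ : Fintype.card S = 2 * g)
  (_ : 1 ≤ g),
  (4 ∣ g → c * min 1 (((quart s₀ z).ncard : ℝ) / g) * 2 ^ g ≤ ((relSet z : Set (S → ℤ)).ncard : ℝ)) ∧
  c * min 1 (((sext s₀ z).ncard : ℝ) / g) * 2 ^ g ≤ ((relSet z : Set (S → ℤ)).ncard : ℝ)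

/-- The lower bound from dihedral subfields (from `StUnion`, `StDihSys`, `StDihLow`, `StDihPair`,
`StRel`).

Proof. Apply `StUnion` with `ι` the set of the `H ∈ dih n s₀ z`, `A H = small M g` for the matrix system
`M` of `StDihSys`, `N = 2 ^ g`, `t = log g / g ≤ 1`. For `H ≠ H'`, both of index `2 n`, neither is
contained in the other, so the kernels of the two `R` satisfy the hypotheses of `StDihPair`. -/
def StLowDih : Prop := ∃ c : ℝ, 0 < c ∧ ∃ g₀ : ℕ, ∀ (n : ℕ) [NeZero n], n = 4 ∨ n = 6 →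
  ∀ (S G : Type) [Fintype S] [Group G] [Finite G] [MulAction G S] [IsPretransitive G S] (s₀ : S)
  (z : G) (_ : ∀ γ : G, γ * z = z * γ) (_ : ∀ s : S, z • z • s = s) (_ : ∀ s : S, z • s ≠ s)
  (g : ℕ) (_ : Fintype.card S = 2 * g) (_ : g₀ ≤ g),
  c * min 1 (((dih n s₀ z).ncard : ℝ) * Real.log g / g) * 2 ^ g ≤ ((relSet z : Set (S → ℤ)).ncard : ℝ)

end Pool.Agent.Lib.MP_640417_ag.Sharp
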