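import Pool.Agent.Lib.MP_640417_ag.Sharp.Family
import Pool.Agent.Lib.MP_640417_ag.Sharp.SpecU

/-!
# The upper bound for groups
-/

namespace Pool.Agent.Lib.MP_640417_ag.Sharp

open Module Finset MulAction Pool.Agent.Lib.MP_640417_ag.Far Pool.Agent.Lib.MP_640417_ag.Full

/-- **The upper bound in the group theoretic form.** -/
theorem upper_groups (hMult : StMult) (hMod : StMod) (hBig : StBig) (hTwo : StTwo)
    (hSplit : StSplit) (hSum : StSum) (hMat : StMat) (hIrr : StIrrEx) (hA : StSubA)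
    (hPar1 : StPar1) (hB2 : StSubB2) (hC2 : StSubC2) (hLog : StTwoLog) : ∃ C : ℝ, 0 < C ∧
    ∀ (S G : Type) [Fintype S] [Group G] [Finite G] [MulAction G S] [IsPretransitive G S]
      (s₀ : S) (z : G) (_ : ∀ γ : G, γ * z = z * γ) (_ : ∀ s : S, z • z • s = s)
      (_ : ∀ s : S, z • s ≠ s) (g : ℕ) (_ : Fintype.card S = 2 * g) (_ : 2 ≤ g),
      ((relSet z : Set (S → ℤ)).ncard : ℝ)
      ≤ C * (((if 2 ∣ g then (quad s₀ z).ncard else 0 : ℕ) : ℝ) / Real.sqrt g
        + (((if 4 ∣ g then (quart s₀ z).ncard else 0) + (sext s₀ z).ncard : ℕ) : ℝ) / g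
        + (((dih 4 s₀ z).ncard + (dih 6 s₀ z).ncard : ℕ) : ℝ) * Real.log (g + 1) / g
        + Real.log g ^ (-(1 / 4) : ℝ)) * 2 ^ g := by
  obtain ⟨C₁, hC₁, hfam⟩ := family_bound hMult hMod hBig hTwo hSplit hSum
  obtain ⟨C₂, hC₂, hLog⟩ := hLog
  refine ⟨C₁ + C₂, by positivity, ?_⟩
  intro S G _ _ _ _ _ s₀ z hz hzz hzne g hcard hg2
  classical
  obtain ⟨X, hX⟩ := exists_transversal (fun s : S => z • s) hzz hzne
  have hXcard : X.card = g := by
    have h1 := two_mul_card_transversal (fun s : S => z • s) hzz X hX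
    omega
  obtain ⟨n, U, hU, hiso, hUex⟩ := exists_types S G s₀ z
  have hfin : ∀ i, (badSet z (U i)).Finite := fun i => finite_isSgn z _
  have hg0 : (0 : ℝ) < g := by
    have : 0 < g := by omega
    exact_mod_cast this
  have hlog : 0 ≤ Real.log g := Real.log_natCast_nonneg g
  have hlog1 : 0 ≤ Real.log (g + 1) := Real.log_nonneg (by linarith)
  -- cover
  have hcover : (relSet z : Set (S → ℤ)) ⊆
      ⋃ i ∈ (Finset.univ : Finset (Fin n)), badSet z (U i) := by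
    rintro e ⟨he, v, hv0, hvz, hv⟩
    obtain ⟨U', hU'1, hU'2, hU'3⟩ := hIrr S G z hz e v hv0 hvz hv
    obtain ⟨i, hi⟩ := hUex U' hU'1 hU'2
    simp only [Finset.mem_univ, Set.iUnion_true, Set.mem_iUnion]
    exact ⟨i, he, U', hU'1.2.1, hi, hU'3⟩
  have h1 : (relSet z : Set (S → ℤ)).ncard ≤ ∑ i, (badSet z (U i)).ncard :=
    (Set.ncard_le_ncard hcover (Set.Finite.biUnion (Set.toFinite _) (fun i _ => hfin i))).trans
      (Finset.set_ncard_biUnion_le _ _)
  -- two kinds of types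
  let P : Fin n → Prop := fun i => (badSet z (U i)).Nonempty
  let Q : Fin n → Prop := fun i => finrank ℚ (U i) = 2 ∧ finrank ℚ (endF G (U i)) = 1 ∧
      finrank ℚ ↥(U i ⊓ invF ℚ (stabilizer G s₀)) = 2
  have h2 : ∑ i, ((badSet z (U i)).ncard : ℝ) =
      ∑ i ∈ univ.filter (fun i => P i ∧ ¬ Q i), ((badSet z (U i)).ncard : ℝ)
      + ∑ i ∈ univ.filter (fun i => P i ∧ Q i), ((badSet z (U i)).ncard : ℝ) := by
    rw [Finset.sum_filter, Finset.sum_filter, ← Finset.sum_add_distrib]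
    apply Finset.sum_congr rfl
    intro i _
    by_cases hP : P i
    · by_cases hQ : Q i <;> simp [hP, hQ]
    · have h3 : (badSet z (U i)).ncard = 0 := by
        rw [Set.ncard_eq_zero (hfin i)]
        exact Set.not_nonempty_iff_eq_empty.mp hP
      simp [hP, h3]
  -- first kind
  let ι : Type := {i : Fin n // P i ∧ ¬ Q i}
  let n₁ : ℕ := Fintype.card ι
  let en : Fin n₁ ≃ ι := (Fintype.equivFin ι).symm
  let U₁ : Fin n₁ → Submodule ℚ (S → ℚ) := fun j => U (en j).1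
  have hU₁ : ∀ j, IsIrr G (U₁ j) ∧ IsOddSp z (U₁ j) := fun j => hU _
  have hiso₁ : ∀ i j, i ≠ j → ¬ IsoF G (U₁ i) (U₁ j) := by
    intro i j hij
    apply hiso
    intro h
    exact hij (en.injective (Subtype.ext h))
  have h3 : ∑ i ∈ univ.filter (fun i => P i ∧ ¬ Q i), ((badSet z (U i)).ncard : ℝ) =
      ∑ j, ((badSet z (U₁ j)).ncard : ℝ) := by
    rw [Finset.sum_subtype (univ.filter (fun i => P i ∧ ¬ Q i)) (p := fun i => P i ∧ ¬ Q i)
      (by simp) (fun i => ((badSet z (U i)).ncard : ℝ))]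
    exact (Equiv.sum_comp en (fun i : ι => ((badSet z (U i.1)).ncard : ℝ))).symm
  have h4 := hfam S G s₀ z hz hzz hzne g hcard hg2 n₁ U₁ hU₁ hiso₁
  have hn1 : {j : Fin n₁ | finrank ℚ (U₁ j) = 1}.ncard ≤
      if 2 ∣ g then (quad s₀ z).ncard else 0 := by
    split_ifs with hg
    · have h5 := hA S G s₀ z n₁ U₁ hU₁ hiso₁
      have h6 : {H : Subgroup G | stabilizer G s₀ ≤ H ∧ H.index = 2 ∧ z ∉ H} = quad s₀ z := by
        ext H
        simp only [quad, Set.mem_ofPred_eq]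
        tauto
      rwa [h6] at h5
    · have h5 : {j : Fin n₁ | finrank ℚ (U₁ j) = 1} = ∅ := by
        ext j
        simp only [Set.mem_ofPred_eq, Set.mem_empty_iff_false, iff_false]
        intro h6
        exact hg (hPar1 S G z hzz hzne g hcard (U₁ j) (hU₁ j).1 (hU₁ j).2 h6 (en j).2.1)
      rw [h5]
      simp
  have hn2 : {j : Fin n₁ | finrank ℚ (U₁ j) = 2 ∧ finrank ℚ (endF G (U₁ j)) =
      finrank ℚ ↥(U₁ j ⊓ invF ℚ (stabilizer G s₀))}.ncard ≤
      (if 4 ∣ g then (quart s₀ z).ncard else 0) + (sext s₀ z).ncard := by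
    refine le_trans (le_of_eq ?_) (hB2 S G s₀ z hz hzz g hcard n₁ U₁ hU₁ hiso₁)
    congr 1
    ext j
    simp only [Set.mem_ofPred_eq]
    constructor
    · rintro ⟨h5, h6⟩
      exact ⟨h5, h6, (en j).2.1⟩
    · rintro ⟨h5, h6, _⟩
      exact ⟨h5, h6⟩
  have hn3 : {j : Fin n₁ | finrank ℚ (U₁ j) = 2 ∧ finrank ℚ (endF G (U₁ j)) = 1 ∧
      finrank ℚ ↥(U₁ j ⊓ invF ℚ (stabilizer G s₀)) = 2}.ncard = 0 := by
    have h5 : {j : Fin n₁ | finrank ℚ (U₁ j) = 2 ∧ finrank ℚ (endF G (U₁ j)) = 1 ∧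
        finrank ℚ ↥(U₁ j ⊓ invF ℚ (stabilizer G s₀)) = 2} = ∅ := by
      ext j
      simp only [Set.mem_ofPred_eq, Set.mem_empty_iff_false, iff_false]
      exact (en j).2.2
    rw [h5]
    simp
  -- second kind
  have h5 : ∀ i ∈ univ.filter (fun i => P i ∧ Q i), ((badSet z (U i)).ncard : ℝ) ≤
      C₂ * (Real.log (g + 1) / g) * 2 ^ g := by
    intro i hi
    rw [Finset.mem_filter] at hi
    obtain ⟨-, -, hd, he, hh⟩ := hi
    have hinv : U i ≤ invF ℚ (stabilizer G s₀) := by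
      have h1 : U i ⊓ invF ℚ (stabilizer G s₀) = U i :=
        Submodule.eq_of_le_of_finrank_eq inf_le_left (by rw [hh, hd])
      exact inf_eq_left.mp h1
    have hN : 0 < (kerSub G (U i)).index := Nat.pos_of_ne_zero Subgroup.FiniteIndex.index_ne_zero
    have h6 : ∃ M : MatSys S G z 2 (kerSub G (U i)).index, badSet z (U i) ⊆ M.sing := by
      have h7 := hMat S G s₀ z hz (U i) (hU i).1 (hU i).2 hinv he
      rw [hd] at h7
      exact h7
    obtain ⟨M, hM⟩ := h6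
    have h7 := hLog S G z hzz X hX (by omega) _ M hN
    rw [hXcard] at h7
    refine le_trans ?_ h7
    exact_mod_cast Set.ncard_le_ncard hM (finite_isSgn z _)
  have h6 : ∑ i ∈ univ.filter (fun i => P i ∧ Q i), ((badSet z (U i)).ncard : ℝ) ≤
      (((dih 4 s₀ z).ncard + (dih 6 s₀ z).ncard : ℕ) : ℝ) *
        (C₂ * (Real.log (g + 1) / g) * 2 ^ g) := by
    refine (Finset.sum_le_card_nsmul _ _ _ h5).trans ?_
    rw [nsmul_eq_mul]
    apply mul_le_mul_of_nonneg_right _ (by positivity)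
    have h7 := hC2 S G s₀ z hz hzz n U hU hiso
    have h8 : (univ.filter (fun i => P i ∧ Q i)).card ≤ {i : Fin n | Q i}.ncard := by
      rw [← Set.ncard_coe_finset]
      apply Set.ncard_le_ncard _ (Set.toFinite _)
      intro i hi
      simp only [Finset.coe_filter, Finset.mem_univ, true_and, Set.mem_ofPred_eq] at hi
      exact hi.2
    exact_mod_cast h8.trans h7
  -- conclusion
  have h7 : ((relSet z : Set (S → ℤ)).ncard : ℝ) ≤ ∑ i, ((badSet z (U i)).ncard : ℝ) := by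
    exact_mod_cast h1
  rw [h2, h3] at h7
  have hn1' : ({j : Fin n₁ | finrank ℚ (U₁ j) = 1}.ncard : ℝ) ≤
      ((if 2 ∣ g then (quad s₀ z).ncard else 0 : ℕ) : ℝ) := by exact_mod_cast hn1
  have hn2' : ({j : Fin n₁ | finrank ℚ (U₁ j) = 2 ∧ finrank ℚ (endF G (U₁ j)) =
      finrank ℚ ↥(U₁ j ⊓ invF ℚ (stabilizer G s₀))}.ncard : ℝ) ≤
      (((if 4 ∣ g then (quart s₀ z).ncard else 0) + (sext s₀ z).ncard : ℕ) : ℝ) := by
    exact_mod_cast hn2
  rw [hn3] at h4
  set a : ℝ := ((if 2 ∣ g then (quad s₀ z).ncard else 0 : ℕ) : ℝ) with ha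
  set b : ℝ := (((if 4 ∣ g then (quart s₀ z).ncard else 0) + (sext s₀ z).ncard : ℕ) : ℝ) with hb
  set d : ℝ := (((dih 4 s₀ z).ncard + (dih 6 s₀ z).ncard : ℕ) : ℝ) with hd
  have ha0 : 0 ≤ a := Nat.cast_nonneg _
  have hb0 : 0 ≤ b := Nat.cast_nonneg _
  have hd0 : 0 ≤ d := Nat.cast_nonneg _
  set l : ℝ := Real.log g ^ (-(1 / 4) : ℝ) with hl
  have hl0 : 0 ≤ l := Real.rpow_nonneg hlog _
  have hs0 : 0 ≤ Real.sqrt g := Real.sqrt_nonneg _
  have h2g : (0 : ℝ) < 2 ^ g := by positivity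
  have h8 : ∑ j, ((badSet z (U₁ j)).ncard : ℝ) ≤ C₁ * (a / Real.sqrt g + b / g + l) * 2 ^ g := by
    refine h4.trans ?_
    simp only [Nat.cast_zero, zero_mul, zero_div, add_zero]
    gcongr
  have h9 : 0 ≤ a / Real.sqrt g := by positivity
  have h10 : 0 ≤ b / g := by positivity
  have h11 : 0 ≤ d * Real.log (g + 1) / g := by positivity
  calc ((relSet z : Set (S → ℤ)).ncard : ℝ) ≤ C₁ * (a / Real.sqrt g + b / g + l) * 2 ^ g
        + d * (C₂ * (Real.log (g + 1) / g) * 2 ^ g) := h7.trans (add_le_add h8 h6)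
    _ = (C₁ * (a / Real.sqrt g + b / g + l) + C₂ * (d * Real.log (g + 1) / g)) * 2 ^ g := by ring
    _ ≤ ((C₁ + C₂) * (a / Real.sqrt g + b / g + d * Real.log (g + 1) / g + l)) * 2 ^ g := by
        apply mul_le_mul_of_nonneg_right _ h2g.le
        nlinarith [mul_nonneg hC₁.le h11, mul_nonneg hC₂.le h9, mul_nonneg hC₂.le h10,
          mul_nonneg hC₂.le hl0]

end Pool.Agent.Lib.MP_640417_ag.Sharp
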